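import Pool.Agent.Helper22.SCE.M01

/-!
# SCE-M31: the bridge
`g t = (e^t - 1 - t - t^2/2)/t^2`, `G t = ((t-2)e^t + t + 2)/t^2` (`= t g'(t)`).  For `z != 0`,
`ww z != 0`: `G z = e^z ww z/z^2`, and with `t = z e^(ib)`:
`(g t - g z) z^2 e^(-z) = e^(t - z) e^(-2ib) - 1 - e^(-z)[(e^(-2ib) - 1) + z(e^(-ib) - 1)]`
since `z^2 g t = e^(-2ib)(e^t - 1 - t) - z^2/2`, `e^(-2ib) t = z e^(-ib)`.
-/

namespace SCE

open Complex

theorem bridge {z : ℂ} (hz : z ≠ 0) (hw : ww z ≠ 0) (b : ℝ) :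
    ((exp (z * exp (b * I)) - 1 - z * exp (b * I) - (z * exp (b * I)) ^ 2 / 2) /
        (z * exp (b * I)) ^ 2 -
      (exp z - 1 - z - z ^ 2 / 2) / z ^ 2) / (((z - 2) * exp z + z + 2) / z ^ 2) - b * I =
    hh z b := by
  have hE : exp ((b : ℂ) * I) ≠ 0 := exp_ne_zero _
  have hZ : exp z ≠ 0 := exp_ne_zero _
  have e1 : exp (-z) = (exp z)⁻¹ := exp_neg z
  have e2 : exp (-b * I) = (exp ((b : ℂ) * I))⁻¹ := by
    rw [← exp_neg]
    congr 1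
    ring
  have e3 : exp (-2 * b * I) = (exp ((b : ℂ) * I))⁻¹ * (exp ((b : ℂ) * I))⁻¹ := by
    rw [← exp_neg, ← exp_add]
    congr 1
    ring
  have e4 : exp (uu z b) =
      exp (z * exp (b * I)) * (exp z)⁻¹ * ((exp ((b : ℂ) * I))⁻¹ * (exp ((b : ℂ) * I))⁻¹) := by
    rw [← e3, ← exp_neg, ← exp_add, ← exp_add, uu]
    congr 1
    ring
  have e5 : (z - 2) * exp z + z + 2 = exp z * ww z := by
    rw [ww, e1]
    field_simp
    ring
  rw [hh, e5, e4, e1, e2, e3]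
  generalize exp (z * exp ((b : ℂ) * I)) = T
  revert hE hZ hw
  generalize exp ((b : ℂ) * I) = E
  generalize exp z = Z
  generalize ww z = W
  intro hE hZ hw
  congr 1
  field_simp
  ring

theorem zz_of {z : ℂ} (h8 : 8 ≤ ‖z‖) (h1 : z.im ≤ 0) (h2 : -(21 / 8) ≤ z.im) (h3 : 0 < z.re) :
    Par ‖z‖ z.re (-z.im) ∧ zz z.re (-z.im) = z := by
  refine ⟨⟨h8, by linarith, by linarith, h3, ?_⟩, ?_⟩
  · rw [Complex.sq_norm, Complex.normSq_apply]
    ring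
  · rw [zz]
    push_cast
    apply Complex.ext <;> simp

end SCE
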