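import Pool.Agent.Helper22.SCE.M05

/-!
# SCE-M06: the cubic Taylor remainder of `hh` on the central zone (`p <= 9/4`)
`expR3`: `e^u - 1 - u - u^2/2 = u^3 int_0^1 (1-t)^2/2 e^(tu) dt`, `|e^(tu)| <= max(1, e^(Re u))`.

Identity (`kappa w = (z-2)^2 + z - (4+z)e^(-z)`):
`w (hh + kappa b^2/2) = (e^u - 1 - u - u^2/2) + (u^2 + (z-2)^2 b^2)/2 + z (e^(ib)-1-ib+b^2/2)
   - e^(-z) [(e^(-2ib) - 1 + 2ib + 2b^2) + z (e^(-ib) - 1 + ib + b^2/2)]`.
Bounds for `|b| <= 1/R`, `S = |z-2|`: `|u| <= |b|(S+1/2)`;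
`|u^2 + (z-2)^2b^2| = |u - i(z-2)b| |u + i(z-2)b| <= (R b^2/2) |b| (2S + 1/2)`;
`|e^(ib)-1-ib+b^2/2| <= |b|^3/6`; bracket `<= (8 + R)|b|^3/6`.  Hence
`|hh + kappa b^2/2| <= |b|^3 [ M (S+1/2)^3/6 + (R/4)(2S+1/2) + R/6 + (8+R)e^(-x)/6 ]/(S - 0.00525)`
with `M = max(1, e^(-s))`.  For `b <= 0` one has `s >= 0`, `M = 1`.  For `0 <= b <= 1/R`:
`-s <= (9/4) b - x(b^2/2 - b^4/24)`, increasing in `b`, so `-s <= (2.25 - 0.4797 + 0.0007)/R
<= 1.771/R` (as `x/R >= 1 - 2.59/64 = 0.9595`), `M <= e^(1.771/R)`.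
With `R - 2 <= S <= R - 2 + 5.18/(R(R-2))` (M01) the bracket divided by `R^2/6` is
`<= 1.1501` at `R = 8` (`b <= 0`), `<= 1.3331` (`b >= 0`), and it decreases in `R`
(limit `1`); the claim is `1.18`, `1.38`.  (Simple way: for `R >= 8` put `t = 1/R <= 1/8`,
`S/R <= 1 - 2t + 0.8634 t^2` [`5.18/(R(R-2)) <= 6.9067/R^2`, i.e. `S <= R - 2 + 0.8634/R`],
`e^(1.771 t) <= 1 + 1.771 t + 1.568 t^2 + 1.01 t^3`, and prove the polynomial inequality in `t`.)
-/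

namespace SCE

open Complex

/-- the three integration steps for `expR3` -/
theorem expR3_aux (u : ℂ) (t : ℝ) (ht : t ∈ Set.Icc (0 : ℝ) 1) :
    ‖exp (t * u) - 1 - t * u - (t * u) ^ 2 / 2‖ ≤
      ‖u‖ ^ 3 * max 1 (Real.exp u.re) * t ^ 3 / 6 := by
  set M : ℝ := max 1 (Real.exp u.re) with hM
  have hM0 : 0 ≤ M := le_trans zero_le_one (le_max_left _ _)
  have hexp : ∀ t ∈ Set.Icc (0 : ℝ) 1, ‖exp (t * u)‖ ≤ M := by
    intro t ht
    rw [Complex.norm_exp]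
    have e : ((t : ℂ) * u).re = t * u.re := by simp
    rw [e]
    rcases le_total 0 u.re with h | h
    · refine le_trans (Real.exp_le_exp.2 ?_) (le_max_right _ _)
      nlinarith [ht.1, ht.2]
    · refine le_trans ?_ (le_max_left _ _)
      rw [← Real.exp_zero]
      exact Real.exp_le_exp.2 (mul_nonpos_of_nonneg_of_nonpos ht.1 h)
  have hd0 : ∀ t : ℝ, HasDerivAt (fun t : ℝ => exp (t * u)) (u * exp (t * u)) t := by
    intro t
    have h1 : HasDerivAt (fun t : ℝ => (t : ℂ) * u) u t := by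
      have := (Complex.ofRealCLM.hasDerivAt (x := t)).mul_const u
      simpa using this
    have h2 := h1.cexp
    rw [mul_comm] at h2
    exact h2
  have hlin : ∀ t : ℝ, HasDerivAt (fun t : ℝ => (t : ℂ) * u) u t := by
    intro t
    have := (Complex.ofRealCLM.hasDerivAt (x := t)).mul_const u
    simpa using this
  -- step 0
  have s0 : ∀ t ∈ Set.Icc (0 : ℝ) 1, ‖exp (t * u) - 1‖ ≤ ‖u‖ * M * t := by
    have hd : ∀ t : ℝ, HasDerivAt (fun t : ℝ => exp (t * u) - 1) (u * exp (t * u)) t :=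
      fun t => (hd0 t).sub_const 1
    have hB : ∀ t : ℝ, HasDerivAt (fun t : ℝ => ‖u‖ * M * t) (‖u‖ * M) t := by
      intro t
      simpa using (hasDerivAt_id t).const_mul (‖u‖ * M)
    intro t ht
    refine image_norm_le_of_norm_deriv_right_le_deriv_boundary
      (f := fun t : ℝ => exp (t * u) - 1) (f' := fun t : ℝ => u * exp (t * u))
      (a := 0) (b := 1)
      (fun t _ => (hd t).continuousAt.continuousWithinAt)
      (fun t _ => (hd t).hasDerivWithinAt) (B := fun t : ℝ => ‖u‖ * M * t)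
      (B' := fun _ => ‖u‖ * M) (by simp) hB ?_ ht
    intro y hy
    rw [norm_mul]
    exact mul_le_mul_of_nonneg_left (hexp y ⟨hy.1, hy.2.le⟩) (norm_nonneg _)
  -- step 1
  have s1 : ∀ t ∈ Set.Icc (0 : ℝ) 1, ‖exp (t * u) - 1 - t * u‖ ≤ ‖u‖ ^ 2 * M * t ^ 2 / 2 := by
    have hd : ∀ t : ℝ, HasDerivAt (fun t : ℝ => exp (t * u) - 1 - t * u)
        (u * (exp (t * u) - 1)) t := by
      intro t
      have h1 := ((hd0 t).sub_const 1).sub (hlin t)
      have e : u * exp (t * u) - u = u * (exp (t * u) - 1) := by ring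
      rw [e] at h1
      exact h1
    have hB : ∀ t : ℝ, HasDerivAt (fun t : ℝ => ‖u‖ ^ 2 * M * t ^ 2 / 2) (‖u‖ ^ 2 * M * t) t := by
      intro t
      have h1 := ((hasDerivAt_pow 2 t).const_mul (‖u‖ ^ 2 * M)).div_const 2
      have e : ‖u‖ ^ 2 * M * (((2 : ℕ) : ℝ) * t ^ (2 - 1)) / 2 = ‖u‖ ^ 2 * M * t := by
        norm_num
        ring
      rw [e] at h1
      exact h1
    intro t ht
    refine image_norm_le_of_norm_deriv_right_le_deriv_boundary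
      (f := fun t : ℝ => exp (t * u) - 1 - t * u) (f' := fun t : ℝ => u * (exp (t * u) - 1))
      (a := 0) (b := 1)
      (fun t _ => (hd t).continuousAt.continuousWithinAt)
      (fun t _ => (hd t).hasDerivWithinAt) (B := fun t : ℝ => ‖u‖ ^ 2 * M * t ^ 2 / 2)
      (B' := fun t => ‖u‖ ^ 2 * M * t) (by simp) hB ?_ ht
    intro y hy
    rw [norm_mul]
    calc ‖u‖ * ‖exp (y * u) - 1‖ ≤ ‖u‖ * (‖u‖ * M * y) :=
          mul_le_mul_of_nonneg_left (s0 y ⟨hy.1, hy.2.le⟩) (norm_nonneg _)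
      _ = ‖u‖ ^ 2 * M * y := by ring
  -- step 2
  have hd : ∀ t : ℝ, HasDerivAt (fun t : ℝ => exp (t * u) - 1 - t * u - (t * u) ^ 2 / 2)
      (u * (exp (t * u) - 1 - t * u)) t := by
    intro t
    have h1 := (((hd0 t).sub_const 1).sub (hlin t)).sub (((hlin t).pow 2).div_const 2)
    have e : u * exp (t * u) - u - ((2 : ℕ) : ℂ) * ((t : ℂ) * u) ^ (2 - 1) * u / 2 =
        u * (exp (t * u) - 1 - t * u) := by
      norm_num
      ring
    rw [e] at h1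
    exact h1
  have hB : ∀ t : ℝ, HasDerivAt (fun t : ℝ => ‖u‖ ^ 3 * M * t ^ 3 / 6)
      (‖u‖ ^ 3 * M * t ^ 2 / 2) t := by
    intro t
    have h1 := ((hasDerivAt_pow 3 t).const_mul (‖u‖ ^ 3 * M)).div_const 6
    have e : ‖u‖ ^ 3 * M * (((3 : ℕ) : ℝ) * t ^ (3 - 1)) / 6 = ‖u‖ ^ 3 * M * t ^ 2 / 2 := by
      norm_num
      ring
    rw [e] at h1
    exact h1
  refine image_norm_le_of_norm_deriv_right_le_deriv_boundary
    (f := fun t : ℝ => exp (t * u) - 1 - t * u - (t * u) ^ 2 / 2)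
    (f' := fun t : ℝ => u * (exp (t * u) - 1 - t * u))
    (a := 0) (b := 1)
    (fun t _ => (hd t).continuousAt.continuousWithinAt)
    (fun t _ => (hd t).hasDerivWithinAt) (B := fun t : ℝ => ‖u‖ ^ 3 * M * t ^ 3 / 6)
    (B' := fun t => ‖u‖ ^ 3 * M * t ^ 2 / 2) (by simp) hB ?_ ht
  intro y hy
  rw [norm_mul]
  calc ‖u‖ * ‖exp (y * u) - 1 - y * u‖ ≤ ‖u‖ * (‖u‖ ^ 2 * M * y ^ 2 / 2) :=
        mul_le_mul_of_nonneg_left (s1 y ⟨hy.1, hy.2.le⟩) (norm_nonneg _)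
    _ = ‖u‖ ^ 3 * M * y ^ 2 / 2 := by ring

theorem expR3 (u : ℂ) :
    ‖exp u - 1 - u - u ^ 2 / 2‖ ≤ ‖u‖ ^ 3 / 6 * max 1 (Real.exp u.re) := by
  have h := expR3_aux u 1 ⟨zero_le_one, le_refl _⟩
  simp only [Complex.ofReal_one, one_mul, one_pow, mul_one] at h
  calc ‖exp u - 1 - u - u ^ 2 / 2‖ ≤ ‖u‖ ^ 3 * max 1 (Real.exp u.re) / 6 := h
    _ = _ := by ring

/-- the cubic remainder on the imaginary axis -/
theorem expI3 (t : ℝ) : ‖exp (t * I) - 1 - t * I + t ^ 2 / 2‖ ≤ |t| ^ 3 / 6 := by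
  have h := expR3 (t * I)
  have e1 : ((t : ℂ) * I).re = 0 := by simp
  have e2 : ‖(t : ℂ) * I‖ = |t| := by simp
  rw [e1, e2, Real.exp_zero, max_self, mul_one] at h
  have e3 : exp ((t : ℂ) * I) - 1 - t * I - (t * I) ^ 2 / 2 =
      exp (t * I) - 1 - t * I + t ^ 2 / 2 := by
    rw [mul_pow, I_sq]
    ring
  rw [e3] at h
  exact h

/-- the exact identity behind the Taylor bounds -/
theorem m06_identity (z : ℂ) (b : ℝ) (hw : ww z ≠ 0) :
    ww z * (hh z b + kap z * b ^ 2 / 2) =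
      (exp (uu z b) - 1 - uu z b - (uu z b) ^ 2 / 2) +
      ((uu z b) ^ 2 + (z - 2) ^ 2 * b ^ 2) / 2 +
      z * (exp (b * I) - 1 - b * I + b ^ 2 / 2) -
      exp (-z) * ((exp (-2 * b * I) - 1 + 2 * b * I + 2 * b ^ 2) +
        z * (exp (-b * I) - 1 + b * I + b ^ 2 / 2)) := by
  have h1 : ww z * (hh z b + kap z * b ^ 2 / 2) =
      (exp (uu z b) - 1 -
        exp (-z) * ((exp (-2 * b * I) - 1) + z * (exp (-b * I) - 1))) - b * I * ww z +
      (z ^ 2 - 3 * z + 4 - (z + 4) * exp (-z)) * b ^ 2 / 2 := by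
    unfold hh kap
    field_simp
  rw [h1]
  have h2 : uu z b = z * (exp (b * I) - 1) - 2 * b * I := rfl
  have h3 : z * exp (b * I) = uu z b + z + 2 * b * I := by rw [h2]; ring
  have h4 : z * (exp (b * I) - 1 - b * I + b ^ 2 / 2) =
      (uu z b + z + 2 * b * I) - z - z * (b * I) + z * (b ^ 2 / 2) := by
    rw [← h3]; ring
  rw [h4]
  unfold ww
  ring

theorem m06_uu_norm {R x p : ℝ} (h : Par R x p) {b : ℝ} (hb : |b| ≤ 1 / R) :
    ‖uu (zz x p) b‖ ≤ |b| * (‖zz x p - 2‖ + 1 / 2) ∧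
    ‖(uu (zz x p) b) ^ 2 + (zz x p - 2) ^ 2 * b ^ 2‖ ≤
      |b| ^ 3 * (R / 2) * (2 * ‖zz x p - 2‖ + 1 / 2) := by
  have hR := h.hR
  have hR0 : 0 < R := by linarith
  set z : ℂ := zz x p with hz
  set S : ℝ := ‖z - 2‖ with hS
  set v : ℂ := z * (exp (b * I) - 1 - b * I) with hv
  have hu : uu z b = I * (z - 2) * b + v := uu_eq z b
  have hRb : R * |b| ≤ 1 := by
    have := mul_le_mul_of_nonneg_left hb hR0.le
    rwa [mul_one_div_cancel hR0.ne'] at this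
  have hvn : ‖v‖ ≤ R * (b ^ 2 / 2) := by
    rw [hv, norm_mul, norm_zz h]
    exact mul_le_mul_of_nonneg_left (exp_I_sub b) hR0.le
  have hb2 : b ^ 2 = |b| ^ 2 := (sq_abs b).symm
  have hvn2 : ‖v‖ ≤ |b| * (1 / 2) := by
    refine hvn.trans ?_
    rw [hb2]
    nlinarith [abs_nonneg b]
  have hlin : ‖I * (z - 2) * b‖ = |b| * S := by
    rw [norm_mul, norm_mul, Complex.norm_I, one_mul, Complex.norm_real, Real.norm_eq_abs, mul_comm]
  constructor
  · rw [hu]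
    refine (norm_add_le _ _).trans ?_
    rw [hlin]
    linarith
  · have e : (uu z b) ^ 2 + (z - 2) ^ 2 * b ^ 2 = v * (2 * (I * (z - 2) * b) + v) := by
      rw [hu]
      have hI : I ^ 2 = -1 := I_sq
      linear_combination ((z - 2) ^ 2 * (b : ℂ) ^ 2) * hI
    rw [e, norm_mul]
    have h2 : ‖2 * (I * (z - 2) * b) + v‖ ≤ |b| * (2 * S + 1 / 2) := by
      refine (norm_add_le _ _).trans ?_
      rw [norm_mul, hlin]
      have : ‖(2 : ℂ)‖ = 2 := by simp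
      rw [this]
      linarith
    calc ‖v‖ * ‖2 * (I * (z - 2) * b) + v‖ ≤ (R * (b ^ 2 / 2)) * (|b| * (2 * S + 1 / 2)) :=
          mul_le_mul hvn h2 (norm_nonneg _) (by positivity)
      _ = |b| ^ 3 * (R / 2) * (2 * S + 1 / 2) := by
          rw [hb2]
          ring

theorem m06_core {R x p : ℝ} (h : Par R x p) {b : ℝ} (hb : |b| ≤ 1 / R) {M : ℝ} (hM1 : 1 ≤ M)
    (hM2 : Real.exp (-(sS x p b)) ≤ M) :
    ‖ww (zz x p)‖ * ‖hh (zz x p) b + kap (zz x p) * b ^ 2 / 2‖ ≤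
      |b| ^ 3 / 6 * (M * (‖zz x p - 2‖ + 1 / 2) ^ 3 + 3 / 2 * R * (2 * ‖zz x p - 2‖ + 1 / 2) + R +
        84 / 10000) := by
  have hR := h.hR
  have hR0 : 0 < R := by linarith
  obtain ⟨hu1, hu2⟩ := m06_uu_norm h hb
  have hw : ww (zz x p) ≠ 0 := (ww_ge h).2.2.1
  rw [← norm_mul, m06_identity _ _ hw]
  set z : ℂ := zz x p with hz
  set S : ℝ := ‖z - 2‖ with hS
  have hzn : ‖z‖ = R := norm_zz h
  have hez : ‖exp (-z)‖ = Real.exp (-x) := norm_exp_neg x p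
  have t1 : ‖exp (uu z b) - 1 - uu z b - (uu z b) ^ 2 / 2‖ ≤
      |b| ^ 3 / 6 * (M * (S + 1 / 2) ^ 3) := by
    refine (expR3 _).trans ?_
    have e1 : max 1 (Real.exp (uu z b).re) ≤ M := by
      rw [hz, uu_re]
      exact max_le hM1 hM2
    have e2 : ‖uu z b‖ ^ 3 ≤ (|b| * (S + 1 / 2)) ^ 3 := pow_le_pow_left₀ (norm_nonneg _) hu1 3
    calc ‖uu z b‖ ^ 3 / 6 * max 1 (Real.exp (uu z b).re)
        ≤ (|b| * (S + 1 / 2)) ^ 3 / 6 * M := by
          refine mul_le_mul (by linarith) e1 (le_trans zero_le_one (le_max_left _ _)) ?_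
          positivity
      _ = |b| ^ 3 / 6 * (M * (S + 1 / 2) ^ 3) := by ring
  have t2 : ‖((uu z b) ^ 2 + (z - 2) ^ 2 * b ^ 2) / 2‖ ≤
      |b| ^ 3 / 6 * (3 / 2 * R * (2 * S + 1 / 2)) := by
    rw [norm_div]
    have : ‖(2 : ℂ)‖ = 2 := by simp
    rw [this]
    linarith
  have t3 : ‖z * (exp (b * I) - 1 - b * I + b ^ 2 / 2)‖ ≤ |b| ^ 3 / 6 * R := by
    rw [norm_mul, hzn]
    have := mul_le_mul_of_nonneg_left (expI3 b) hR0.le
    linarith
  have t4 : ‖exp (-z) * ((exp (-2 * b * I) - 1 + 2 * b * I + 2 * b ^ 2) +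
        z * (exp (-b * I) - 1 + b * I + b ^ 2 / 2))‖ ≤ |b| ^ 3 / 6 * (84 / 10000) := by
    rw [norm_mul, hez]
    have a1 : ‖exp (-2 * b * I) - 1 + 2 * b * I + 2 * b ^ 2‖ ≤ 8 * |b| ^ 3 / 6 := by
      have h1 := expI3 (-2 * b)
      have e1 : exp (((-2 * b : ℝ) : ℂ) * I) - 1 - ((-2 * b : ℝ) : ℂ) * I +
          ((-2 * b : ℝ) : ℂ) ^ 2 / 2 = exp (-2 * b * I) - 1 + 2 * b * I + 2 * b ^ 2 := by
        push_cast
        ring_nf
      have e2 : |(-2 * b : ℝ)| ^ 3 = 8 * |b| ^ 3 := by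
        rw [abs_mul]
        norm_num
        ring
      rw [e1, e2] at h1
      exact h1
    have a2 : ‖exp (-b * I) - 1 + b * I + b ^ 2 / 2‖ ≤ |b| ^ 3 / 6 := by
      have h1 := expI3 (-b)
      have e1 : exp (((-b : ℝ) : ℂ) * I) - 1 - ((-b : ℝ) : ℂ) * I +
          ((-b : ℝ) : ℂ) ^ 2 / 2 = exp (-b * I) - 1 + b * I + b ^ 2 / 2 := by
        push_cast
        ring_nf
      rw [e1, abs_neg] at h1
      exact h1
    have a3 : ‖(exp (-2 * b * I) - 1 + 2 * b * I + 2 * b ^ 2) +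
        z * (exp (-b * I) - 1 + b * I + b ^ 2 / 2)‖ ≤ (8 + R) * (|b| ^ 3 / 6) := by
      refine (norm_add_le _ _).trans ?_
      rw [norm_mul, hzn]
      have := mul_le_mul_of_nonneg_left a2 hR0.le
      linarith
    have a4 : (8 + R) * Real.exp (-x) ≤ 84 / 10000 := by
      have h1 := (exp_R8 hR (x_ge h)).1
      have h2 : (8 + R) ≤ 16 / 10 * (R + 2) := by linarith
      have h3 := mul_le_mul_of_nonneg_right h2 (Real.exp_pos (-x)).le
      linarith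
    calc Real.exp (-x) * ‖(exp (-2 * b * I) - 1 + 2 * b * I + 2 * b ^ 2) +
        z * (exp (-b * I) - 1 + b * I + b ^ 2 / 2)‖
        ≤ Real.exp (-x) * ((8 + R) * (|b| ^ 3 / 6)) :=
          mul_le_mul_of_nonneg_left a3 (Real.exp_pos _).le
      _ = ((8 + R) * Real.exp (-x)) * (|b| ^ 3 / 6) := by ring
      _ ≤ 84 / 10000 * (|b| ^ 3 / 6) := mul_le_mul_of_nonneg_right a4 (by positivity)
      _ = _ := by ring
  refine (norm_sub_le _ _).trans ?_
  have t123 := norm_add_le (exp (uu z b) - 1 - uu z b - (uu z b) ^ 2 / 2 +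
    ((uu z b) ^ 2 + (z - 2) ^ 2 * b ^ 2) / 2) (z * (exp (b * I) - 1 - b * I + b ^ 2 / 2))
  have t12 := norm_add_le (exp (uu z b) - 1 - uu z b - (uu z b) ^ 2 / 2)
    (((uu z b) ^ 2 + (z - 2) ^ 2 * b ^ 2) / 2)
  linarith

/-- the numerical range of `S = |z-2|` -/
theorem m06_S {R x p : ℝ} (h : Par R x p) (hp : p ≤ 9 / 4) :
    R - 2 ≤ ‖zz x p - 2‖ ∧ ‖zz x p - 2‖ ≤ R - 2 + 108 / 1000 := by
  have hR := h.hR
  rw [norm_z2]
  refine ⟨(sqrtD h).1, (sqrtD_s h hp).trans ?_⟩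
  have h1 : (48 : ℝ) ≤ R * (R - 2) := by nlinarith
  have h2 : 518 / 100 / (R * (R - 2)) ≤ 518 / 100 / 48 :=
    div_le_div_of_nonneg_left (by norm_num) (by norm_num) h1
  have h3 : (518 / 100 / 48 : ℝ) ≤ 108 / 1000 := by norm_num
  linarith

theorem m06_final {R x p : ℝ} (h : Par R x p) (hp : p ≤ 9 / 4) {b : ℝ} (hb : |b| ≤ 1 / R)
    {M c : ℝ} (hM1 : 1 ≤ M) (hM2 : Real.exp (-(sS x p b)) ≤ M) (hc0 : 0 ≤ c)
    (hc : M * (R - 1392 / 1000) ^ 3 + 3 / 2 * R * (2 * R - 3284 / 1000) + R + 84 / 10000 ≤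
      c * R ^ 2 * (R - 200525 / 100000)) :
    ‖hh (zz x p) b + kap (zz x p) * b ^ 2 / 2‖ ≤ c * R ^ 2 * |b| ^ 3 / 6 := by
  have hR := h.hR
  have hR0 : 0 < R := by linarith
  obtain ⟨hS1, hS2⟩ := m06_S h hp
  have hcore := m06_core h hb hM1 hM2
  obtain ⟨hw1, hw2, hw3, _⟩ := ww_ge h
  set S : ℝ := ‖zz x p - 2‖ with hS
  have hw0 : 0 < ‖ww (zz x p)‖ := norm_pos_iff.2 hw3
  have hS0 : 0 ≤ S := norm_nonneg _
  have e1 : (S + 1 / 2) ^ 3 ≤ (R - 1392 / 1000) ^ 3 :=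
    pow_le_pow_left₀ (by positivity) (by linarith) 3
  have e2 : M * (S + 1 / 2) ^ 3 ≤ M * (R - 1392 / 1000) ^ 3 :=
    mul_le_mul_of_nonneg_left e1 (by linarith)
  have e3 : 3 / 2 * R * (2 * S + 1 / 2) ≤ 3 / 2 * R * (2 * R - 3284 / 1000) :=
    mul_le_mul_of_nonneg_left (by linarith) (by positivity)
  have e4 : c * R ^ 2 * (R - 200525 / 100000) ≤ c * R ^ 2 * ‖ww (zz x p)‖ :=
    mul_le_mul_of_nonneg_left (by linarith) (by positivity)
  have e5 : M * (S + 1 / 2) ^ 3 + 3 / 2 * R * (2 * S + 1 / 2) + R + 84 / 10000 ≤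
      c * R ^ 2 * ‖ww (zz x p)‖ := by linarith
  have e6 : |b| ^ 3 / 6 * (M * (S + 1 / 2) ^ 3 + 3 / 2 * R * (2 * S + 1 / 2) + R + 84 / 10000) ≤
      |b| ^ 3 / 6 * (c * R ^ 2 * ‖ww (zz x p)‖) :=
    mul_le_mul_of_nonneg_left e5 (by positivity)
  have e7 : ‖ww (zz x p)‖ * ‖hh (zz x p) b + kap (zz x p) * b ^ 2 / 2‖ ≤
      ‖ww (zz x p)‖ * (c * R ^ 2 * |b| ^ 3 / 6) := by
    refine hcore.trans (e6.trans (le_of_eq ?_))
    ring
  exact le_of_mul_le_mul_left e7 hw0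

theorem taylor_neg {R x p : ℝ} (h : Par R x p) (hp : p ≤ 9 / 4) {b : ℝ} (hb0 : b ≤ 0)
    (hb : -(1 / R) ≤ b) :
    ‖hh (zz x p) b + kap (zz x p) * b ^ 2 / 2‖ ≤ 118 / 100 * R ^ 2 * |b| ^ 3 / 6 := by
  have hR := h.hR
  have hR0 : 0 < R := by linarith
  have h1R : 1 / R ≤ 1 := by
    rw [div_le_one hR0]; linarith
  have hbabs : |b| ≤ 1 / R := by
    rw [abs_of_nonpos hb0]; linarith
  have hs : 0 ≤ sS x p b := by
    unfold sS
    have h1 : 0 ≤ x * (1 - Real.cos b) :=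
      mul_nonneg h.hx.le (by linarith [Real.cos_le_one b])
    have h2 : Real.sin b ≤ 0 := by
      have h3 : 0 ≤ Real.sin (-b) := by
        apply Real.sin_nonneg_of_nonneg_of_le_pi (by linarith)
        linarith [Real.pi_gt_three]
      rw [Real.sin_neg] at h3
      linarith
    have h4 : p * Real.sin b ≤ 0 := mul_nonpos_of_nonneg_of_nonpos h.hp0 h2
    linarith
  refine m06_final h hp hbabs (M := 1) (c := 118 / 100) (le_refl _) ?_ (by norm_num) ?_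
  · rw [← Real.exp_zero]
    exact Real.exp_le_exp.2 (by linarith)
  · nlinarith [mul_nonneg (sub_nonneg.2 hR) (sub_nonneg.2 hR),
      mul_nonneg (mul_nonneg (sub_nonneg.2 hR) (sub_nonneg.2 hR)) (sub_nonneg.2 hR)]

theorem taylor_pos {R x p : ℝ} (h : Par R x p) (hp : p ≤ 9 / 4) {b : ℝ} (hb0 : 0 ≤ b)
    (hb : b ≤ 1 / R) :
    ‖hh (zz x p) b + kap (zz x p) * b ^ 2 / 2‖ ≤ 138 / 100 * R ^ 2 * |b| ^ 3 / 6 := by
  have hR := h.hR
  have hR0 : 0 < R := by linarith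
  have h1R : 1 / R ≤ 1 / 8 := one_div_le_one_div_of_le (by norm_num) hR
  have hb1 : b ≤ 1 / 8 := hb.trans h1R
  have hbabs : |b| ≤ 1 / R := by
    rw [abs_of_nonneg hb0]; exact hb
  have hbR : b * R ≤ 1 := by
    have := mul_le_mul_of_nonneg_right hb hR0.le
    rwa [one_div_mul_cancel hR0.ne'] at this
  -- the bound for `-s`
  have hs : -(sS x p b) * R ≤ 1772 / 1000 := by
    unfold sS
    have hcos : b ^ 2 / 2 - b ^ 4 * (5 / 96) ≤ 1 - Real.cos b := by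
      have h1 := Real.cos_bound (x := b) (by rw [abs_of_nonneg hb0]; linarith)
      rw [abs_of_nonneg hb0] at h1
      have h2 := (abs_le.1 h1).2
      linarith
    have hsin : Real.sin b ≤ b := Real.sin_le hb0
    have hx1 := x_ges h hp
    have hxR : R ^ 2 - 259 / 100 ≤ x * R := by
      have h1 := mul_le_mul_of_nonneg_right hx1 hR0.le
      have e : (R - 259 / 100 / R) * R = R ^ 2 - 259 / 100 := by field_simp
      rw [e] at h1
      exact h1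
    have hpos : 0 ≤ b ^ 2 / 2 - b ^ 4 * (5 / 96) := by
      have h1 : b ^ 2 ≤ 1 := by nlinarith
      nlinarith [sq_nonneg b]
    have k1 : (R ^ 2 - 259 / 100) * (b ^ 2 / 2 - b ^ 4 * (5 / 96)) ≤
        x * R * (1 - Real.cos b) := by
      refine mul_le_mul hxR hcos hpos ?_
      exact mul_nonneg h.hx.le hR0.le
    have k2 : p * Real.sin b * R ≤ 9 / 4 * (b * R) := by
      have h1 : p * Real.sin b ≤ 9 / 4 * b := by
        have h2 : 0 ≤ Real.sin b := by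
          apply Real.sin_nonneg_of_nonneg_of_le_pi hb0
          linarith [Real.pi_gt_three]
        calc p * Real.sin b ≤ 9 / 4 * Real.sin b := mul_le_mul_of_nonneg_right hp h2
          _ ≤ 9 / 4 * b := mul_le_mul_of_nonneg_left hsin (by norm_num)
      have := mul_le_mul_of_nonneg_right h1 hR0.le
      linarith
    set β : ℝ := b * R with hβ
    have hβ0 : 0 ≤ β := mul_nonneg hb0 hR0.le
    have e1 : (R ^ 2 - 259 / 100) * (b ^ 2 / 2 - b ^ 4 * (5 / 96)) =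
        β ^ 2 / 2 - β ^ 2 * (b ^ 2 * (5 / 96)) - 259 / 100 * (b ^ 2 / 2 - b ^ 4 * (5 / 96)) := by
      rw [hβ]; ring
    have hb2 : b ^ 2 ≤ β ^ 2 / 64 := by
      rw [hβ, mul_pow]
      have : (64 : ℝ) ≤ R ^ 2 := by nlinarith
      nlinarith [sq_nonneg b]
    have hb64 : b ^ 2 ≤ 1 / 64 := by nlinarith
    have e2 : β ^ 2 * (b ^ 2 * (5 / 96)) ≤ β ^ 2 * (1 / 64 * (5 / 96)) :=
      mul_le_mul_of_nonneg_left (by linarith) (sq_nonneg β)
    have e3 : 259 / 100 * (b ^ 2 / 2 - b ^ 4 * (5 / 96)) ≤ 259 / 100 * (β ^ 2 / 64 / 2) := by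
      have : 0 ≤ b ^ 4 * (5 / 96) := by positivity
      nlinarith
    have e4 : -(x * (1 - Real.cos b) - p * Real.sin b) * R =
        p * Real.sin b * R - x * R * (1 - Real.cos b) := by ring
    rw [e4]
    have e5 : p * Real.sin b * R - x * R * (1 - Real.cos b) ≤
        9 / 4 * β - (β ^ 2 / 2 - β ^ 2 * (1 / 64 * (5 / 96)) - 259 / 100 * (β ^ 2 / 64 / 2)) := by
      linarith
    refine e5.trans ?_
    nlinarith
  set y : ℝ := 1772 / 1000 / R with hy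
  have hy0 : 0 ≤ y := by positivity
  have hy1 : y ≤ 2215 / 10000 := by
    rw [hy, div_le_iff₀ hR0]; linarith
  have hsy : -(sS x p b) ≤ y := by
    rw [hy, le_div_iff₀ hR0]; exact hs
  have hexpy : Real.exp y ≤ 1 + y + 55 / 100 * y ^ 2 := by
    have h1 := Real.exp_bound' hy0 (by linarith : y ≤ 1) (n := 3) (by norm_num)
    simp only [Finset.sum_range_succ, Finset.sum_range_zero, Nat.factorial] at h1
    norm_num at h1
    nlinarith [sq_nonneg y]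
  refine m06_final h hp hbabs (M := 1 + y + 55 / 100 * y ^ 2) (c := 138 / 100) ?_
    ((Real.exp_le_exp.2 hsy).trans hexpy) (by norm_num) ?_
  · nlinarith [sq_nonneg y]
  · have e1 : (1 + y + 55 / 100 * y ^ 2) * (R - 1392 / 1000) ^ 3 =
        (R ^ 2 + 1772 / 1000 * R + 55 / 100 * (1772 / 1000) ^ 2) * (R - 1392 / 1000) ^ 3 / R ^ 2 := by
      rw [hy]; field_simp
    rw [e1]
    have hR2 : 0 < R ^ 2 := by positivity
    have e2 : (R ^ 2 + 1772 / 1000 * R + 55 / 100 * (1772 / 1000) ^ 2) * (R - 1392 / 1000) ^ 3 ≤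
        (138 / 100 * R ^ 2 * (R - 200525 / 100000) -
          (3 / 2 * R * (2 * R - 3284 / 1000) + R + 84 / 10000)) * R ^ 2 := by
      obtain ⟨d, hd, rfl⟩ : ∃ d : ℝ, 0 ≤ d ∧ R = 8 + d := ⟨R - 8, by linarith, by ring⟩
      have h2 : 0 ≤ d ^ 2 := by positivity
      have h3 : 0 ≤ d ^ 3 := by positivity
      have h4 : 0 ≤ d ^ 4 := by positivity
      have h5 : 0 ≤ d ^ 5 := by positivity
      nlinarith
    have e3 := (div_le_iff₀ hR2).2 e2
    linarith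

end SCE
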