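import Pool.Agent.Helper22.SCE.M01

/-!
# SCE-M07: lower bound of `AA` on the left half of the central zone
Let `0 < a <= 1/R`, `s = sS x p (-a) = x(1-cos a) + p sin a >= 0`,
`tm = -tT x p (-a) = x sin a - 2a - p(1-cos a)`.
1. `AA_neg_ge` (all `0 <= a <= 4/5` with `tm >= 0`): `AA(-a) = 1 - e^(-s)(cos tm + q sin tm)
   >= (x(1-cos a) + 1 - cos tm)/(1 + s)`.  Indeed if `cos tm + q sin tm <= 0` then `AA >= 1`, and
   `(x(1-cos a) + 1 - cos tm)/(1+s) <= 1` would need: hence first note that the right side is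
   `<= AA` in this case only if `x(1-cos a) + 1 - cos tm <= 1 + s`, i.e. `-cos tm <= p sin a`;
   to avoid this case distinction the theorem is stated with `min 1`.
   If `cos tm + q sin tm > 0`: `e^(-s) <= 1/(1+s)`, so
   `AA >= (s + 1 - cos tm - q sin tm)/(1+s)` and `p sin a >= q sin tm`, because
   `tm <= x sin a - 2 sin a = rho sin a`, so `sin tm <= tm <= rho sin a`.
2. `a <= 1/R`: `x(1-cos a) >= (x/2) a^2 (1 - 1/(12R^2))`,
   `tm >= a(rho - x a^2/6 - p a/2) >= a (rho - 1/(6R) - p/(2R))`, `tm <= rho a <= 1 - 2/R`,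
   `1 - cos tm >= (tm^2/2)(1 - tm^2/12) >= (tm^2/2)(1 - (1-2/R)^2/12)`, `1 + s <= 1 + (1/2+p)/R`.
   So `AA(-a) >= a^2 F/(1 + (1/2+p)/R)`,
   `F = (x/2)(1 - 1/(12R^2)) + (1/2)(rho - (1/6 + p/2)/R)^2 (1 - (1-2/R)^2/12)`.
3. `p <= 9/4`: `x >= R - 2.59/R`, `rho_ratio_s`:
   `(F/(1+2.75/R)) (R-2-2.59/R)/((R-2)^2+10.36/R) / R >= 0.2596` at `R = 8` and increases with
   `R` (limit `11/24`).  Claim `0.251`.
   `p <= 21/8`: same with `x >= R - 3.55/R`, `rho_ratio`, `1 + 3.125/R`: `0.2317` at `R = 8`.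
   Claim `1/5`.
(`min 1`: since `F a^2 <= ...` the bound is `<= 1` on this zone: `AA >= min 1 (...)`, and
`0.251 R a^2 <= 0.251/R < (rho/D) * 1`.)
-/

namespace SCE

private theorem m07_cos {t : ℝ} (ht0 : 0 ≤ t) (ht : t ≤ 1) :
    t ^ 2 / 2 * (1 - 5 * t ^ 2 / 48) ≤ 1 - Real.cos t := by
  have h := Real.cos_bound (x := t) (by rw [abs_of_nonneg ht0]; exact ht)
  rw [abs_of_nonneg ht0] at h
  have := (abs_le.1 h).2
  nlinarith

theorem AA_neg_ge {R x p : ℝ} (h : Par R x p) {a : ℝ} (ha0 : 0 ≤ a) (ha : a ≤ 4 / 5)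
    (ht : 0 ≤ -(tT x p (-a))) :
    min 1 ((x * (1 - Real.cos a) + 1 - Real.cos (-(tT x p (-a)))) /
      (1 + x * (1 - Real.cos a) + p * Real.sin a)) ≤ AA x p (-a) := by
  have hx0 := x_ge' h
  have hp0 := h.hp0
  obtain ⟨tm, htm⟩ : ∃ tm, tm = -(tT x p (-a)) := ⟨_, rfl⟩
  rw [← htm] at ht ⊢
  have htT : tT x p (-a) = -tm := by rw [htm]; ring
  have hs : sS x p (-a) = x * (1 - Real.cos a) + p * Real.sin a := by
    unfold sS
    rw [Real.cos_neg, Real.sin_neg]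
    ring
  have htme : tm = x * Real.sin a - 2 * a - p * (1 - Real.cos a) := by
    rw [htm]
    unfold tT
    rw [Real.cos_neg, Real.sin_neg]
    ring
  have hAA : AA x p (-a) = 1 - Real.exp (-(x * (1 - Real.cos a) + p * Real.sin a)) *
      (Real.cos tm + p / (x - 2) * Real.sin tm) := by
    unfold AA
    rw [hs, htT, Real.cos_neg, Real.sin_neg]
    ring
  have hcos : 0 ≤ 1 - Real.cos a := by linarith [Real.cos_le_one a]
  have hsin : 0 ≤ Real.sin a :=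
    Real.sin_nonneg_of_nonneg_of_le_pi ha0 (by linarith [Real.pi_gt_three])
  have hs0 : 0 ≤ x * (1 - Real.cos a) + p * Real.sin a := by
    have h1 : 0 ≤ x * (1 - Real.cos a) := mul_nonneg (by linarith) hcos
    have h2 : 0 ≤ p * Real.sin a := mul_nonneg hp0 hsin
    linarith
  rw [hAA]
  set s : ℝ := x * (1 - Real.cos a) + p * Real.sin a with hsdef
  set C : ℝ := Real.cos tm + p / (x - 2) * Real.sin tm with hC
  rcases le_or_gt C 0 with hC0 | hC0
  · refine (min_le_left _ _).trans ?_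
    have : Real.exp (-s) * C ≤ 0 := mul_nonpos_of_nonneg_of_nonpos (Real.exp_pos _).le hC0
    linarith
  · refine (min_le_right _ _).trans ?_
    have hden : 0 < 1 + x * (1 - Real.cos a) + p * Real.sin a := by linarith
    rw [div_le_iff₀ hden]
    have he : Real.exp (-s) * (1 + s) ≤ 1 := by
      have h1 : 1 + s ≤ Real.exp s := by linarith [Real.add_one_le_exp s]
      calc Real.exp (-s) * (1 + s) ≤ Real.exp (-s) * Real.exp s :=
            mul_le_mul_of_nonneg_left h1 (Real.exp_pos _).le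
        _ = 1 := by rw [← Real.exp_add]; simp
    have hq : 0 ≤ p / (x - 2) := div_nonneg hp0 (by linarith)
    have h2 : Real.sin tm ≤ (x - 2) * Real.sin a := by
      have h3 := Real.sin_le ht
      have h4 := Real.sin_le ha0
      have h5 : 0 ≤ p * (1 - Real.cos a) := mul_nonneg hp0 hcos
      linarith
    have h6 : p / (x - 2) * Real.sin tm ≤ p * Real.sin a := by
      calc p / (x - 2) * Real.sin tm ≤ p / (x - 2) * ((x - 2) * Real.sin a) :=
            mul_le_mul_of_nonneg_left h2 hq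
        _ = p * Real.sin a := by
            have : x - 2 ≠ 0 := by
              have : 0 < x - 2 := by linarith
              exact this.ne'
            field_simp
    have h7 : Real.exp (-s) * (1 + s) * C ≤ 1 * C := mul_le_mul_of_nonneg_right he hC0.le
    have h8 : (1 - Real.exp (-s) * C) * (1 + x * (1 - Real.cos a) + p * Real.sin a) =
        (1 + s) - Real.exp (-s) * (1 + s) * C := by
      rw [hsdef]
      ring
    rw [h8]
    linarith

private theorem m07_core {R x p : ℝ} (h : Par R x p) {a : ℝ} (ha0 : 0 ≤ a) (ha : a ≤ 1 / R)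
    {pm A : ℝ} (hp : p ≤ pm) (hx : R - A / R ≤ x) (_hA : 0 ≤ R - A / R)
    (hpos : 0 ≤ R - 2 - (A + (1 / 6 + pm / 2)) / R) :
    min 1 (a ^ 2 * ((R - A / R) / 2 * (1 - 5 / (48 * R ^ 2)) +
      (R - 2 - (A + (1 / 6 + pm / 2)) / R) ^ 2 / 2 * (1 - 5 / 48 * (1 - 2 / R) ^ 2)) /
        (1 + (1 / 2 + pm) / R)) ≤ AA x p (-a) := by
  have hR := h.hR
  have hR0 : 0 < R := by linarith
  have hp0 := h.hp0
  have hxR := x_le h
  have hx0 := x_ge' h
  have hpm : 0 ≤ pm := hp0.trans hp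
  have h18 : 1 / R ≤ 1 / 8 := one_div_le_one_div_of_le (by norm_num) hR
  have hRa : R * a ≤ 1 := by
    calc R * a ≤ R * (1 / R) := mul_le_mul_of_nonneg_left ha hR0.le
      _ = 1 := by field_simp
  have hRa0 : 0 ≤ R * a := mul_nonneg hR0.le ha0
  -- x a^2 ≤ 1/R
  have hxa2 : x * a ^ 2 ≤ 1 / R := by
    calc x * a ^ 2 ≤ R * a ^ 2 := mul_le_mul_of_nonneg_right hxR (sq_nonneg a)
      _ = (R * a) * a := by ring
      _ ≤ 1 * (1 / R) := mul_le_mul hRa ha ha0 zero_le_one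
      _ = 1 / R := one_mul _
  have hpa : p * a ≤ pm / R := by
    calc p * a ≤ pm * (1 / R) := mul_le_mul hp ha ha0 hpm
      _ = pm / R := by ring
  have hsub : Real.sin a ≤ a := Real.sin_le ha0
  have hsge : a - a ^ 3 / 6 ≤ Real.sin a := by
    rcases ha0.eq_or_lt with h0 | h0
    · rw [← h0]; simp
    · exact (Real.sin_gt_sub_cube h0).le
  have hsin0 : 0 ≤ Real.sin a :=
    Real.sin_nonneg_of_nonneg_of_le_pi ha0 (by linarith [Real.pi_gt_three])
  have hcle : 1 - Real.cos a ≤ a ^ 2 / 2 := by linarith [Real.one_sub_sq_div_two_le_cos (x := a)]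
  have hc0 : 0 ≤ 1 - Real.cos a := by linarith [Real.cos_le_one a]
  have htme : -(tT x p (-a)) = x * Real.sin a - 2 * a - p * (1 - Real.cos a) := by
    unfold tT
    rw [Real.cos_neg, Real.sin_neg]
    ring
  set K : ℝ := R - 2 - (A + (1 / 6 + pm / 2)) / R with hK
  have hKx : K ≤ x - 2 - x * a ^ 2 / 6 - p * a / 2 := by
    have e1 : (A + (1 / 6 + pm / 2)) / R = A / R + (1 / R) / 6 + (pm / R) / 2 := by
      field_simp
      ring
    rw [hK, e1]
    linarith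
  have htlow : a * K ≤ -(tT x p (-a)) := by
    rw [htme]
    have h1 : a * K ≤ a * (x - 2 - x * a ^ 2 / 6 - p * a / 2) :=
      mul_le_mul_of_nonneg_left hKx ha0
    have h2 : x * (a - a ^ 3 / 6) ≤ x * Real.sin a :=
      mul_le_mul_of_nonneg_left hsge (by linarith)
    have h3 : p * (1 - Real.cos a) ≤ p * (a ^ 2 / 2) := mul_le_mul_of_nonneg_left hcle hp0
    nlinarith
  have ht0 : 0 ≤ -(tT x p (-a)) := (mul_nonneg ha0 hpos).trans htlow
  have htup : -(tT x p (-a)) ≤ 1 - 2 / R := by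
    rw [htme]
    have h1 : x * Real.sin a ≤ R * a := mul_le_mul hxR hsub hsin0 hR0.le
    have h2 : 0 ≤ p * (1 - Real.cos a) := mul_nonneg hp0 hc0
    have h3 : (R - 2) * a ≤ (R - 2) * (1 / R) := mul_le_mul_of_nonneg_left ha (by linarith)
    have h4 : (R - 2) * (1 / R) = 1 - 2 / R := by field_simp
    linarith
  refine le_trans (min_le_min le_rfl ?_) (AA_neg_ge h ha0 (by linarith) ht0)
  set tm : ℝ := -(tT x p (-a)) with htm
  have hw1 : 1 - 2 / R ≤ 1 := by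
    have : 0 < 2 / R := by positivity
    linarith
  have hw0 : 0 ≤ 1 - 2 / R := ht0.trans htup
  have hct := m07_cos ht0 (htup.trans hw1)
  have hca := m07_cos ha0 (by linarith)
  have hsq1 : (a * K) ^ 2 ≤ tm ^ 2 := pow_le_pow_left₀ (mul_nonneg ha0 hpos) htlow 2
  have hsq2 : tm ^ 2 ≤ (1 - 2 / R) ^ 2 := pow_le_pow_left₀ ht0 htup 2
  have hsq3 : (1 - 2 / R) ^ 2 ≤ 1 := pow_le_one₀ hw0 hw1
  have ha2 : a ^ 2 ≤ 1 / R ^ 2 := by
    calc a ^ 2 ≤ (1 / R) ^ 2 := pow_le_pow_left₀ ha0 ha 2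
      _ = 1 / R ^ 2 := by rw [div_pow, one_pow]
  have hnum2 : a ^ 2 * (K ^ 2 / 2 * (1 - 5 / 48 * (1 - 2 / R) ^ 2)) ≤ 1 - Real.cos tm := by
    refine le_trans ?_ hct
    calc a ^ 2 * (K ^ 2 / 2 * (1 - 5 / 48 * (1 - 2 / R) ^ 2)) =
          (a * K) ^ 2 / 2 * (1 - 5 / 48 * (1 - 2 / R) ^ 2) := by ring
      _ ≤ tm ^ 2 / 2 * (1 - 5 * tm ^ 2 / 48) :=
          mul_le_mul (by linarith) (by linarith) (by linarith) (by positivity)
  have h1R2 : 1 / R ^ 2 ≤ 1 := by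
    rw [div_le_one (by positivity)]
    nlinarith
  have hnum1 : a ^ 2 * ((R - A / R) / 2 * (1 - 5 / (48 * R ^ 2))) ≤ x * (1 - Real.cos a) := by
    have h5 : x * (a ^ 2 / 2 * (1 - 5 * a ^ 2 / 48)) ≤ x * (1 - Real.cos a) :=
      mul_le_mul_of_nonneg_left hca (by linarith)
    refine le_trans ?_ h5
    have e2 : 5 / (48 * R ^ 2) = 5 * (1 / R ^ 2) / 48 := by field_simp
    rw [e2]
    calc a ^ 2 * ((R - A / R) / 2 * (1 - 5 * (1 / R ^ 2) / 48)) =
          (R - A / R) * (a ^ 2 / 2 * (1 - 5 * (1 / R ^ 2) / 48)) := by ring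
      _ ≤ x * (a ^ 2 / 2 * (1 - 5 * a ^ 2 / 48)) := by
          refine mul_le_mul hx ?_ ?_ (by linarith)
          · exact mul_le_mul_of_nonneg_left (by linarith) (by positivity)
          · exact mul_nonneg (by positivity) (by linarith)
  have hden : 1 + x * (1 - Real.cos a) + p * Real.sin a ≤ 1 + (1 / 2 + pm) / R := by
    have h6 : x * (1 - Real.cos a) ≤ x * (a ^ 2 / 2) :=
      mul_le_mul_of_nonneg_left hcle (by linarith)
    have h7 : p * Real.sin a ≤ p * a := mul_le_mul_of_nonneg_left hsub hp0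
    have e3 : (1 / 2 + pm) / R = (1 / R) / 2 + pm / R := by field_simp
    rw [e3]
    linarith
  have hden0 : 0 < 1 + x * (1 - Real.cos a) + p * Real.sin a := by
    have h8 : 0 ≤ x * (1 - Real.cos a) := mul_nonneg (by linarith) hc0
    have h9 : 0 ≤ p * Real.sin a := mul_nonneg hp0 hsin0
    linarith
  refine div_le_div₀ ?_ ?_ hden0 hden
  · have h8 : 0 ≤ x * (1 - Real.cos a) := mul_nonneg (by linarith) hc0
    linarith [Real.cos_le_one tm]
  · rw [mul_add]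
    linarith

private theorem m07_poly1 {R : ℝ} (hR : 8 ≤ R) :
    251 / 1000 * (R + 1 / 2 + 9 / 4) ≤
      (R - 2 - 259 / 100 / R) / ((R - 2) ^ 2 + 1036 / 100 / R) *
      ((R - 259 / 100 / R) / 2 * (1 - 5 / (48 * R ^ 2)) +
      (R - 2 - (259 / 100 + (1 / 6 + 9 / 4 / 2)) / R) ^ 2 / 2 *
        (1 - 5 / 48 * (1 - 2 / R) ^ 2)) := by
  obtain ⟨d, rfl⟩ : ∃ d, R = 8 + d := ⟨R - 8, by ring⟩
  have hd : 0 ≤ d := by linarith
  have hR0 : 0 < 8 + d := by linarith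
  have hQ : 0 < 96 * (8 + d) ^ 4 * ((8 + d) * (8 + d - 2) ^ 2 + 1036 / 100) := by positivity
  have e : (8 + d - 2 - 259 / 100 / (8 + d)) / ((8 + d - 2) ^ 2 + 1036 / 100 / (8 + d)) *
      ((8 + d - 259 / 100 / (8 + d)) / 2 * (1 - 5 / (48 * (8 + d) ^ 2)) +
      (8 + d - 2 - (259 / 100 + (1 / 6 + 9 / 4 / 2)) / (8 + d)) ^ 2 / 2 *
        (1 - 5 / 48 * (1 - 2 / (8 + d)) ^ 2)) =
      (((8 + d) ^ 2 - 2 * (8 + d) - 259 / 100) *
        ((8 + d) * ((8 + d) ^ 2 - 259 / 100) * (48 * (8 + d) ^ 2 - 5) +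
        ((8 + d) ^ 2 - 2 * (8 + d) - (259 / 100 + (1 / 6 + 9 / 4 / 2))) ^ 2 *
          (48 * (8 + d) ^ 2 - 5 * (8 + d - 2) ^ 2))) /
        (96 * (8 + d) ^ 4 * ((8 + d) * (8 + d - 2) ^ 2 + 1036 / 100)) := by
    have h1 : (8 + d - 2) ^ 2 + 1036 / 100 / (8 + d) =
        ((8 + d) * (8 + d - 2) ^ 2 + 1036 / 100) / (8 + d) := by
      field_simp
    rw [h1]
    have h2 : (8 + d) * (8 + d - 2) ^ 2 + 1036 / 100 ≠ 0 := by positivity
    field_simp
    ring
  rw [e, le_div_iff₀ hQ, ← sub_nonneg]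
  ring_nf
  positivity

private theorem m07_poly2 {R : ℝ} (hR : 8 ≤ R) :
    1 / 5 * (R + 1 / 2 + 21 / 8) ≤
      (R - 2 - 355 / 100 / R) / ((R - 2) ^ 2 + 1420 / 100 / R) *
      ((R - 355 / 100 / R) / 2 * (1 - 5 / (48 * R ^ 2)) +
      (R - 2 - (355 / 100 + (1 / 6 + 21 / 8 / 2)) / R) ^ 2 / 2 *
        (1 - 5 / 48 * (1 - 2 / R) ^ 2)) := by
  obtain ⟨d, rfl⟩ : ∃ d, R = 8 + d := ⟨R - 8, by ring⟩
  have hd : 0 ≤ d := by linarith
  have hR0 : 0 < 8 + d := by linarith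
  have hQ : 0 < 96 * (8 + d) ^ 4 * ((8 + d) * (8 + d - 2) ^ 2 + 1420 / 100) := by positivity
  have e : (8 + d - 2 - 355 / 100 / (8 + d)) / ((8 + d - 2) ^ 2 + 1420 / 100 / (8 + d)) *
      ((8 + d - 355 / 100 / (8 + d)) / 2 * (1 - 5 / (48 * (8 + d) ^ 2)) +
      (8 + d - 2 - (355 / 100 + (1 / 6 + 21 / 8 / 2)) / (8 + d)) ^ 2 / 2 *
        (1 - 5 / 48 * (1 - 2 / (8 + d)) ^ 2)) =
      (((8 + d) ^ 2 - 2 * (8 + d) - 355 / 100) *
        ((8 + d) * ((8 + d) ^ 2 - 355 / 100) * (48 * (8 + d) ^ 2 - 5) +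
        ((8 + d) ^ 2 - 2 * (8 + d) - (355 / 100 + (1 / 6 + 21 / 8 / 2))) ^ 2 *
          (48 * (8 + d) ^ 2 - 5 * (8 + d - 2) ^ 2))) /
        (96 * (8 + d) ^ 4 * ((8 + d) * (8 + d - 2) ^ 2 + 1420 / 100)) := by
    have h1 : (8 + d - 2) ^ 2 + 1420 / 100 / (8 + d) =
        ((8 + d) * (8 + d - 2) ^ 2 + 1420 / 100) / (8 + d) := by
      field_simp
    rw [h1]
    have h2 : (8 + d) * (8 + d - 2) ^ 2 + 1420 / 100 ≠ 0 := by positivity
    field_simp
    ring
  rw [e, le_div_iff₀ hQ, ← sub_nonneg]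
  ring_nf
  positivity

private theorem m07_fin {R x p a κ pm F r0 : ℝ} (h : Par R x p) (ha0 : 0 ≤ a)
    (ha : a ≤ 1 / R) (hκ : κ ≤ 1) (hpm : 0 ≤ pm) (hF : 0 ≤ F)
    (hm : min 1 (a ^ 2 * F / (1 + (1 / 2 + pm) / R)) ≤ AA x p (-a))
    (hr : r0 ≤ (x - 2) / ((x - 2) ^ 2 + p ^ 2))
    (hpoly : κ * (R + 1 / 2 + pm) ≤ r0 * F) :
    κ * R * a ^ 2 ≤ (x - 2) / ((x - 2) ^ 2 + p ^ 2) * AA x p (-a) := by
  have hR := h.hR
  have hR0 : 0 < R := by linarith
  have hinv := inv_le_ratio h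
  set r : ℝ := (x - 2) / ((x - 2) ^ 2 + p ^ 2) with hrdef
  have hr0 : 0 < r := lt_of_lt_of_le (by positivity) hinv
  rcases min_le_iff.1 hm with h1 | h1
  · have hRa : R * a ≤ 1 := by
      calc R * a ≤ R * (1 / R) := mul_le_mul_of_nonneg_left ha hR0.le
        _ = 1 := by field_simp
    calc κ * R * a ^ 2 = κ * ((R * a) * a) := by ring
      _ ≤ 1 * (1 * (1 / R)) := by
          refine mul_le_mul hκ ?_ (by positivity) zero_le_one
          exact mul_le_mul hRa ha ha0 zero_le_one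
      _ = 1 / R := by ring
      _ ≤ r := hinv
      _ = r * 1 := (mul_one r).symm
      _ ≤ r * AA x p (-a) := mul_le_mul_of_nonneg_left h1 hr0.le
  · have hden : 0 < 1 + (1 / 2 + pm) / R := by positivity
    have h2 : κ * R * a ^ 2 ≤ r * (a ^ 2 * F / (1 + (1 / 2 + pm) / R)) := by
      rw [mul_div_assoc', le_div_iff₀ hden]
      have h3 : κ * R * a ^ 2 * (1 + (1 / 2 + pm) / R) = a ^ 2 * (κ * (R + 1 / 2 + pm)) := by
        field_simp
        ring
      rw [h3]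
      have h4 : κ * (R + 1 / 2 + pm) ≤ r * F :=
        hpoly.trans (mul_le_mul_of_nonneg_right hr hF)
      calc a ^ 2 * (κ * (R + 1 / 2 + pm)) ≤ a ^ 2 * (r * F) :=
            mul_le_mul_of_nonneg_left h4 (sq_nonneg a)
        _ = r * (a ^ 2 * F) := by ring
    exact h2.trans (mul_le_mul_of_nonneg_left h1 hr0.le)

theorem central_neg {R x p : ℝ} (h : Par R x p) {a : ℝ} (ha0 : 0 ≤ a) (ha : a ≤ 1 / R) :
    (p ≤ 9 / 4 → 251 / 1000 * R * a ^ 2 ≤ (x - 2) / ((x - 2) ^ 2 + p ^ 2) * AA x p (-a)) ∧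
    1 / 5 * R * a ^ 2 ≤ (x - 2) / ((x - 2) ^ 2 + p ^ 2) * AA x p (-a) := by
  have hR := h.hR
  have hR0 : 0 < R := by linarith
  have hRinv : 1 / R ≤ 1 / 8 := one_div_le_one_div_of_le (by norm_num) hR
  have hRinv0 : 0 < 1 / R := by positivity
  have hdiv : ∀ c : ℝ, 0 ≤ c → c / R ≤ c / 8 := by
    intro c hc
    exact div_le_div_of_nonneg_left hc (by norm_num) hR
  have hw : 0 ≤ 1 - 5 / 48 * (1 - 2 / R) ^ 2 := by
    have h1 : 2 / R ≤ 2 / 8 := hdiv 2 (by norm_num)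
    have h2 : 0 < 2 / R := by positivity
    have h3 : (1 - 2 / R) ^ 2 ≤ 1 := pow_le_one₀ (by linarith) (by linarith)
    linarith
  have hv : 0 ≤ 1 - 5 / (48 * R ^ 2) := by
    have : 5 / (48 * R ^ 2) ≤ 1 := by
      rw [div_le_one (by positivity)]
      nlinarith
    linarith
  refine ⟨?_, ?_⟩
  · intro hp
    have hA : 0 ≤ R - 259 / 100 / R := by
      have := hdiv (259 / 100) (by norm_num)
      linarith
    have hK : 0 ≤ R - 2 - (259 / 100 + (1 / 6 + 9 / 4 / 2)) / R := by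
      have := hdiv (259 / 100 + (1 / 6 + 9 / 4 / 2)) (by norm_num)
      linarith
    refine m07_fin h ha0 ha (by norm_num) (by norm_num) ?_
      (m07_core h ha0 ha hp (x_ges h hp) hA hK) (rho_ratio_s h hp) (m07_poly1 hR)
    exact add_nonneg (mul_nonneg (by linarith) hv) (mul_nonneg (by positivity) hw)
  · have hA : 0 ≤ R - 355 / 100 / R := by
      have := hdiv (355 / 100) (by norm_num)
      linarith
    have hK : 0 ≤ R - 2 - (355 / 100 + (1 / 6 + 21 / 8 / 2)) / R := by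
      have := hdiv (355 / 100 + (1 / 6 + 21 / 8 / 2)) (by norm_num)
      linarith
    refine m07_fin h ha0 ha (by norm_num) (by norm_num) ?_
      (m07_core h ha0 ha h.hp (x_ge h) hA hK) (rho_ratio h) (m07_poly2 hR)
    exact add_nonneg (mul_nonneg (by linarith) hv) (mul_nonneg (by positivity) hw)

end SCE
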