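import Pool.Agent.Helper22.SCE.M01

/-!
# SCE-M08: lower bound of `AA` on the right half of the central zone
Let `0 < b <= 1/R`, `s = sS x p b`, `tau = tT x p b = x sin b - 2b + p(1-cos b)`, `q = p/rho`,
`f = s + 1 - cos tau + q sin tau`.
1. `1 + s > 0` (`-s <= 3.55/R <= 0.444`).  If `cos tau - q sin tau <= 0` then `AA >= 1`; else
   `e^(-s) <= 1/(1+s)` gives `AA >= f/(1+s)`.
2. `tau >= x(b - b^3/6) - 2b >= b(rho - 1/(6R))`, `tau <= rho b + p b^2/2 <= b(rho + p/(2R))`,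
   `tau <= 1 - 2/R + p/(2R^2)`;
   `1 - cos tau >= (tau^2/2)(1 - tau^2/12)`;
   `-p sin b + q sin tau >= -p b + q(tau - tau^3/6) >= -(q b^3/6)(x + (rho + p/(2R))^3)`
   (use `tau >= b rho - x b^3/6`), and with `b <= 1/R`, `x/rho <= 1.36`,
   `(rho+e)^3/rho` increasing: `>= -b^2 T`, `T = (p/(6R)) (1.36 + (R-2+p/(2R))^3/(R-2))`.
   So `f >= b^2 (F - T)`, `F = (x/2)(1-1/(12R^2))
      + (1/2)(rho - 1/(6R))^2 (1 - (1-2/R+p/(2R^2))^2/12)`.
3. If `p >= 3/5` then `s <= 0` (`s <= b((x/2) b - p(1-b^2/6)) <= b(1/2 - 0.598) < 0`), so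
   `AA >= f >= b^2(F-T)`.  If `p < 3/5`: `AA >= f/(1 + 1/(2R))` (for `s <= 0` trivial, for `s > 0`
   `s <= x b^2/2 <= 1/(2R)`), with `T <= (0.1/R)(1.36 + (R-2+0.3/R)^3/(R-2))`.
4. Numbers at `R = 8` (all increase with `R`, limit `11/24`): `p <= 9/4`, `p >= 3/5`:
   `(F-T) (rho/D)/R >= 0.3268`; `p < 3/5`: larger (`0.33`); claim `0.311`.
   `p <= 21/8`: `0.2965`; claim `1/5`.
   Here `x >= R - 2.59/R` and `rho_ratio_s` (resp. `x >= R - 3.55/R`, `rho_ratio`).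
-/

namespace SCE

theorem cp_one_sub_cos_ge {t : ℝ} (h0 : 0 ≤ t) (h1 : t ≤ 2) :
    t ^ 2 / 2 * (1 - t ^ 2 / 12) ≤ 1 - Real.cos t := by
  have h := Real.sin_ge_sub_cube (x := t / 2) (by linarith)
  have hc : Real.cos t = 1 - 2 * Real.sin (t / 2) ^ 2 := by
    have e1 := Real.cos_two_mul (t / 2)
    have e2 := Real.sin_sq_add_cos_sq (t / 2)
    have e3 : 2 * (t / 2) = t := by ring
    rw [e3] at e1
    linarith
  have h2 : 0 ≤ t / 2 - (t / 2) ^ 3 / 6 := by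
    have : (t / 2) ^ 2 ≤ 1 := by nlinarith
    nlinarith
  have h3 := pow_le_pow_left₀ h2 h 2
  have h4 : t ^ 2 / 2 * (1 - t ^ 2 / 12) ≤ 2 * (t / 2 - (t / 2) ^ 3 / 6) ^ 2 := by
    have : 0 ≤ t ^ 6 := by positivity
    nlinarith
  linarith

/-- the analytic part: `f >= b^2 V(w)` with `w = tau/b` -/
theorem cp_f_lower {R x p : ℝ} (h : Par R x p) {b : ℝ} (hb0 : 0 < b) (hb : b ≤ 1 / R) :
    ∃ w : ℝ, x - 2 - 1 / (6 * R) ≤ w ∧ w ≤ x - 2 + p / (2 * R) ∧
      b ^ 2 * (x / 2 * (1 - 1 / (12 * R ^ 2)) + w ^ 2 / 2 * (1 - w ^ 2 / (12 * R ^ 2))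
        - p / (x - 2) / (6 * R) * (x + w ^ 3)) ≤
      sS x p b + (1 - Real.cos (tT x p b)) + p / (x - 2) * Real.sin (tT x p b) := by
  have hR := h.hR
  have hR0 : 0 < R := by linarith
  have hp0 := h.hp0
  have hp := h.hp
  have hx8 := x_ge' h
  have hxR := x_le h
  have hq := (q_le h).1
  have hρ : 0 < x - 2 := by linarith
  have hbR : b * R ≤ 1 := by rwa [le_div_iff₀ hR0] at hb
  have hb8 : b ≤ 1 / 8 := by nlinarith
  have hxb : x * b ≤ 1 := by nlinarith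
  have hxb2 : x * b ^ 2 ≤ 1 / R := by
    have : x * b ^ 2 = (x * b) * b := by ring
    rw [this]
    nlinarith
  have hs1 := Real.sin_ge_sub_cube (x := b) hb0.le
  have hs2 := Real.sin_le hb0.le
  have hc1 := cp_one_sub_cos_ge hb0.le (by linarith)
  have hc2 : 1 - Real.cos b ≤ b ^ 2 / 2 := by
    have := Real.one_sub_sq_div_two_le_cos (x := b)
    linarith
  have hc0 : 0 ≤ 1 - Real.cos b := by linarith [Real.cos_le_one b]
  set τ := tT x p b with hτ
  have hτl : (x - 2) * b - x * b ^ 3 / 6 ≤ τ := by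
    rw [hτ, tT]
    nlinarith [mul_nonneg hp0 hc0, mul_le_mul_of_nonneg_left hs1 (by linarith : (0:ℝ) ≤ x)]
  have hτu : τ ≤ (x - 2) * b + p * b ^ 2 / 2 := by
    rw [hτ, tT]
    nlinarith [mul_le_mul_of_nonneg_left hc2 hp0,
      mul_le_mul_of_nonneg_left hs2 (by linarith : (0:ℝ) ≤ x)]
  refine ⟨τ / b, ?_, ?_, ?_⟩
  · rw [le_div_iff₀ hb0]
    have : (x - 2 - 1 / (6 * R)) * b ≤ (x - 2) * b - x * b ^ 3 / 6 := by
      have e1 : x * b ^ 3 / 6 = (x * b ^ 2) * (b / 6) := by ring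
      have e2 : (x - 2 - 1 / (6 * R)) * b = (x - 2) * b - (1 / R) * (b / 6) := by
        field_simp
      rw [e1, e2]
      have : (x * b ^ 2) * (b / 6) ≤ (1 / R) * (b / 6) :=
        mul_le_mul_of_nonneg_right hxb2 (by positivity)
      linarith
    linarith
  · rw [div_le_iff₀ hb0]
    have : (x - 2) * b + p * b ^ 2 / 2 ≤ (x - 2 + p / (2 * R)) * b := by
      have e2 : (x - 2 + p / (2 * R)) * b = (x - 2) * b + (p * b / 2) * (1 / R) := by
        field_simp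
      have e1 : p * b ^ 2 / 2 = (p * b / 2) * b := by ring
      rw [e1, e2]
      have : (p * b / 2) * b ≤ (p * b / 2) * (1 / R) :=
        mul_le_mul_of_nonneg_left hb (by positivity)
      linarith
    linarith
  · have hτ0 : 0 ≤ τ := by
      have : x * b ^ 3 / 6 = (x * b) * b ^ 2 / 6 := by ring
      nlinarith [mul_pos hb0 hb0]
    have hτ1 : τ ≤ 1 := by
      nlinarith [mul_nonneg hp0 hb0.le]
    set w := τ / b with hw
    have hτw : τ = w * b := by rw [hw]; field_simp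
    have hw0 : 0 ≤ w := by rw [hw]; positivity
    have k1 := cp_one_sub_cos_ge hτ0 (by linarith)
    have k2 := Real.sin_ge_sub_cube (x := τ) hτ0
    set q := p / (x - 2) with hqd
    have hpq : p = q * (x - 2) := by rw [hqd]; field_simp
    have k3 : q * (τ - τ ^ 3 / 6) ≤ q * Real.sin τ := mul_le_mul_of_nonneg_left k2 hq
    have k4 : q * ((x - 2) * b - x * b ^ 3 / 6) ≤ q * τ := mul_le_mul_of_nonneg_left hτl hq
    have k5 : x * (b ^ 2 / 2 * (1 - b ^ 2 / 12)) - p * b ≤ sS x p b := by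
      rw [sS]
      nlinarith [mul_le_mul_of_nonneg_left hc1 (by linarith : (0:ℝ) ≤ x),
        mul_le_mul_of_nonneg_left hs2 hp0]
    have k6 : x * (b ^ 2 / 2 * (1 - b ^ 2 / 12)) + τ ^ 2 / 2 * (1 - τ ^ 2 / 12)
        - q / 6 * (x * b ^ 3 + τ ^ 3) ≤
        sS x p b + (1 - Real.cos τ) + q * Real.sin τ := by
      have : p * b = q * (x - 2) * b := by rw [← hpq]
      nlinarith
    have hb2 : b ^ 2 ≤ 1 / R ^ 2 := by
      have := pow_le_pow_left₀ hb0.le hb 2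
      rwa [div_pow, one_pow] at this
    have k7 : b ^ 2 * (x / 2 * (1 - 1 / (12 * R ^ 2))) ≤ x * (b ^ 2 / 2 * (1 - b ^ 2 / 12)) := by
      have e : 1 / (12 * R ^ 2) = (1 / R ^ 2) / 12 := by field_simp
      rw [e]
      have : b ^ 2 * (x / 2) * (1 - (1 / R ^ 2) / 12) ≤ b ^ 2 * (x / 2) * (1 - b ^ 2 / 12) :=
        mul_le_mul_of_nonneg_left (by linarith) (by positivity)
      linarith
    have k8 : b ^ 2 * (w ^ 2 / 2 * (1 - w ^ 2 / (12 * R ^ 2))) ≤ τ ^ 2 / 2 * (1 - τ ^ 2 / 12) := by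
      rw [hτw]
      have e : w ^ 2 / (12 * R ^ 2) = w ^ 2 / 12 * (1 / R ^ 2) := by field_simp
      rw [e]
      have : b ^ 2 * (w ^ 2 / 2) * (1 - w ^ 2 / 12 * (1 / R ^ 2)) ≤
          b ^ 2 * (w ^ 2 / 2) * (1 - w ^ 2 / 12 * b ^ 2) :=
        mul_le_mul_of_nonneg_left
          (by nlinarith [mul_le_mul_of_nonneg_left hb2 (by positivity : 0 ≤ w ^ 2 / 12)])
          (by positivity)
      nlinarith
    have k9 : q / 6 * (x * b ^ 3 + τ ^ 3) ≤ b ^ 2 * (q / (6 * R) * (x + w ^ 3)) := by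
      rw [hτw]
      have e : b ^ 2 * (q / (6 * R) * (x + w ^ 3)) = q / 6 * (x + w ^ 3) * b ^ 2 * (1 / R) := by
        field_simp
      rw [e]
      have : q / 6 * (x + w ^ 3) * b ^ 2 * b ≤ q / 6 * (x + w ^ 3) * b ^ 2 * (1 / R) :=
        mul_le_mul_of_nonneg_left hb (by positivity)
      nlinarith
    nlinarith

/-- the passage from `f` to `AA` -/
theorem cp_AA {R x p : ℝ} (h : Par R x p) {b : ℝ} {f m : ℝ}
    (hf : f ≤ sS x p b + (1 - Real.cos (tT x p b)) + p / (x - 2) * Real.sin (tT x p b))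
    (hf0 : 0 ≤ f) (hm : 1 ≤ m) (hs : sS x p b ≤ m - 1) (hfm : f ≤ m) :
    f / m ≤ AA x p b := by
  have hR := h.hR
  have hR0 : 0 < R := by linarith
  have hm0 : 0 < m := by linarith
  have h1 := neg_sS_le h b
  have h2 : 355 / 100 / R ≤ 4438 / 10000 := by
    rw [div_le_iff₀ hR0]; linarith
  set s := sS x p b with hsd
  have hs1 : 0 < 1 + s := by linarith
  have hexp : Real.exp (-s) ≤ 1 / (1 + s) := by
    rw [Real.exp_neg, ← one_div]
    apply one_div_le_one_div_of_le hs1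
    linarith [Real.add_one_le_exp s]
  set C := Real.cos (tT x p b) - p / (x - 2) * Real.sin (tT x p b) with hC
  have hAA : AA x p b = 1 - Real.exp (-s) * C := by rw [AA, hC, hsd]
  rw [hAA]
  have hff : f ≤ 1 + s - C := by rw [hC]; linarith
  rcases le_or_gt C 0 with hC0 | hC0
  · have : 0 ≤ Real.exp (-s) * (-C) := mul_nonneg (Real.exp_pos _).le (by linarith)
    have h3 : f / m ≤ 1 := by rw [div_le_one hm0]; exact hfm
    linarith
  · have h3 : Real.exp (-s) * C ≤ 1 / (1 + s) * C := mul_le_mul_of_nonneg_right hexp hC0.le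
    have h4 : f / m ≤ f / (1 + s) := by
      apply div_le_div_of_nonneg_left hf0 hs1
      linarith
    have h5 : f / (1 + s) ≤ (1 + s - C) / (1 + s) := div_le_div_of_nonneg_right hff hs1.le
    have h6 : (1 + s - C) / (1 + s) = 1 - 1 / (1 + s) * C := by field_simp
    linarith

/-- the main numerical step: parameters `d` (lower deviation of `w`), `P` (bound of `p + q e`) -/
theorem cp_V {R x p w d0 d1 P c k l X0 : ℝ} (h : Par R x p) (hX : R - X0 ≤ x)
    (hw0 : R - d0 ≤ w) (hw1 : w ≤ R - d1) (hd0 : d0 ≤ 3) (_hd1 : 0 ≤ d1)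
    (hw2 : w ≤ x - 2 + p / (2 * R))
    (hP : p + p / (x - 2) * (p / (2 * R)) ≤ P) (hc : 136 / 100 * p / 6 ≤ c)
    (hk : (4583 / 10000 - k / R) ≤ 1 / 2 - (R - d1) ^ 2 / (24 * R ^ 2) - P / 6 / R)
    (hk2 : k ≤ 1)
    (hl : l ≤ 4993 / 10000 * (R - X0) + (R - d0) ^ 2 * (4583 / 10000 - k / R) - c / R) :
    l ≤ x / 2 * (1 - 1 / (12 * R ^ 2)) + w ^ 2 / 2 * (1 - w ^ 2 / (12 * R ^ 2))
        - p / (x - 2) / (6 * R) * (x + w ^ 3) := by
  have hR := h.hR
  have hR0 : 0 < R := by linarith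
  have hp0 := h.hp0
  have hx8 := x_ge' h
  have hq := (q_le h).1
  have hρ : 0 < x - 2 := by linarith
  have hw : 0 ≤ w := by linarith
  have hR2 : 64 ≤ R ^ 2 := by nlinarith
  -- first term
  have t1 : 4993 / 10000 * (R - X0) ≤ x / 2 * (1 - 1 / (12 * R ^ 2)) := by
    have e : 1 / (12 * R ^ 2) ≤ 1 / 768 := by
      apply one_div_le_one_div_of_le (by norm_num)
      linarith
    nlinarith
  -- last term
  have t2 : p / (x - 2) * (x + w ^ 3) ≤ 136 / 100 * p + w ^ 2 * P := by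
    have e1 : p / (x - 2) * x ≤ 136 / 100 * p := by
      rw [div_mul_eq_mul_div, div_le_iff₀ hρ]
      nlinarith
    have e2 : p / (x - 2) * w ^ 3 ≤ w ^ 2 * P := by
      have e3 : w ^ 3 ≤ w ^ 2 * (x - 2 + p / (2 * R)) := by
        have : w ^ 3 = w ^ 2 * w := by ring
        rw [this]
        exact mul_le_mul_of_nonneg_left hw2 (by positivity)
      have e4 : p / (x - 2) * (w ^ 2 * (x - 2 + p / (2 * R))) =
          w ^ 2 * (p + p / (x - 2) * (p / (2 * R))) := by field_simp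
      have e5 := mul_le_mul_of_nonneg_left e3 hq
      have e6 := mul_le_mul_of_nonneg_left hP (by positivity : 0 ≤ w ^ 2)
      linarith
    nlinarith
  have t3 : p / (x - 2) / (6 * R) * (x + w ^ 3) ≤ c / R + w ^ 2 * (P / 6 / R) := by
    have e : p / (x - 2) / (6 * R) * (x + w ^ 3) = (p / (x - 2) * (x + w ^ 3)) / (6 * R) := by
      ring
    rw [e, div_le_iff₀ (by positivity)]
    have e2 : (c / R + w ^ 2 * (P / 6 / R)) * (6 * R) = 6 * c + w ^ 2 * P := by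
      field_simp
    rw [e2]
    linarith
  -- middle term
  have t4 : w ^ 2 / (24 * R ^ 2) ≤ (R - d1) ^ 2 / (24 * R ^ 2) := by
    apply div_le_div_of_nonneg_right _ (by positivity)
    exact pow_le_pow_left₀ hw hw1 2
  have t5 : w ^ 2 / 2 * (1 - w ^ 2 / (12 * R ^ 2)) - w ^ 2 * (P / 6 / R) =
      w ^ 2 * (1 / 2 - w ^ 2 / (24 * R ^ 2) - P / 6 / R) := by
    field_simp
    ring
  have t6 : 0 ≤ 4583 / 10000 - k / R := by
    have : k / R ≤ 1 / 8 := by
      rw [div_le_iff₀ hR0]; linarith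
    linarith
  have t7 : (R - d0) ^ 2 * (4583 / 10000 - k / R) ≤ w ^ 2 * (4583 / 10000 - k / R) :=
    mul_le_mul_of_nonneg_right (pow_le_pow_left₀ (by linarith) hw0 2) t6
  have t8 : w ^ 2 * (4583 / 10000 - k / R) ≤ w ^ 2 * (1 / 2 - w ^ 2 / (24 * R ^ 2) - P / 6 / R) :=
    mul_le_mul_of_nonneg_left (by linarith) (by positivity)
  linarith

theorem cp_ratio_s {R x p : ℝ} (h : Par R x p) (hp : p ≤ 9 / 4) :
    (R - 232375 / 100000) / ((R - 2) ^ 2 + 1295 / 1000) ≤ (x - 2) / ((x - 2) ^ 2 + p ^ 2) := by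
  have hR := h.hR
  have hR0 : 0 < R := by linarith
  refine le_trans ?_ (rho_ratio_s h hp)
  have e1 : 259 / 100 / R ≤ 32375 / 100000 := by rw [div_le_iff₀ hR0]; linarith
  have e2 : 1036 / 100 / R ≤ 1295 / 1000 := by rw [div_le_iff₀ hR0]; linarith
  have e3 : 0 ≤ 1036 / 100 / R := by positivity
  apply div_le_div₀ <;> nlinarith

theorem cp_ratio {R x p : ℝ} (h : Par R x p) :
    (R - 244375 / 100000) / ((R - 2) ^ 2 + 1775 / 1000) ≤ (x - 2) / ((x - 2) ^ 2 + p ^ 2) := by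
  have hR := h.hR
  have hR0 : 0 < R := by linarith
  refine le_trans ?_ (rho_ratio h)
  have e1 : 355 / 100 / R ≤ 44375 / 100000 := by rw [div_le_iff₀ hR0]; linarith
  have e2 : 1420 / 100 / R ≤ 1775 / 1000 := by rw [div_le_iff₀ hR0]; linarith
  have e3 : 0 ≤ 1420 / 100 / R := by positivity
  apply div_le_div₀ <;> nlinarith

theorem cp_numA1 {R : ℝ} (hR : 8 ≤ R) :
    (4583 / 10000 - 1 / 4 / R) ≤ 1 / 2 - (R - 1859 / 1000) ^ 2 / (24 * R ^ 2)
      - 2306 / 1000 / 6 / R := by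
  have hR0 : 0 < R := by linarith
  have : 1 / 2 - (R - 1859 / 1000) ^ 2 / (24 * R ^ 2) - 2306 / 1000 / 6 / R -
    (4583 / 10000 - 1 / 4 / R) =
    (8 / 10000 * R ^ 2 + 494 / 1000 * R - 3455881 / 1000000) / (24 * R ^ 2) := by
    field_simp
    ring
  have h2 : 0 ≤ (8 / 10000 * R ^ 2 + 494 / 1000 * R - 3455881 / 1000000) / (24 * R ^ 2) := by
    apply div_nonneg _ (by positivity)
    nlinarith
  linarith

theorem cp_numA2 {R : ℝ} (hR : 8 ≤ R) :
    4583 / 10000 * R ^ 2 - 191 / 100 * R + 32 / 10 ≤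
      4993 / 10000 * (R - 324 / 1000) + (R - 2345 / 1000) ^ 2 * (4583 / 10000 - 1 / 4 / R)
        - 51 / 100 / R := by
  have hR0 : 0 < R := by linarith
  have : 4993 / 10000 * (R - 324 / 1000) + (R - 2345 / 1000) ^ 2 * (4583 / 10000 - 1 / 4 / R)
      - 51 / 100 / R - (4583 / 10000 * R ^ 2 - 191 / 100 * R + 32 / 10) =
    ((4993 / 10000 * (R - 324 / 1000) + (R - 2345 / 1000) ^ 2 * (4583 / 10000)
      - (4583 / 10000 * R ^ 2 - 191 / 100 * R + 32 / 10)) * R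
      - (R - 2345 / 1000) ^ 2 / 4 - 51 / 100) / R := by
    field_simp
    ring
  have h2 : 0 ≤ ((4993 / 10000 * (R - 324 / 1000) + (R - 2345 / 1000) ^ 2 * (4583 / 10000)
      - (4583 / 10000 * R ^ 2 - 191 / 100 * R + 32 / 10)) * R
      - (R - 2345 / 1000) ^ 2 / 4 - 51 / 100) / R := by
    apply div_nonneg _ hR0.le
    nlinarith
  linarith

theorem cp_numA3 {R : ℝ} (hR : 8 ≤ R) :
    311 / 1000 * R * 1 ≤ (R - 232375 / 100000) / ((R - 2) ^ 2 + 1295 / 1000)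
      * (4583 / 10000 * R ^ 2 - 191 / 100 * R + 32 / 10) := by
  rw [div_mul_eq_mul_div (R - 232375 / 100000), le_div_iff₀ (by positivity)]
  nlinarith [mul_nonneg (by linarith : (0:ℝ) ≤ R - 8) (by linarith : (0:ℝ) ≤ R - 8),
    mul_nonneg (mul_nonneg (by linarith : (0:ℝ) ≤ R - 8) (by linarith : (0:ℝ) ≤ R - 8))
      (by linarith : (0:ℝ) ≤ R - 8)]

theorem cp_numB1 {R : ℝ} (hR : 8 ≤ R) :
    (4583 / 10000 - 0 / R) ≤ 1 / 2 - (R - 1859 / 1000) ^ 2 / (24 * R ^ 2)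
      - 62 / 100 / 6 / R := by
  have hR0 : 0 < R := by linarith
  have : 1 / 2 - (R - 1859 / 1000) ^ 2 / (24 * R ^ 2) - 62 / 100 / 6 / R -
    (4583 / 10000 - 0 / R) =
    (8 / 10000 * R ^ 2 + (3718 / 1000 - 248 / 100) * R - 3455881 / 1000000)
      / (24 * R ^ 2) := by
    field_simp
    ring
  have h2 : 0 ≤ (8 / 10000 * R ^ 2 + (3718 / 1000 - 248 / 100) * R - 3455881 / 1000000)
      / (24 * R ^ 2) := by
    apply div_nonneg _ (by positivity)
    nlinarith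
  linarith

theorem cp_numB2 {R : ℝ} (hR : 8 ≤ R) :
    4583 / 10000 * R ^ 2 - 1651 / 1000 * R + 233 / 100 ≤
      4993 / 10000 * (R - 324 / 1000) + (R - 2345 / 1000) ^ 2 * (4583 / 10000 - 0 / R)
        - 136 / 1000 / R := by
  have hR0 : 0 < R := by linarith
  have e1 : 136 / 1000 / R ≤ 17 / 1000 := by rw [div_le_iff₀ hR0]; linarith
  have e2 : (0:ℝ) / R = 0 := by simp
  rw [e2]
  nlinarith

theorem cp_numB3 {R : ℝ} (hR : 8 ≤ R) :
    311 / 1000 * R * (1 + 1 / (2 * R)) ≤ (R - 232375 / 100000) / ((R - 2) ^ 2 + 1295 / 1000)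
      * (4583 / 10000 * R ^ 2 - 1651 / 1000 * R + 233 / 100) := by
  have hR0 : 0 < R := by linarith
  have e : 311 / 1000 * R * (1 + 1 / (2 * R)) = 311 / 1000 * (R + 1 / 2) := by
    field_simp
  rw [e, div_mul_eq_mul_div (R - 232375 / 100000), le_div_iff₀ (by positivity)]
  nlinarith [mul_nonneg (by linarith : (0:ℝ) ≤ R - 8) (by linarith : (0:ℝ) ≤ R - 8),
    mul_nonneg (mul_nonneg (by linarith : (0:ℝ) ≤ R - 8) (by linarith : (0:ℝ) ≤ R - 8))
      (by linarith : (0:ℝ) ≤ R - 8)]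

theorem cp_numC1 {R : ℝ} (hR : 8 ≤ R) :
    (4583 / 10000 - 4505 / 10000 / R) ≤ 1 / 2 - (R - 18 / 10) ^ 2 / (24 * R ^ 2)
      - 2703 / 1000 / 6 / R := by
  have hR0 : 0 < R := by linarith
  have : 1 / 2 - (R - 18 / 10) ^ 2 / (24 * R ^ 2) - 2703 / 1000 / 6 / R -
    (4583 / 10000 - 4505 / 10000 / R) =
    (8 / 10000 * R ^ 2 + 36 / 10 * R - 324 / 100) / (24 * R ^ 2) := by
    field_simp
    ring
  have h2 : 0 ≤ (8 / 10000 * R ^ 2 + 36 / 10 * R - 324 / 100) / (24 * R ^ 2) := by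
    apply div_nonneg _ (by positivity)
    nlinarith
  linarith

theorem cp_numC2 {R : ℝ} (hR : 8 ≤ R) :
    45 / 100 * R ^ 2 - 222 / 100 * R + 43 / 10 ≤
      4993 / 10000 * (R - 444 / 1000)
        + (R - 2465 / 1000) ^ 2 * (4583 / 10000 - 4505 / 10000 / R) - 595 / 1000 / R := by
  have hR0 : 0 < R := by linarith
  have : 4993 / 10000 * (R - 444 / 1000)
      + (R - 2465 / 1000) ^ 2 * (4583 / 10000 - 4505 / 10000 / R)
      - 595 / 1000 / R - (45 / 100 * R ^ 2 - 222 / 100 * R + 43 / 10) =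
    ((4993 / 10000 * (R - 444 / 1000) + (R - 2465 / 1000) ^ 2 * (4583 / 10000)
      - (45 / 100 * R ^ 2 - 222 / 100 * R + 43 / 10)) * R
      - (R - 2465 / 1000) ^ 2 * (4505 / 10000) - 595 / 1000) / R := by
    field_simp
    ring
  have h2 : 0 ≤ ((4993 / 10000 * (R - 444 / 1000) + (R - 2465 / 1000) ^ 2 * (4583 / 10000)
      - (45 / 100 * R ^ 2 - 222 / 100 * R + 43 / 10)) * R
      - (R - 2465 / 1000) ^ 2 * (4505 / 10000) - 595 / 1000) / R := by
    apply div_nonneg _ hR0.le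
    nlinarith [mul_nonneg (by linarith : (0:ℝ) ≤ R - 8) (by linarith : (0:ℝ) ≤ R - 8),
      mul_nonneg (mul_nonneg (by linarith : (0:ℝ) ≤ R - 8) (by linarith : (0:ℝ) ≤ R - 8))
        (by linarith : (0:ℝ) ≤ R - 8)]
  linarith

theorem cp_numC3 {R : ℝ} (hR : 8 ≤ R) :
    1 / 5 * R * 1 ≤ (R - 244375 / 100000) / ((R - 2) ^ 2 + 1775 / 1000)
      * (45 / 100 * R ^ 2 - 222 / 100 * R + 43 / 10) := by
  rw [div_mul_eq_mul_div (R - 244375 / 100000), le_div_iff₀ (by positivity)]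
  nlinarith [mul_nonneg (by linarith : (0:ℝ) ≤ R - 8) (by linarith : (0:ℝ) ≤ R - 8),
    mul_nonneg (mul_nonneg (by linarith : (0:ℝ) ≤ R - 8) (by linarith : (0:ℝ) ≤ R - 8))
      (by linarith : (0:ℝ) ≤ R - 8)]

/-- ranges of the three lower bounds -/
theorem cp_rng {R : ℝ} (hR : 8 ≤ R) :
    (0 ≤ 4583 / 10000 * R ^ 2 - 191 / 100 * R + 32 / 10 ∧
      4583 / 10000 * R ^ 2 - 191 / 100 * R + 32 / 10 ≤ R ^ 2) ∧
    (0 ≤ 4583 / 10000 * R ^ 2 - 1651 / 1000 * R + 233 / 100 ∧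
      4583 / 10000 * R ^ 2 - 1651 / 1000 * R + 233 / 100 ≤ R ^ 2) ∧
    (0 ≤ 45 / 100 * R ^ 2 - 222 / 100 * R + 43 / 10 ∧
      45 / 100 * R ^ 2 - 222 / 100 * R + 43 / 10 ≤ R ^ 2) := by
  refine ⟨⟨?_, ?_⟩, ⟨?_, ?_⟩, ⟨?_, ?_⟩⟩ <;> nlinarith

theorem cp_Pbound {p q e q1 e1 P : ℝ} (hq : q ≤ q1) (he0 : 0 ≤ e) (he : e ≤ e1) (hq1 : 0 ≤ q1)
    (hP : p + q1 * e1 ≤ P) : p + q * e ≤ P := by
  have : q * e ≤ q1 * e1 := mul_le_mul hq he he0 hq1
  linarith

theorem central_pos {R x p : ℝ} (h : Par R x p) {b : ℝ} (hb0 : 0 ≤ b) (hb : b ≤ 1 / R) :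
    (p ≤ 9 / 4 → 311 / 1000 * R * b ^ 2 ≤ (x - 2) / ((x - 2) ^ 2 + p ^ 2) * AA x p b) ∧
    1 / 5 * R * b ^ 2 ≤ (x - 2) / ((x - 2) ^ 2 + p ^ 2) * AA x p b := by
  have hR := h.hR
  have hR0 : 0 < R := by linarith
  rcases hb0.eq_or_lt with rfl | hb0
  · simp [AA, sS, tT]
  have hp0 := h.hp0
  have hp := h.hp
  have hx8 := x_ge' h
  have hxR := x_le h
  have hρ : 0 < x - 2 := by linarith
  have hbR : b * R ≤ 1 := by rwa [le_div_iff₀ hR0] at hb
  have hxb : x * b ≤ 1 := by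
    have := mul_le_mul_of_nonneg_right hxR hb0.le
    linarith
  have hb8 : b ≤ 1 / 8 := by
    have := mul_le_mul_of_nonneg_left hR hb0.le
    linarith
  have hb2 : b ^ 2 ≤ 1 / R ^ 2 := by
    have := pow_le_pow_left₀ hb0.le hb 2
    rwa [div_pow, one_pow] at this
  have hb2p : 0 ≤ b ^ 2 := by positivity
  obtain ⟨w, hw0, hw1, hf⟩ := cp_f_lower h hb0 hb
  have hsn : b * (997 / 1000) ≤ Real.sin b := by
    have h1 := Real.sin_ge_sub_cube (x := b) hb0.le
    have h2 : b ^ 3 ≤ b * (1 / 64) := by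
      have h3 : b ^ 2 ≤ 1 / 64 := by
        have := pow_le_pow_left₀ hb0.le hb8 2
        norm_num at this ⊢
        linarith
      have h4 := mul_le_mul_of_nonneg_left h3 hb0.le
      linarith [h4, (by ring : b * b ^ 2 = b ^ 3)]
    linarith
  have hs2 : 0 ≤ Real.sin b := by linarith
  have hxc : x * (1 - Real.cos b) ≤ b / 2 := by
    have h0 := Real.one_sub_sq_div_two_le_cos (x := b)
    have h1 : 1 - Real.cos b ≤ b ^ 2 / 2 := by linarith
    have h2 := mul_le_mul_of_nonneg_left h1 (by linarith : (0:ℝ) ≤ x)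
    have h3 := mul_le_mul_of_nonneg_right hxb (by linarith : (0:ℝ) ≤ b / 2)
    linarith [(by ring : x * (b ^ 2 / 2) = x * b * (b / 2))]
  have h6R : 1 / (6 * R) ≤ 1 / 48 := by
    apply one_div_le_one_div_of_le (by norm_num); linarith
  have hsneg : 3 / 5 ≤ p → sS x p b ≤ 0 := by
    intro hp35
    rw [sS]
    have e2 : 3 / 5 * (b * (997 / 1000)) ≤ p * Real.sin b :=
      mul_le_mul hp35 hsn (by positivity) hp0
    linarith
  have hratio0 : 0 < (x - 2) / ((x - 2) ^ 2 + p ^ 2) := by positivity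
  -- general conclusion from a bound `l` of V
  have concl : ∀ l m K : ℝ,
      l ≤ x / 2 * (1 - 1 / (12 * R ^ 2)) + w ^ 2 / 2 * (1 - w ^ 2 / (12 * R ^ 2))
        - p / (x - 2) / (6 * R) * (x + w ^ 3) → 0 ≤ l → l ≤ R ^ 2 → 1 ≤ m →
      sS x p b ≤ m - 1 → K * R * m ≤ (x - 2) / ((x - 2) ^ 2 + p ^ 2) * l →
      K * R * b ^ 2 ≤ (x - 2) / ((x - 2) ^ 2 + p ^ 2) * AA x p b := by
    intro l m K hl hl0 hlR hm hs hK
    have hm0 : 0 < m := by linarith
    have e1 : b ^ 2 * l ≤ sS x p b + (1 - Real.cos (tT x p b)) +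
        p / (x - 2) * Real.sin (tT x p b) :=
      le_trans (mul_le_mul_of_nonneg_left hl hb2p) hf
    have e2 : b ^ 2 * l ≤ 1 := by
      calc b ^ 2 * l ≤ 1 / R ^ 2 * R ^ 2 := by
            apply mul_le_mul hb2 hlR hl0 (by positivity)
        _ = 1 := by field_simp
    have e3 := cp_AA h e1 (by positivity) hm hs (by linarith)
    have e4 := mul_le_mul_of_nonneg_left e3 hratio0.le
    refine le_trans ?_ e4
    have e5 : (x - 2) / ((x - 2) ^ 2 + p ^ 2) * (b ^ 2 * l / m) =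
        b ^ 2 * ((x - 2) / ((x - 2) ^ 2 + p ^ 2) * l) / m := by ring
    rw [e5, le_div_iff₀ hm0]
    have e6 := mul_le_mul_of_nonneg_left hK hb2p
    linarith
  obtain ⟨⟨rA0, rA1⟩, ⟨rB0, rB1⟩, ⟨rC0, rC1⟩⟩ := cp_rng hR
  have hpR0 : 0 ≤ p / (2 * R) := by positivity
  -- the first claim
  have first : p ≤ 9 / 4 →
      311 / 1000 * R * b ^ 2 ≤ (x - 2) / ((x - 2) ^ 2 + p ^ 2) * AA x p b := by
    intro hp94
    have hX : R - 324 / 1000 ≤ x := by
      have := x_ges h hp94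
      have e1 : 259 / 100 / R ≤ 32375 / 100000 := by rw [div_le_iff₀ hR0]; linarith
      linarith
    have hw0' : R - 2345 / 1000 ≤ w := by linarith
    have hq := (q_le h).2.2 hp94
    rcases le_or_gt (3 / 5) p with hp35 | hp35
    · have hpR : p / (2 * R) ≤ 141 / 1000 := by
        rw [div_le_iff₀ (by positivity)]; linarith
      have hV := cp_V (R := R) (x := x) (p := p) (w := w) (d0 := 2345 / 1000)
        (d1 := 1859 / 1000) (P := 2306 / 1000) (c := 51 / 100) (k := 1 / 4)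
        (l := 4583 / 10000 * R ^ 2 - 191 / 100 * R + 32 / 10) (X0 := 324 / 1000)
        h hX hw0' (by linarith) (by norm_num) (by norm_num) hw1
        (cp_Pbound hq hpR0 hpR (by norm_num) (by linarith)) (by linarith)
        (cp_numA1 hR) (by norm_num) (cp_numA2 hR)
      refine concl _ 1 _ hV rA0 rA1 le_rfl (by linarith [hsneg hp35]) ?_
      exact le_trans (cp_numA3 hR) (mul_le_mul_of_nonneg_right (cp_ratio_s h hp94) rA0)
    · have hpR : p / (2 * R) ≤ 375 / 10000 := by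
        rw [div_le_iff₀ (by positivity)]; linarith
      have hV := cp_V (R := R) (x := x) (p := p) (w := w) (d0 := 2345 / 1000)
        (d1 := 1859 / 1000) (P := 62 / 100) (c := 136 / 1000) (k := 0)
        (l := 4583 / 10000 * R ^ 2 - 1651 / 1000 * R + 233 / 100) (X0 := 324 / 1000)
        h hX hw0' (by linarith) (by norm_num) (by norm_num) hw1
        (cp_Pbound hq hpR0 hpR (by norm_num) (by linarith)) (by linarith)
        (cp_numB1 hR) (by norm_num) (cp_numB2 hR)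
      have hm : (1:ℝ) ≤ 1 + 1 / (2 * R) := by
        have : 0 ≤ 1 / (2 * R) := by positivity
        linarith
      refine concl _ (1 + 1 / (2 * R)) _ hV rB0 rB1 hm ?_ ?_
      · rw [sS]
        have e2 : 0 ≤ p * Real.sin b := mul_nonneg hp0 hs2
        have e3 : b / 2 ≤ 1 / (2 * R) := by
          have : 1 / (2 * R) = (1 / R) / 2 := by field_simp
          rw [this]; linarith
        linarith
      · exact le_trans (cp_numB3 hR) (mul_le_mul_of_nonneg_right (cp_ratio_s h hp94) rB0)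
  refine ⟨first, ?_⟩
  rcases le_or_gt p (9 / 4) with hp94 | hp94
  · have := first hp94
    have e : 0 ≤ R * b ^ 2 := by positivity
    linarith [(by ring : 311 / 1000 * R * b ^ 2 = 311 / 1000 * (R * b ^ 2)),
      (by ring : 1 / 5 * R * b ^ 2 = 1 / 5 * (R * b ^ 2))]
  · have hX : R - 444 / 1000 ≤ x := by
      have := x_ge h
      have e1 : 355 / 100 / R ≤ 44375 / 100000 := by rw [div_le_iff₀ hR0]; linarith
      linarith
    have hw0' : R - 2465 / 1000 ≤ w := by linarith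
    have hq := (q_le h).2.1
    have hpR : p / (2 * R) ≤ 1641 / 10000 := by
      rw [div_le_iff₀ (by positivity)]; linarith
    have hV := cp_V (R := R) (x := x) (p := p) (w := w) (d0 := 2465 / 1000)
        (d1 := 18 / 10) (P := 2703 / 1000) (c := 595 / 1000) (k := 4505 / 10000)
        (l := 45 / 100 * R ^ 2 - 222 / 100 * R + 43 / 10) (X0 := 444 / 1000)
        h hX hw0' (by linarith) (by norm_num) (by norm_num) hw1
        (cp_Pbound hq hpR0 hpR (by norm_num) (by linarith)) (by linarith)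
        (cp_numC1 hR) (by norm_num) (cp_numC2 hR)
    refine concl _ 1 _ hV rC0 rC1 le_rfl (by linarith [hsneg (by linarith)]) ?_
    exact le_trans (cp_numC3 hR) (mul_le_mul_of_nonneg_right (cp_ratio h) rC0)

end SCE
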