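import Pool.Agent.Helper22.SCE.M03

/-!
# SCE-M09: bounds for `kappa`
`kappa0 = (z^2-3z+4)/(z-2) = z - 1 + 2/(z-2)`.
`kappa - kappa0 = -[(z+4)e^(-z) + kappa0 (z+2) e^(-z)]/w`, so
`|kappa - kappa0| <= ((R+4) + |kappa0|(R+2)) e^(-x)/(R-2.01)`, and `|kappa0| <= R` gives
`<= 0.00525 ((R+4)/(R+2) + R)/(R-2.01) <= 0.00525 * 9.2/5.99 <= 0.0081`.
`Re kappa0 = x - 1 + 2 rho/D >= x - 1 + 2/R`.
* `p <= 9/4`: `>= R - 2.59/R - 1 + 2/R - 0.0081 >= 0.86 R` (`R = 8`: `6.918 >= 6.88`; the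
  difference increases with `R`).
* always: `>= R - 3.55/R - 1 + 2/R - 0.0081 > 0.8 R`.
* `|kappa0| <= |z-1| + 2/(R-2)`, `|z-1|^2 = R^2 - 2x + 1 <= (R-1)^2 + 7.1/R`, so
  `|z-1| <= R - 1 + 3.55/(R(R-1))` and `|kappa| <= R - 1 + 0.064 + 0.334 + 0.0081 <= R`
  (`R >= 8`).
-/

namespace SCE

open Complex in
theorem M09_norm_add {R x p : ℝ} (h : Par R x p) (c : ℝ) (hc : 0 ≤ c) :
    ‖zz x p + c‖ ≤ R + c := by
  refine (norm_add_le _ _).trans ?_
  rw [norm_zz h]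
  simp [abs_of_nonneg hc]

theorem M09_z1 {R x p : ℝ} (h : Par R x p) : ‖zz x p - 1‖ ≤ R - 1 + 64 / 1000 := by
  have hR := h.hR
  have hx := x_ge h
  have h1 : ‖zz x p - 1‖ ^ 2 = (x - 1) ^ 2 + p ^ 2 := by
    rw [← Complex.normSq_eq_norm_sq]
    simp [Complex.normSq_apply, zz]
    ring
  have h2 : 355 / 100 / R ≤ 355 / 800 := by
    rw [div_le_iff₀ (by linarith)]; linarith
  have hR1 : (0 : ℝ) ≤ R - 1 + 64 / 1000 := by linarith
  apply le_of_sq_le_sq _ hR1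
  rw [h1]
  nlinarith [h.hxp]

theorem M09_k0 {R x p : ℝ} (h : Par R x p) :
    ‖zz x p - 1 + 2 / (zz x p - 2)‖ ≤ R - 6 / 10 := by
  have hR := h.hR
  have h1 := M09_z1 h
  have h2 : R - 2 ≤ ‖zz x p - 2‖ := by
    rw [norm_z2]; exact (sqrtD h).1
  have h3 : ‖2 / (zz x p - 2)‖ ≤ 2 / 6 := by
    rw [norm_div]
    simp only [Complex.norm_ofNat]
    apply div_le_div_of_nonneg_left <;> linarith
  refine (norm_add_le _ _).trans ?_
  linarith

theorem M09_diff {R x p : ℝ} (h : Par R x p) :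
    ‖kap (zz x p) - (zz x p - 1 + 2 / (zz x p - 2))‖ ≤ 81 / 10000 := by
  have hR := h.hR
  obtain ⟨-, hw, hw0, hz2⟩ := ww_ge h
  obtain ⟨hE, -⟩ := exp_R8 hR (x_ge h)
  have hk := M09_k0 h
  set z := zz x p with hz
  set k0 := z - 1 + 2 / (z - 2) with hk0
  have h1 : kap z - k0 = -(Complex.exp (-z) * (k0 * (z + 2) + (z + 4)) / ww z) := by
    have h2 : k0 * (z - 2) = z ^ 2 - 3 * z + 4 := by
      rw [hk0]; field_simp; ring
    have h3 : kap z = (z ^ 2 - 3 * z + 4 - (z + 4) * Complex.exp (-z)) / ww z := rfl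
    rw [h3, eq_comm, neg_eq_iff_eq_neg, neg_sub, div_eq_iff hw0, sub_mul, div_mul_cancel₀ _ hw0, ← h2]
    have h4 : ww z = z - 2 + (z + 2) * Complex.exp (-z) := rfl
    rw [h4]
    ring
  rw [h1, norm_neg, norm_div, norm_mul, hz, norm_exp_neg, ← hz]
  rw [div_le_iff₀ (by linarith)]
  have h5 : ‖k0 * (z + 2) + (z + 4)‖ ≤ (R - 6 / 10) * (R + 2) + (R + 4) := by
    refine (norm_add_le _ _).trans (add_le_add ?_ ?_)
    · rw [norm_mul]
      have h6 := M09_norm_add h 2 (by norm_num)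
      push_cast at h6
      exact mul_le_mul hk h6 (norm_nonneg _) (by linarith)
    · have h6 := M09_norm_add h 4 (by norm_num)
      push_cast at h6
      exact h6
  have h6 := Real.exp_pos (-x)
  calc Real.exp (-x) * ‖k0 * (z + 2) + (z + 4)‖
      ≤ Real.exp (-x) * ((R - 6 / 10) * (R + 2) + (R + 4)) := mul_le_mul_of_nonneg_left h5 h6.le
    _ ≤ Real.exp (-x) * ((R + 2) * (R + 6 / 10)) := by
        apply mul_le_mul_of_nonneg_left _ h6.le
        nlinarith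
    _ = (R + 2) * Real.exp (-x) * (R + 6 / 10) := by ring
    _ ≤ 525 / 100000 * (R + 6 / 10) := mul_le_mul_of_nonneg_right hE (by linarith)
    _ ≤ 81 / 10000 * (R - 201 / 100) := by linarith
    _ ≤ 81 / 10000 * ‖ww z‖ := by linarith

theorem M09_re {R x p : ℝ} (h : Par R x p) :
    x - 1 + 2 / R - 81 / 10000 ≤ (kap (zz x p)).re := by
  have hR := h.hR
  have h1 := (Complex.abs_re_le_norm _).trans (M09_diff h)
  have h2 : (zz x p - 1 + 2 / (zz x p - 2)).re = x - 1 + 2 * ((x - 2) / ((x - 2) ^ 2 + p ^ 2)) := by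
    simp [Complex.div_re, Complex.normSq_apply, zz]
    ring
  rw [Complex.sub_re, h2] at h1
  have h3 := inv_le_ratio h
  have h4 := (abs_le.1 h1).1
  have h5 : 2 / R = 2 * (1 / R) := by ring
  linarith

theorem kap_re {R x p : ℝ} (h : Par R x p) :
    (p ≤ 9 / 4 → 86 / 100 * R ≤ (kap (zz x p)).re) ∧ 8 / 10 * R ≤ (kap (zz x p)).re := by
  have hR := h.hR
  have h0 := M09_re h
  have hR1 : 1 / R ≤ 1 / 8 := one_div_le_one_div_of_le (by norm_num) hR
  constructor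
  · intro hp
    have h1 := x_ges h hp
    have e1 : 259 / 100 / R = 259 / 100 * (1 / R) := by ring
    have e2 : 2 / R = 2 * (1 / R) := by ring
    rw [e1] at h1
    rw [e2] at h0
    linarith
  · have h1 := x_ge h
    have e1 : 355 / 100 / R = 355 / 100 * (1 / R) := by ring
    have e2 : 2 / R = 2 * (1 / R) := by ring
    rw [e1] at h1
    rw [e2] at h0
    linarith

theorem kap_norm {R x p : ℝ} (h : Par R x p) : ‖kap (zz x p)‖ ≤ R := by
  have h1 := M09_diff h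
  have h2 := M09_k0 h
  have h3 := norm_add_le (kap (zz x p) - (zz x p - 1 + 2 / (zz x p - 2)))
    (zz x p - 1 + 2 / (zz x p - 2))
  rw [sub_add_cancel] at h3
  linarith

end SCE
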