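import Mathlib

/-!
# SCE-M10: abstract central estimate
Pointwise on `[0, 1/R]`: with `w1 = n h b`, `w2 = -(n kappa b^2/2)`,
`|e^w1 - e^w2| = |int_0^1 (w1-w2) e^(w2 + t(w1-w2)) dt| <= |w1-w2| (e^(Re w1) + e^(Re w2))/2`
(convexity of `t -> e^((1-t) a + t b)`); `|w1 - w2| <= n C R^2 b^3/6`, `Re w1 <= -n c R b^2`,
`Re w2 <= -n k R b^2`.  Integrate over `[0, oo)`: `int_0^oo b^3 e^(-al b^2) db = 1/(2 al^2)`:
`n C R^2/12 (1/(2(ncR)^2) + 1/(2(nkR)^2)) = C/(24 n) (1/c^2 + 1/k^2)`.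
(On the finite interval: `b^3 e^(-al b^2)` has the primitive
`-(al b^2 + 1) e^(-al b^2)/(2 al^2)`.)
-/

namespace SCE

open Complex MeasureTheory

theorem norm_exp_sub_exp_le (w1 w2 : ℂ) :
    ‖exp w1 - exp w2‖ ≤ ‖w1 - w2‖ * ((Real.exp w1.re + Real.exp w2.re) / 2) := by
  have hd : ∀ t ∈ Set.uIcc (0 : ℝ) 1, HasDerivAt (fun s : ℝ => exp (w2 + s * (w1 - w2)))
      ((w1 - w2) * exp (w2 + t * (w1 - w2))) t := by
    intro t _
    have h1 : HasDerivAt (fun s : ℝ => w2 + (s : ℂ) * (w1 - w2)) (w1 - w2) t := by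
      have h0 : HasDerivAt (fun s : ℝ => (s : ℂ)) 1 t := Complex.ofRealCLM.hasDerivAt
      have := (h0.mul_const (w1 - w2)).const_add w2
      simpa using this
    have h2 := h1.cexp
    rw [mul_comm] at h2
    exact h2
  have hc : Continuous fun t : ℝ => (w1 - w2) * exp (w2 + t * (w1 - w2)) := by fun_prop
  have hi := intervalIntegral.integral_eq_sub_of_hasDerivAt hd (hc.intervalIntegrable 0 1)
  have he : exp w1 - exp w2 = ∫ t in (0 : ℝ)..1, (w1 - w2) * exp (w2 + t * (w1 - w2)) := by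
    rw [hi]
    simp
  rw [he]
  have hb : ‖∫ t in (0 : ℝ)..1, (w1 - w2) * exp (w2 + t * (w1 - w2))‖ ≤
      ∫ t in (0 : ℝ)..1, ‖w1 - w2‖ * ((1 - t) * Real.exp w2.re + t * Real.exp w1.re) := by
    refine (intervalIntegral.norm_integral_le_integral_norm zero_le_one).trans ?_
    refine intervalIntegral.integral_mono_on zero_le_one (hc.norm.intervalIntegrable 0 1) ?_ ?_
    · exact Continuous.intervalIntegrable (by fun_prop) 0 1
    · intro t ht
      rw [norm_mul, norm_exp]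
      refine mul_le_mul_of_nonneg_left ?_ (norm_nonneg _)
      have h1 : (w2 + (t : ℂ) * (w1 - w2)).re = (1 - t) * w2.re + t * w1.re := by
        simp
        ring
      rw [h1]
      have h2 := convexOn_exp.2 (Set.mem_univ w2.re) (Set.mem_univ w1.re)
        (show (0 : ℝ) ≤ 1 - t by linarith [ht.2]) ht.1 (by ring)
      simpa [smul_eq_mul] using h2
  refine hb.trans (le_of_eq ?_)
  rw [intervalIntegral.integral_const_mul]
  congr 1
  have e1 : ∫ t in (0 : ℝ)..1, ((1 - t) * Real.exp w2.re + t * Real.exp w1.re) =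
      (∫ t in (0 : ℝ)..1, (1 - t) * Real.exp w2.re) + ∫ t in (0 : ℝ)..1, t * Real.exp w1.re :=
    intervalIntegral.integral_add (Continuous.intervalIntegrable (by fun_prop) 0 1)
      (Continuous.intervalIntegrable (by fun_prop) 0 1)
  rw [e1, intervalIntegral.integral_mul_const, intervalIntegral.integral_mul_const,
    intervalIntegral.integral_sub (Continuous.intervalIntegrable (by fun_prop) 0 1)
      (Continuous.intervalIntegrable (by fun_prop) 0 1)]
  simp
  ring

theorem cube_int {al L : ℝ} (hal : 0 < al) (hL : 0 ≤ L) :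
    ∫ b in (0 : ℝ)..L, b ^ 3 * Real.exp (-(al * b ^ 2)) ≤ 1 / (2 * al ^ 2) := by
  have hd : ∀ b ∈ Set.uIcc (0 : ℝ) L,
      HasDerivAt (fun b : ℝ => -((al * b ^ 2 + 1) * Real.exp (-(al * b ^ 2)) / (2 * al ^ 2)))
        (b ^ 3 * Real.exp (-(al * b ^ 2))) b := by
    intro b _
    have h1 : HasDerivAt (fun b : ℝ => al * b ^ 2) (al * (2 * b)) b := by
      have := (hasDerivAt_pow 2 b).const_mul al
      simpa using this
    have h2 : HasDerivAt (fun b : ℝ => Real.exp (-(al * b ^ 2)))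
        (Real.exp (-(al * b ^ 2)) * (-(al * (2 * b)))) b := h1.neg.exp
    have h3 := (((h1.add_const 1).mul h2).div_const (2 * al ^ 2)).neg
    refine h3.congr_deriv ?_
    field_simp
    ring
  have hc : Continuous fun b : ℝ => b ^ 3 * Real.exp (-(al * b ^ 2)) := by fun_prop
  rw [intervalIntegral.integral_eq_sub_of_hasDerivAt hd (hc.intervalIntegrable 0 L)]
  have h0 : 0 ≤ (al * L ^ 2 + 1) * Real.exp (-(al * L ^ 2)) / (2 * al ^ 2) := by positivity
  simp only [ne_eq, OfNat.ofNat_ne_zero, not_false_eq_true, zero_pow, mul_zero, zero_add,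
    neg_zero, Real.exp_zero, mul_one]
  linarith

theorem central_abs {n R C c k : ℝ} {κ : ℂ} {h : ℝ → ℂ} (hn : 0 < n) (hR : 0 < R)
    (hC : 0 ≤ C) (hc : 0 < c) (hk : 0 < k) (hcont : ContinuousOn h (Set.Icc 0 (1 / R)))
    (h3 : ∀ b ∈ Set.Icc 0 (1 / R), ‖h b + κ * b ^ 2 / 2‖ ≤ C * R ^ 2 * b ^ 3 / 6)
    (hre : ∀ b ∈ Set.Icc 0 (1 / R), (h b).re ≤ -(c * R * b ^ 2))
    (hκ : 2 * k * R ≤ κ.re) :
    ∫ b in (0 : ℝ)..(1 / R), ‖exp (n * h b) - exp (-(n * κ * b ^ 2 / 2))‖ ≤
      C / (24 * n) * (1 / c ^ 2 + 1 / k ^ 2) := by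
  have hR1 : (0 : ℝ) ≤ 1 / R := by positivity
  have hcont1 : ContinuousOn (fun b : ℝ => ‖exp (n * h b) - exp (-(n * κ * b ^ 2 / 2))‖)
      (Set.Icc 0 (1 / R)) := by
    refine ContinuousOn.norm (ContinuousOn.sub ?_ ?_)
    · exact Complex.continuous_exp.comp_continuousOn (continuousOn_const.mul hcont)
    · exact Continuous.continuousOn (by fun_prop)
  have hpt : ∀ b ∈ Set.Icc 0 (1 / R), ‖exp (n * h b) - exp (-(n * κ * b ^ 2 / 2))‖ ≤
      n * C * R ^ 2 / 12 * (b ^ 3 * Real.exp (-(n * c * R * b ^ 2))) +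
        n * C * R ^ 2 / 12 * (b ^ 3 * Real.exp (-(n * k * R * b ^ 2))) := by
    intro b hb
    have h1 := norm_exp_sub_exp_le ((n : ℂ) * h b) (-(n * κ * (b : ℂ) ^ 2 / 2))
    have h2 : ‖(n : ℂ) * h b - (-(n * κ * (b : ℂ) ^ 2 / 2))‖ ≤ n * (C * R ^ 2 * b ^ 3 / 6) := by
      have e : (n : ℂ) * h b - (-(n * κ * (b : ℂ) ^ 2 / 2)) = n * (h b + κ * b ^ 2 / 2) := by
        ring
      rw [e, norm_mul, Complex.norm_real, Real.norm_eq_abs, abs_of_pos hn]
      exact mul_le_mul_of_nonneg_left (h3 b hb) hn.le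
    have h4 : ((n : ℂ) * h b).re ≤ -(n * c * R * b ^ 2) := by
      rw [Complex.re_ofReal_mul]
      have := mul_le_mul_of_nonneg_left (hre b hb) hn.le
      linarith
    have h5 : (-(n * κ * (b : ℂ) ^ 2 / 2)).re ≤ -(n * k * R * b ^ 2) := by
      have e : -((n : ℂ) * κ * (b : ℂ) ^ 2 / 2) = ((-(n * b ^ 2 / 2) : ℝ) : ℂ) * κ := by
        push_cast
        ring
      rw [e, Complex.re_ofReal_mul]
      have h6 : 0 ≤ n * b ^ 2 / 2 := by positivity
      have := mul_le_mul_of_nonneg_left hκ h6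
      linarith
    have h6 : 0 ≤ C * R ^ 2 * b ^ 3 / 6 := (norm_nonneg _).trans (h3 b hb)
    calc ‖exp (n * h b) - exp (-(n * κ * b ^ 2 / 2))‖
        ≤ n * (C * R ^ 2 * b ^ 3 / 6) * ((Real.exp (-(n * c * R * b ^ 2)) +
            Real.exp (-(n * k * R * b ^ 2))) / 2) := by
          refine h1.trans ?_
          refine mul_le_mul h2 ?_ (by positivity) (by positivity)
          have := Real.exp_le_exp.2 h4
          have := Real.exp_le_exp.2 h5
          linarith
      _ = _ := by ring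
  have hi1 : IntervalIntegrable (fun b : ℝ => b ^ 3 * Real.exp (-(n * c * R * b ^ 2)))
      MeasureTheory.volume 0 (1 / R) := Continuous.intervalIntegrable (by fun_prop) _ _
  have hi2 : IntervalIntegrable (fun b : ℝ => b ^ 3 * Real.exp (-(n * k * R * b ^ 2)))
      MeasureTheory.volume 0 (1 / R) := Continuous.intervalIntegrable (by fun_prop) _ _
  have hint : IntervalIntegrable
      (fun b : ℝ => ‖exp (n * h b) - exp (-(n * κ * b ^ 2 / 2))‖) MeasureTheory.volume 0
        (1 / R) := by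
    refine ContinuousOn.intervalIntegrable ?_
    rwa [Set.uIcc_of_le hR1]
  refine (intervalIntegral.integral_mono_on hR1 hint
    ((hi1.const_mul _).add (hi2.const_mul _)) hpt).trans ?_
  rw [intervalIntegral.integral_add (hi1.const_mul _) (hi2.const_mul _),
    intervalIntegral.integral_const_mul, intervalIntegral.integral_const_mul]
  have c1 := cube_int (al := n * c * R) (L := 1 / R) (by positivity) hR1
  have c2 := cube_int (al := n * k * R) (L := 1 / R) (by positivity) hR1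
  have hm : 0 ≤ n * C * R ^ 2 / 12 := by positivity
  have d1 := mul_le_mul_of_nonneg_left c1 hm
  have d2 := mul_le_mul_of_nonneg_left c2 hm
  refine (add_le_add d1 d2).trans (le_of_eq ?_)
  field_simp
  ring

end SCE
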