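import Pool.Agent.Helper22.SCE.M05
import Pool.Agent.Helper22.SCE.M06
import Pool.Agent.Helper22.SCE.M07
import Pool.Agent.Helper22.SCE.M08
import Pool.Agent.Helper22.SCE.M09
import Pool.Agent.Helper22.SCE.M10

/-!
# SCE-M11: the central zone
`re_hh_neg`, `re_hh_pos`: `Re hh <= Re h0 + |hh - h0| <= -(rho/D) AA + R b^2/1000` (M03 `re_h0`,
M05 `near_diff`, M07, M08).  `hh_cont`: `hh z` is continuous in `b` (composition).

`central`: split `int_{-1/R}^{1/R} = int_0^{1/R} (b) + int_0^{1/R} (-b)` and apply `central_abs`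
(M10) to `h b = hh z b` (`C = 1.38`, `c = 0.31`, `k = 0.43`; M06 `taylor_pos`) and to
`h b = hh z (-b)` (`C = 1.18`, `c = 0.25`, `k = 0.43`; `taylor_neg`).  Sum of the two bounds:
`(1/(24 n)) (1.18 (1/0.0625 + 1/0.1849) + 1.38 (1/0.0961 + 1/0.1849)) <= 47.09/(24 n)`
(`1/0.1849 <= 5.4084`, `1/0.0961 <= 10.4059`), and
`sqrt(nR/(2 pi)) 47.09/(24 n) = sqrt(R/n) 47.09/(24 sqrt(2 pi)) <= 0.783 sqrt(R/n)`
(`sqrt(2 pi) >= 2.5066`).
-/

namespace SCE

open Complex MeasureTheory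

theorem hh_cont (z : ℂ) : Continuous (hh z) := by
  unfold hh uu
  fun_prop

theorem re_hh_neg {R x p : ℝ} (h : Par R x p) {a : ℝ} (ha0 : 0 ≤ a) (ha : a ≤ 1 / R) :
    (p ≤ 9 / 4 → (hh (zz x p) (-a)).re ≤ -(1 / 4 * R * a ^ 2)) ∧
    (hh (zz x p) (-a)).re ≤ -(199 / 1000 * R * a ^ 2) := by
  have hR := h.hR
  have hx := x_ge' h
  have hr := re_h0 (x := x) (p := p) (by linarith) (-a)
  have hab : |(-a)| ≤ 1 / R := by rw [abs_neg, abs_of_nonneg ha0]; exact ha
  have hd := near_diff h hab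
  have h1 : (hh (zz x p) (-a)).re = (h0 (zz x p) (-a)).re +
      (hh (zz x p) (-a) - h0 (zz x p) (-a)).re := by
    rw [sub_re]
    ring
  have h2 : (hh (zz x p) (-a) - h0 (zz x p) (-a)).re ≤
      ‖hh (zz x p) (-a) - h0 (zz x p) (-a)‖ :=
    (le_abs_self _).trans (abs_re_le_norm _)
  obtain ⟨hc1, hc2⟩ := central_neg h ha0 ha
  have h3 : (-a) ^ 2 = a ^ 2 := by ring
  rw [h3] at hd
  constructor
  · intro hp
    have := hc1 hp
    rw [h1, hr]
    linarith
  · rw [h1, hr]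
    linarith

theorem re_hh_pos {R x p : ℝ} (h : Par R x p) {b : ℝ} (hb0 : 0 ≤ b) (hb : b ≤ 1 / R) :
    (p ≤ 9 / 4 → (hh (zz x p) b).re ≤ -(31 / 100 * R * b ^ 2)) ∧
    (hh (zz x p) b).re ≤ -(199 / 1000 * R * b ^ 2) := by
  have hR := h.hR
  have hx := x_ge' h
  have hr := re_h0 (x := x) (p := p) (by linarith) b
  have hab : |b| ≤ 1 / R := by rw [abs_of_nonneg hb0]; exact hb
  have hd := near_diff h hab
  have h1 : (hh (zz x p) b).re = (h0 (zz x p) b).re +
      (hh (zz x p) b - h0 (zz x p) b).re := by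
    rw [sub_re]
    ring
  have h2 : (hh (zz x p) b - h0 (zz x p) b).re ≤
      ‖hh (zz x p) b - h0 (zz x p) b‖ :=
    (le_abs_self _).trans (abs_re_le_norm _)
  obtain ⟨hc1, hc2⟩ := central_pos h hb0 hb
  constructor
  · intro hp
    have := hc1 hp
    rw [h1, hr]
    linarith
  · rw [h1, hr]
    linarith

theorem central {R x p n : ℝ} (h : Par R x p) (hp : p ≤ 9 / 4) (hn : 0 < n) :
    Real.sqrt (n * R / (2 * Real.pi)) *
      ∫ b in (-(1 / R))..(1 / R),
        ‖exp (n * hh (zz x p) b) - exp (-(n * kap (zz x p) * b ^ 2 / 2))‖ ≤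
      783 / 1000 * Real.sqrt (R / n) := by
  have hR := h.hR
  have hR0 : 0 < R := by linarith
  have hR1 : 0 ≤ 1 / R := by positivity
  set z := zz x p with hz
  have hcont : Continuous (fun b : ℝ => ‖exp (n * hh z b) - exp (-(n * kap z * b ^ 2 / 2))‖) := by
    have := hh_cont z
    fun_prop
  have hκ : 2 * (43 / 100) * R ≤ (kap z).re := by
    have := (kap_re h).1 hp
    rw [hz]
    linarith
  have hpos : ∫ b in (0 : ℝ)..(1 / R),
      ‖exp (n * hh z b) - exp (-(n * kap z * b ^ 2 / 2))‖ ≤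
      (138 / 100) / (24 * n) * (1 / (31 / 100) ^ 2 + 1 / (43 / 100) ^ 2) := by
    refine central_abs hn hR0 (by norm_num) (by norm_num) (by norm_num)
      (hh_cont z).continuousOn ?_ ?_ hκ
    · intro b hb
      have := taylor_pos h hp hb.1 hb.2
      rwa [abs_of_nonneg hb.1] at this
    · intro b hb
      exact (re_hh_pos h hb.1 hb.2).1 hp
  have hneg : ∫ b in (0 : ℝ)..(1 / R),
      ‖exp (n * hh z (-b)) - exp (-(n * kap z * b ^ 2 / 2))‖ ≤
      (118 / 100) / (24 * n) * (1 / (1 / 4) ^ 2 + 1 / (43 / 100) ^ 2) := by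
    refine central_abs (h := fun b => hh z (-b)) hn hR0 (by norm_num) (by norm_num) (by norm_num)
      ((hh_cont z).comp continuous_neg).continuousOn ?_ ?_ hκ
    · intro b hb
      have h1 : -b ≤ 0 := by linarith [hb.1]
      have h2 : -(1 / R) ≤ -b := by linarith [hb.2]
      have := taylor_neg h hp h1 h2
      rw [abs_neg, abs_of_nonneg hb.1] at this
      have h3 : (((-b : ℝ) : ℂ)) ^ 2 = (b : ℂ) ^ 2 := by push_cast; ring
      rw [h3] at this
      exact this
    · intro b hb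
      exact (re_hh_neg h hb.1 hb.2).1 hp
  have hsplit : ∫ b in (-(1 / R))..(1 / R),
      ‖exp (n * hh z b) - exp (-(n * kap z * b ^ 2 / 2))‖ =
      (∫ b in (0 : ℝ)..(1 / R), ‖exp (n * hh z (-b)) - exp (-(n * kap z * b ^ 2 / 2))‖) +
      ∫ b in (0 : ℝ)..(1 / R), ‖exp (n * hh z b) - exp (-(n * kap z * b ^ 2 / 2))‖ := by
    rw [← intervalIntegral.integral_add_adjacent_intervals
      (hcont.intervalIntegrable (-(1 / R)) 0) (hcont.intervalIntegrable 0 (1 / R))]
    congr 1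
    have := intervalIntegral.integral_comp_neg (a := 0) (b := 1 / R)
      (fun b : ℝ => ‖exp (n * hh z b) - exp (-(n * kap z * b ^ 2 / 2))‖)
    rw [neg_zero] at this
    rw [← this]
    refine intervalIntegral.integral_congr ?_
    intro b _
    simp only
    have h3 : (((-b : ℝ) : ℂ)) ^ 2 = (b : ℂ) ^ 2 := by push_cast; ring
    rw [h3]
  rw [hsplit]
  have hs2 : Real.sqrt (n * R / (2 * Real.pi)) = n * Real.sqrt (R / n) / Real.sqrt (2 * Real.pi) := by
    have e1 : n * R / (2 * Real.pi) = (n ^ 2 * (R / n)) / (2 * Real.pi) := by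
      field_simp
    rw [e1, Real.sqrt_div (by positivity), Real.sqrt_mul (by positivity), Real.sqrt_sq hn.le]
  have hpi : (2506 / 1000 : ℝ) ≤ Real.sqrt (2 * Real.pi) := by
    apply Real.le_sqrt_of_sq_le
    have := Real.pi_gt_d4
    norm_num at this ⊢
    linarith
  have hsum : (∫ b in (0 : ℝ)..(1 / R),
        ‖exp (n * hh z (-b)) - exp (-(n * kap z * b ^ 2 / 2))‖) +
      (∫ b in (0 : ℝ)..(1 / R), ‖exp (n * hh z b) - exp (-(n * kap z * b ^ 2 / 2))‖) ≤
      (4709 / 100 / 24) / n := by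
    have e1 : (4709 / 100 / 24) / n - ((118 / 100) / (24 * n) * (1 / (1 / 4) ^ 2 + 1 / (43 / 100) ^ 2)
      + (138 / 100) / (24 * n) * (1 / (31 / 100) ^ 2 + 1 / (43 / 100) ^ 2)) =
      ((4709 / 100) - (118 / 100 * (1 / (1 / 4) ^ 2 + 1 / (43 / 100) ^ 2) +
        138 / 100 * (1 / (31 / 100) ^ 2 + 1 / (43 / 100) ^ 2))) / 24 / n := by
      field_simp
    have e2 : 0 ≤ ((4709 / 100) - (118 / 100 * (1 / (1 / 4) ^ 2 + 1 / (43 / 100) ^ 2) +
        138 / 100 * (1 / (31 / 100) ^ 2 + 1 / (43 / 100) ^ 2))) / 24 / n := by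
      refine div_nonneg ?_ hn.le
      norm_num
    linarith
  have hsn : 0 ≤ Real.sqrt (R / n) := Real.sqrt_nonneg _
  calc Real.sqrt (n * R / (2 * Real.pi)) * _
      ≤ Real.sqrt (n * R / (2 * Real.pi)) * ((4709 / 100 / 24) / n) :=
        mul_le_mul_of_nonneg_left hsum (Real.sqrt_nonneg _)
    _ = (4709 / 100 / 24) / Real.sqrt (2 * Real.pi) * Real.sqrt (R / n) := by
        rw [hs2]
        field_simp
    _ ≤ _ := by
        refine mul_le_mul_of_nonneg_right ?_ hsn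
        rw [div_le_iff₀ (by linarith)]
        linarith

end SCE
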