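import Pool.Agent.Helper22.SCE.M01

/-!
# SCE-M16: geometry of the circle: lower bounds for `s`
Put `X = x - s = x cos b + p sin b`, `Y = x sin b - p cos b` (so `X + iY = z e^(ib)`,
`X^2 + Y^2 = R^2 = x^2 + p^2`), `tau = Y + p - 2b`, and `s (x + X) = x^2 - X^2 = Y^2 - p^2`.
* `tau_lt_of_neg`: `0 <= b <= 4/5`, `s < 0`: `X > x > 0`, `Y^2 < p^2`, `Y < p`,
  `tau = Y + p - 2b < 2p - 2b`.
* `geo_pos`: `1/R <= b <= 4/5`, `Theta = tau + gamma >= 2 pi - 1`.  First `s >= 0`: otherwise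
  `Theta < 2p - 2b + gamma <= 21/4 - 2/R + q`, `q <= 2.625/(R-2-3.55/R)`; at `R = 8`:
  `5.25 - 0.25 + 0.4725 = 5.4725`, too large, so use also a lower bound of `b`: from
  `tau >= 2 pi - 1 - gamma >= 4.81` and `tau <= rho b + (p/2) b^2 <= (rho + 1.05) b` we get
  `2b >= 9.62/(rho + 1.05) >= q` (as `q <= 2.625/rho`, `rho >= 5.556`), hence
  `Theta < 21/4 < 2 pi - 1`, contradiction.
  Then `X <= x`, `X >= x cos b > 0`, so `0 < x + X <= 2x <= 2R`, and
  `Y = tau - p + 2b >= Theta - p` (as `2b >= q >= gamma`), `Theta - p >= p` so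
  `Y^2 - p^2 >= (Theta-p)^2 - p^2 = Theta(Theta - 2p) >= Theta (Theta - 21/4) >= 0` and
  `s >= Theta(Theta - 21/4)/(2R)`.
* `geo_neg`: `0 <= a <= 3/5`, `s = sS x p (-a) >= 0` obviously, `tm = -tT x p (-a)`,
  `Thm = tm - gamma >= 0`: here `Y = -(p cos a + x sin a)`, `|Y| = tm + p + 2a`,
  `Y^2 - p^2 = (tm + 2a)(tm + 2a + 2p) >= tm^2 >= Thm^2`, `s >= Thm^2/(2R)`.
-/

namespace SCE

private theorem m16_arctan_le {q : ℝ} (hq : 0 ≤ q) : Real.arctan q ≤ q := by
  have h0 : 0 ≤ Real.arctan q := Real.arctan_nonneg.2 hq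
  have h1 := Real.le_tan h0 (Real.arctan_lt_pi_div_two q)
  rwa [Real.tan_arctan] at h1

private theorem m16_gam {R x p : ℝ} (h : Par R x p) :
    0 ≤ gam x p ∧ gam x p ≤ p / (x - 2) ∧ gam x p ≤ 4725 / 10000 := by
  obtain ⟨h1, h2, _⟩ := q_le h
  unfold gam
  have h3 := m16_arctan_le h1
  exact ⟨Real.arctan_nonneg.2 h1, h3, h3.trans h2⟩

theorem tau_lt_of_neg {R x p : ℝ} (h : Par R x p) {b : ℝ} (hb0 : 0 ≤ b) (hb : b ≤ 4 / 5)
    (hs : sS x p b < 0) : tT x p b < 2 * p - 2 * b := by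
  unfold sS at hs
  unfold tT
  have h1 := Real.sin_sq_add_cos_sq b
  have hx := h.hx
  have hp := h.hp0
  generalize Real.sin b = S at hs h1 ⊢
  generalize Real.cos b = K at hs h1 ⊢
  have hX : x < x * K + p * S := by linarith
  have hXY : (x * K + p * S) ^ 2 + (x * S - p * K) ^ 2 = x ^ 2 + p ^ 2 := by
    linear_combination (x ^ 2 + p ^ 2) * h1
  have h2 : x ^ 2 < (x * K + p * S) ^ 2 := by nlinarith
  have h3 : (x * S - p * K) ^ 2 < p ^ 2 := by linarith
  have h4 : x * S - p * K < p := by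
    by_contra hc
    push Not at hc
    nlinarith
  linarith

theorem geo_pos {R x p : ℝ} (h : Par R x p) {b : ℝ} (hb0 : 1 / R ≤ b) (hb : b ≤ 4 / 5)
    (hT : 2 * Real.pi - 1 ≤ tT x p b + gam x p) :
    (tT x p b + gam x p) * (tT x p b + gam x p - 21 / 4) / (2 * R) ≤ sS x p b := by
  obtain ⟨g0, g1, g2⟩ := m16_gam h
  have hpi := Real.pi_gt_d4
  have hR : 0 < R := by linarith [h.hR]
  have hb0' : 0 < b := lt_of_lt_of_le (by positivity) hb0
  have hx := h.hx
  have hp := h.hp0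
  have hp' := h.hp
  have hx2 := x_ge' h
  have hxR := x_le h
  have hrho : 0 < x - 2 := by linarith
  -- `q ≤ 2 b`
  have hq2b : p / (x - 2) ≤ 2 * b := by
    have h1 : tT x p b ≤ (x - 2 + 105 / 100) * b := by
      unfold tT
      have h2 := Real.sin_le hb0'.le
      have h3 := Real.one_sub_sq_div_two_le_cos (x := b)
      have h4 : x * Real.sin b ≤ x * b := mul_le_mul_of_nonneg_left h2 hx.le
      have h5 : p * (1 - Real.cos b) ≤ p * (b ^ 2 / 2) :=
        mul_le_mul_of_nonneg_left (by linarith) hp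
      have h6 : p * (b ^ 2 / 2) ≤ 105 / 100 * b := by
        have h7 : p * b ≤ 21 / 8 * (4 / 5) := mul_le_mul hp' hb hb0'.le (by norm_num)
        nlinarith
      linarith
    have h8 : 481 / 100 ≤ (x - 2 + 105 / 100) * b := by linarith
    rw [div_le_iff₀ hrho]
    by_contra hc
    push Not at hc
    nlinarith
  have hs0 : 0 ≤ sS x p b := by
    by_contra hc
    push Not at hc
    have h1 := tau_lt_of_neg h hb0'.le hb hc
    linarith
  have hcos : 0 < Real.cos b := by
    refine Real.cos_pos_of_mem_Ioo ⟨by linarith, by linarith⟩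
  have hsin : 0 < Real.sin b := Real.sin_pos_of_pos_of_lt_pi hb0' (by linarith)
  rw [div_le_iff₀ (by positivity)]
  have hY : tT x p b + gam x p - p ≤ x * Real.sin b - p * Real.cos b := by
    have : tT x p b = x * Real.sin b - p * Real.cos b + p - 2 * b := by
      unfold tT
      ring
    linarith
  have hsX : sS x p b = x - (x * Real.cos b + p * Real.sin b) := by
    unfold sS
    ring
  have h1 := Real.sin_sq_add_cos_sq b
  have hXpos : 0 ≤ x * Real.cos b + p * Real.sin b := by positivity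
  generalize hTh : tT x p b + gam x p = Θ at hT hY ⊢
  generalize sS x p b = s at hs0 hsX ⊢
  generalize Real.sin b = S at hY hsX h1 hXpos
  generalize Real.cos b = K at hY hsX h1 hXpos
  have hXY : (x * K + p * S) ^ 2 + (x * S - p * K) ^ 2 = x ^ 2 + p ^ 2 := by
    linear_combination (x ^ 2 + p ^ 2) * h1
  generalize x * K + p * S = X at hXY hsX hXpos
  generalize x * S - p * K = Y at hXY hY
  have hkey : s * (x + X) = Y ^ 2 - p ^ 2 := by
    rw [hsX]
    linear_combination (-1 : ℝ) * hXY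
  have hTp : 2 * p ≤ Θ := by linarith
  have h2 : (Θ - p) ^ 2 ≤ Y ^ 2 := by nlinarith
  have h3 : Θ * (Θ - 21 / 4) ≤ Y ^ 2 - p ^ 2 := by nlinarith
  have h4 : s * (x + X) ≤ s * (2 * R) := mul_le_mul_of_nonneg_left (by linarith) hs0
  linarith

theorem geo_neg {R x p : ℝ} (h : Par R x p) {a : ℝ} (ha0 : 0 ≤ a) (ha : a ≤ 3 / 5)
    (hT : 0 ≤ -(tT x p (-a)) - gam x p) :
    (-(tT x p (-a)) - gam x p) ^ 2 / (2 * R) ≤ sS x p (-a) := by
  obtain ⟨g0, g1, g2⟩ := m16_gam h
  have hpi := Real.pi_gt_d4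
  have hR : 0 < R := by linarith [h.hR]
  have hx := h.hx
  have hp := h.hp0
  have hxR := x_le h
  have hsin : 0 ≤ Real.sin a := Real.sin_nonneg_of_nonneg_of_le_pi ha0 (by linarith)
  have hcos := Real.cos_le_one a
  have h1 := Real.sin_sq_add_cos_sq a
  rw [div_le_iff₀ (by positivity)]
  have hs : sS x p (-a) = x - (x * Real.cos a - p * Real.sin a) := by
    unfold sS
    rw [Real.cos_neg, Real.sin_neg]
    ring
  have ht : -(tT x p (-a)) = (p * Real.cos a + x * Real.sin a) - p - 2 * a := by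
    unfold tT
    rw [Real.cos_neg, Real.sin_neg]
    ring
  have hs0 : 0 ≤ sS x p (-a) := by
    rw [hs]
    nlinarith
  generalize sS x p (-a) = s at hs hs0 ⊢
  generalize -(tT x p (-a)) = t at ht hT ⊢
  generalize gam x p = g at g0 hT ⊢
  generalize Real.sin a = S at hs ht h1
  generalize Real.cos a = K at hs ht h1
  have hXY : (x * K - p * S) ^ 2 + (p * K + x * S) ^ 2 = x ^ 2 + p ^ 2 := by
    linear_combination (x ^ 2 + p ^ 2) * h1
  generalize x * K - p * S = X at hXY hs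
  generalize p * K + x * S = Y at hXY ht
  have hkey : s * (x + X) = Y ^ 2 - p ^ 2 := by
    rw [hs]
    linear_combination (-1 : ℝ) * hXY
  have hY : Y = t + 2 * a + p := by linarith
  have h2 : (t - g) ^ 2 ≤ Y ^ 2 - p ^ 2 := by
    rw [hY]
    have h3 : 0 ≤ t := by linarith
    have h4 : (t - g) ^ 2 ≤ t ^ 2 := by nlinarith
    have h5 : 0 ≤ t * a := mul_nonneg h3 ha0
    have h6 : 0 ≤ t * p := mul_nonneg h3 hp
    have h7 : 0 ≤ a * p := mul_nonneg ha0 hp
    nlinarith
  have h4 : s * (x + X) ≤ s * (2 * R) := mul_le_mul_of_nonneg_left (by linarith) hs0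
  linarith

end SCE
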