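import Pool.Agent.Helper22.SCE.M01

/-!
# SCE-M17: lower bounds of `AA` in terms of `s` and `Theta`
* `AA_eq`: `cos tau - q sin tau = sqrt(1+q^2) cos(tau + arctan q)` (`cos arctan q
  = 1/sqrt(1+q^2)`, `sin arctan q = q/sqrt(1+q^2)`).
* `AA_ge_one`: `cos Theta <= 0`.
* `AA_ge`: `0 <= s0 <= s`, `cos Theta >= 0`: `e^(-s) <= e^(-s0) <= 1/(1+s0)`,
  `sqrt(1+q^2) <= 1 + q^2/2`, so `AA >= 1 - (1+q^2/2) cos Theta/(1+s0)
  >= (s0 + 1 - cos Theta - q^2/2)/(1+s0)`.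
* `AA_ge_min`: `0 <= s0 <= s`, `q^2/2 <= s0`, `q^2/2 <= 1/9`... : if `cos Theta <= 0`, `AA >= 1`.
  If `cos Theta > 0` and `s0 <= 1`: `AA >= (s0 + 1 - cos Theta - q^2/2)/(1+s0) >= (...)/2`
  (numerator `>= 0`).  If `s0 >= 1`: use `s0' = 1` in `AA_ge`: `AA >= (1 + 1 - cos Theta - q^2/2)/2
  >= (1 - q^2/2)/2 >= 0.44` (`q <= 0.4725`, so `q^2/2 <= 0.1117`).
* the versions for `-a` (`AA_neg_ge'`): `AA x p (-a)` with `Thm = -tT x p (-a) - gam x p`:
  `cos(tT(-a) + gam) = cos(Thm)` by evenness: `tT(-a) + gam = -Thm`.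
-/

namespace SCE

theorem AA_eq {R x p : ℝ} (h : Par R x p) (b : ℝ) :
    AA x p b = 1 - Real.exp (-(sS x p b)) * (Real.sqrt (1 + (p / (x - 2)) ^ 2) *
      Real.cos (tT x p b + gam x p)) := by
  have _ := h.hR
  unfold AA gam
  set q := p / (x - 2)
  have h1 : 0 < Real.sqrt (1 + q ^ 2) := Real.sqrt_pos.2 (by positivity)
  rw [Real.cos_add, Real.cos_arctan, Real.sin_arctan]
  field_simp

theorem gam_bounds {R x p : ℝ} (h : Par R x p) :
    0 ≤ gam x p ∧ gam x p ≤ p / (x - 2) ∧ gam x p ≤ 4725 / 10000 := by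
  obtain ⟨h0, h1, -⟩ := q_le h
  have h2 : gam x p ≤ p / (x - 2) := by
    unfold gam
    have h3 : 0 ≤ Real.arctan (p / (x - 2)) := Real.arctan_nonneg.2 h0
    have h4 := Real.le_tan h3 (Real.arctan_lt_pi_div_two _)
    rwa [Real.tan_arctan] at h4
  exact ⟨Real.arctan_nonneg.2 h0, h2, h2.trans h1⟩

theorem AA_ge_one {R x p : ℝ} (h : Par R x p) {b : ℝ}
    (hc : Real.cos (tT x p b + gam x p) ≤ 0) : 1 ≤ AA x p b := by
  rw [AA_eq h]
  have h1 := Real.sqrt_nonneg (1 + (p / (x - 2)) ^ 2)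
  have h2 := (Real.exp_pos (-(sS x p b))).le
  have h3 := mul_nonpos_of_nonneg_of_nonpos h2 (mul_nonpos_of_nonneg_of_nonpos h1 hc)
  linarith

theorem AA_ge {R x p : ℝ} (h : Par R x p) {b s0 : ℝ} (h0 : 0 ≤ s0) (hs : s0 ≤ sS x p b)
    (hc : 0 ≤ Real.cos (tT x p b + gam x p)) :
    (s0 + 1 - Real.cos (tT x p b + gam x p) - (p / (x - 2)) ^ 2 / 2) / (1 + s0) ≤ AA x p b := by
  rw [AA_eq h]
  set q := p / (x - 2)
  set c := Real.cos (tT x p b + gam x p) with hcd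
  have hc1 : c ≤ 1 := Real.cos_le_one _
  have hq : Real.sqrt (1 + q ^ 2) ≤ 1 + q ^ 2 / 2 := by
    apply Real.sqrt_le_iff.2 ⟨by positivity, by nlinarith [sq_nonneg (q ^ 2)]⟩
  have hs1 : (0 : ℝ) < 1 + s0 := by linarith
  have he : Real.exp (-(sS x p b)) ≤ 1 / (1 + s0) := by
    have h1 : Real.exp (-(sS x p b)) ≤ Real.exp (-s0) := Real.exp_le_exp.2 (by linarith)
    refine h1.trans ?_
    rw [Real.exp_neg, ← one_div]
    exact one_div_le_one_div_of_le hs1 (by linarith [Real.add_one_le_exp s0])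
  have h2 : Real.sqrt (1 + q ^ 2) * c ≤ c + q ^ 2 / 2 := by
    calc _ ≤ (1 + q ^ 2 / 2) * c := mul_le_mul_of_nonneg_right hq hc
      _ ≤ c + q ^ 2 / 2 := by nlinarith [sq_nonneg q]
  have h3 : Real.exp (-(sS x p b)) * (Real.sqrt (1 + q ^ 2) * c) ≤
      1 / (1 + s0) * (c + q ^ 2 / 2) :=
    mul_le_mul he h2 (mul_nonneg (Real.sqrt_nonneg _) hc) (by positivity)
  have h4 : (s0 + 1 - c - q ^ 2 / 2) / (1 + s0) = 1 - 1 / (1 + s0) * (c + q ^ 2 / 2) := by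
    field_simp
    ring
  rw [h4]
  linarith

theorem AA_ge_min {R x p : ℝ} (h : Par R x p) {b s0 : ℝ} (hs : s0 ≤ sS x p b)
    (hq : (p / (x - 2)) ^ 2 / 2 ≤ s0) :
    min ((s0 + 1 - Real.cos (tT x p b + gam x p) - (p / (x - 2)) ^ 2 / 2) / 2) (44 / 100) ≤
      AA x p b := by
  obtain ⟨hq0, hq1, -⟩ := q_le h
  have hc1 := Real.cos_le_one (tT x p b + gam x p)
  have h0 : 0 ≤ s0 := le_trans (by positivity) hq
  rcases le_or_gt (Real.cos (tT x p b + gam x p)) 0 with hc | hc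
  · exact (min_le_right _ _).trans ((by norm_num : (44 / 100 : ℝ) ≤ 1).trans (AA_ge_one h hc))
  rcases le_or_gt s0 1 with h1 | h1
  · refine (min_le_left _ _).trans (le_trans ?_ (AA_ge h h0 hs hc.le))
    apply div_le_div_of_nonneg_left _ _ _
    · linarith
    · linarith
    · linarith
  · refine (min_le_right _ _).trans (le_trans ?_ (AA_ge h zero_le_one (h1.le.trans hs) hc.le))
    rw [le_div_iff₀ (by norm_num)]
    nlinarith [mul_self_le_mul_self hq0 hq1]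

end SCE
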