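import Pool.Agent.Helper22.SCE.M13
import Pool.Agent.Helper22.SCE.M16
import Pool.Agent.Helper22.SCE.M17

/-!
# SCE-M19: pointwise majorant on the left side, `b = -a`, `1/R <= a <= 3/5` (`p <= 9/4`)
`tm = -tT x p (-a)`, `Thm = tm - gamma`, `et = 0.07/R`.
* `Thm <= 2 pi - 1`: M13.
* `Thm >= 2 pi - 1`: then `tm >= 2 pi - 1`, and `tm <= x sin a - 2a <= x sin(3/5) - 6/5` (increasing
  in `a`), `sin(3/5) <= 0.5647`, so `x >= 11.4`, `R >= 11.4`.  M16 `geo_neg`:
  `s >= s0 := Thm^2/(2R) >= 13.95/R`; `Q + 2 et <= 0.06 s0`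
  (`3.4454/(R-2-3.55/R)^2 + 0.14/R <= 0.837/R` for `R >= 11.4`).
  M17 `AA_ge_min` for `b = -a` (note `tT x p (-a) + gam x p = -Thm`, `cos` even): either
  `AA >= 0.44`, or `N(AA - et) >= (N/2)(0.94 s0 + 1 - cos Thm)` and
  `(N/2) 0.94 s0 = 0.235 (N/R) Thm^2 >= 0.235*1.65*5.283 Thm >= 2 Thm`.
-/

namespace SCE

private lemma m19_nonneg_of_deriv {f f' : ℝ → ℝ} (hf : ∀ t, HasDerivAt f (f' t) t) (h0 : f 0 = 0)
    (h' : ∀ t, 0 ≤ t → 0 ≤ f' t) {t : ℝ} (ht : 0 ≤ t) : 0 ≤ f t := by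
  have hm : MonotoneOn f (Set.Ici 0) := by
    refine monotoneOn_of_deriv_nonneg (convex_Ici 0)
      (fun s _ => (hf s).continuousAt.continuousWithinAt) ?_ ?_
    · exact fun s _ => (hf s).differentiableAt.differentiableWithinAt
    · intro s hs
      rw [interior_Ici] at hs
      rw [(hf s).deriv]
      exact h' s (le_of_lt hs)
  have := hm (Set.mem_Ici.2 le_rfl) (Set.mem_Ici.2 ht) ht
  rwa [h0] at this

private lemma m19_cos_upper4 {t : ℝ} (ht : 0 ≤ t) :
    0 ≤ 1 - t ^ 2 / 2 + t ^ 4 / 24 - Real.cos t := by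
  refine m19_nonneg_of_deriv (f := fun t => 1 - t ^ 2 / 2 + t ^ 4 / 24 - Real.cos t)
    (f' := fun t => - t + t ^ 3 / 6 + Real.sin t) (fun s => ?_) (by simp) (fun s hs => ?_) ht
  · have := (((hasDerivAt_const s (1 : ℝ)).sub (((hasDerivAt_id' s).fun_pow 2).div_const 2)).add
      (((hasDerivAt_id' s).fun_pow 4).div_const 24)).sub (Real.hasDerivAt_cos s)
    exact this.congr_deriv (by push_cast; ring)
  · have := Real.sin_ge_sub_cube hs
    linarith

private lemma m19_sin_upper5 {t : ℝ} (ht : 0 ≤ t) :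
    Real.sin t ≤ t - t ^ 3 / 6 + t ^ 5 / 120 := by
  have : 0 ≤ t - t ^ 3 / 6 + t ^ 5 / 120 - Real.sin t := by
    refine m19_nonneg_of_deriv (f := fun t => t - t ^ 3 / 6 + t ^ 5 / 120 - Real.sin t)
      (f' := fun t => 1 - t ^ 2 / 2 + t ^ 4 / 24 - Real.cos t) (fun s => ?_) (by simp)
      (fun s hs => m19_cos_upper4 hs) ht
    have := (((hasDerivAt_id' s).sub (((hasDerivAt_id' s).fun_pow 3).div_const 6)).add
        (((hasDerivAt_id' s).fun_pow 5).div_const 120)).sub (Real.hasDerivAt_sin s)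
    exact this.congr_deriv (by push_cast; ring)
  linarith

theorem zone_neg1 {R x p N a : ℝ} (h : Par R x p) (hp : p ≤ 9 / 4) (hN : 0 ≤ N)
    (ha0 : 1 / R ≤ a) (ha : a ≤ 3 / 5) (hT : -(tT x p (-a)) - gam x p ≤ 2 * Real.pi - 1) :
    Real.exp (-(N * (AA x p (-a) - 7 / 100 / R))) ≤ Real.exp (-(N * (1 / 5 - 7 / 100 / R))) := by
  have h1 := (mid_neg h ha0 ha hT).2 hp
  apply Real.exp_le_exp.2
  have := mul_le_mul_of_nonneg_left h1 hN
  linarith

theorem zone_neg2 {R x p N a : ℝ} (h : Par R x p) (hN : 165 / 100 * R ≤ N)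
    (ha0 : 1 / R ≤ a) (ha : a ≤ 3 / 5) (hT : 2 * Real.pi - 1 ≤ -(tT x p (-a)) - gam x p) :
    Real.exp (-(N * (AA x p (-a) - 7 / 100 / R))) ≤
      Real.exp (-(43 / 100 * N)) + G2 N 2 (-(tT x p (-a)) - gam x p) := by
  have hR := h.hR
  have hR0 : 0 < R := by linarith
  have ha0' : 0 ≤ a := (by positivity : (0 : ℝ) ≤ 1 / R).trans ha0
  have hxR := x_le h
  have hx0 := h.hx
  have hpi := Real.pi_gt_d4
  obtain ⟨hg0, -, -⟩ := gam_bounds h
  set T := -(tT x p (-a)) - gam x p with hTdef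
  have hT5 : (5283 / 1000 : ℝ) ≤ T := by
    norm_num at hpi ⊢
    linarith
  have htm : -(tT x p (-a)) ≤ x * Real.sin a - 2 * a := by
    unfold tT
    rw [Real.sin_neg, Real.cos_neg]
    have := mul_nonneg h.hp0 (sub_nonneg.2 (Real.cos_le_one a))
    linarith
  have hx1 : (114 / 10 : ℝ) ≤ x := by
    by_contra hcon
    push Not at hcon
    have hsin := m19_sin_upper5 ha0'
    have hsin0 : 0 ≤ Real.sin a := Real.sin_nonneg_of_nonneg_of_le_pi ha0' (by linarith)
    have h1 : x * Real.sin a ≤ 114 / 10 * (a - a ^ 3 / 6 + a ^ 5 / 120) := by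
      calc x * Real.sin a ≤ 114 / 10 * Real.sin a := mul_le_mul_of_nonneg_right hcon.le hsin0
        _ ≤ _ := mul_le_mul_of_nonneg_left hsin (by norm_num)
    have h2 : (5283 / 1000 : ℝ) ≤ 114 / 10 * (a - a ^ 3 / 6 + a ^ 5 / 120) - 2 * a := by linarith
    have h3 : a ^ 5 ≤ 36 / 100 * a ^ 3 := by
      have : a ^ 5 = a ^ 2 * a ^ 3 := by ring
      rw [this]
      refine mul_le_mul_of_nonneg_right ?_ (by positivity)
      nlinarith
    nlinarith [mul_nonneg (sub_nonneg.2 ha) (sub_nonneg.2 ha), mul_nonneg ha0' (sub_nonneg.2 ha),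
      mul_nonneg (mul_nonneg ha0' ha0') (sub_nonneg.2 ha),
      mul_nonneg (mul_nonneg ha0' (sub_nonneg.2 ha)) (sub_nonneg.2 ha)]
  have hR1 : (114 / 10 : ℝ) ≤ R := hx1.trans hxR
  have hs := geo_neg h ha0' ha (by rw [← hTdef]; linarith)
  rw [← hTdef] at hs
  set s0 := T ^ 2 / (2 * R) with hs0
  have hs0' : 1395 / 100 / R ≤ s0 := by
    rw [hs0, div_le_div_iff₀ hR0 (by positivity)]
    have : (279 / 10 : ℝ) ≤ T ^ 2 := by nlinarith
    nlinarith
  have hQ := Q_le h
  have hdiv : 355 / 100 / R ≤ 3115 / 10000 := by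
    rw [div_le_iff₀ hR0]
    linarith
  have hy : R - 23115 / 10000 ≤ R - 2 - 355 / 100 / R := by linarith
  have hQ2 : 34454 / 10000 / (R - 2 - 355 / 100 / R) ^ 2 ≤ 697 / 1000 / R := by
    have hy0 : 0 < R - 23115 / 10000 := by linarith
    have hy2 : (R - 23115 / 10000) ^ 2 ≤ (R - 2 - 355 / 100 / R) ^ 2 :=
      pow_le_pow_left₀ hy0.le hy 2
    rw [div_le_div_iff₀ (lt_of_lt_of_le (by positivity) hy2) hR0]
    nlinarith
  have hQe : (p / (x - 2)) ^ 2 / 2 + 2 * (7 / 100 / R) ≤ 6 / 100 * s0 := by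
    have e1 : 697 / 1000 / R + 2 * (7 / 100 / R) = 6 / 100 * (1395 / 100 / R) := by
      field_simp
      norm_num
    nlinarith
  have hs00 : 0 ≤ s0 := by positivity
  have heps : 0 ≤ 7 / 100 / R := by positivity
  have hmin := AA_ge_min h hs (by linarith)
  have hcos : Real.cos (tT x p (-a) + gam x p) = Real.cos T := by
    rw [← Real.cos_neg, hTdef]
    congr 1
    ring
  rw [hcos] at hmin
  have hN0 : 0 ≤ N := by linarith
  rcases min_le_iff.1 hmin with h1 | h1
  · have h2 : Real.exp (-(N * (AA x p (-a) - 7 / 100 / R))) ≤ G2 N 2 T := by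
      unfold G2
      apply Real.exp_le_exp.2
      have h3 : (94 / 100 * s0 + (1 - Real.cos T)) / 2 ≤ AA x p (-a) - 7 / 100 / R := by linarith
      have h4 := mul_le_mul_of_nonneg_left h3 hN0
      have h5 : 2 * T ≤ N * (94 / 100 * s0 / 2) := by
        have e1 : N * (94 / 100 * s0 / 2) = 235 / 1000 * (N / R) * T * T := by
          rw [hs0]
          field_simp
          ring
        rw [e1]
        have hNR : 165 / 100 ≤ N / R := by
          rw [le_div_iff₀ hR0]
          exact hN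
        have h6 : (2 : ℝ) ≤ 235 / 1000 * (N / R) * T := by
          calc (2 : ℝ) ≤ 235 / 1000 * (165 / 100) * (5283 / 1000) := by norm_num
            _ ≤ _ := by
              refine mul_le_mul ?_ hT5 (by norm_num) (by positivity)
              exact mul_le_mul_of_nonneg_left hNR (by norm_num)
        exact mul_le_mul_of_nonneg_right h6 (by linarith)
      have e2 : N * ((94 / 100 * s0 + (1 - Real.cos T)) / 2) =
          N * (94 / 100 * s0 / 2) + N / 2 * (1 - Real.cos T) := by ring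
      linarith
    exact h2.trans (le_add_of_nonneg_left (Real.exp_pos _).le)
  · have h2 : Real.exp (-(N * (AA x p (-a) - 7 / 100 / R))) ≤ Real.exp (-(43 / 100 * N)) := by
      apply Real.exp_le_exp.2
      have h3 : 7 / 100 / R ≤ 1 / 100 := by
        rw [div_le_iff₀ hR0]
        linarith
      have h4 : 43 / 100 ≤ AA x p (-a) - 7 / 100 / R := by linarith
      have := mul_le_mul_of_nonneg_left h4 hN0
      linarith
    refine h2.trans (le_add_of_nonneg_right ?_)
    unfold G2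
    exact (Real.exp_pos _).le

end SCE
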