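import Mathlib

/-!
# SCE-M20: change of variable with two majorants
`Th` is increasing with `Th' >= m > 0` on `[a, c]`.  If `G : R -> R` is continuous, `G >= 0` and
`int_u^v G <= K` for all `u <= v` then `int_a^c G(Th b) db <= (1/m) int_a^c G(Th b) Th'(b) db
= (1/m) int_{Th a}^{Th c} G <= K/m` (`intervalIntegral.integral_comp_mul_deriv'`).
For `G2`: if `Th c <= th0` it is not needed; if `Th a >= th0` put `b0 = a`; otherwise let `b0` be
with `Th b0 = th0` (intermediate value theorem); on `[a, b0]` use the first inequality, on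
`[b0, c]` the second one and the same change of variable from `th0` (or `Th a >= th0`) on; note
`int_{u}^{v} G2 <= int_{th0}^{v} G2` for `th0 <= u <= v`.
-/

namespace SCE

open MeasureTheory

private theorem cv_le {a c m : ℝ} {Θ Θ' Φ : ℝ → ℝ} (hm : 0 < m)
    (hΘ : ∀ b ∈ Set.Icc a c, HasDerivAt Θ (Θ' b) b) (hΘc : ContinuousOn Θ' (Set.Icc a c))
    (hΘm : ∀ b ∈ Set.Icc a c, m ≤ Θ' b) (hΦ : Continuous Φ) (hΦ0 : ∀ t, 0 ≤ Φ t) {p q : ℝ}
    (hap : a ≤ p) (hpq : p ≤ q) (hqc : q ≤ c) :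
    ∫ b in p..q, Φ (Θ b) ≤ (∫ t in (Θ p)..(Θ q), Φ t) / m := by
  have hsub : Set.Icc p q ⊆ Set.Icc a c := Set.Icc_subset_Icc hap hqc
  have hcont : ContinuousOn Θ (Set.Icc p q) := fun b hb =>
    (hΘ b (hsub hb)).continuousAt.continuousWithinAt
  have h1 : ∫ b in p..q, (Φ ∘ Θ) b * Θ' b = ∫ t in (Θ p)..(Θ q), Φ t := by
    refine intervalIntegral.integral_comp_mul_deriv ?_ ?_ hΦ
    · intro b hb
      rw [Set.uIcc_of_le hpq] at hb
      exact hΘ b (hsub hb)
    · rw [Set.uIcc_of_le hpq]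
      exact hΘc.mono hsub
  have h2 : ∫ b in p..q, m * Φ (Θ b) ≤ ∫ b in p..q, (Φ ∘ Θ) b * Θ' b := by
    refine intervalIntegral.integral_mono_on hpq ?_ ?_ ?_
    · refine ContinuousOn.intervalIntegrable_of_Icc hpq ?_
      exact continuousOn_const.mul (hΦ.comp_continuousOn hcont)
    · refine ContinuousOn.intervalIntegrable_of_Icc hpq ?_
      exact (hΦ.comp_continuousOn hcont).mul (hΘc.mono hsub)
    · intro b hb
      have := hΘm b (hsub hb)
      have h0 := hΦ0 (Θ b)
      simp only [Function.comp_apply]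
      nlinarith
  rw [intervalIntegral.integral_const_mul, h1] at h2
  rw [le_div_iff₀ hm]
  linarith

theorem split_int {a c m θ0 C0 K1 K2 : ℝ} {F Θ Θ' G H : ℝ → ℝ} (hac : a ≤ c) (hm : 0 < m)
    (hΘ : ∀ b ∈ Set.Icc a c, HasDerivAt Θ (Θ' b) b) (hΘc : ContinuousOn Θ' (Set.Icc a c))
    (hΘm : ∀ b ∈ Set.Icc a c, m ≤ Θ' b) (hF : ContinuousOn F (Set.Icc a c))
    (hG : Continuous G) (hH : Continuous H) (hG0 : ∀ t, 0 ≤ G t) (hH0 : ∀ t, 0 ≤ H t)
    (h1 : ∀ b ∈ Set.Icc a c, Θ b ≤ θ0 → F b ≤ C0 + G (Θ b))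
    (h2 : ∀ b ∈ Set.Icc a c, θ0 ≤ Θ b → F b ≤ C0 + G (Θ b) + H (Θ b))
    (hK1 : ∀ u v : ℝ, u ≤ v → ∫ t in u..v, G t ≤ K1)
    (hK2 : ∀ v : ℝ, θ0 ≤ v → ∫ t in θ0..v, H t ≤ K2) :
    ∫ b in a..c, F b ≤ C0 * (c - a) + (K1 + K2) / m := by
  have hcont : ContinuousOn Θ (Set.Icc a c) := fun b hb =>
    (hΘ b hb).continuousAt.continuousWithinAt
  have hmono : MonotoneOn Θ (Set.Icc a c) := by
    refine monotoneOn_of_deriv_nonneg (convex_Icc a c) hcont ?_ ?_
    · intro b hb
      exact (hΘ b (interior_subset hb)).differentiableAt.differentiableWithinAt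
    · intro b hb
      rw [(hΘ b (interior_subset hb)).deriv]
      exact hm.le.trans (hΘm b (interior_subset hb))
  have hK20 : 0 ≤ K2 := by
    have := hK2 θ0 le_rfl
    rwa [intervalIntegral.integral_same] at this
  have ha : a ∈ Set.Icc a c := ⟨le_rfl, hac⟩
  have hc : c ∈ Set.Icc a c := ⟨hac, le_rfl⟩
  obtain ⟨b0, hb0, hlow, hhigh⟩ : ∃ b0 ∈ Set.Icc a c, (∀ b ∈ Set.Icc a c, b < b0 → Θ b ≤ θ0) ∧
      (b0 = c ∨ θ0 ≤ Θ b0) := by
    rcases le_total (Θ c) θ0 with hcase | hcase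
    · exact ⟨c, hc, fun b hb _ => (hmono hb hc hb.2).trans hcase, Or.inl rfl⟩
    · rcases le_total θ0 (Θ a) with hcase2 | hcase2
      · exact ⟨a, ha, fun b hb hba => absurd hb.1 (not_le.mpr hba), Or.inr hcase2⟩
      · obtain ⟨b0, hb0, he⟩ := intermediate_value_Icc hac hcont ⟨hcase2, hcase⟩
        refine ⟨b0, hb0, fun b hb hbb => ?_, Or.inr he.ge⟩
        rw [← he]
        exact hmono hb hb0 hbb.le
  have hs1 : Set.Icc a b0 ⊆ Set.Icc a c := Set.Icc_subset_Icc le_rfl hb0.2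
  have hs2 : Set.Icc b0 c ⊆ Set.Icc a c := Set.Icc_subset_Icc hb0.1 le_rfl
  have hGc : ContinuousOn (fun b => G (Θ b)) (Set.Icc a c) := hG.comp_continuousOn hcont
  have hHc : ContinuousOn (fun b => H (Θ b)) (Set.Icc a c) := hH.comp_continuousOn hcont
  have i1 : IntervalIntegrable F volume a b0 :=
    (hF.mono hs1).intervalIntegrable_of_Icc hb0.1
  have i2 : IntervalIntegrable F volume b0 c :=
    (hF.mono hs2).intervalIntegrable_of_Icc hb0.2
  have g1 : IntervalIntegrable (fun b => G (Θ b)) volume a b0 :=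
    (hGc.mono hs1).intervalIntegrable_of_Icc hb0.1
  have g2 : IntervalIntegrable (fun b => G (Θ b)) volume b0 c :=
    (hGc.mono hs2).intervalIntegrable_of_Icc hb0.2
  have g3 : IntervalIntegrable (fun b => H (Θ b)) volume b0 c :=
    (hHc.mono hs2).intervalIntegrable_of_Icc hb0.2
  have e1 : ∫ b in a..b0, F b ≤ C0 * (b0 - a) + ∫ b in a..b0, G (Θ b) := by
    have h : ∫ b in a..b0, F b ≤ ∫ b in a..b0, (C0 + G (Θ b)) := by
      refine intervalIntegral.integral_mono_on_of_le_Ioo hb0.1 i1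
        ((intervalIntegrable_const).add g1) ?_
      intro b hb
      have hb' : b ∈ Set.Icc a c := hs1 ⟨hb.1.le, hb.2.le⟩
      exact h1 b hb' (hlow b hb' hb.2)
    rw [intervalIntegral.integral_add intervalIntegrable_const g1,
      intervalIntegral.integral_const, smul_eq_mul] at h
    linarith
  have e2 : ∫ b in b0..c, F b ≤ C0 * (c - b0) + (∫ b in b0..c, G (Θ b)) + ∫ b in b0..c, H (Θ b) := by
    have h : ∫ b in b0..c, F b ≤ ∫ b in b0..c, (C0 + G (Θ b) + H (Θ b)) := by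
      refine intervalIntegral.integral_mono_on_of_le_Ioo hb0.2 i2
        (((intervalIntegrable_const).add g2).add g3) ?_
      intro b hb
      have hb' : b ∈ Set.Icc a c := hs2 ⟨hb.1.le, hb.2.le⟩
      refine h2 b hb' ?_
      rcases hhigh with hh | hh
      · rw [hh] at hb
        exact absurd (hb.1.trans hb.2) (lt_irrefl _)
      · exact hh.trans (hmono hb0 hb' hb.1.le)
    rw [intervalIntegral.integral_add (intervalIntegrable_const.add g2) g3,
      intervalIntegral.integral_add intervalIntegrable_const g2,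
      intervalIntegral.integral_const, smul_eq_mul] at h
    linarith
  have e3 : ∫ b in b0..c, H (Θ b) ≤ K2 / m := by
    rcases hhigh with hh | hh
    · rw [hh, intervalIntegral.integral_same]
      positivity
    · refine (cv_le hm hΘ hΘc hΘm hH hH0 hb0.1 hb0.2 le_rfl).trans ?_
      refine div_le_div_of_nonneg_right ?_ hm.le
      have hle : Θ b0 ≤ Θ c := hmono hb0 hc hb0.2
      refine le_trans ?_ (hK2 (Θ c) (hh.trans hle))
      have hsplit := intervalIntegral.integral_add_adjacent_intervals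
        (hH.intervalIntegrable (μ := volume) θ0 (Θ b0)) (hH.intervalIntegrable (Θ b0) (Θ c))
      have hnn : 0 ≤ ∫ t in θ0..(Θ b0), H t :=
        intervalIntegral.integral_nonneg hh fun t _ => hH0 t
      linarith
  have e4 : (∫ b in a..b0, G (Θ b)) + ∫ b in b0..c, G (Θ b) ≤ K1 / m := by
    rw [intervalIntegral.integral_add_adjacent_intervals g1 g2]
    refine (cv_le hm hΘ hΘc hΘm hG hG0 le_rfl hac le_rfl).trans ?_
    exact div_le_div_of_nonneg_right (hK1 _ _ (hmono ha hc hac)) hm.le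
  have e5 : ∫ b in a..c, F b = (∫ b in a..b0, F b) + ∫ b in b0..c, F b :=
    (intervalIntegral.integral_add_adjacent_intervals i1 i2).symm
  have e6 : (K1 + K2) / m = K1 / m + K2 / m := add_div _ _ _
  rw [e5, e6]
  linarith

end SCE
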