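import Pool.Agent.Helper22.SCE.Defs

/-!
# SCE-M22: the integral of `G2`
`phi(t) = exp(-(N/2)(1 - cos t))` is `2 pi`-periodic and on a period
`int phi <= int_{-pi}^{pi} exp(-(N/2)(2/pi^2) t^2) dt <= sqrt(pi * pi^2/N) = pi^(3/2)/sqrt N
<= 5.5684/sqrt N` (`1 - cos t >= (2/pi^2) t^2` for `|t| <= pi`, Mathlib:
`Real.cos_le_one_sub_mul_cos_sq` or `one_sub_sq_div_two_le_cos`; `1 - cos t = 2 sin^2(t/2)`,
`|sin(t/2)| >= |t|/pi`).  On `[theta0 + 2 pi k, theta0 + 2 pi (k+1)]` the factor `e^(-c theta)` is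
at most `e^(-c theta0) e^(-2 pi c k)`, so the integral is
`<= e^(-c theta0) (5.5684/sqrt N)/(1 - e^(-2 pi c)) <= 5.6 e^(-c theta0)/sqrt N` for `c >= 1`
(`e^(-2 pi) <= 0.00187`).
-/

namespace SCE

open MeasureTheory

theorem G2_cont (N c : ℝ) : Continuous (G2 N c) := by
  unfold G2
  fun_prop

private theorem G2_per_int {N : ℝ} (hN : 0 < N) (a : ℝ) :
    ∫ t in a..(a + 2 * Real.pi), Real.exp (-(N / 2 * (1 - Real.cos t))) ≤
      557 / 100 / Real.sqrt N := by
  have hper : Function.Periodic (fun t : ℝ => Real.exp (-(N / 2 * (1 - Real.cos t))))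
      (2 * Real.pi) := by
    intro t
    simp [Real.cos_add_two_pi]
  have h1 := hper.intervalIntegral_add_eq a (-Real.pi)
  rw [h1]
  have e : -Real.pi + 2 * Real.pi = Real.pi := by ring
  rw [e]
  have hb : 0 < N / Real.pi ^ 2 := by positivity
  have h2 : ∫ t in (-Real.pi)..Real.pi, Real.exp (-(N / 2 * (1 - Real.cos t))) ≤
      ∫ t in (-Real.pi)..Real.pi, Real.exp (-(N / Real.pi ^ 2) * t ^ 2) := by
    apply intervalIntegral.integral_mono_on (by linarith [Real.pi_pos])
    · apply Continuous.intervalIntegrable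
      fun_prop
    · apply Continuous.intervalIntegrable
      fun_prop
    · intro t ht
      apply Real.exp_le_exp.mpr
      have h := Real.cos_le_one_sub_mul_cos_sq (abs_le.mpr ⟨ht.1, ht.2⟩)
      have h' : N / 2 * (2 / Real.pi ^ 2 * t ^ 2) ≤ N / 2 * (1 - Real.cos t) :=
        mul_le_mul_of_nonneg_left (by linarith) (by positivity)
      have h'' : N / 2 * (2 / Real.pi ^ 2 * t ^ 2) = N / Real.pi ^ 2 * t ^ 2 := by ring
      linarith
  have h3 : ∫ t in (-Real.pi)..Real.pi, Real.exp (-(N / Real.pi ^ 2) * t ^ 2) ≤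
      ∫ t, Real.exp (-(N / Real.pi ^ 2) * t ^ 2) := by
    rw [intervalIntegral.integral_of_le (by linarith [Real.pi_pos])]
    exact setIntegral_le_integral (integrable_exp_neg_mul_sq hb)
      (Filter.Eventually.of_forall fun t => (Real.exp_pos _).le)
  rw [integral_gaussian] at h3
  have h4 : Real.sqrt (Real.pi / (N / Real.pi ^ 2)) = Real.sqrt (Real.pi ^ 3) / Real.sqrt N := by
    rw [← Real.sqrt_div (by positivity)]
    congr 1
    field_simp
  have h5 : Real.sqrt (Real.pi ^ 3) ≤ 557 / 100 := by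
    rw [Real.sqrt_le_left (by norm_num)]
    have h6 := Real.pi_lt_d4
    have h7 : Real.pi ^ 3 ≤ 3.1416 ^ 3 := by
      apply pow_le_pow_left₀ Real.pi_pos.le h6.le
    refine h7.trans ?_
    norm_num
  have h6 : 0 < Real.sqrt N := Real.sqrt_pos.mpr hN
  have h7 : Real.sqrt (Real.pi ^ 3) / Real.sqrt N ≤ 557 / 100 / Real.sqrt N := by gcongr
  linarith

private theorem G2_one {N c a : ℝ} (hN : 0 < N) (hc : 1 ≤ c) :
    ∫ θ in a..(a + 2 * Real.pi), G2 N c θ ≤
      Real.exp (-(c * a)) * (557 / 100 / Real.sqrt N) := by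
  have h1 : ∫ θ in a..(a + 2 * Real.pi), G2 N c θ ≤
      ∫ θ in a..(a + 2 * Real.pi),
        Real.exp (-(c * a)) * Real.exp (-(N / 2 * (1 - Real.cos θ))) := by
    apply intervalIntegral.integral_mono_on (by linarith [Real.pi_pos])
    · exact (G2_cont N c).intervalIntegrable _ _
    · apply Continuous.intervalIntegrable
      fun_prop
    · intro t ht
      rw [G2, ← Real.exp_add]
      apply Real.exp_le_exp.mpr
      have : c * a ≤ c * t := mul_le_mul_of_nonneg_left ht.1 (by linarith)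
      linarith
  rw [intervalIntegral.integral_const_mul] at h1
  exact h1.trans (mul_le_mul_of_nonneg_left (G2_per_int hN a) (Real.exp_pos _).le)

private theorem G2_many {N c θ0 : ℝ} (hN : 0 < N) (hc : 1 ≤ c) (K : ℕ) :
    ∫ θ in θ0..(θ0 + 2 * Real.pi * K), G2 N c θ ≤
      Real.exp (-(c * θ0)) * (557 / 100 / Real.sqrt N) *
        ∑ k ∈ Finset.range K, Real.exp (-(2 * Real.pi * c)) ^ k := by
  induction K with
  | zero => simp
  | succ K ih =>
    have h1 : θ0 + 2 * Real.pi * ((K + 1 : ℕ) : ℝ) = θ0 + 2 * Real.pi * K + 2 * Real.pi := by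
      push_cast
      ring
    rw [h1, ← intervalIntegral.integral_add_adjacent_intervals
      ((G2_cont N c).intervalIntegrable θ0 (θ0 + 2 * Real.pi * K))
      ((G2_cont N c).intervalIntegrable _ _), Finset.sum_range_succ, mul_add]
    have h2 := G2_one (N := N) (c := c) (a := θ0 + 2 * Real.pi * K) hN hc
    have h3 : Real.exp (-(c * (θ0 + 2 * Real.pi * K))) =
        Real.exp (-(c * θ0)) * Real.exp (-(2 * Real.pi * c)) ^ K := by
      rw [← Real.exp_nat_mul, ← Real.exp_add]
      congr 1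
      ring
    rw [h3] at h2
    have h4 : Real.exp (-(c * θ0)) * Real.exp (-(2 * Real.pi * c)) ^ K *
        (557 / 100 / Real.sqrt N) = Real.exp (-(c * θ0)) * (557 / 100 / Real.sqrt N) *
          Real.exp (-(2 * Real.pi * c)) ^ K := by ring
    linarith

theorem G2_int {N c θ0 v : ℝ} (hN : 0 < N) (hc : 1 ≤ c) (hv : θ0 ≤ v) :
    ∫ θ in θ0..v, G2 N c θ ≤ 56 / 10 * Real.exp (-(c * θ0)) / Real.sqrt N := by
  have hpi := Real.pi_gt_three
  obtain ⟨K, hK⟩ := exists_nat_ge ((v - θ0) / (2 * Real.pi))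
  have hK' : v ≤ θ0 + 2 * Real.pi * K := by
    rw [div_le_iff₀ (by positivity)] at hK
    linarith
  have h1 : ∫ θ in θ0..v, G2 N c θ ≤ ∫ θ in θ0..(θ0 + 2 * Real.pi * K), G2 N c θ := by
    rw [← intervalIntegral.integral_add_adjacent_intervals
      ((G2_cont N c).intervalIntegrable θ0 v)
      ((G2_cont N c).intervalIntegrable v (θ0 + 2 * Real.pi * K))]
    have : 0 ≤ ∫ θ in v..(θ0 + 2 * Real.pi * K), G2 N c θ :=
      intervalIntegral.integral_nonneg hK' (fun t _ => (Real.exp_pos _).le)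
    linarith
  have h2 := G2_many (N := N) (c := c) (θ0 := θ0) hN hc K
  set r := Real.exp (-(2 * Real.pi * c)) with hr
  have hr0 : 0 < r := Real.exp_pos _
  have hr1 : r ≤ 1 / 200 := by
    have h6 : r ≤ Real.exp (-6) := by
      apply Real.exp_le_exp.mpr
      nlinarith
    have h7 : Real.exp (-6) ≤ 1 / 200 := by
      have h8 : (2 : ℝ) ^ 6 * 3.125 ≤ Real.exp 6 := by
        have h9 : Real.exp 6 = Real.exp 1 ^ 6 := by
          rw [← Real.exp_nat_mul]
          norm_num
        rw [h9]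
        have h10 := Real.exp_one_gt_d9
        have h11 : (2.7 : ℝ) ^ 6 ≤ Real.exp 1 ^ 6 :=
          pow_le_pow_left₀ (by norm_num) (by linarith) 6
        refine le_trans ?_ h11
        norm_num
      rw [Real.exp_neg, inv_eq_one_div]
      apply one_div_le_one_div_of_le (by norm_num)
      linarith
    linarith
  have hgeo : ∑ k ∈ Finset.range K, r ^ k ≤ (1 - r)⁻¹ := by
    have hs := summable_geometric_of_lt_one hr0.le (by linarith : r < 1)
    rw [← tsum_geometric_of_lt_one hr0.le (by linarith : r < 1)]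
    exact hs.sum_le_tsum _ (fun k _ => by positivity)
  have hgeo2 : (1 - r)⁻¹ ≤ 200 / 199 := by
    rw [inv_le_comm₀ (by linarith) (by norm_num)]
    linarith
  have hs0 : 0 < Real.sqrt N := Real.sqrt_pos.mpr hN
  have h5 : Real.exp (-(c * θ0)) * (557 / 100 / Real.sqrt N) * ∑ k ∈ Finset.range K, r ^ k ≤
      Real.exp (-(c * θ0)) * (557 / 100 / Real.sqrt N) * (200 / 199) :=
    mul_le_mul_of_nonneg_left (hgeo.trans hgeo2) (by positivity)
  have h6 : Real.exp (-(c * θ0)) * (557 / 100 / Real.sqrt N) * (200 / 199) ≤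
      56 / 10 * Real.exp (-(c * θ0)) / Real.sqrt N := by
    rw [show Real.exp (-(c * θ0)) * (557 / 100 / Real.sqrt N) * (200 / 199) =
      (557 / 100 * (200 / 199)) * Real.exp (-(c * θ0)) / Real.sqrt N by ring]
    have : (557 / 100 * (200 / 199) : ℝ) ≤ 56 / 10 := by norm_num
    gcongr
  linarith

end SCE
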