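import Pool.Agent.Helper22.SCE.M01

/-!
# SCE-M24: the derivative of `tau`
`d/db tT x p b = x cos b - 2 + p sin b`.
* `0 <= b <= 4/5`: `cos b >= cos(4/5) >= 0.6967`, `sin b >= 0`, `x >= R - 3.55/R`:
  `>= 0.6967 (R - 3.55/R) - 2 >= R/2.5` for `R >= 8` (`0.2967 R - 2 - 2.4733/R`: at `8`: `0.0645`)
  and `>= R/1.75` for `R >= 18` (`0.12527 R - 2 - 2.4733/R`: at `18`: `0.1175`).
* left side, `b = -a`, `0 <= a <= 3/5`: `tm(a) = -tT x p (-a)` has derivative
  `x cos a - 2 - p sin a >= 0.8253 (R - 3.55/R) - 2 - (21/8)*0.5647 >= R/2.95`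
  (at `R = 8`: `2.753 >= 2.712`; `0.8253 - 0.339 > 0`).
-/

namespace SCE

private theorem m24_cos_half {x c : ℝ} (hc : 0 ≤ c) (h : c ≤ Real.cos (x / 2)) :
    2 * c ^ 2 - 1 ≤ Real.cos x := by
  have h1 := Real.cos_two_mul (x / 2)
  have h2 : 2 * (x / 2) = x := by ring
  rw [h2] at h1
  have h3 : c ^ 2 ≤ Real.cos (x / 2) ^ 2 := pow_le_pow_left₀ hc h 2
  linarith

private theorem m24_cos_45 : 694 / 1000 ≤ Real.cos (4 / 5) := by
  have h1 := Real.cos_bound (x := 4 / 5 / 2 / 2) (by rw [abs_of_pos] <;> norm_num)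
  rw [abs_of_pos (by norm_num : (0 : ℝ) < 4 / 5 / 2 / 2)] at h1
  have h2 := (abs_le.1 h1).1
  have h3 : (9799 / 10000 : ℝ) ≤ Real.cos (4 / 5 / 2 / 2) := by
    norm_num at h2 ⊢
    linarith
  have h4 := m24_cos_half (by norm_num) h3
  have h5 : (9204 / 10000 : ℝ) ≤ Real.cos (4 / 5 / 2) := by
    refine le_trans ?_ h4
    norm_num
  have h6 := m24_cos_half (by norm_num) h5
  refine le_trans ?_ h6
  norm_num

private theorem m24_cos_35 : 824 / 1000 ≤ Real.cos (3 / 5) := by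
  have h1 := Real.cos_bound (x := 3 / 5 / 2 / 2) (by rw [abs_of_pos] <;> norm_num)
  rw [abs_of_pos (by norm_num : (0 : ℝ) < 3 / 5 / 2 / 2)] at h1
  have h2 := (abs_le.1 h1).1
  have h3 : (9887 / 10000 : ℝ) ≤ Real.cos (3 / 5 / 2 / 2) := by
    norm_num at h2 ⊢
    linarith
  have h4 := m24_cos_half (by norm_num) h3
  have h5 : (95505 / 100000 : ℝ) ≤ Real.cos (3 / 5 / 2) := by
    refine le_trans ?_ h4
    norm_num
  have h6 := m24_cos_half (by norm_num) h5
  refine le_trans ?_ h6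
  norm_num

private theorem m24_sin_35 : Real.sin (3 / 5) ≤ 571 / 1000 := by
  have h1 := Real.sin_bound (x := 3 / 5) (by rw [abs_of_pos] <;> norm_num)
  rw [abs_of_pos (by norm_num : (0 : ℝ) < 3 / 5)] at h1
  have h2 := (abs_le.1 h1).2
  norm_num at h2 ⊢
  linarith

theorem tT_deriv (x p b : ℝ) :
    HasDerivAt (fun b => tT x p b) (x * Real.cos b - 2 + p * Real.sin b) b := by
  unfold tT
  have h1 := (Real.hasDerivAt_sin b).const_mul x
  have h2 := (hasDerivAt_id b).const_mul (2 : ℝ)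
  have h3 := ((hasDerivAt_const b (1 : ℝ)).sub (Real.hasDerivAt_cos b)).const_mul p
  refine ((h1.sub h2).add h3).congr_deriv ?_
  ring

theorem jac_pos {R x p : ℝ} (h : Par R x p) {b : ℝ} (hb0 : 0 ≤ b) (hb : b ≤ 4 / 5) :
    R / (25 / 10) ≤ x * Real.cos b - 2 + p * Real.sin b ∧
    (18 ≤ R → R / (175 / 100) ≤ x * Real.cos b - 2 + p * Real.sin b) := by
  have hpi := Real.pi_gt_d4
  have hR := h.hR
  have hx := h.hx
  have hp := h.hp0
  have hcos : 694 / 1000 ≤ Real.cos b :=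
    m24_cos_45.trans (Real.cos_le_cos_of_nonneg_of_le_pi hb0 (by linarith) hb)
  have hsin : 0 ≤ Real.sin b := Real.sin_nonneg_of_nonneg_of_le_pi hb0 (by linarith)
  have h1 := x_ge h
  have h2 : 355 / 100 / R ≤ 355 / 800 := by
    rw [div_le_div_iff₀ (by linarith) (by norm_num)]
    linarith
  have h3 : (R - 355 / 800) * (694 / 1000) ≤ x * Real.cos b :=
    mul_le_mul (by linarith) hcos (by norm_num) hx.le
  have h4 : 0 ≤ p * Real.sin b := mul_nonneg hp hsin
  refine ⟨?_, fun h18 => ?_⟩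
  · rw [div_le_iff₀ (by norm_num)]
    linarith
  · have h5 : 355 / 100 / R ≤ 355 / 1800 := by
      rw [div_le_div_iff₀ (by linarith) (by norm_num)]
      linarith
    have h6 : (R - 355 / 1800) * (694 / 1000) ≤ x * Real.cos b :=
      mul_le_mul (by linarith) hcos (by norm_num) hx.le
    rw [div_le_iff₀ (by norm_num)]
    linarith

theorem tm_deriv (x p a : ℝ) :
    HasDerivAt (fun a => -(tT x p (-a))) (x * Real.cos a - 2 - p * Real.sin a) a := by
  have h1 : (fun a => -(tT x p (-a))) =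
      fun a => x * Real.sin a - 2 * a - p * (1 - Real.cos a) := by
    funext a
    unfold tT
    rw [Real.sin_neg, Real.cos_neg]
    ring
  rw [h1]
  have h1 := (Real.hasDerivAt_sin a).const_mul x
  have h2 := (hasDerivAt_id a).const_mul (2 : ℝ)
  have h3 := ((hasDerivAt_const a (1 : ℝ)).sub (Real.hasDerivAt_cos a)).const_mul p
  refine ((h1.sub h2).sub h3).congr_deriv ?_
  ring

theorem jac_neg {R x p : ℝ} (h : Par R x p) {a : ℝ} (ha0 : 0 ≤ a) (ha : a ≤ 3 / 5) :
    R / (295 / 100) ≤ x * Real.cos a - 2 - p * Real.sin a := by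
  have hpi := Real.pi_gt_d4
  have hR := h.hR
  have hx := h.hx
  have hp := h.hp0
  have hcos : 824 / 1000 ≤ Real.cos a :=
    m24_cos_35.trans (Real.cos_le_cos_of_nonneg_of_le_pi ha0 (by linarith) ha)
  have hsin : Real.sin a ≤ 571 / 1000 :=
    (Real.sin_le_sin_of_le_of_le_pi_div_two (by linarith) (by linarith) ha).trans m24_sin_35
  have hsin0 : 0 ≤ Real.sin a := Real.sin_nonneg_of_nonneg_of_le_pi ha0 (by linarith)
  have h1 := x_ge h
  have h2 : 355 / 100 / R ≤ 355 / 800 := by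
    rw [div_le_div_iff₀ (by linarith) (by norm_num)]
    linarith
  have h3 : (R - 355 / 800) * (824 / 1000) ≤ x * Real.cos a :=
    mul_le_mul (by linarith) hcos (by norm_num) hx.le
  have h4 : p * Real.sin a ≤ 21 / 8 * (571 / 1000) :=
    mul_le_mul h.hp hsin hsin0 (by norm_num)
  rw [div_le_iff₀ (by norm_num)]
  linarith

end SCE
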