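import Mathlib

/-!
# SCE-M28a: numerical factors
`N = n/R`, `sqrt(nR/(2 pi)) = R sqrt(N/(2 pi)) <= (N/1.65) sqrt(N/(2 pi)) <= 0.2418 N^(3/2)`
(`R <= N/1.65`, `1/(1.65 sqrt(2 pi)) = 0.241779`).  `N^(3/2) e^(-v N)` is decreasing for
`N >= 3/(2v)`; at `N = 40.6`: `0.2418*258.7 = 62.56`.
* `lam_mid`: `0.07/R <= 0.00875`: `62.56 e^(-0.19125*40.6) = 62.56*4.2434e-4 <= 0.0266`.
* `lam_43`: `62.56 e^(-17.4) <= 0.0001`.
* `lam_far`: `62.56 e^(-0.343*40.6) <= 62.56*9.0e-7 <= 0.00006`.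
-/

namespace SCE

private lemma m28_main {n R v : ℝ} (hR : 8 ≤ R) (hN : 406 / 10 ≤ n / R)
    (hNR : 165 / 100 * R ≤ n / R) (hv : 1 / 25 ≤ v) :
    Real.sqrt (n * R / (2 * Real.pi)) * Real.exp (-(v * (n / R))) ≤
      6256 / 100 * Real.exp (-(v * (406 / 10))) := by
  have hR0 : 0 < R := by linarith
  set N := n / R with hNd
  have hn : n = N * R := by rw [hNd]; field_simp
  have hpi := Real.pi_gt_d4
  have hN0 : 0 < N := by linarith
  have hRN : R ≤ N / (165 / 100) := by
    rw [le_div_iff₀ (by norm_num)]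
    linarith
  have h1 : n * R / (2 * Real.pi) ≤ (6256 / 100 * Real.exp (3 / 2 * ((N - 406 / 10) / (406 / 10)))) ^ 2 := by
    have e1 : n * R / (2 * Real.pi) = N * R ^ 2 / (2 * Real.pi) := by
      rw [hn]
      ring
    rw [e1]
    have h2 : N * R ^ 2 ≤ N * (N / (165 / 100)) ^ 2 :=
      mul_le_mul_of_nonneg_left (pow_le_pow_left₀ hR0.le hRN 2) hN0.le
    have h3 : N ≤ 406 / 10 * Real.exp ((N - 406 / 10) / (406 / 10)) := by
      have := Real.add_one_le_exp ((N - 406 / 10) / (406 / 10))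
      calc N = 406 / 10 * ((N - 406 / 10) / (406 / 10) + 1) := by ring
        _ ≤ _ := mul_le_mul_of_nonneg_left this (by norm_num)
    have h4 : N ^ 3 ≤ (406 / 10) ^ 3 * Real.exp (3 * ((N - 406 / 10) / (406 / 10))) := by
      calc N ^ 3 ≤ (406 / 10 * Real.exp ((N - 406 / 10) / (406 / 10))) ^ 3 :=
            pow_le_pow_left₀ hN0.le h3 3
        _ = _ := by
            rw [mul_pow, ← Real.exp_nat_mul]
            norm_num
    have e5 : (6256 / 100 * Real.exp (3 / 2 * ((N - 406 / 10) / (406 / 10)))) ^ 2 =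
        (6256 / 100) ^ 2 * Real.exp (3 * ((N - 406 / 10) / (406 / 10))) := by
      rw [mul_pow, ← Real.exp_nat_mul]
      congr 2
      push_cast
      ring
    rw [e5, div_le_iff₀ (by positivity)]
    set E := Real.exp (3 * ((N - 406 / 10) / (406 / 10))) with hE
    have hE0 : 0 < E := Real.exp_pos _
    have h6 : N * (N / (165 / 100)) ^ 2 = N ^ 3 / (27225 / 10000) := by
      ring
    have h7 : N ^ 3 / (27225 / 10000) ≤ (406 / 10) ^ 3 * E / (27225 / 10000) := by
      rw [div_le_div_iff_of_pos_right (by norm_num)]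
      exact h4
    have h8 : (406 / 10) ^ 3 * E / (27225 / 10000) ≤ (6256 / 100) ^ 2 * E * (2 * (31415 / 10000)) := by
      rw [div_le_iff₀ (by norm_num)]
      nlinarith
    have h9 : (6256 / 100) ^ 2 * E * (2 * (31415 / 10000)) ≤
        (6256 / 100) ^ 2 * E * (2 * Real.pi) := by
      refine mul_le_mul_of_nonneg_left ?_ (by positivity)
      norm_num at hpi ⊢
      linarith
    linarith
  have h2 : Real.sqrt (n * R / (2 * Real.pi)) ≤
      6256 / 100 * Real.exp (3 / 2 * ((N - 406 / 10) / (406 / 10))) := by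
    rw [Real.sqrt_le_left (by positivity)]
    exact h1
  calc Real.sqrt (n * R / (2 * Real.pi)) * Real.exp (-(v * N))
      ≤ (6256 / 100 * Real.exp (3 / 2 * ((N - 406 / 10) / (406 / 10)))) *
          Real.exp (-(v * N)) := mul_le_mul_of_nonneg_right h2 (Real.exp_pos _).le
    _ = 6256 / 100 * Real.exp (3 / 2 * ((N - 406 / 10) / (406 / 10)) + -(v * N)) := by
        rw [Real.exp_add]
        ring
    _ ≤ _ := by
        refine mul_le_mul_of_nonneg_left (Real.exp_le_exp.2 ?_) (by norm_num)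
        have h3 : 3 / 2 * ((N - 406 / 10) / (406 / 10)) ≤ v * (N - 406 / 10) := by
          have e1 : 3 / 2 * ((N - 406 / 10) / (406 / 10)) = 15 / 406 * (N - 406 / 10) := by ring
          rw [e1]
          refine mul_le_mul_of_nonneg_right ?_ (by linarith)
          linarith
        linarith

private lemma m28_inv {c E : ℝ} {k : ℝ} (hc : 0 < c) (h : c / k ≤ Real.exp E) (hk : 0 < k) :
    c * Real.exp (-E) ≤ k := by
  rw [Real.exp_neg, ← div_eq_mul_inv, div_le_iff₀ (Real.exp_pos _)]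
  rw [div_le_iff₀ hk] at h
  linarith

private lemma m28_taylor {y : ℝ} (hy : 0 ≤ y) :
    1 + y + y ^ 2 / 2 + y ^ 3 / 6 + y ^ 4 / 24 + y ^ 5 / 120 ≤ Real.exp y := by
  have := Real.sum_le_exp_of_nonneg hy 6
  simp only [Finset.sum_range_succ, Finset.sum_range_zero, Nat.factorial] at this
  norm_num at this
  linarith

theorem lam_mid {n R : ℝ} (hR : 8 ≤ R) (hN : 406 / 10 ≤ n / R) (hNR : 165 / 100 * R ≤ n / R) :
    Real.sqrt (n * R / (2 * Real.pi)) * Real.exp (-(n / R * (1 / 5 - 7 / 100 / R))) ≤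
      266 / 10000 := by
  have hR0 : 0 < R := by linarith
  have h7 : 7 / 100 / R ≤ 875 / 100000 := by
    rw [div_le_iff₀ hR0]
    linarith
  have h1 := m28_main hR hN hNR (v := 19125 / 100000) (by norm_num)
  have h2 : Real.exp (-(n / R * (1 / 5 - 7 / 100 / R))) ≤
      Real.exp (-(19125 / 100000 * (n / R))) := by
    apply Real.exp_le_exp.2
    have : n / R * (19125 / 100000) ≤ n / R * (1 / 5 - 7 / 100 / R) :=
      mul_le_mul_of_nonneg_left (by linarith) (by linarith)
    linarith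
  refine (mul_le_mul_of_nonneg_left h2 (Real.sqrt_nonneg _)).trans (h1.trans ?_)
  refine m28_inv (by norm_num) ?_ (by norm_num)
  have e1 : Real.exp (19125 / 100000 * (406 / 10)) =
      Real.exp 1 ^ 7 * Real.exp (76475 / 100000) := by
    rw [← Real.exp_nat_mul, ← Real.exp_add]
    congr 1
    norm_num
  rw [e1]
  have h3 : (27182 / 10000 : ℝ) ^ 7 ≤ Real.exp 1 ^ 7 := by
    refine pow_le_pow_left₀ (by norm_num) ?_ 7
    have := Real.exp_one_gt_d9
    norm_num at this ⊢
    linarith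
  have h4 := m28_taylor (y := 76475 / 100000) (by norm_num)
  calc (6256 / 100 / (266 / 10000) : ℝ)
      ≤ (27182 / 10000 : ℝ) ^ 7 * (1 + 76475 / 100000 + (76475 / 100000) ^ 2 / 2 +
        (76475 / 100000) ^ 3 / 6 + (76475 / 100000) ^ 4 / 24 + (76475 / 100000) ^ 5 / 120) := by
        norm_num
    _ ≤ _ := mul_le_mul h3 h4 (by norm_num) (by positivity)

theorem lam_43 {n R : ℝ} (hR : 8 ≤ R) (hN : 406 / 10 ≤ n / R) (hNR : 165 / 100 * R ≤ n / R) :
    Real.sqrt (n * R / (2 * Real.pi)) * Real.exp (-(43 / 100 * (n / R))) ≤ 1 / 10000 := by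
  have h1 := m28_main hR hN hNR (v := 43 / 100) (by norm_num)
  refine h1.trans ?_
  refine m28_inv (by norm_num) ?_ (by norm_num)
  have h3 : (27 / 10 : ℝ) ^ 17 ≤ Real.exp 1 ^ 17 := by
    refine pow_le_pow_left₀ (by norm_num) ?_ 17
    have := Real.exp_one_gt_d9
    norm_num at this ⊢
    linarith
  have e1 : Real.exp 1 ^ 17 ≤ Real.exp (43 / 100 * (406 / 10)) := by
    rw [← Real.exp_nat_mul]
    apply Real.exp_le_exp.2
    norm_num
  refine le_trans ?_ (h3.trans e1)
  norm_num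

theorem lam_far {n R : ℝ} (hR : 8 ≤ R) (hN : 406 / 10 ≤ n / R) (hNR : 165 / 100 * R ≤ n / R) :
    Real.sqrt (n * R / (2 * Real.pi)) * Real.exp (-(343 / 1000 * (n / R))) ≤ 6 / 100000 := by
  have h1 := m28_main hR hN hNR (v := 343 / 1000) (by norm_num)
  refine h1.trans ?_
  refine m28_inv (by norm_num) ?_ (by norm_num)
  have e1 : Real.exp (343 / 1000 * (406 / 10)) =
      Real.exp 1 ^ 13 * Real.exp (9258 / 10000) := by
    rw [← Real.exp_nat_mul, ← Real.exp_add]
    congr 1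
    norm_num
  rw [e1]
  have h3 : (2718 / 1000 : ℝ) ^ 13 ≤ Real.exp 1 ^ 13 := by
    refine pow_le_pow_left₀ (by norm_num) ?_ 13
    have := Real.exp_one_gt_d9
    norm_num at this ⊢
    linarith
  have h4 := m28_taylor (y := 9258 / 10000) (by norm_num)
  calc (6256 / 100 / (6 / 100000) : ℝ)
      ≤ (2718 / 1000 : ℝ) ^ 13 * (1 + 9258 / 10000 + (9258 / 10000) ^ 2 / 2 +
        (9258 / 10000) ^ 3 / 6 + (9258 / 10000) ^ 4 / 24 + (9258 / 10000) ^ 5 / 120) := by
        norm_num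
    _ ≤ _ := mul_le_mul h3 h4 (by norm_num) (by positivity)

end SCE
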