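import Pool.Agent.Helper22.SCE.M04
import Pool.Agent.Helper22.SCE.M11
import Pool.Agent.Helper22.SCE.M19
import Pool.Agent.Helper22.SCE.M20
import Pool.Agent.Helper22.SCE.M22
import Pool.Agent.Helper22.SCE.M24
import Pool.Agent.Helper22.SCE.M28a

/-!
# SCE-M26: the left outer integral
`N = n/R`, `b = -a`, `1/R <= a <= 3/5`.  As in M25: `exp(n Re hh(-a)) <= exp(-N(AA(-a) - 0.07/R))`
(M03 `n_re_le`, M04 `eta_in`, `AA >= 0.07/R` on the zone: `AA_nonneg_neg`), `split_int` (M20) with
`Theta a = -(tT x p (-a)) - gam x p`, `theta0 = 2 pi - 1`,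
`C0 = e^(-N(1/5-0.07/R)) + e^(-0.43 N)`, `G = 0`, `K1 = 0`, `H = G2 N 2`, `m = R/2.95`.
Times `sqrt(nR/(2 pi))`: `0.6 (0.0266 + 0.0001)` (M28a) plus
`2.95 sqrt(1/(2 pi)) 5.6 e^(-2(2 pi - 1)) <= 2.95*0.399*5.6*2.58e-5 <= 0.0002`.  Total `<= 0.0163`.
`AA_nonneg_neg`: `Thm <= 2 pi - 1`: M13.  `Thm >= 2 pi - 1`: `R >= 11.4` (see M19), `AA_ge_min`
with `s0 = Thm^2/(2R) >= 13.9/R`: `AA >= min((s0 - Q)/2, 0.44) >= 0.07/R`.
-/

namespace SCE

open Complex MeasureTheory

theorem AA_nonneg_neg {R x p : ℝ} (h : Par R x p) {a : ℝ} (ha0 : 1 / R ≤ a)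
    (ha : a ≤ 3 / 5) : 7 / 100 / R ≤ AA x p (-a) := by
  have hR := h.hR
  have hR0 : 0 < R := by linarith
  have hc8 : 1 / R ≤ 1 / 8 := one_div_le_one_div_of_le (by norm_num) hR
  have hc : 7 / 100 / R = 7 / 100 * (1 / R) := by ring
  rcases le_total (-(tT x p (-a)) - gam x p) (2 * Real.pi - 1) with hT | hT
  · have := (mid_neg h ha0 ha hT).1
    rw [hc]
    linarith
  · have hpi := Real.pi_gt_d2
    have hap : 0 ≤ a := le_trans (by positivity) ha0
    have hT5 : 5 ≤ -(tT x p (-a)) - gam x p := by linarith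
    have hs := geo_neg h hap ha (by linarith)
    set θ := -(tT x p (-a)) - gam x p with hθ
    have hs0 : 25 / (2 * R) ≤ θ ^ 2 / (2 * R) := by
      apply div_le_div_of_nonneg_right _ (by positivity)
      nlinarith
    have hQ := Q_le h
    have hr : 69 / 100 * R ≤ R - 2 - 355 / 100 / R := by
      have e : 355 / 100 / R = 355 / 100 * (1 / R) := by ring
      rw [e]
      linarith
    have hQ2 : (p / (x - 2)) ^ 2 / 2 ≤ 1 / R := by
      refine hQ.trans ?_
      rw [div_le_div_iff₀ (by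
        have : 0 < R - 2 - 355 / 100 / R := by linarith
        positivity) hR0]
      have h1 : (69 / 100 * R) ^ 2 ≤ (R - 2 - 355 / 100 / R) ^ 2 :=
        pow_le_pow_left₀ (by positivity) hr 2
      nlinarith
    have e25 : 25 / (2 * R) = 25 / 2 * (1 / R) := by
      field_simp
    have hcp : 0 < 1 / R := by positivity
    have hmin := AA_ge_min h hs (by linarith)
    refine le_trans ?_ hmin
    rw [le_min_iff, hc]
    constructor
    · have hcos := Real.cos_le_one (tT x p (-a) + gam x p)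
      linarith
    · linarith

theorem m26_exp : Real.exp (-(2 * (2 * Real.pi - 1))) ≤ 4 / 100000 := by
  have hpi := Real.pi_gt_d2
  have h1 : Real.exp (-(2 * (2 * Real.pi - 1))) ≤ Real.exp (-(1056 / 100)) := by
    apply Real.exp_le_exp.2
    linarith
  refine h1.trans ?_
  rw [Real.exp_neg]
  have h2 : (25000 : ℝ) ≤ Real.exp (1056 / 100) := by
    have e : (1056 / 100 : ℝ) = 10 * 1 + 56 / 100 := by norm_num
    rw [e, Real.exp_add]
    have e2 : Real.exp (10 * 1) = Real.exp 1 ^ 10 := by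
      rw [← Real.exp_nat_mul]
      norm_num
    rw [e2]
    have h3 : (2.718 : ℝ) ^ 10 ≤ Real.exp 1 ^ 10 := by
      apply pow_le_pow_left₀ (by norm_num)
      have := Real.exp_one_gt_d9
      linarith
    have h4 : (156 / 100 : ℝ) ≤ Real.exp (56 / 100) := by
      have := Real.add_one_le_exp (56 / 100 : ℝ)
      linarith
    calc (25000 : ℝ) ≤ (2.718 : ℝ) ^ 10 * (156 / 100) := by norm_num
      _ ≤ Real.exp 1 ^ 10 * Real.exp (56 / 100) :=
        mul_le_mul h3 h4 (by norm_num) (by positivity)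
  calc (Real.exp (1056 / 100))⁻¹ ≤ (25000 : ℝ)⁻¹ := inv_anti₀ (by norm_num) h2
    _ = 4 / 100000 := by norm_num

theorem neg_int {R x p n : ℝ} (h : Par R x p) (hp : p ≤ 9 / 4) (hN : 406 / 10 ≤ n / R)
    (hNR : 165 / 100 * R ≤ n / R) :
    Real.sqrt (n * R / (2 * Real.pi)) *
      ∫ a in (1 / R)..(3 / 5 : ℝ), Real.exp (n * (hh (zz x p) (-a)).re) ≤ 163 / 10000 := by
  have hR := h.hR
  have hR0 : 0 < R := by linarith
  have hc8 : 1 / R ≤ 1 / 8 := one_div_le_one_div_of_le (by norm_num) hR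
  have hcp : 0 < 1 / R := by positivity
  set N := n / R with hNdef
  have hN0 : 0 < N := by linarith
  have hn : n = N * R := by
    rw [hNdef]
    field_simp
  have hn0 : 0 < n := by
    rw [hn]
    positivity
  have hptw : ∀ a ∈ Set.Icc (1 / R) (3 / 5 : ℝ), Real.exp (n * (hh (zz x p) (-a)).re) ≤
      Real.exp (-(N * (AA x p (-a) - 7 / 100 / R))) := by
    intro a ha
    have hap : 0 ≤ a := le_trans hcp.le ha.1
    apply Real.exp_le_exp.2
    have h1 := AA_nonneg_neg h ha.1 ha.2
    have h2 : 0 ≤ AA x p (-a) := le_trans (by positivity) h1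
    have h3 := n_re_le h hn0.le (-a) h2
    have h4 := eta_in h (b := -a) (by
      rw [abs_neg, abs_of_nonneg hap]
      linarith [ha.2])
    have h5 := mul_le_mul_of_nonneg_left h4 hN0.le
    refine h3.trans ?_
    linarith
  have hsplit := split_int (a := 1 / R) (c := 3 / 5) (m := R / (295 / 100))
    (θ0 := 2 * Real.pi - 1)
    (C0 := Real.exp (-(N * (1 / 5 - 7 / 100 / R))) + Real.exp (-(43 / 100 * N)))
    (K1 := 0) (K2 := 56 / 10 * Real.exp (-(2 * (2 * Real.pi - 1))) / Real.sqrt N)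
    (F := fun a => Real.exp (n * (hh (zz x p) (-a)).re))
    (Θ := fun a => -(tT x p (-a)) - gam x p)
    (Θ' := fun a => x * Real.cos a - 2 - p * Real.sin a)
    (G := fun _ => 0) (H := G2 N 2)
    (by linarith) (by positivity)
    (fun b _ => (tm_deriv x p b).sub_const _)
    (by fun_prop)
    (fun b hb => jac_neg h (le_trans hcp.le hb.1) hb.2)
    (by
      apply Continuous.continuousOn
      apply Real.continuous_exp.comp
      apply continuous_const.mul
      apply Complex.continuous_re.comp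
      have h1 := (hh_cont (zz x p)).comp (continuous_neg (G := ℝ))
      exact h1)
    continuous_const (G2_cont N 2) (fun _ => le_rfl)
    (fun t => by
      unfold G2
      positivity)
    (fun b hb hT => by
      have h1 := (hptw b hb).trans (zone_neg1 h hp hN0.le hb.1 hb.2 hT)
      have h2 := Real.exp_pos (-(43 / 100 * N))
      simp only [add_zero]
      linarith)
    (fun b hb hT => by
      have h1 := (hptw b hb).trans (zone_neg2 h hNR hb.1 hb.2 hT)
      have h2 := Real.exp_pos (-(N * (1 / 5 - 7 / 100 / R)))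
      simp only [add_zero]
      linarith)
    (fun u v _ => by simp)
    (fun v hv => G2_int hN0 (by norm_num) hv)
  set L := Real.sqrt (n * R / (2 * Real.pi)) with hL
  have hL0 : 0 ≤ L := Real.sqrt_nonneg _
  have h1 := lam_mid hR hN hNR
  have h2 := lam_43 hR hN hNR
  rw [← hL, ← hNdef] at h1 h2
  have hLe : L = R * Real.sqrt N / Real.sqrt (2 * Real.pi) := by
    rw [hL, hn]
    have e : N * R * R / (2 * Real.pi) = R ^ 2 * N / (2 * Real.pi) := by ring
    rw [e, Real.sqrt_div (by positivity), Real.sqrt_mul (by positivity),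
      Real.sqrt_sq hR0.le]
  have hs1 : 0 < Real.sqrt N := Real.sqrt_pos.2 hN0
  have hs2 : 25 / 10 ≤ Real.sqrt (2 * Real.pi) := by
    apply Real.le_sqrt_of_sq_le
    have := Real.pi_gt_d2
    norm_num
    linarith
  have hK2 : L * ((0 + 56 / 10 * Real.exp (-(2 * (2 * Real.pi - 1))) / Real.sqrt N) /
      (R / (295 / 100))) ≤ 27 / 100000 := by
    have e : L * ((0 + 56 / 10 * Real.exp (-(2 * (2 * Real.pi - 1))) / Real.sqrt N) /
      (R / (295 / 100))) = 1652 / 100 * Real.exp (-(2 * (2 * Real.pi - 1))) /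
        Real.sqrt (2 * Real.pi) := by
      rw [hLe]
      field_simp
      ring
    rw [e, div_le_iff₀ (by linarith)]
    have := m26_exp
    nlinarith
  have hmul := mul_le_mul_of_nonneg_left hsplit hL0
  refine hmul.trans ?_
  rw [mul_add]
  have h3 : L * ((Real.exp (-(N * (1 / 5 - 7 / 100 / R))) + Real.exp (-(43 / 100 * N))) *
      (3 / 5 - 1 / R)) ≤ (266 / 10000 + 1 / 10000) * (3 / 5) := by
    rw [← mul_assoc, mul_add]
    apply mul_le_mul (add_le_add h1 h2) (by linarith) (by linarith) (by norm_num)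
  linarith

end SCE
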