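import Pool.Agent.Helper22.SCE.M17

/-!
# SCE-M27: the far zone
`sqrt(1+q^2) <= 1.1061` (`q <= 0.4725`), `<= 1.0759` (`p <= 9/4`, `q <= 0.3968`).
From M17 `AA_eq`: `AA >= 1 - e^(-s) sqrt(1+q^2) >= 1 - sqrt(1+q^2)/(1+s)` for `s >= 0`.
* `4/5 <= b <= pi`: `s = (1-cos b)(x - p cot(b/2))`; as `cot(b/2) <= cot(2/5) <= 2.3653` and
  `1 - cos b >= 1 - cos(4/5) >= 0.3032`, `x - 2.3653 p >= 7.556 - 6.209 > 0`:
  `s >= 0.3032*(x - 2.3653 p)`: `p <= 9/4` (`x >= 8 - 2.59/8 = 7.676`): `s >= 0.7138`,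
  `AA >= 1 - 1.0759/1.7138 >= 0.37`; `p <= 21/8`: `s >= 0.408`, `AA >= 1 - 1.1061/1.408 >= 0.2`.
  (Without cot: `sin b <= 2.3653 (1 - cos b)` on `[4/5, pi]`: with `t = b/2`,
  `sin b = 2 sin t cos t`, `1 - cos b = 2 sin^2 t`, `cos t <= 2.3653 sin t` for `t in [2/5, pi/2]`.)
* `b = -a`, `3/5 <= a <= pi`: `s = x(1-cos a) + p sin a >= x (1 - cos(3/5)) >= 0.1746*7.556
  >= 1.319`, `AA >= 1 - 1.1061/2.319 >= 0.5`.
-/

namespace SCE

private lemma AA_low {R x p : ℝ} (h : Par R x p) {b s0 S v : ℝ} (hs0 : 0 ≤ s0)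
    (hs : s0 ≤ sS x p b) (hS : 1 + (p / (x - 2)) ^ 2 ≤ S ^ 2) (hS0 : 0 ≤ S)
    (hv : S ≤ (1 - v) * (1 + s0)) : v ≤ AA x p b := by
  rw [AA_eq h]
  have h1 : Real.sqrt (1 + (p / (x - 2)) ^ 2) ≤ S := by
    rw [Real.sqrt_le_left hS0]
    exact hS
  have h2 : Real.sqrt (1 + (p / (x - 2)) ^ 2) * Real.cos (tT x p b + gam x p) ≤ S := by
    have h3 := Real.cos_le_one (tT x p b + gam x p)
    have h4 := Real.sqrt_nonneg (1 + (p / (x - 2)) ^ 2)
    nlinarith
  have h5 : Real.exp (-(sS x p b)) * (1 + s0) ≤ 1 := by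
    have e1 := Real.add_one_le_exp (sS x p b)
    have e2 : Real.exp (-(sS x p b)) * Real.exp (sS x p b) = 1 := by
      rw [← Real.exp_add]
      simp
    have e3 := Real.exp_pos (-(sS x p b))
    nlinarith
  have h6 := Real.exp_pos (-(sS x p b))
  have h7 : Real.exp (-(sS x p b)) * (Real.sqrt (1 + (p / (x - 2)) ^ 2) *
      Real.cos (tT x p b + gam x p)) ≤ Real.exp (-(sS x p b)) * S :=
    mul_le_mul_of_nonneg_left h2 h6.le
  have h8 : Real.exp (-(sS x p b)) * S ≤ Real.exp (-(sS x p b)) * ((1 - v) * (1 + s0)) :=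
    mul_le_mul_of_nonneg_left hv h6.le
  have hv1 : 0 ≤ 1 - v := by
    by_contra hneg
    have : (1 - v) * (1 + s0) < 0 := mul_neg_of_neg_of_pos (not_le.1 hneg) (by linarith)
    linarith
  nlinarith

private lemma sin25 : (3893 / 10000 : ℝ) < Real.sin (2 / 5) := by
  have := Real.sin_gt_sub_cube (x := 2 / 5) (by norm_num)
  norm_num at this ⊢
  linarith

private lemma cos25 : Real.cos (2 / 5) ≤ 92112 / 100000 := by
  have h1 := sin25
  have h2 := Real.sin_sq_add_cos_sq (2 / 5)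
  by_contra hneg
  rw [not_le] at hneg
  nlinarith

private lemma cos45 : Real.cos (4 / 5) ≤ 6969 / 10000 := by
  have h1 : Real.cos (4 / 5) = 1 - 2 * Real.sin (2 / 5) ^ 2 := by
    have e : (4 / 5 : ℝ) = 2 * (2 / 5) := by norm_num
    rw [e, Real.cos_two_mul]
    have h2 := Real.sin_sq_add_cos_sq (2 / 5)
    linarith
  rw [h1]
  have := sin25
  nlinarith

private lemma cos35 : Real.cos (3 / 5) ≤ 826 / 1000 := by
  have h1 : (564 / 1000 : ℝ) < Real.sin (3 / 5) := by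
    have := Real.sin_gt_sub_cube (x := 3 / 5) (by norm_num)
    norm_num at this ⊢
    linarith
  have h2 := Real.sin_sq_add_cos_sq (3 / 5)
  by_contra hneg
  rw [not_le] at hneg
  nlinarith

private lemma cot_bound {b : ℝ} (hb0 : 4 / 5 ≤ b) (hb : b ≤ Real.pi) :
    Real.sin b ≤ 2367 / 1000 * (1 - Real.cos b) := by
  have e : b = 2 * (b / 2) := by ring
  have hs : Real.sin b = 2 * Real.sin (b / 2) * Real.cos (b / 2) := by
    conv_lhs => rw [e]
    exact Real.sin_two_mul _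
  have hc : 1 - Real.cos b = 2 * Real.sin (b / 2) ^ 2 := by
    have h1 : Real.cos b = 2 * Real.cos (b / 2) ^ 2 - 1 := by
      conv_lhs => rw [e]
      exact Real.cos_two_mul _
    rw [h1]
    have := Real.sin_sq_add_cos_sq (b / 2)
    linarith
  have pl := Real.pi_gt_d4
  have hsp : 0 ≤ Real.sin (b / 2) :=
    Real.sin_nonneg_of_nonneg_of_le_pi (by linarith) (by linarith)
  have hcp : 0 ≤ Real.cos (b / 2) :=
    Real.cos_nonneg_of_neg_pi_div_two_le_of_le (by linarith) (by linarith)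
  have hd : 0 ≤ Real.sin (b / 2 - 2 / 5) :=
    Real.sin_nonneg_of_nonneg_of_le_pi (by linarith) (by linarith)
  rw [Real.sin_sub] at hd
  have h1 := sin25
  have h2 := cos25
  have hk : Real.cos (b / 2) ≤ 2367 / 1000 * Real.sin (b / 2) := by
    by_contra hneg
    rw [not_le] at hneg
    have h3 : Real.cos (b / 2) * (3893 / 10000) ≤ Real.cos (b / 2) * Real.sin (2 / 5) :=
      mul_le_mul_of_nonneg_left h1.le hcp
    have h4 : Real.sin (b / 2) * Real.cos (2 / 5) ≤ Real.sin (b / 2) * (92112 / 100000) :=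
      mul_le_mul_of_nonneg_left h2 hsp
    have h5 : Real.cos (b / 2) = 0 ∨ 0 < Real.cos (b / 2) := by
      rcases hcp.lt_or_eq with h | h
      · exact Or.inr h
      · exact Or.inl h.symm
    rcases h5 with h5 | h5
    · nlinarith
    · nlinarith
  rw [hs, hc]
  nlinarith

theorem far_pos {R x p : ℝ} (h : Par R x p) {b : ℝ} (hb0 : 4 / 5 ≤ b) (hb : b ≤ Real.pi) :
    1 / 5 ≤ AA x p b ∧ (p ≤ 9 / 4 → 37 / 100 ≤ AA x p b) := by
  obtain ⟨hq0, hq1, hq2⟩ := q_le h
  have hp := h.hp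
  have hp0 := h.hp0
  have hx := x_ge' h
  have h1 := cot_bound hb0 hb
  have h2 : Real.cos b ≤ 6969 / 10000 :=
    (Real.cos_le_cos_of_nonneg_of_le_pi (by norm_num) hb hb0).trans cos45
  have hs : (1 - Real.cos b) * (x - 2367 / 1000 * p) ≤ sS x p b := by
    unfold sS
    have := mul_le_mul_of_nonneg_left h1 hp0
    linarith
  constructor
  · refine AA_low h (s0 := 4 / 10) (S := 1107 / 1000) (by norm_num) ?_ (by nlinarith)
      (by norm_num) (by norm_num)
    refine le_trans ?_ hs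
    nlinarith
  · intro hp9
    have hx9 : 7676 / 1000 ≤ x := by
      have e1 := x_ges h hp9
      have e2 : (259 / 100 : ℝ) / R ≤ 259 / 100 / 8 :=
        div_le_div_of_nonneg_left (by norm_num) (by norm_num) h.hR
      have e3 := h.hR
      linarith
    refine AA_low h (s0 := 712 / 1000) (S := 1076 / 1000) (by norm_num) ?_ ?_
      (by norm_num) (by norm_num)
    · refine le_trans ?_ hs
      nlinarith
    · have := hq2 hp9
      nlinarith

theorem far_neg {R x p : ℝ} (h : Par R x p) {a : ℝ} (ha0 : 3 / 5 ≤ a) (ha : a ≤ Real.pi) :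
    1 / 2 ≤ AA x p (-a) := by
  obtain ⟨hq0, hq1, hq2⟩ := q_le h
  have hp0 := h.hp0
  have hx := x_ge' h
  have h2 : Real.cos a ≤ 826 / 1000 :=
    (Real.cos_le_cos_of_nonneg_of_le_pi (by norm_num) ha ha0).trans cos35
  have h3 : 0 ≤ Real.sin a := Real.sin_nonneg_of_nonneg_of_le_pi (by linarith) ha
  refine AA_low h (s0 := 13 / 10) (S := 1107 / 1000) (by norm_num) ?_ (by nlinarith)
    (by norm_num) (by norm_num)
  unfold sS
  rw [Real.cos_neg, Real.sin_neg]
  have h4 : 0 ≤ p * Real.sin a := mul_nonneg hp0 h3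
  nlinarith

end SCE
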