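import Pool.Agent.Helper22.SCE.M25
import Pool.Agent.Helper22.SCE.M26
import Pool.Agent.Helper22.SCE.M27

/-!
# SCE-M29: the crude statement `Re hh <= 0` (`p <= 21/8`, no condition on `n`)
`|b| <= 1/R`: M11 `re_hh_pos`, `re_hh_neg` (second components).  Otherwise M03 `n_re_le` with
`n = 1` (needs `AA >= 0`): `Re hh <= -(1/R)(AA - R|hh - h0|)`, and `AA >= R |hh-h0|`:
`b in [1/R,4/5]`: `AA_nonneg_pos` (M25) and `eta_in` (M04); `-b in [1/R,3/5]`: `AA_nonneg_neg`
(M26), `eta_in`; `b >= 4/5` or `-b >= 3/5`: M27 (`AA >= 1/5`) and `eta_far` (`<= 0.21/8`).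
-/

namespace SCE

theorem M29_aux {R x p : ℝ} (h : Par R x p) {b e : ℝ} (he : 0 ≤ e)
    (hA : e ≤ AA x p b) (hE : R * ‖hh (zz x p) b - h0 (zz x p) b‖ ≤ e) :
    (hh (zz x p) b).re ≤ 0 := by
  have hR := h.hR
  have h1 := n_re_le h (n := 1) zero_le_one b (he.trans hA)
  rw [one_mul] at h1
  have h2 : 0 ≤ 1 / R * (AA x p b - R * ‖hh (zz x p) b - h0 (zz x p) b‖) :=
    mul_nonneg (by positivity) (by linarith)
  linarith

theorem re_hh_nonpos {R x p : ℝ} (h : Par R x p) {b : ℝ} (hb : |b| ≤ Real.pi) :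
    (hh (zz x p) b).re ≤ 0 := by
  have hR := h.hR
  have hR0 : 0 < R := by linarith
  have h7 : 0 ≤ 7 / 100 / R := by positivity
  have h21 : 21 / 100 / R ≤ 1 / 5 := by
    rw [div_le_iff₀ hR0]; linarith
  rcases le_total 0 b with h0 | h0
  · rw [abs_of_nonneg h0] at hb
    rcases le_total b (1 / R) with h1 | h1
    · have h3 := (re_hh_pos h h0 h1).2
      have h4 : 0 ≤ 199 / 1000 * R * b ^ 2 := by positivity
      linarith
    rcases le_total b (4 / 5) with h2 | h2
    · exact M29_aux h h7 (AA_nonneg_pos h h1 h2) (eta_in h (by rwa [abs_of_nonneg h0]))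
    · exact M29_aux h (by norm_num) (far_pos h h2 hb).1
        ((eta_far h (by rwa [abs_of_nonneg h0])).trans h21)
  · rw [abs_of_nonpos h0] at hb
    obtain ⟨a, rfl⟩ : ∃ a, b = -a := ⟨-b, by ring⟩
    rw [neg_neg] at hb
    have h0' : 0 ≤ a := by linarith
    rcases le_total a (1 / R) with h1 | h1
    · have h3 := (re_hh_neg h h0' h1).2
      have h4 : 0 ≤ 199 / 1000 * R * a ^ 2 := by positivity
      linarith
    rcases le_total a (3 / 5) with h2 | h2
    · exact M29_aux h h7 (AA_nonneg_neg h h1 h2)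
        (eta_in h (by rw [abs_neg, abs_of_nonneg h0']; linarith))
    · exact M29_aux h (by norm_num) ((by norm_num : (1 / 5 : ℝ) ≤ 1 / 2).trans (far_neg h h2 hb))
        ((eta_far h (by rwa [abs_neg, abs_of_nonneg h0'])).trans h21)

end SCE
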