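import Pool.Agent.Helper22.SCE.M12
import Pool.Agent.Helper22.SCE.M29

/-!
# SCE-M30: the sharp statement
`cond`: `R <= (2/3) sqrt n + 7/2`, `R >= 8`, `n >= 1000` imply `n/R >= 40.6` and `n/R >= 1.65 R`:
`(R-3.5)^2 <= (4/9) n`, `n >= 2.25 (R-3.5)^2`.  If `R <= 24.6`: `1000 >= 1.65*24.6^2 = 998.6`,
`1000 >= 40.6*24.6 = 998.8`.  If `R >= 24.6`: `1.5(R-3.5) >= 1.2846 R`, so
`n >= 1.65 R^2`; and `2.25(R-3.5)^2 >= 40.6 R`.

`sharp`: `norm(2 pi/(n kappa))^(1/2) = sqrt(2 pi/(n |kappa|)) >= sqrt(2 pi/(n R))` (M09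
`kap_norm`), i.e. `sqrt(nR/(2 pi)) * |(2 pi/(n kappa))^(1/2)| >= 1`.  So it suffices that
`sqrt(nR/(2 pi)) * |int_{-pi}^{pi} exp(n hh) - (2 pi/(n kappa))^(1/2)| <= 1/4`.  Split the
integral at `-3/5, -1/R, 1/R, 4/5`:
* central minus Gaussian: M11 `central`: `<= 0.783 sqrt(R/n) <= 0.783/sqrt(40.6) <= 0.1230`;
* Gaussian minus full Gaussian: M12: `sqrt(nR/(2pi)) 2R/(n Re kappa) e^(-n Re kappa/(2R^2))`, with
  `Re kappa >= 0.8 R`: `<= sqrt(R/n) e^(-0.4*40.6) <= 0.0001`;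
* `|exp(n hh)| = exp(n Re hh)`: M25 `<= 0.074`, M26 `<= 0.0163` (substitute `b = -a`);
* far: `exp(n Re hh) <= exp(-(n/R)(0.37 - 0.21/8)) <= exp(-0.343 n/R)` (M27, M04 `eta_far`, M03
  `n_re_le`), length `<= 5`: M28a `lam_far`: `<= 0.0003`.
Total `<= 0.2137 <= 1/4`.
-/

namespace SCE

open Complex MeasureTheory

theorem cond {n R : ℝ} (hR : 8 ≤ R) (hn : 1000 ≤ n) (hRn : R ≤ 2 / 3 * Real.sqrt n + 7 / 2) :
    406 / 10 ≤ n / R ∧ 165 / 100 * R ≤ n / R := by
  have hn0 : 0 ≤ n := by linarith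
  have hR0 : 0 < R := by linarith
  have hs2 : Real.sqrt n ^ 2 = n := Real.sq_sqrt hn0
  have hs : 3162 / 100 ≤ Real.sqrt n := by
    apply Real.le_sqrt_of_sq_le
    norm_num
    linarith
  set t := Real.sqrt n with ht
  constructor
  · rw [le_div_iff₀ hR0]
    nlinarith
  · rw [le_div_iff₀ hR0]
    have h1 : R * R ≤ (2 / 3 * t + 7 / 2) * (2 / 3 * t + 7 / 2) :=
      mul_self_le_mul_self hR0.le hRn
    nlinarith

theorem sharp {R x p n : ℝ} (h : Par R x p) (hp : p ≤ 9 / 4) (hn : 1000 ≤ n)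
    (hRn : R ≤ 2 / 3 * Real.sqrt n + 7 / 2) :
    ‖(∫ b in (-Real.pi)..Real.pi, exp (n * hh (zz x p) b))
        - ((2 * Real.pi / (n * kap (zz x p)) : ℂ)) ^ (1 / 2 : ℂ)‖ ≤
      1 / 4 * ‖((2 * Real.pi / (n * kap (zz x p)) : ℂ)) ^ (1 / 2 : ℂ)‖ := by
  have hn0 : 0 < n := by linarith
  have hR := h.hR
  have hR0 : 0 < R := by linarith
  obtain ⟨hN, hNR⟩ := cond hR hn hRn
  have hN0 : 0 < n / R := by linarith
  have hπ3 := Real.pi_gt_d2
  have hπ4 := Real.pi_lt_d2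
  have hπ0 := Real.pi_pos
  have hκre := (kap_re h).2
  have hκn := kap_norm h
  have hκ0 : 0 < (kap (zz x p)).re := by linarith
  have hκne : kap (zz x p) ≠ 0 := by
    intro h0
    rw [h0] at hκ0
    simp at hκ0
  have hκnpos : 0 < ‖kap (zz x p)‖ := norm_pos_iff.mpr hκne
  set κ : ℂ := kap (zz x p) with hκdef
  set L : ℝ := Real.sqrt (n * R / (2 * Real.pi)) with hL
  have hL0 : 0 < L := Real.sqrt_pos.mpr (by positivity)
  -- the size of the main term
  have hG : 1 ≤ L * ‖((2 * Real.pi / (n * κ) : ℂ)) ^ (1 / 2 : ℂ)‖ := by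
    have h1 : ((1 / 2 : ℂ)) = (((1 / 2 : ℝ)) : ℂ) := by push_cast; rfl
    rw [h1, Complex.norm_cpow_real, ← Real.sqrt_eq_rpow, hL, ← Real.sqrt_mul (by positivity)]
    rw [show (1 : ℝ) = Real.sqrt 1 from Real.sqrt_one.symm]
    apply Real.sqrt_le_sqrt
    have h2 : ‖(2 * Real.pi / (n * κ) : ℂ)‖ = 2 * Real.pi / (n * ‖κ‖) := by
      rw [norm_div, norm_mul, norm_mul, Complex.norm_real, Complex.norm_real, Complex.norm_ofNat,
        Real.norm_of_nonneg hπ0.le, Real.norm_of_nonneg hn0.le]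
    rw [h2]
    have h3 : n * R / (2 * Real.pi) * (2 * Real.pi / (n * ‖κ‖)) = R / ‖κ‖ := by
      field_simp
    rw [h3, le_div_iff₀ hκnpos, one_mul]
    exact hκn
  -- the integrals
  have hf : Continuous (fun b : ℝ => exp (n * hh (zz x p) b)) :=
    (continuous_const.mul (hh_cont (zz x p))).cexp
  have hint : ∀ a b : ℝ, IntervalIntegrable (fun b : ℝ => exp (n * hh (zz x p) b)) volume a b :=
    fun a b => hf.intervalIntegrable a b
  have hg : Continuous (fun b : ℝ => exp (-(n * κ * b ^ 2 / 2))) := by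
    apply Continuous.cexp
    fun_prop
  have hnorm : ∀ b : ℝ, ‖exp (n * hh (zz x p) b)‖ = Real.exp (n * (hh (zz x p) b).re) := by
    intro b
    rw [Complex.norm_exp, Complex.re_ofReal_mul]
  have hfar : ∀ b : ℝ, |b| ≤ Real.pi → 37 / 100 ≤ AA x p b →
      ‖exp (n * hh (zz x p) b)‖ ≤ Real.exp (-(343 / 1000 * (n / R))) := by
    intro b hb hA
    rw [hnorm b]
    apply Real.exp_le_exp.mpr
    have h1 := n_re_le h hn0.le b (by linarith)
    have h2 := eta_far h hb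
    have h3 : 21 / 100 / R ≤ 21 / 800 := by
      rw [div_le_iff₀ hR0]
      linarith
    refine le_trans h1 ?_
    have h4 : 343 / 1000 ≤ AA x p b - R * ‖hh (zz x p) b - h0 (zz x p) b‖ := by linarith
    have h5 := mul_le_mul_of_nonneg_left h4 hN0.le
    linarith
  have hI1 : L * ‖∫ b in (-Real.pi)..(-(3 / 5) : ℝ), exp (n * hh (zz x p) b)‖ ≤
      6 / 100000 * (255 / 100) := by
    have h1 : ‖∫ b in (-Real.pi)..(-(3 / 5) : ℝ), exp (n * hh (zz x p) b)‖ ≤
        Real.exp (-(343 / 1000 * (n / R))) * |(-(3 / 5) : ℝ) - (-Real.pi)| := by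
      apply intervalIntegral.norm_integral_le_of_norm_le_const
      intro b hb
      rw [Set.uIoc_of_le (by linarith)] at hb
      refine hfar b ?_ ?_
      · rw [abs_le]
        constructor
        · linarith [hb.1]
        · linarith [hb.2]
      · have h2 := far_neg h (a := -b) (by linarith [hb.2]) (by linarith [hb.1])
        rw [neg_neg] at h2
        linarith
    have h2 : |(-(3 / 5) : ℝ) - (-Real.pi)| ≤ 255 / 100 := by
      rw [abs_of_nonneg (by linarith)]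
      linarith
    have h3 := lam_far hR hN hNR
    calc L * ‖∫ b in (-Real.pi)..(-(3 / 5) : ℝ), exp (n * hh (zz x p) b)‖ ≤
          L * (Real.exp (-(343 / 1000 * (n / R))) * |(-(3 / 5) : ℝ) - (-Real.pi)|) :=
          mul_le_mul_of_nonneg_left h1 hL0.le
      _ = (L * Real.exp (-(343 / 1000 * (n / R)))) * |(-(3 / 5) : ℝ) - (-Real.pi)| := by ring
      _ ≤ 6 / 100000 * (255 / 100) := mul_le_mul h3 h2 (abs_nonneg _) (by norm_num)
  have hI5 : L * ‖∫ b in (4 / 5 : ℝ)..Real.pi, exp (n * hh (zz x p) b)‖ ≤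
      6 / 100000 * (235 / 100) := by
    have h1 : ‖∫ b in (4 / 5 : ℝ)..Real.pi, exp (n * hh (zz x p) b)‖ ≤
        Real.exp (-(343 / 1000 * (n / R))) * |Real.pi - (4 / 5 : ℝ)| := by
      apply intervalIntegral.norm_integral_le_of_norm_le_const
      intro b hb
      rw [Set.uIoc_of_le (by linarith)] at hb
      refine hfar b ?_ ?_
      · rw [abs_le]
        constructor
        · linarith [hb.1]
        · linarith [hb.2]
      · exact (far_pos h hb.1.le hb.2).2 hp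
    have h2 : |Real.pi - (4 / 5 : ℝ)| ≤ 235 / 100 := by
      rw [abs_of_nonneg (by linarith)]
      linarith
    have h3 := lam_far hR hN hNR
    calc L * ‖∫ b in (4 / 5 : ℝ)..Real.pi, exp (n * hh (zz x p) b)‖ ≤
          L * (Real.exp (-(343 / 1000 * (n / R))) * |Real.pi - (4 / 5 : ℝ)|) :=
          mul_le_mul_of_nonneg_left h1 hL0.le
      _ = (L * Real.exp (-(343 / 1000 * (n / R)))) * |Real.pi - (4 / 5 : ℝ)| := by ring
      _ ≤ 6 / 100000 * (235 / 100) := mul_le_mul h3 h2 (abs_nonneg _) (by norm_num)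
  have hRinv : 1 / R ≤ 1 / 8 := one_div_le_one_div_of_le (by norm_num) hR
  have hRinv0 : 0 < 1 / R := by positivity
  have hI4 : L * ‖∫ b in (1 / R)..(4 / 5 : ℝ), exp (n * hh (zz x p) b)‖ ≤ 74 / 1000 := by
    have h1 := intervalIntegral.norm_integral_le_integral_norm (μ := volume)
      (f := fun b : ℝ => exp (n * hh (zz x p) b))
      (show (1 / R) ≤ (4 / 5 : ℝ) by linarith)
    simp only [hnorm] at h1
    exact le_trans (mul_le_mul_of_nonneg_left h1 hL0.le) (pos_int h hp hN hNR)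
  have hI2 : L * ‖∫ b in (-(3 / 5) : ℝ)..(-(1 / R)), exp (n * hh (zz x p) b)‖ ≤
      163 / 10000 := by
    have h1 := intervalIntegral.norm_integral_le_integral_norm (μ := volume)
      (f := fun b : ℝ => exp (n * hh (zz x p) b))
      (show (-(3 / 5) : ℝ) ≤ -(1 / R) by linarith)
    simp only [hnorm] at h1
    have h2 : ∫ a in (1 / R)..(3 / 5 : ℝ), Real.exp (n * (hh (zz x p) (-a)).re) =
        ∫ b in (-(3 / 5) : ℝ)..(-(1 / R)), Real.exp (n * (hh (zz x p) b).re) :=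
      intervalIntegral.integral_comp_neg (fun b => Real.exp (n * (hh (zz x p) b).re))
    rw [← h2] at h1
    exact le_trans (mul_le_mul_of_nonneg_left h1 hL0.le) (neg_int h hp hN hNR)
  have hsq : Real.sqrt (R / n) ≤ 157 / 1000 := by
    rw [Real.sqrt_le_iff]
    refine ⟨by norm_num, ?_⟩
    rw [div_le_iff₀ hn0]
    rw [le_div_iff₀ hR0] at hN
    linarith
  have hI3 : L * ‖(∫ b in (-(1 / R))..(1 / R), exp (n * hh (zz x p) b)) -
      ∫ b in (-(1 / R))..(1 / R), exp (-(n * κ * b ^ 2 / 2))‖ ≤ 123 / 1000 := by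
    rw [← intervalIntegral.integral_sub (hint _ _) (hg.intervalIntegrable _ _)]
    have h1 := intervalIntegral.norm_integral_le_integral_norm (μ := volume)
      (f := fun b : ℝ => exp (n * hh (zz x p) b) - exp (-(n * κ * b ^ 2 / 2)))
      (show (-(1 / R)) ≤ (1 / R : ℝ) by linarith)
    have h2 := central h hp hn0
    have h3 := mul_le_mul_of_nonneg_left h1 hL0.le
    have h4 : 783 / 1000 * Real.sqrt (R / n) ≤ 123 / 1000 := by linarith
    exact le_trans h3 (le_trans h2 h4)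
  have hLn : L ≤ 628 / 10000 * n := by
    rw [hL, Real.sqrt_le_iff]
    refine ⟨by positivity, ?_⟩
    rw [div_le_iff₀ (by positivity)]
    rw [le_div_iff₀ hR0] at hN
    have h1 : R * (406 / 10) ≤ n := by linarith
    have h2 : n * R ≤ n * (10 / 406 * n) := mul_le_mul_of_nonneg_left (by linarith) hn0.le
    have h3 : (628 / 10000 * n) ^ 2 * (2 * (314 / 100)) ≤ (628 / 10000 * n) ^ 2 * (2 * Real.pi) :=
      mul_le_mul_of_nonneg_left (by linarith) (by positivity)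
    nlinarith
  have hI6 : L * ‖(∫ b in (-(1 / R))..(1 / R), exp (-(n * κ * b ^ 2 / 2)))
        - ((2 * Real.pi / (n * κ) : ℂ)) ^ (1 / 2 : ℂ)‖ ≤ 1 / 100 := by
    have h1 := gauss_tail hn0 hR0 hκ0
    have h2 : 2 * R / (n * κ.re) ≤ 5 / 2 / n := by
      rw [div_le_div_iff₀ (by positivity) hn0]
      have : 0 ≤ n * (κ.re - 8 / 10 * R) := mul_nonneg hn0.le (by linarith)
      nlinarith
    have h3 : Real.exp (-(n * κ.re) / (2 * R ^ 2)) ≤ 1 / 17 := by
      have h4 : 16 ≤ n * κ.re / (2 * R ^ 2) := by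
        rw [le_div_iff₀ (by positivity)]
        rw [le_div_iff₀ hR0] at hN
        have h5 : n * (8 / 10 * R) ≤ n * κ.re := mul_le_mul_of_nonneg_left hκre hn0.le
        have h6 : (406 / 10 * R) * R ≤ n * R := mul_le_mul_of_nonneg_right hN hR0.le
        nlinarith
      have h5 : (17 : ℝ) ≤ Real.exp (n * κ.re / (2 * R ^ 2)) := by
        linarith [Real.add_one_le_exp (n * κ.re / (2 * R ^ 2))]
      have h6 : -(n * κ.re) / (2 * R ^ 2) = -(n * κ.re / (2 * R ^ 2)) := by ring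
      rw [h6, Real.exp_neg, ← one_div]
      exact one_div_le_one_div_of_le (by norm_num) h5
    have h7 : L * (2 * R / (n * κ.re)) ≤ 157 / 1000 := by
      calc L * (2 * R / (n * κ.re)) ≤ (628 / 10000 * n) * (5 / 2 / n) :=
            mul_le_mul hLn h2 (by positivity) (by positivity)
        _ = 157 / 1000 := by
            field_simp
            norm_num
    calc L * ‖(∫ b in (-(1 / R))..(1 / R), exp (-(n * κ * b ^ 2 / 2)))
        - ((2 * Real.pi / (n * κ) : ℂ)) ^ (1 / 2 : ℂ)‖ ≤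
          L * (2 * R / (n * κ.re) * Real.exp (-(n * κ.re) / (2 * R ^ 2))) :=
          mul_le_mul_of_nonneg_left h1 hL0.le
      _ = L * (2 * R / (n * κ.re)) * Real.exp (-(n * κ.re) / (2 * R ^ 2)) := by ring
      _ ≤ 157 / 1000 * (1 / 17) := mul_le_mul h7 h3 (Real.exp_pos _).le (by norm_num)
      _ ≤ 1 / 100 := by norm_num
  have hsplit : (∫ b in (-Real.pi)..Real.pi, exp (n * hh (zz x p) b)) =
      (∫ b in (-Real.pi)..(-(3 / 5) : ℝ), exp (n * hh (zz x p) b)) +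
      (∫ b in (-(3 / 5) : ℝ)..(-(1 / R)), exp (n * hh (zz x p) b)) +
      (∫ b in (-(1 / R))..(1 / R), exp (n * hh (zz x p) b)) +
      (∫ b in (1 / R)..(4 / 5 : ℝ), exp (n * hh (zz x p) b)) +
      (∫ b in (4 / 5 : ℝ)..Real.pi, exp (n * hh (zz x p) b)) := by
    rw [intervalIntegral.integral_add_adjacent_intervals (hint _ _) (hint _ _),
      intervalIntegral.integral_add_adjacent_intervals (hint _ _) (hint _ _),
      intervalIntegral.integral_add_adjacent_intervals (hint _ _) (hint _ _),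
      intervalIntegral.integral_add_adjacent_intervals (hint _ _) (hint _ _)]
  rw [hsplit]
  generalize (∫ b in (-Real.pi)..(-(3 / 5) : ℝ), exp (n * hh (zz x p) b)) = J1 at *
  generalize (∫ b in (-(3 / 5) : ℝ)..(-(1 / R)), exp (n * hh (zz x p) b)) = J2 at *
  generalize (∫ b in (-(1 / R))..(1 / R), exp (n * hh (zz x p) b)) = J3 at *
  generalize (∫ b in (1 / R)..(4 / 5 : ℝ), exp (n * hh (zz x p) b)) = J4 at *
  generalize (∫ b in (4 / 5 : ℝ)..Real.pi, exp (n * hh (zz x p) b)) = J5 at *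
  generalize (∫ b in (-(1 / R))..(1 / R), exp (-(n * κ * b ^ 2 / 2))) = J6 at *
  generalize ((2 * Real.pi / (n * κ) : ℂ)) ^ (1 / 2 : ℂ) = G at *
  have hdec : J1 + J2 + J3 + J4 + J5 - G = J1 + J2 + (J3 - J6) + (J6 - G) + J4 + J5 := by ring
  rw [hdec]
  have t1 := norm_add_le (J1 + J2 + (J3 - J6) + (J6 - G) + J4) J5
  have t2 := norm_add_le (J1 + J2 + (J3 - J6) + (J6 - G)) J4
  have t3 := norm_add_le (J1 + J2 + (J3 - J6)) (J6 - G)
  have t4 := norm_add_le (J1 + J2) (J3 - J6)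
  have t5 := norm_add_le J1 J2
  have t6 : ‖J1 + J2 + (J3 - J6) + (J6 - G) + J4 + J5‖ ≤
      ‖J1‖ + ‖J2‖ + ‖J3 - J6‖ + ‖J6 - G‖ + ‖J4‖ + ‖J5‖ := by linarith
  have t7 : L * ‖J1 + J2 + (J3 - J6) + (J6 - G) + J4 + J5‖ ≤ 1 / 4 := by
    have := mul_le_mul_of_nonneg_left t6 hL0.le
    nlinarith
  have t8 : L * ‖J1 + J2 + (J3 - J6) + (J6 - G) + J4 + J5‖ ≤ L * (1 / 4 * ‖G‖) := by
    nlinarith
  exact le_of_mul_le_mul_left t8 hL0

end SCE
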