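import Mathlib

/-!
# SCE-M12: the complex Gaussian integral over `[-1/R, 1/R]`
Mathlib `integral_gaussian_complex` with `b = n kappa/2` gives
`int_R exp(-(n kappa/2) b^2) = (pi/(n kappa/2))^(1/2) = (2 pi/(n kappa))^(1/2)`.
The two tails: `int_{1/R}^oo e^(-al b^2/2) db <= int (b R) e^(-al b^2/2) db
= (R/al) e^(-al/(2R^2))`, `al = n Re kappa`.
-/

namespace SCE

open Complex MeasureTheory

private theorem m12_tail {a c : ℝ} (ha : 0 < a) (hc : 0 < c) :
    ∫ x in Set.Ioi c, Real.exp (-a * x ^ 2) ≤ 1 / (2 * a * c) * Real.exp (-a * c ^ 2) := by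
  have hderiv : ∀ x ∈ Set.Ici c, HasDerivAt
      (fun x : ℝ => -(1 / (2 * a * c)) * Real.exp (-a * x ^ 2))
      (1 / c * (x * Real.exp (-a * x ^ 2))) x := by
    intro x _
    have h1 : HasDerivAt (fun x : ℝ => -a * x ^ 2) (-a * (2 * x)) x := by
      have := (hasDerivAt_pow 2 x).const_mul (-a)
      simpa using this
    have h2 := (h1.exp).const_mul (-(1 / (2 * a * c)))
    refine h2.congr_deriv ?_
    field_simp
  have hint : Integrable (fun x : ℝ => 1 / c * (x * Real.exp (-a * x ^ 2))) :=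
    (integrable_mul_exp_neg_mul_sq ha).const_mul _
  have hlim : Filter.Tendsto (fun x : ℝ => -(1 / (2 * a * c)) * Real.exp (-a * x ^ 2))
      Filter.atTop (nhds 0) := by
    have h1 : Filter.Tendsto (fun x : ℝ => a * x ^ 2) Filter.atTop Filter.atTop :=
      (Filter.tendsto_pow_atTop two_ne_zero).const_mul_atTop ha
    have h2 := (Real.tendsto_exp_neg_atTop_nhds_zero.comp h1).const_mul (-(1 / (2 * a * c)))
    simp only [mul_zero] at h2
    refine h2.congr fun x => ?_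
    simp only [Function.comp, neg_mul]
  have h3 := integral_Ioi_of_hasDerivAt_of_tendsto' hderiv hint.integrableOn hlim
  calc ∫ x in Set.Ioi c, Real.exp (-a * x ^ 2)
      ≤ ∫ x in Set.Ioi c, 1 / c * (x * Real.exp (-a * x ^ 2)) := by
        refine setIntegral_mono_on (integrable_exp_neg_mul_sq ha).integrableOn hint.integrableOn
          measurableSet_Ioi fun x hx => ?_
        have hx' : c < x := hx
        have h4 : 1 ≤ 1 / c * x := by
          rw [one_div, inv_mul_eq_div, one_le_div hc]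
          exact hx'.le
        have h5 := Real.exp_pos (-a * x ^ 2)
        calc Real.exp (-a * x ^ 2) = 1 * Real.exp (-a * x ^ 2) := (one_mul _).symm
          _ ≤ (1 / c * x) * Real.exp (-a * x ^ 2) := mul_le_mul_of_nonneg_right h4 h5.le
          _ = _ := by ring
    _ = 1 / (2 * a * c) * Real.exp (-a * c ^ 2) := by
        rw [h3]
        ring

theorem gauss_tail {κ : ℂ} {n R : ℝ} (hn : 0 < n) (hR : 0 < R) (hκ : 0 < κ.re) :
    ‖(∫ b in (-(1 / R))..(1 / R), exp (-(n * κ * b ^ 2 / 2)))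
        - ((2 * Real.pi / (n * κ) : ℂ)) ^ (1 / 2 : ℂ)‖ ≤
      2 * R / (n * κ.re) * Real.exp (-(n * κ.re) / (2 * R ^ 2)) := by
  obtain ⟨β, hβ⟩ : ∃ β : ℂ, β = (n : ℂ) * κ / 2 := ⟨_, rfl⟩
  have hβre : β.re = n * κ.re / 2 := by
    rw [hβ]
    have : (n : ℂ) * κ / 2 = ((n / 2 : ℝ) : ℂ) * κ := by
      push_cast
      ring
    rw [this, Complex.re_ofReal_mul]
    ring
  have hβpos : 0 < β.re := by
    rw [hβre]
    positivity
  have hf : (fun b : ℝ => exp (-(n * κ * b ^ 2 / 2))) = fun b : ℝ => exp (-β * (b : ℂ) ^ 2) := by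
    funext b
    congr 1
    rw [hβ]
    ring
  have hG : ((2 * Real.pi / (n * κ) : ℂ)) ^ (1 / 2 : ℂ) = ∫ b : ℝ, exp (-β * (b : ℂ) ^ 2) := by
    rw [integral_gaussian_complex hβpos, hβ]
    congr 1
    rw [div_div_eq_mul_div, mul_comm]
  have hI := integrable_cexp_neg_mul_sq hβpos
  rw [hf, hG]
  have hc : 0 < 1 / R := by positivity
  have h1 := intervalIntegral.integral_Iic_add_Ioi (f := fun b : ℝ => exp (-β * (b : ℂ) ^ 2))
    (b := -(1 / R)) (μ := volume) hI.integrableOn hI.integrableOn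
  have h2 := intervalIntegral.integral_interval_add_Ioi
    (f := fun b : ℝ => exp (-β * (b : ℂ) ^ 2))
    (a := -(1 / R)) (b := 1 / R) (μ := volume) hI.integrableOn hI.integrableOn
  have h3 : ∫ b : ℝ in Set.Iic (-(1 / R)), exp (-β * (b : ℂ) ^ 2) =
      ∫ b : ℝ in Set.Ioi (1 / R), exp (-β * (b : ℂ) ^ 2) := by
    have := integral_comp_neg_Ioi (1 / R) (fun b : ℝ => exp (-β * (b : ℂ) ^ 2))
    rw [← this]
    refine setIntegral_congr_fun measurableSet_Ioi fun x _ => ?_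
    simp
  have h4 : (∫ b in (-(1 / R))..(1 / R), exp (-β * (b : ℂ) ^ 2)) -
      ∫ b : ℝ, exp (-β * (b : ℂ) ^ 2) =
        -(2 * ∫ b : ℝ in Set.Ioi (1 / R), exp (-β * (b : ℂ) ^ 2)) := by
    rw [← h1, ← h2, h3]
    ring
  rw [h4, norm_neg, norm_mul]
  have h5 : ‖∫ b : ℝ in Set.Ioi (1 / R), exp (-β * (b : ℂ) ^ 2)‖ ≤
      ∫ b : ℝ in Set.Ioi (1 / R), Real.exp (-β.re * b ^ 2) := by
    refine (norm_integral_le_integral_norm _).trans (le_of_eq ?_)
    refine setIntegral_congr_fun measurableSet_Ioi fun x _ => ?_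
    exact norm_cexp_neg_mul_sq β x
  have h6 := m12_tail hβpos hc
  have h7 : ‖(2 : ℂ)‖ = 2 := by simp
  rw [h7]
  calc 2 * ‖∫ b : ℝ in Set.Ioi (1 / R), exp (-β * (b : ℂ) ^ 2)‖
      ≤ 2 * (1 / (2 * β.re * (1 / R)) * Real.exp (-β.re * (1 / R) ^ 2)) := by linarith
    _ = 2 * R / (n * κ.re) * Real.exp (-(n * κ.re) / (2 * R ^ 2)) := by
        rw [hβre]
        have h8 : -(n * κ.re / 2) * (1 / R) ^ 2 = -(n * κ.re) / (2 * R ^ 2) := by
          field_simp
        rw [h8]
        field_simp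

end SCE
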