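import Mathlib

/-!
# Stirling circle estimate (MP_3942cb_co, helper22 for helper2): definitions

Parameters: `R = |z| >= 8`, `z = x - i p`, `0 <= p <= 21/8`, `x > 0`.  All modules `SCE.*`
work with these real parameters (`rho = x - 2`, `D = rho^2 + p^2 = |z-2|^2`, `q = p/rho`,
`gamma = arctan q`, `Theta(b) = tau(b) + gamma`, `N = n/R`).

Results: (crude) `Re hh z b <= 0` for all `|b| <= pi`; (sharp, `p <= 9/4`, real `n >= 1000`,
`R <= (2/3) sqrt n + 7/2`) `int_{-pi}^{pi} exp(n * hh z b) db` equals `(2 pi/(n kappa))^(1/2)`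
up to the relative error `1/4`.
-/

namespace SCE

open Complex

/-- the admissible parameters: `R = |z|`, `z = x - i p` -/
structure Par (R x p : ℝ) : Prop where
  hR : 8 ≤ R
  hp0 : 0 ≤ p
  hp : p ≤ 21 / 8
  hx : 0 < x
  hxp : x ^ 2 + p ^ 2 = R ^ 2

/-- `s = x(1 - cos b) - p sin b` (so that `Re (uu z b) = - s`) -/
noncomputable def sS (x p b : ℝ) : ℝ := x * (1 - Real.cos b) - p * Real.sin b

/-- `tau = x sin b - 2 b + p (1 - cos b)` (so that `Im (uu z b) = tau`) -/
noncomputable def tT (x p b : ℝ) : ℝ := x * Real.sin b - 2 * b + p * (1 - Real.cos b)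

/-- `A(b) = 1 - e^(-s) (cos tau - q sin tau)`, `q = p/(x-2)` -/
noncomputable def AA (x p b : ℝ) : ℝ :=
  1 - Real.exp (-(sS x p b)) *
    (Real.cos (tT x p b) - p / (x - 2) * Real.sin (tT x p b))

/-- `gamma = arctan q` -/
noncomputable def gam (x p : ℝ) : ℝ := Real.arctan (p / (x - 2))

noncomputable def zz (x p : ℝ) : ℂ := (x : ℂ) - (p : ℂ) * I

noncomputable def ww (z : ℂ) : ℂ := z - 2 + (z + 2) * exp (-z)

noncomputable def kap (z : ℂ) : ℂ := (z ^ 2 - 3 * z + 4 - (z + 4) * exp (-z)) / ww z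

noncomputable def uu (z : ℂ) (b : ℝ) : ℂ := z * (exp (b * I) - 1) - 2 * b * I

noncomputable def h0 (z : ℂ) (b : ℝ) : ℂ := (exp (uu z b) - 1) / (z - 2) - b * I

/-- the exact exponent on the circle: `(g(z e^(ib)) - g(z))/G(z) - i b` (see module `Bridge`) -/
noncomputable def hh (z : ℂ) (b : ℝ) : ℂ :=
  (exp (uu z b) - 1 -
    exp (-z) * ((exp (-2 * b * I) - 1) + z * (exp (-b * I) - 1))) / ww z - b * I

/-- the Gaussian majorant near the first side peak; `Q` stands for `q^2/2` -/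
noncomputable def G1 (N R Q θ : ℝ) : ℝ :=
  Real.exp (-(N / (1 + 3245 / 1000 / R)) *
    ((3245 / 1000 + 36583 / 10000 * min (θ - 2 * Real.pi) 0) / R
      + 11 / 24 * (θ - 2 * Real.pi) ^ 2 - Q))

/-- the majorant in the tail periods -/
noncomputable def G2 (N c θ : ℝ) : ℝ :=
  Real.exp (-(c * θ) - N / 2 * (1 - Real.cos θ))

end SCE
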