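import Pool.Agent.Helper22.SCE.Defs

/-!
# SCE-M01: elementary facts on the parameters
Write `rho = x - 2`, `D = rho^2 + p^2`.

* `x_le`: `x^2 <= R^2`.
* `x_ge`: `R - x = p^2/(R+x)`, `p^2 <= 6.890625`, and `x^2 = R^2 - p^2 >= R^2 (1 - 6.890625/64)
  >= (0.9446 R)^2`, so `R - x <= 6.890625/(1.9446 R) <= 3.55/R`.
  `x_ges` (`p <= 9/4`): `p^2 <= 5.0625`, `x >= 0.9596 R`, `R - x <= 5.0625/(1.9596 R) <= 2.59/R`.
* `x_ge'`: `x^2 >= 64 - 6.890625 = 57.109375 >= 7.556^2` (`7.556^2 = 57.0931`).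
* `D_eq`: expand, use `x^2 + p^2 = R^2`.
* `D_le_mul`: `R rho - D = rho (R - x + 2) - p^2 >= 2 * 5.556 - 6.891 > 0`.
* `sqrtD`: `D = R^2 - 4x + 4 >= (R-2)^2` since `x <= R`, and
  `D <= R^2 - 4(R - 3.55/R) + 4 = (R-2)^2 + 14.2/R <= (R - 2 + 7.1/(R(R-2)))^2`.  For `p <= 9/4`:
  `D <= (R-2)^2 + 10.36/R <= (R - 2 + 5.18/(R(R-2)))^2`.
* `rho_ratio`: for `x0 <= x`:
  `(x-2)(R^2+4-4 x0) - (x0-2)(R^2+4-4x) = (x-x0)(R^2-4) >= 0`; with `x0 = R - c/R`,
  `R^2+4-4x0 = (R-2)^2 + 4c/R` (`c = 3.55` or `2.59`).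
* `inv_le_ratio`: `D <= R rho`.
* `q_le`: `p/(x-2) <= (21/8)/5.556 <= 0.4725`; `(9/4)/(8 - 2.59/8 - 2) <= 0.3968`;
  `q_leR`: `x - 2 >= R - 2 - 3.55/R > 0`.
* `Q_le`: square of `q_leR`, `(21/8)^2/2 = 3.4453125`.
* `neg_sS_le`: `-s = x cos b + p sin b - x <= sqrt(x^2+p^2) - x = R - x <= 3.55/R`
  (Cauchy-Schwarz).
-/

namespace SCE

theorem x_le {R x p : ℝ} (h : Par R x p) : x ≤ R := by
  have h1 := h.hR
  have h2 := h.hxp
  have h3 := h.hx
  by_contra hcon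
  push Not at hcon
  nlinarith [sq_nonneg p]

private lemma h45_psq {R x p : ℝ} (h : Par R x p) : p ^ 2 ≤ 6890625 / 1000000 := by
  have h1 := h.hp
  have h2 := h.hp0
  nlinarith

private lemma h45_psqs {R x p : ℝ} (h : Par R x p) (hp : p ≤ 9 / 4) : p ^ 2 ≤ 50625 / 10000 := by
  have h2 := h.hp0
  nlinarith

private lemma h45_xR {R x p : ℝ} (h : Par R x p) : R ^ 2 - 355 / 100 ≤ x * R := by
  have h1 := h.hR
  have h2 := h.hxp
  have h3 := h.hx
  have h4 := h45_psq h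
  have h5 := x_le h
  have h6 : 9446 / 10000 * R ≤ x := by
    by_contra hcon
    push Not at hcon
    have h7 : x ^ 2 < (9446 / 10000 * R) ^ 2 := by nlinarith
    nlinarith
  have h8 : (R - x) * (19446 / 10000 * R) ≤ (R - x) * (R + x) :=
    mul_le_mul_of_nonneg_left (by linarith) (by linarith)
  nlinarith

private lemma h45_xRs {R x p : ℝ} (h : Par R x p) (hp : p ≤ 9 / 4) :
    R ^ 2 - 259 / 100 ≤ x * R := by
  have h1 := h.hR
  have h2 := h.hxp
  have h3 := h.hx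
  have h4 := h45_psqs h hp
  have h5 := x_le h
  have h6 : 9596 / 10000 * R ≤ x := by
    by_contra hcon
    push Not at hcon
    have h7 : x ^ 2 < (9596 / 10000 * R) ^ 2 := by nlinarith
    nlinarith
  have h8 : (R - x) * (19596 / 10000 * R) ≤ (R - x) * (R + x) :=
    mul_le_mul_of_nonneg_left (by linarith) (by linarith)
  nlinarith

theorem x_ge {R x p : ℝ} (h : Par R x p) : R - 355 / 100 / R ≤ x := by
  have h1 := h.hR
  have hR : 0 < R := by linarith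
  have h2 := h45_xR h
  have h3 : 355 / 100 / R * R = 355 / 100 := div_mul_cancel₀ _ hR.ne'
  nlinarith

theorem x_ges {R x p : ℝ} (h : Par R x p) (hp : p ≤ 9 / 4) : R - 259 / 100 / R ≤ x := by
  have h1 := h.hR
  have hR : 0 < R := by linarith
  have h2 := h45_xRs h hp
  have h3 : 259 / 100 / R * R = 259 / 100 := div_mul_cancel₀ _ hR.ne'
  nlinarith

theorem x_ge' {R x p : ℝ} (h : Par R x p) : 7556 / 1000 ≤ x := by
  have h1 := h.hR
  have h2 := h.hxp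
  have h3 := h.hx
  have h4 := h45_psq h
  by_contra hcon
  push Not at hcon
  nlinarith

theorem D_eq {R x p : ℝ} (h : Par R x p) : (x - 2) ^ 2 + p ^ 2 = R ^ 2 - 4 * x + 4 := by
  have h2 := h.hxp
  linear_combination h2

theorem D_le_mul {R x p : ℝ} (h : Par R x p) : (x - 2) ^ 2 + p ^ 2 ≤ R * (x - 2) := by
  have h1 := x_ge' h
  have h2 := x_le h
  have h3 := h45_psq h
  nlinarith

private lemma h45_sqrtD {R x p c : ℝ} (h : Par R x p) (hc : 0 ≤ c)
    (hx : R ^ 2 - c ≤ x * R) :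
    Real.sqrt ((x - 2) ^ 2 + p ^ 2) ≤ R - 2 + 2 * c / (R * (R - 2)) := by
  have h1 := h.hR
  have hR : 0 < R := by linarith
  have hR2 : 0 < R - 2 := by linarith
  rw [D_eq h]
  apply Real.sqrt_le_iff.2
  have h3 : 0 ≤ 2 * c / (R * (R - 2)) := by positivity
  refine ⟨by linarith, ?_⟩
  have h4 : 2 * c / (R * (R - 2)) * (R * (R - 2)) = 2 * c :=
    div_mul_cancel₀ _ (by positivity)
  set t : ℝ := 2 * c / (R * (R - 2)) with ht
  have h5 : R * (4 * R - 4 * x) ≤ R * (2 * t * (R - 2)) := by nlinarith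
  have h6 : 4 * R - 4 * x ≤ 2 * t * (R - 2) := le_of_mul_le_mul_left h5 hR
  nlinarith [sq_nonneg t]

theorem sqrtD {R x p : ℝ} (h : Par R x p) :
    R - 2 ≤ Real.sqrt ((x - 2) ^ 2 + p ^ 2) ∧
    Real.sqrt ((x - 2) ^ 2 + p ^ 2) ≤ R - 2 + 71 / 10 / (R * (R - 2)) := by
  constructor
  · apply Real.le_sqrt_of_sq_le
    rw [D_eq h]
    have h1 := x_le h
    nlinarith
  · have h1 := h45_sqrtD (c := 355 / 100) h (by norm_num) (h45_xR h)
    have e : (2 * (355 / 100) : ℝ) = 71 / 10 := by norm_num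
    rwa [e] at h1

theorem sqrtD_s {R x p : ℝ} (h : Par R x p) (hp : p ≤ 9 / 4) :
    Real.sqrt ((x - 2) ^ 2 + p ^ 2) ≤ R - 2 + 518 / 100 / (R * (R - 2)) := by
  have h1 := h45_sqrtD (c := 259 / 100) h (by norm_num) (h45_xRs h hp)
  have e : (2 * (259 / 100) : ℝ) = 518 / 100 := by norm_num
  rwa [e] at h1

private lemma h45_ratio {R x p c : ℝ} (h : Par R x p) (hc : 0 ≤ c)
    (hx : R - c / R ≤ x) :
    (R - 2 - c / R) / ((R - 2) ^ 2 + 4 * c / R) ≤ (x - 2) / ((x - 2) ^ 2 + p ^ 2) := by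
  have h1 := h.hR
  have hR : 0 < R := by linarith
  have hR2 : 0 < R - 2 := by linarith
  have hx7 := x_ge' h
  have h3 : 0 < (x - 2) ^ 2 + p ^ 2 := by nlinarith [sq_nonneg p]
  have h4 : 0 ≤ 4 * c / R := by positivity
  have h5 : 0 < (R - 2) ^ 2 + 4 * c / R := by positivity
  rw [div_le_div_iff₀ h5 h3, D_eq h]
  have e : 4 * c / R = 4 * (c / R) := by ring
  rw [e]
  set x0 : ℝ := R - c / R with hx0
  have e2 : c / R = R - x0 := by rw [hx0]; ring
  rw [e2]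
  have h6 : 0 ≤ (x - x0) * (R ^ 2 - 4) := mul_nonneg (by linarith) (by nlinarith)
  nlinarith

theorem rho_ratio {R x p : ℝ} (h : Par R x p) :
    (R - 2 - 355 / 100 / R) / ((R - 2) ^ 2 + 1420 / 100 / R) ≤ (x - 2) / ((x - 2) ^ 2 + p ^ 2) := by
  have h1 := h45_ratio (c := 355 / 100) h (by norm_num) (x_ge h)
  have e : (4 * (355 / 100) : ℝ) = 1420 / 100 := by norm_num
  rwa [e] at h1

theorem rho_ratio_s {R x p : ℝ} (h : Par R x p) (hp : p ≤ 9 / 4) :
    (R - 2 - 259 / 100 / R) / ((R - 2) ^ 2 + 1036 / 100 / R) ≤ (x - 2) / ((x - 2) ^ 2 + p ^ 2) := by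
  have h1 := h45_ratio (c := 259 / 100) h (by norm_num) (x_ges h hp)
  have e : (4 * (259 / 100) : ℝ) = 1036 / 100 := by norm_num
  rwa [e] at h1

theorem inv_le_ratio {R x p : ℝ} (h : Par R x p) : 1 / R ≤ (x - 2) / ((x - 2) ^ 2 + p ^ 2) := by
  have h1 := h.hR
  have hR : 0 < R := by linarith
  have hx7 := x_ge' h
  have h3 : 0 < (x - 2) ^ 2 + p ^ 2 := by nlinarith [sq_nonneg p]
  rw [div_le_div_iff₀ hR h3]
  have := D_le_mul h
  linarith

theorem q_le {R x p : ℝ} (h : Par R x p) :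
    0 ≤ p / (x - 2) ∧ p / (x - 2) ≤ 4725 / 10000 ∧ (p ≤ 9 / 4 → p / (x - 2) ≤ 3968 / 10000) := by
  have h1 := x_ge' h
  have h2 := h.hp0
  have h3 := h.hp
  have h4 : 0 < x - 2 := by linarith
  refine ⟨div_nonneg h2 h4.le, ?_, ?_⟩
  · rw [div_le_iff₀ h4]
    linarith
  · intro hp
    rw [div_le_iff₀ h4]
    have h5 := x_ges h hp
    have h6 := h.hR
    have h7 : 259 / 100 / R ≤ 259 / 100 / 8 := by
      apply div_le_div_of_nonneg_left (by norm_num) (by norm_num) h6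
    linarith

private lemma h45_den {R x p : ℝ} (h : Par R x p) : 5 ≤ R - 2 - 355 / 100 / R := by
  have h6 := h.hR
  have h7 : 355 / 100 / R ≤ 355 / 100 / 8 := by
    apply div_le_div_of_nonneg_left (by norm_num) (by norm_num) h6
  linarith

theorem q_leR {R x p : ℝ} (h : Par R x p) :
    p / (x - 2) ≤ 21 / 8 / (R - 2 - 355 / 100 / R) := by
  have h1 := h45_den h
  have h2 := x_ge h
  exact div_le_div₀ (by norm_num) h.hp (by linarith) (by linarith)

theorem Q_le {R x p : ℝ} (h : Par R x p) :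
    (p / (x - 2)) ^ 2 / 2 ≤ 34454 / 10000 / (R - 2 - 355 / 100 / R) ^ 2 := by
  have h1 := h45_den h
  have h2 := q_leR h
  have h3 := (q_le h).1
  have h4 : (p / (x - 2)) ^ 2 ≤ (21 / 8 / (R - 2 - 355 / 100 / R)) ^ 2 :=
    pow_le_pow_left₀ h3 h2 2
  rw [div_pow (21 / 8 : ℝ)] at h4
  have h5 : 0 < (R - 2 - 355 / 100 / R) ^ 2 := by positivity
  rw [le_div_iff₀ h5] at h4 ⊢
  nlinarith

theorem neg_sS_le {R x p : ℝ} (h : Par R x p) (b : ℝ) : -(sS x p b) ≤ 355 / 100 / R := by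
  have h1 := h.hxp
  have h2 := x_ge h
  have h3 := h.hR
  have h4 : x * Real.cos b + p * Real.sin b ≤ R := by
    have h5 : (x * Real.cos b + p * Real.sin b) ^ 2 ≤ R ^ 2 := by
      have h6 := Real.sin_sq_add_cos_sq b
      have h7 : (x * Real.cos b + p * Real.sin b) ^ 2 + (x * Real.sin b - p * Real.cos b) ^ 2 =
          R ^ 2 := by
        rw [← h1]
        linear_combination (x ^ 2 + p ^ 2) * h6
      nlinarith [sq_nonneg (x * Real.sin b - p * Real.cos b)]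
    exact le_of_abs_le (abs_le_of_sq_le_sq h5 (by linarith))
  unfold sS
  linarith

end SCE
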