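import Pool.Agent.Helper22.SCE.Defs

/-!
# SCE-M02: numerical bounds for `e^(-x)`
With `x >= R - 3.55/R`, `3.55/R <= 0.44375` and `d = R - 8 >= 0`: `x >= 7.55625 + d`, so
`e^x >= e^7.55625 e^d >= e^7.55625 (1 + d + d^2/2 + d^3/6)`; `e^7.55625 = 1912.66 >= 1905`,
`(R+2) = 10 + d <= 10 (1+d)`, `10/1905 <= 0.00525`;
`R^2(R+2) = 640 + 224 d + 26 d^2 + d^3 <= 640 (1 + d + d^2/2 + d^3/6)`, `640/1905 <= 0.336`.
(`e^7.55625 >= 1904.8` is all that is needed: e.g. `e^7.5 >= 2.718281^7.5 >= 1808`,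
`e^0.05625 >= 1.05783`.)
-/

namespace SCE

theorem exp_R8 {R x : ℝ} (hR : 8 ≤ R) (hx : R - 355 / 100 / R ≤ x) :
    (R + 2) * Real.exp (-x) ≤ 525 / 100000 ∧
    R ^ 2 * (R + 2) * Real.exp (-x) ≤ 336 / 1000 := by
  have hR0 : 0 < R := by linarith
  obtain ⟨d, rfl⟩ : ∃ d, R = 8 + d := ⟨R - 8, by ring⟩
  have hd : 0 ≤ d := by linarith
  have h1 : 355 / 100 / (8 + d) ≤ 355 / 800 := by
    rw [div_le_iff₀ hR0]
    nlinarith
  have hx' : 7 + 89 / 160 + d ≤ x := by linarith
  have h7 : (1096 : ℝ) ≤ Real.exp 7 := by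
    have h := Real.exp_one_gt_d9
    have h2 : Real.exp 7 = Real.exp 1 ^ 7 := by
      rw [← Real.exp_nat_mul]
      norm_num
    rw [h2]
    have h3 : (2.7182818283 : ℝ) ^ 7 ≤ Real.exp 1 ^ 7 :=
      pow_le_pow_left₀ (by norm_num) h.le 7
    refine le_trans ?_ h3
    norm_num
  have hy : (174363 / 100000 : ℝ) ≤ Real.exp (89 / 160) := by
    have h := Real.sum_le_exp_of_nonneg (show (0 : ℝ) ≤ 89 / 160 by norm_num) 5
    refine le_trans ?_ h
    simp only [Finset.sum_range_succ, Finset.sum_range_zero, Nat.factorial]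
    norm_num
  have hdd : 1 + d + d ^ 2 / 2 + d ^ 3 / 6 ≤ Real.exp d := by
    have h := Real.sum_le_exp_of_nonneg hd 4
    refine le_trans (le_of_eq ?_) h
    simp only [Finset.sum_range_succ, Finset.sum_range_zero, Nat.factorial]
    push_cast
    ring
  set P : ℝ := 1 + d + d ^ 2 / 2 + d ^ 3 / 6 with hP
  have hP0 : 0 < P := by positivity
  have hE : 1905 * P ≤ Real.exp x := by
    have h2 : Real.exp (7 + 89 / 160 + d) ≤ Real.exp x := Real.exp_le_exp.2 hx'
    refine le_trans ?_ h2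
    rw [Real.exp_add, Real.exp_add]
    have h3 : (1905 : ℝ) ≤ Real.exp 7 * Real.exp (89 / 160) := by
      have : (1096 : ℝ) * (174363 / 100000) ≤ Real.exp 7 * Real.exp (89 / 160) :=
        mul_le_mul h7 hy (by norm_num) (Real.exp_pos _).le
      refine le_trans ?_ this
      norm_num
    exact mul_le_mul h3 hdd hP0.le (by positivity)
  have hx0 : Real.exp (-x) ≤ 1 / (1905 * P) := by
    rw [Real.exp_neg, ← one_div]
    exact one_div_le_one_div_of_le (by positivity) hE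
  constructor
  · calc (8 + d + 2) * Real.exp (-x) ≤ (8 + d + 2) * (1 / (1905 * P)) :=
          mul_le_mul_of_nonneg_left hx0 (by linarith)
      _ = (8 + d + 2) / (1905 * P) := by ring
      _ ≤ 525 / 100000 := by
          rw [div_le_iff₀ (by positivity), hP]
          nlinarith [pow_nonneg hd 2, pow_nonneg hd 3]
  · calc (8 + d) ^ 2 * (8 + d + 2) * Real.exp (-x) ≤
          (8 + d) ^ 2 * (8 + d + 2) * (1 / (1905 * P)) :=
          mul_le_mul_of_nonneg_left hx0 (by positivity)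
      _ = (8 + d) ^ 2 * (8 + d + 2) / (1905 * P) := by ring
      _ ≤ 336 / 1000 := by
          rw [div_le_iff₀ (by positivity), hP]
          nlinarith [pow_nonneg hd 2, pow_nonneg hd 3]

end SCE
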