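import Pool.Agent.Helper22.SCE.M01
import Pool.Agent.Helper22.SCE.M02

/-!
# SCE-M03: the model exponent `h0` and the exact exponent `hh`
Let `z = zz x p`, `w = ww z`, `S = |z-2| = sqrt D`.
* `uu_re`, `uu_im`: expand `z (e^(ib) - 1) - 2 i b` with `z = x - i p`,
  `e^(ib) = cos b + i sin b`.
* `re_h0`: `h0 + i b = (e^u - 1)/(z-2) = (e^u - 1)(rho + i p)/D` as `z - 2 = rho - i p`;
  `e^u = e^(-s)(cos tau + i sin tau)`; real part
  `(rho (e^(-s) cos tau - 1) - p e^(-s) sin tau)/D = -(rho/D) AA`.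
* `norm_z2`: `|z-2|^2 = rho^2 + p^2`.
* `ww_ge`: `|w| >= |z-2| - |z+2| e^(-x) >= |z-2| - (R+2) e^(-x) >= |z-2| - 0.00525` (M02), and
  `|z-2| >= R-2` (M01).
* `far_diff`: `hh - h0 = (e^u - 1)(1/w - 1/(z-2)) - eps/w`,
  `eps = e^(-z)((e^(-2ib)-1) + z(e^(-ib)-1))`, `|eps| <= e^(-x)(2|b| + R|b|)`,
  `|1/w - 1/(z-2)| = |z+2| e^(-x)/(|w||z-2|) <= (R+2)e^(-x)/((R-2.01)(R-2))`,
  `|e^u - 1| <= 1 + e^(-s)`.
* `n_re_le`: `n Re hh <= n Re h0 + n |hh - h0|`, `Re h0 = -(rho/D) AA <= - AA/R` (M01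
  `inv_le_ratio`, `AA >= 0`).
-/

namespace SCE

open Complex

theorem uu_re (x p b : ℝ) : (uu (zz x p) b).re = -(sS x p b) := by
  unfold uu zz sS
  have h1 : exp ((b : ℂ) * I) = (Real.cos b : ℂ) + (Real.sin b : ℂ) * I := by
    rw [exp_mul_I, ofReal_cos, ofReal_sin]
  rw [h1]
  simp only [sub_re, mul_re, mul_im, add_re, add_im, sub_im, ofReal_re, ofReal_im, I_re, I_im,
    one_re, one_im, Complex.re_ofNat, Complex.im_ofNat]
  ring

theorem uu_im (x p b : ℝ) : (uu (zz x p) b).im = tT x p b := by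
  unfold uu zz tT
  have h1 : exp ((b : ℂ) * I) = (Real.cos b : ℂ) + (Real.sin b : ℂ) * I := by
    rw [exp_mul_I, ofReal_cos, ofReal_sin]
  rw [h1]
  simp only [sub_re, mul_re, mul_im, add_re, add_im, sub_im, ofReal_re, ofReal_im, I_re, I_im,
    one_re, one_im, Complex.re_ofNat, Complex.im_ofNat]
  ring

theorem re_h0 {x p : ℝ} (hD : 0 < (x - 2)) (b : ℝ) :
    (h0 (zz x p) b).re = -((x - 2) / ((x - 2) ^ 2 + p ^ 2)) * AA x p b := by
  have hD' : 0 < (x - 2) ^ 2 + p ^ 2 := by positivity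
  have hu1 := uu_re x p b
  have hu2 := uu_im x p b
  have hns : normSq (zz x p - 2) = (x - 2) ^ 2 + p ^ 2 := by
    rw [normSq_apply]
    simp only [zz, sub_re, mul_re, mul_im, sub_im, ofReal_re, ofReal_im, I_re, I_im,
      Complex.re_ofNat, Complex.im_ofNat]
    ring
  have hre : (zz x p - 2).re = x - 2 := by
    simp [zz]
  have him : (zz x p - 2).im = -p := by
    simp [zz]
  unfold h0 AA
  rw [sub_re, div_re, hns, hre, him, sub_re, sub_im, exp_re, exp_im, hu1, hu2]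
  simp only [mul_re, ofReal_re, ofReal_im, I_re, I_im, one_re, one_im]
  field_simp
  ring

theorem norm_z2 (x p : ℝ) : ‖zz x p - 2‖ = Real.sqrt ((x - 2) ^ 2 + p ^ 2) := by
  rw [Complex.norm_def, normSq_apply]
  congr 1
  simp only [zz, sub_re, mul_re, mul_im, sub_im, ofReal_re, ofReal_im, I_re, I_im,
    Complex.re_ofNat, Complex.im_ofNat]
  ring

theorem norm_zz {R x p : ℝ} (h : Par R x p) : ‖zz x p‖ = R := by
  have hR := h.hR
  rw [Complex.norm_def, normSq_apply]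
  have : (zz x p).re * (zz x p).re + (zz x p).im * (zz x p).im = R ^ 2 := by
    rw [← h.hxp]
    simp only [zz, sub_re, mul_re, mul_im, sub_im, ofReal_re, ofReal_im, I_re, I_im]
    ring
  rw [this, Real.sqrt_sq (by linarith)]

theorem norm_exp_neg (x p : ℝ) : ‖exp (-(zz x p))‖ = Real.exp (-x) := by
  rw [Complex.norm_exp]
  congr 1
  simp [zz]

theorem ww_ge {R x p : ℝ} (h : Par R x p) :
    ‖zz x p - 2‖ - 525 / 100000 ≤ ‖ww (zz x p)‖ ∧ R - 201 / 100 ≤ ‖ww (zz x p)‖ ∧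
    ww (zz x p) ≠ 0 ∧ zz x p - 2 ≠ 0 := by
  have hR := h.hR
  have hx := x_ge h
  have he := (exp_R8 hR hx).1
  have hs := (sqrtD h).1
  have hz2 := norm_z2 x p
  have hz : ‖zz x p + 2‖ ≤ R + 2 := by
    refine (norm_add_le _ _).trans ?_
    rw [norm_zz h]
    simp
  have h1 : ‖(zz x p + 2) * exp (-(zz x p))‖ ≤ 525 / 100000 := by
    rw [norm_mul, norm_exp_neg]
    exact (mul_le_mul_of_nonneg_right hz (Real.exp_pos _).le).trans he
  have h2 : ‖zz x p - 2‖ - ‖(zz x p + 2) * exp (-(zz x p))‖ ≤ ‖ww (zz x p)‖ := by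
    have h3 : ‖zz x p - 2‖ ≤ ‖ww (zz x p)‖ + ‖(zz x p + 2) * exp (-(zz x p))‖ := by
      have h4 : zz x p - 2 = ww (zz x p) - (zz x p + 2) * exp (-(zz x p)) := by
        unfold ww
        ring
      calc ‖zz x p - 2‖ = ‖ww (zz x p) - (zz x p + 2) * exp (-(zz x p))‖ := by rw [← h4]
        _ ≤ _ := norm_sub_le _ _
    linarith
  have hA : ‖zz x p - 2‖ - 525 / 100000 ≤ ‖ww (zz x p)‖ := by linarith
  have hB : R - 2 ≤ ‖zz x p - 2‖ := by rw [hz2]; exact hs
  have hC : R - 201 / 100 ≤ ‖ww (zz x p)‖ := by linarith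
  refine ⟨hA, hC, ?_, ?_⟩
  · intro h0
    rw [h0, norm_zero] at hC
    linarith
  · intro h0
    rw [h0, norm_zero] at hB
    linarith

theorem far_diff {R x p : ℝ} (h : Par R x p) (b : ℝ) :
    R * ‖hh (zz x p) b - h0 (zz x p) b‖ ≤
      R * (R + 2) * Real.exp (-x) *
        ((1 + Real.exp (-(sS x p b))) / ((R - 201 / 100) * (R - 2)) + |b| / (R - 201 / 100)) := by
  obtain ⟨-, hw1, hw0, hz0⟩ := ww_ge h
  have hR := h.hR
  have hs := (sqrtD h).1
  have hz2 := norm_z2 x p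
  have hB : R - 2 ≤ ‖zz x p - 2‖ := by rw [hz2]; exact hs
  have hR2 : 0 < R - 2 := by linarith
  have hR3 : 0 < R - 201 / 100 := by linarith
  have hwp : 0 < ‖ww (zz x p)‖ := by linarith
  have hzp : 0 < ‖zz x p - 2‖ := by linarith
  have hE := Real.exp_pos (-x)
  have hz : ‖zz x p + 2‖ ≤ R + 2 := by
    refine (norm_add_le _ _).trans ?_
    rw [norm_zz h]
    simp
  set z := zz x p with hzdef
  set ep : ℂ := exp (-z) * ((exp (-2 * b * I) - 1) + z * (exp (-b * I) - 1)) with hep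
  have hmain : hh z b - h0 z b =
      -((exp (uu z b) - 1) * ((z + 2) * exp (-z)) / (ww z * (z - 2))) - ep / ww z := by
    unfold hh h0
    rw [← hep]
    have hw : (z + 2) * exp (-z) = ww z - (z - 2) := by
      unfold ww
      ring
    rw [hw]
    field_simp
    ring
  have hb1 : ‖exp (-b * I) - 1‖ ≤ |b| := by
    have := Real.norm_exp_I_mul_ofReal_sub_one_le (x := -b)
    have h2 : exp (-b * I) = exp (I * ((-b : ℝ) : ℂ)) := by
      congr 1
      push_cast
      ring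
    rw [h2]
    simpa using this
  have hb2 : ‖exp (-2 * b * I) - 1‖ ≤ 2 * |b| := by
    have := Real.norm_exp_I_mul_ofReal_sub_one_le (x := -2 * b)
    have h2 : exp (-2 * b * I) = exp (I * ((-2 * b : ℝ) : ℂ)) := by
      congr 1
      push_cast
      ring
    rw [h2]
    refine this.trans ?_
    rw [Real.norm_eq_abs, abs_mul]
    norm_num
  have hu : ‖exp (uu z b) - 1‖ ≤ 1 + Real.exp (-(sS x p b)) := by
    refine (norm_sub_le _ _).trans ?_
    rw [Complex.norm_exp, hzdef, uu_re, norm_one]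
    linarith
  have hepn : ‖ep‖ ≤ Real.exp (-x) * ((R + 2) * |b|) := by
    rw [hep, norm_mul, hzdef, norm_exp_neg, ← hzdef]
    refine mul_le_mul_of_nonneg_left ?_ hE.le
    refine (norm_add_le _ _).trans ?_
    rw [norm_mul, hzdef, norm_zz h]
    have : R * ‖exp (-b * I) - 1‖ ≤ R * |b| := mul_le_mul_of_nonneg_left hb1 (by linarith)
    linarith
  have hn : ‖hh z b - h0 z b‖ ≤
      (1 + Real.exp (-(sS x p b))) * ((R + 2) * Real.exp (-x)) / ((R - 201 / 100) * (R - 2)) +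
      Real.exp (-x) * ((R + 2) * |b|) / (R - 201 / 100) := by
    rw [hmain]
    refine (norm_sub_le _ _).trans ?_
    rw [norm_neg, norm_div, norm_div, norm_mul, norm_mul, norm_mul]
    have hen : ‖exp (-z)‖ = Real.exp (-x) := by rw [hzdef]; exact norm_exp_neg x p
    rw [hen]
    refine add_le_add ?_ ?_
    · refine div_le_div₀ (by positivity) ?_ (by positivity) ?_
      · refine mul_le_mul hu ?_ (by positivity) (by positivity)
        exact mul_le_mul_of_nonneg_right hz hE.le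
      · exact mul_le_mul hw1 hB hR2.le hwp.le
    · exact div_le_div₀ (by positivity) hepn hR3 hw1
  calc R * ‖hh z b - h0 z b‖ ≤ R * _ := mul_le_mul_of_nonneg_left hn (by linarith)
    _ = _ := by
      field_simp

theorem n_re_le {R x p : ℝ} (h : Par R x p) {n : ℝ} (hn : 0 ≤ n) (b : ℝ)
    (hA : 0 ≤ AA x p b) :
    n * (hh (zz x p) b).re ≤ -(n / R) * (AA x p b - R * ‖hh (zz x p) b - h0 (zz x p) b‖) := by
  have hR := h.hR
  have hx := x_ge' h
  have hr := re_h0 (x := x) (p := p) (by linarith) b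
  have hi := inv_le_ratio h
  have h1 : (hh (zz x p) b).re = (h0 (zz x p) b).re + (hh (zz x p) b - h0 (zz x p) b).re := by
    simp
  have h2 : (hh (zz x p) b - h0 (zz x p) b).re ≤ ‖hh (zz x p) b - h0 (zz x p) b‖ :=
    (le_abs_self _).trans (abs_re_le_norm _)
  have h3 : (h0 (zz x p) b).re ≤ -(1 / R) * AA x p b := by
    rw [hr]
    have := mul_le_mul_of_nonneg_right hi hA
    linarith
  have h4 : (hh (zz x p) b).re ≤ -(1 / R) * AA x p b + ‖hh (zz x p) b - h0 (zz x p) b‖ := by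
    linarith
  have hR0 : R ≠ 0 := by linarith
  calc n * (hh (zz x p) b).re
      ≤ n * (-(1 / R) * AA x p b + ‖hh (zz x p) b - h0 (zz x p) b‖) :=
        mul_le_mul_of_nonneg_left h4 hn
    _ = _ := by
      field_simp
      ring

end SCE
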