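import Pool.Agent.Helper22.SCE.M03

/-!
# SCE-M04: numerical bounds for `R |hh - h0|` away from `b = 0`
From `far_diff` (M03), `e^(-s) <= e^(3.55/R) <= e^0.44375 <= 1.5586` (M01 `neg_sS_le`) and
`R(R+2)e^(-x) <= 0.336/R` (M02).  Bracket
`B = (1+e^(-s))/((R-2.01)(R-2)) + |b|/(R-2.01) <= 2.5586/35.94 + |b|/5.99` (`R >= 8`):
* `|b| <= 4/5`: `B <= 0.20476`, `0.336 * 0.20476 <= 0.0689 <= 0.07`;
* `|b| <= pi <= 3.1416`: `B <= 0.59568`, `0.336 * 0.59568 <= 0.2002 <= 0.21`.
-/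

namespace SCE

theorem M04_exp : Real.exp (44375 / 100000) ≤ 15586 / 10000 := by
  have h := Real.exp_bound' (x := 44375 / 100000) (by norm_num) (by norm_num) (n := 7) (by norm_num)
  refine h.trans ?_
  norm_num [Finset.sum_range_succ, Nat.factorial]

theorem M04_aux {R x p : ℝ} (h : Par R x p) {b c e : ℝ} (hb : |b| ≤ c)
    (he : 336 / 1000 * (25586 / 10000 / (599 / 100 * 6) + c / (599 / 100)) ≤ e) :
    R * ‖hh (zz x p) b - h0 (zz x p) b‖ ≤ e / R := by
  have hR := h.hR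
  have hR0 : 0 < R := by linarith
  obtain ⟨-, hE⟩ := exp_R8 hR (x_ge h)
  have hs : Real.exp (-(sS x p b)) ≤ 15586 / 10000 := by
    refine le_trans (Real.exp_le_exp.2 ((neg_sS_le h b).trans ?_)) M04_exp
    rw [div_le_iff₀ hR0]; linarith
  refine (far_diff h b).trans ?_
  have h1 : R * (R + 2) * Real.exp (-x) ≤ 336 / 1000 / R := by
    rw [le_div_iff₀ hR0]; nlinarith [hE]
  have hc : 0 ≤ c := (abs_nonneg b).trans hb
  have h2 : (1 + Real.exp (-(sS x p b))) / ((R - 201 / 100) * (R - 2)) + |b| / (R - 201 / 100) ≤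
      25586 / 10000 / (599 / 100 * 6) + c / (599 / 100) := by
    apply add_le_add
    · apply div_le_div₀ (by norm_num) (by linarith) (by norm_num)
      nlinarith
    · apply div_le_div₀ hc hb (by norm_num)
      linarith
  have h3 : 0 ≤ (1 + Real.exp (-(sS x p b))) / ((R - 201 / 100) * (R - 2)) + |b| / (R - 201 / 100) := by
    have := Real.exp_pos (-(sS x p b))
    have h4 : 0 < R - 201 / 100 := by linarith
    have h5 : 0 < R - 2 := by linarith
    positivity
  calc _ ≤ 336 / 1000 / R * (25586 / 10000 / (599 / 100 * 6) + c / (599 / 100)) :=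
        mul_le_mul h1 h2 h3 (by positivity)
    _ = 336 / 1000 * (25586 / 10000 / (599 / 100 * 6) + c / (599 / 100)) / R := by ring
    _ ≤ e / R := div_le_div_of_nonneg_right he hR0.le

theorem eta_in {R x p : ℝ} (h : Par R x p) {b : ℝ} (hb : |b| ≤ 4 / 5) :
    R * ‖hh (zz x p) b - h0 (zz x p) b‖ ≤ 7 / 100 / R :=
  M04_aux h hb (by norm_num)

theorem eta_far {R x p : ℝ} (h : Par R x p) {b : ℝ} (hb : |b| ≤ Real.pi) :
    R * ‖hh (zz x p) b - h0 (zz x p) b‖ ≤ 21 / 100 / R :=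
  M04_aux h (c := 3142 / 1000) (hb.trans (by linarith [Real.pi_lt_d4])) (by norm_num)

end SCE
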