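import Pool.Agent.Helper22.SCE.M03

/-!
# SCE-M05: second order bound for `hh - h0` near `b = 0`
Exact identity: `w hh = (z-2) h0 - e^(-z)[(e^(-2ib) - 1 + 2ib) + z(e^(-ib) - 1 + ib)]`
(since `w (hh + ib) = e^u - 1 - eps = (z-2)(h0+ib) - eps` and `w - (z-2) = (z+2)e^(-z)`), hence
`hh - h0 = -((z+2)e^(-z)/w) h0 - e^(-z)[...]/w`, with `|e^(-2ib)-1+2ib| <= 2 b^2`,
`|e^(-ib)-1+ib| <= b^2/2`.
Further `h0 = ((e^u - 1 - u) + z(e^(ib) - 1 - ib))/(z-2)` because
`u = i(z-2)b + z(e^(ib)-1-ib)`; and `|u| <= |b|(S + R|b|/2) <= |b|(S+1/2) <= 1` for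
`|b| <= 1/R` (`S <= R - 2 + 7.1/48`), `|e^u-1-u| <= |u|^2` (Mathlib
`Complex.norm_exp_sub_one_sub_id_le`), so `|h0| <= ((S+1/2)^2 + R/2) b^2/S`.
Numbers (`S >= R-2`, `S <= R - 1.852`):
`((S+1/2)^2 + R/2)/S = S + 1 + (R/2+1/4)/S <= R - 0.852 + (R/2+1/4)/(R-2) <= R - 0.14`
(the last quotient is `<= 4.25/6`), so the first term is
`<= (R+2)e^(-x)/(R-2.01) (R - 0.14) b^2 <= 0.00525 (7.86/5.99) b^2 <= 0.0069 b^2`; the second is
`<= e^(-x)(2+R/2)/(R-2.01) b^2 <= 0.00525 (2+R/2)/((R+2)(R-2.01)) b^2 <= 0.00053 b^2`.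
Total `<= 0.0075 b^2 <= R b^2/1000`.
(Lemmas `e^(ib)-1-ib` : `|e^(it) - 1 - it| <= t^2/2`, and the version `h0_bound` is exported.)
-/

namespace SCE

open Complex

private lemma exp_I_sub_pos {t : ℝ} (ht : 0 ≤ t) : ‖exp (t * I) - 1 - t * I‖ ≤ t ^ 2 / 2 := by
  have hd : ∀ x : ℝ, HasDerivAt (fun y : ℝ => exp (y * I) - 1 - y * I)
      (I * (exp (I * x) - 1)) x := by
    intro x
    have h1 : HasDerivAt (fun y : ℝ => (y : ℂ) * I) (1 * I) x :=
      (Complex.ofRealCLM.hasDerivAt (x := x)).mul_const I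
    have h2 := (h1.cexp.sub_const 1).sub h1
    have e : I * (exp (I * x) - 1) = exp ((x : ℂ) * I) * (1 * I) - 1 * I := by
      rw [mul_comm I (x : ℂ)]
      ring
    rw [e]
    exact h2
  have hB : ∀ x : ℝ, HasDerivAt (fun y : ℝ => y ^ 2 / 2) x x := by
    intro x
    have h := (hasDerivAt_pow 2 x).div_const 2
    have e : ((2 : ℕ) : ℝ) * x ^ (2 - 1) / 2 = x := by norm_num
    rw [e] at h
    exact h
  have := image_norm_le_of_norm_deriv_right_le_deriv_boundary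
    (f := fun y : ℝ => exp (y * I) - 1 - y * I) (f' := fun x => I * (exp (I * x) - 1))
    (a := 0) (b := t) (B := fun y => y ^ 2 / 2) (B' := fun y => y)
    (fun x _ => (hd x).continuousAt.continuousWithinAt)
    (fun x _ => (hd x).hasDerivWithinAt)
    (by simp) hB
    (fun x hx => by
      rw [norm_mul, norm_I, one_mul]
      have := Real.norm_exp_I_mul_ofReal_sub_one_le (x := x)
      rwa [Real.norm_eq_abs, abs_of_nonneg hx.1] at this)
    (x := t) ⟨ht, le_refl t⟩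
  exact this

/-- `|e^(it) - 1 - it| <= t^2/2` -/
theorem exp_I_sub (t : ℝ) : ‖exp (t * I) - 1 - t * I‖ ≤ t ^ 2 / 2 := by
  rcases le_total 0 t with ht | ht
  · exact exp_I_sub_pos ht
  · have h := exp_I_sub_pos (t := -t) (by linarith)
    have e : exp (t * I) - 1 - t * I =
        (starRingEnd ℂ) (exp (((-t : ℝ) : ℂ) * I) - 1 - ((-t : ℝ) : ℂ) * I) := by
      rw [map_sub, map_sub, ← Complex.exp_conj, map_mul, conj_I, conj_ofReal, map_one]
      push_cast
      ring_nf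
    rw [e, Complex.norm_conj]
    have e2 : (-t) ^ 2 = t ^ 2 := by ring
    rwa [e2] at h

/-- decomposition of `u` -/
theorem uu_eq (z : ℂ) (b : ℝ) :
    uu z b = I * (z - 2) * b + z * (exp (b * I) - 1 - b * I) := by
  unfold uu
  ring

private lemma h0_bound {R x p : ℝ} (h : Par R x p) {b : ℝ} (hb : |b| ≤ 1 / R) :
    ‖h0 (zz x p) b‖ ≤ (R - 14 / 100) * b ^ 2 := by
  have hR := h.hR
  have hR0 : 0 < R := by linarith
  set z := zz x p with hz
  set S := ‖z - 2‖ with hS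
  have hSe : S = Real.sqrt ((x - 2) ^ 2 + p ^ 2) := norm_z2 x p
  have hS1 : R - 2 ≤ S := by rw [hSe]; exact (sqrtD h).1
  have hS2 : S ≤ R - 1852 / 1000 := by
    have h1 : S ≤ R - 2 + 71 / 10 / (R * (R - 2)) := by rw [hSe]; exact (sqrtD h).2
    have h2 : (48 : ℝ) ≤ R * (R - 2) := by nlinarith
    have h3 : 71 / 10 / (R * (R - 2)) ≤ 71 / 10 / 48 :=
      div_le_div_of_nonneg_left (by norm_num) (by norm_num) h2
    have h4 : (71 / 10 / 48 : ℝ) ≤ 148 / 1000 := by norm_num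
    linarith
  have hS0 : 0 < S := by linarith
  have hz2 : z - 2 ≠ 0 := by
    intro h0
    rw [hS, h0, norm_zero] at hS0
    exact lt_irrefl _ hS0
  have hzR : ‖z‖ = R := norm_zz h
  have hb0 : 0 ≤ |b| := abs_nonneg b
  have hRb : R * |b| ≤ 1 := by
    have := mul_le_mul_of_nonneg_left hb hR0.le
    rwa [mul_one_div, div_self hR0.ne'] at this
  have hE := exp_I_sub b
  set E : ℂ := exp (b * I) - 1 - b * I with hEdef
  have hb2 : b ^ 2 = |b| ^ 2 := (sq_abs b).symm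
  have hu : ‖uu z b‖ ≤ |b| * (S + 1 / 2) := by
    rw [uu_eq]
    refine (norm_add_le _ _).trans ?_
    rw [norm_mul, norm_mul, norm_mul, norm_I, one_mul, norm_real, Real.norm_eq_abs, hzR]
    have h1 : R * ‖E‖ ≤ R * (b ^ 2 / 2) := mul_le_mul_of_nonneg_left hE hR0.le
    have h2 : R * (b ^ 2 / 2) ≤ |b| * (1 / 2) := by
      rw [hb2]
      nlinarith
    have h3 : ‖z - 2‖ * |b| = |b| * S := by rw [hS, mul_comm]
    rw [h3]
    linarith
  have hu1 : ‖uu z b‖ ≤ 1 := by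
    refine hu.trans ?_
    have : |b| * (S + 1 / 2) ≤ |b| * R := mul_le_mul_of_nonneg_left (by linarith) hb0
    linarith
  have hexp : ‖exp (uu z b) - 1 - uu z b‖ ≤ b ^ 2 * (S + 1 / 2) ^ 2 := by
    refine (Complex.norm_exp_sub_one_sub_id_le hu1).trans ?_
    rw [hb2, ← mul_pow]
    exact pow_le_pow_left₀ (norm_nonneg _) hu 2
  have e : h0 z b = ((exp (uu z b) - 1 - uu z b) + z * E) / (z - 2) := by
    rw [eq_div_iff hz2]
    unfold h0
    rw [sub_mul, div_mul_cancel₀ _ hz2]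
    have := uu_eq z b
    rw [← hEdef] at this
    rw [this]
    ring
  rw [e, norm_div, ← hS, div_le_iff₀ hS0]
  refine (norm_add_le _ _).trans ?_
  rw [norm_mul, hzR]
  have h1 : R * ‖E‖ ≤ R * (b ^ 2 / 2) := mul_le_mul_of_nonneg_left hE hR0.le
  have h2 : (S + 1 / 2) ^ 2 + R / 2 ≤ (R - 14 / 100) * S := by
    nlinarith [mul_nonneg (by linarith : (0 : ℝ) ≤ S - (R - 2))
      (by linarith : (0 : ℝ) ≤ R - 114 / 100 - S - 712 / 1000)]
  have h3 : b ^ 2 * ((S + 1 / 2) ^ 2 + R / 2) ≤ b ^ 2 * ((R - 14 / 100) * S) :=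
    mul_le_mul_of_nonneg_left h2 (sq_nonneg b)
  linarith

theorem near_diff {R x p : ℝ} (h : Par R x p) {b : ℝ} (hb : |b| ≤ 1 / R) :
    ‖hh (zz x p) b - h0 (zz x p) b‖ ≤ R * b ^ 2 / 1000 := by
  have hR := h.hR
  have hR0 : 0 < R := by linarith
  have hh0 := h0_bound h hb
  obtain ⟨_, hw1, hw0, hz2⟩ := ww_ge h
  have hzR : ‖zz x p‖ = R := norm_zz h
  have hez : ‖exp (-(zz x p))‖ = Real.exp (-x) := norm_exp_neg x p
  have hk := (exp_R8 hR (x_ge h)).1
  have he0 : 0 < Real.exp (-x) := Real.exp_pos _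
  set z := zz x p with hz
  set w := ww z with hw
  set e := Real.exp (-x) with he
  have hE1 : ‖exp (-2 * b * I) - 1 + 2 * b * I‖ ≤ 2 * b ^ 2 := by
    have h1 := exp_I_sub (-2 * b)
    have e1 : exp (((-2 * b : ℝ) : ℂ) * I) - 1 - ((-2 * b : ℝ) : ℂ) * I =
        exp (-2 * b * I) - 1 + 2 * b * I := by
      push_cast
      ring
    rw [e1] at h1
    linarith
  have hE2 : ‖exp (-b * I) - 1 + b * I‖ ≤ b ^ 2 / 2 := by
    have h1 := exp_I_sub (-b)
    have e1 : exp (((-b : ℝ) : ℂ) * I) - 1 - ((-b : ℝ) : ℂ) * I =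
        exp (-b * I) - 1 + b * I := by
      push_cast
      ring
    rw [e1] at h1
    linarith
  have key : w * (hh z b - h0 z b) = -((z + 2) * exp (-z) * h0 z b) -
      exp (-z) * ((exp (-2 * b * I) - 1 + 2 * b * I) + z * (exp (-b * I) - 1 + b * I)) := by
    have e1 : w * hh z b = exp (uu z b) - 1 -
        exp (-z) * ((exp (-2 * b * I) - 1) + z * (exp (-b * I) - 1)) - w * (b * I) := by
      unfold hh
      rw [mul_sub, ← hw, mul_div_cancel₀ _ hw0]
    have e2 : exp (uu z b) - 1 = (z - 2) * (h0 z b + b * I) := by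
      unfold h0
      rw [sub_add_cancel, mul_div_cancel₀ _ hz2]
    have e3 : w = (z - 2) + (z + 2) * exp (-z) := by
      rw [hw]
      unfold ww
      ring
    rw [mul_sub, e1, e2]
    rw [e3]
    ring
  have hn : ‖w‖ * ‖hh z b - h0 z b‖ ≤ (R + 2) * e * ((R - 14 / 100) * b ^ 2) +
      e * (2 * b ^ 2 + R * (b ^ 2 / 2)) := by
    rw [← norm_mul, key]
    refine (norm_sub_le _ _).trans ?_
    rw [norm_neg, norm_mul, norm_mul, norm_mul, hez]
    have h1 : ‖z + 2‖ ≤ R + 2 := by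
      refine (norm_add_le _ _).trans ?_
      rw [hzR]
      norm_num
    have h2 : ‖(exp (-2 * b * I) - 1 + 2 * b * I) + z * (exp (-b * I) - 1 + b * I)‖ ≤
        2 * b ^ 2 + R * (b ^ 2 / 2) := by
      refine (norm_add_le _ _).trans ?_
      rw [norm_mul, hzR]
      have := mul_le_mul_of_nonneg_left hE2 hR0.le
      linarith
    have h3 : ‖z + 2‖ * e * ‖h0 z b‖ ≤ (R + 2) * e * ((R - 14 / 100) * b ^ 2) := by
      apply mul_le_mul _ hh0 (norm_nonneg _) (by positivity)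
      exact mul_le_mul_of_nonneg_right h1 he0.le
    have h4 := mul_le_mul_of_nonneg_left h2 he0.le
    linarith
  have hb2 : 0 ≤ b ^ 2 := sq_nonneg b
  have hfin : (R + 2) * e * ((R - 14 / 100) * b ^ 2) + e * (2 * b ^ 2 + R * (b ^ 2 / 2)) ≤
      (R - 201 / 100) * (R * b ^ 2 / 1000) := by
    have h1 : e * (2 + R / 2) ≤ 6 / 10 * ((R + 2) * e) := by nlinarith
    have h2 : (R + 2) * e * (R - 14 / 100) + e * (2 + R / 2) ≤ (R - 201 / 100) * (R / 1000) := by
      have h3 : (R + 2) * e * (R - 14 / 100) + e * (2 + R / 2) ≤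
          (R + 2) * e * (R + 46 / 100) := by linarith
      have h4 : (R + 2) * e * (R + 46 / 100) ≤ 525 / 100000 * (R + 46 / 100) :=
        mul_le_mul_of_nonneg_right hk (by linarith)
      nlinarith
    have h5 := mul_le_mul_of_nonneg_right h2 hb2
    linarith
  have hpos : 0 < R - 201 / 100 := by linarith
  have h7 : (R - 201 / 100) * ‖hh z b - h0 z b‖ ≤ (R - 201 / 100) * (R * b ^ 2 / 1000) :=
    (mul_le_mul_of_nonneg_right hw1 (norm_nonneg _)).trans (hn.trans hfin)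
  exact le_of_mul_le_mul_left h7 hpos

end SCE
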