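import Pool.Agent.Helper22.SCE.M07

/-!
# SCE-M13: left side, middle zone
`1/R <= a <= 3/5`, `tm = -tT x p (-a) = x sin a - 2a - p(1-cos a)`, `Thm = tm - gamma <= 2 pi - 1`.
Claim `AA(-a) >= al` with `al = 9/50` (any `p <= 21/8`), `al = 1/5` (`p <= 9/4`).

`tm >= x(a - a^3/6) - 2a - (p/2) a^2` is increasing in `a` on `[1/R, 3/5]` (derivative
`x(1-a^2/2) - 2 - p a >= 0.82*7.556 - 2 - 1.6 > 0`), so `tm >= tau0 := (rho - (1/6 + p/2)/R)/R > 0`
(`= 0.6714` at `R = 8`, `p = 21/8`; `0.6894` for `p <= 9/4`).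
By M07 `AA_neg_ge` it is enough to show
`W := (1-al) x(1-cos a) - al p sin a + (1 - cos tm) - al >= 0`.
* Case `tm <= pi`: `1 - cos tm >= 1 - cos tau0`, `x(1-cos a) >= 0.485 x a^2` (`a <= 3/5`),
  `(1-al) 0.485 x a^2 - al p a >= -(al p)^2/(4 (1-al) 0.485 x)`;
  `al = 0.18`, `p <= 21/8`: `>= -0.0186`, `1 - cos tau0 >= 0.2171`, sum `- 0.18 >= 0.018`;
  `al = 0.2`, `p <= 9/4`: `>= -0.0171`, `1 - cos tau0 >= 0.2284`, sum `- 0.2 >= 0.011`.
  (`tau0` increases with `R`.)
* Case `tm > pi` (then `tm <= rho a`, so `a >= pi/rho >= pi/(R-2)`, and `x a >= pi`):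
  `(1-al) 0.485 x a^2 - al p a >= a ((1-al) 1.523 - al p) >= 0.69 a >= 2.1/(R-2)`, and
  `tm <= 2 pi - 1 + gamma`, `gamma <= q <= (21/8)/(R-2-3.55/R)`, so
  `1 - cos tm >= 1 - cos(1 - gamma)`; for `gamma <= 0.4725`, using
  `1 - cos(1-gamma) >= 0.4596 - 0.8415 gamma` (convexity of `t -> 1 - cos(1-t)` on
  `[0, 0.48]`: tangent at `0`): total
  `0.4596 - 0.8415*2.625/(R-2-3.55/R) + 2.1/(R-2) - al >= 0.2` for `R >= 8`
  (`R = 8`: `0.4596 - 0.3976 + 0.35 - 0.2 = 0.21`).
-/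

namespace SCE

private theorem m13_quad1 (a : ℝ) : -(19 / 1000) ≤ 298 / 100 * a ^ 2 - 4725 / 10000 * a := by
  nlinarith [sq_nonneg (a - 4725 / 59600)]

private theorem m13_quad2 (a : ℝ) : -(175 / 10000) ≤ 2909 / 1000 * a ^ 2 - 45 / 100 * a := by
  nlinarith [sq_nonneg (a - 45 / 581.8)]

/-- lower bound of `1 - cos` by the Taylor bound -/
private theorem m13_cos {t : ℝ} (h0 : 0 ≤ t) (h1 : t ≤ 1) :
    t ^ 2 / 2 - 5 / 96 * t ^ 4 ≤ 1 - Real.cos t := by
  have h := Real.cos_bound (x := t) (by rw [abs_of_nonneg h0]; exact h1)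
  rw [abs_of_nonneg h0] at h
  have := (abs_le.1 h).2
  linarith

private theorem m13_sin {t : ℝ} (h0 : 0 ≤ t) (h1 : t ≤ 1) :
    t - t ^ 3 / 6 - 5 / 96 * t ^ 4 ≤ Real.sin t := by
  have h := Real.sin_bound (x := t) (by rw [abs_of_nonneg h0]; exact h1)
  rw [abs_of_nonneg h0] at h
  have h2 := (abs_le.1 h).1
  have h3 : t ^ 5 ≤ t ^ 4 := pow_le_pow_of_le_one h0 h1 (by norm_num)
  have h4 : 0 ≤ t ^ 4 := by positivity
  linarith

/-- the lower bound at `a = 1/R` -/
private theorem m13_T {R x p : ℝ} (h : Par R x p) {c e : ℝ} (hx : R - c / R ≤ x) (hp : p ≤ e)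
    (hc : 0 ≤ c) {a : ℝ} (ha0 : 1 / R ≤ a) (ha : a ≤ 3 / 5) :
    3 / 4 - (c + 1 / 6 + e / 2) / 64 - 5 / 96 / 512 ≤
      (x - 2) * a - x * (a ^ 3 / 6 + 5 / 96 * a ^ 4) - p * (a ^ 2 / 2) := by
  have hR := h.hR
  have hR0 : 0 < R := by linarith
  have hxR := x_le h
  have hx7 := x_ge' h
  have hp0 := h.hp0
  have hp1 := h.hp
  set b : ℝ := 1 / R with hb
  have hb0 : 0 < b := by positivity
  have hb8 : b ≤ 1 / 8 := by
    rw [hb]
    exact one_div_le_one_div_of_le (by norm_num) hR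
  have hbR : b * R = 1 := by
    rw [hb]
    field_simp
  -- `x b`
  have hxb1 : x * b ≤ 1 := by
    calc x * b ≤ R * b := mul_le_mul_of_nonneg_right hxR hb0.le
      _ = 1 := by rw [mul_comm]; exact hbR
  have hxb2 : 1 - c * b ^ 2 ≤ x * b := by
    have h1 : c / R = c * b := by rw [hb]; ring
    have h2 : (R - c * b) * b ≤ x * b := mul_le_mul_of_nonneg_right (by rw [← h1]; exact hx) hb0.le
    have h3 : (R - c * b) * b = 1 - c * b ^ 2 := by
      linear_combination hbR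
    linarith
  -- the value at `b`
  have hTb : 3 / 4 - (c + 1 / 6 + e / 2) / 64 - 5 / 96 / 512 ≤
      (x - 2) * b - x * (b ^ 3 / 6 + 5 / 96 * b ^ 4) - p * (b ^ 2 / 2) := by
    have hb2 : b ^ 2 ≤ 1 / 64 := by nlinarith
    have hb3 : b ^ 3 ≤ 1 / 512 := by
      have : b ^ 3 = b ^ 2 * b := by ring
      rw [this]
      nlinarith [sq_nonneg b]
    have e1 : x * (b ^ 3 / 6) ≤ b ^ 2 / 6 := by
      have : x * (b ^ 3 / 6) = (x * b) * (b ^ 2 / 6) := by ring
      rw [this]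
      exact mul_le_of_le_one_left (by positivity) hxb1
    have e2 : x * (5 / 96 * b ^ 4) ≤ 5 / 96 * b ^ 3 := by
      have : x * (5 / 96 * b ^ 4) = (x * b) * (5 / 96 * b ^ 3) := by ring
      rw [this]
      exact mul_le_of_le_one_left (by positivity) hxb1
    have e3 : p * (b ^ 2 / 2) ≤ e / 2 * b ^ 2 := by nlinarith [sq_nonneg b]
    have e4 : (c + 1 / 6 + e / 2) * b ^ 2 ≤ (c + 1 / 6 + e / 2) * (1 / 64) :=
      mul_le_mul_of_nonneg_left hb2 (by linarith)
    nlinarith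
  -- monotonicity
  have hab : 0 ≤ a - b := by linarith
  have h1 : a ^ 2 + a * b + b ^ 2 ≤ 450625 / 1000000 := by nlinarith
  have h2 : a ^ 3 + a ^ 2 * b + a * b ^ 2 + b ^ 3 ≤ 28 / 100 := by
    have : a ^ 3 + a ^ 2 * b + a * b ^ 2 + b ^ 3 = (a + b) * (a ^ 2 + b ^ 2) := by ring
    rw [this]
    have h3 : a ^ 2 + b ^ 2 ≤ 375625 / 1000000 := by nlinarith
    have h4 : a + b ≤ 725 / 1000 := by linarith
    calc (a + b) * (a ^ 2 + b ^ 2) ≤ 725 / 1000 * (375625 / 1000000) :=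
          mul_le_mul h4 h3 (by positivity) (by norm_num)
      _ ≤ 28 / 100 := by norm_num
  have hbr : 0 ≤ (x - 2) - x * ((a ^ 2 + a * b + b ^ 2) / 6 +
      5 / 96 * (a ^ 3 + a ^ 2 * b + a * b ^ 2 + b ^ 3)) - p * ((a + b) / 2) := by
    have h5 : x * ((a ^ 2 + a * b + b ^ 2) / 6 +
      5 / 96 * (a ^ 3 + a ^ 2 * b + a * b ^ 2 + b ^ 3)) ≤ x * (9 / 100) :=
      mul_le_mul_of_nonneg_left (by linarith) (by linarith)
    have h6 : p * ((a + b) / 2) ≤ 21 / 8 * (725 / 2000) :=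
      mul_le_mul hp1 (by linarith) (by linarith) (by norm_num)
    linarith
  have hdiff := mul_nonneg hab hbr
  have : (a - b) * ((x - 2) - x * ((a ^ 2 + a * b + b ^ 2) / 6 +
      5 / 96 * (a ^ 3 + a ^ 2 * b + a * b ^ 2 + b ^ 3)) - p * ((a + b) / 2)) =
      ((x - 2) * a - x * (a ^ 3 / 6 + 5 / 96 * a ^ 4) - p * (a ^ 2 / 2)) -
      ((x - 2) * b - x * (b ^ 3 / 6 + 5 / 96 * b ^ 4) - p * (b ^ 2 / 2)) := by ring
  linarith

theorem mid_neg {R x p : ℝ} (h : Par R x p) {a : ℝ} (ha0 : 1 / R ≤ a) (ha : a ≤ 3 / 5)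
    (hT : -(tT x p (-a)) - gam x p ≤ 2 * Real.pi - 1) :
    9 / 50 ≤ AA x p (-a) ∧ (p ≤ 9 / 4 → 1 / 5 ≤ AA x p (-a)) := by
  have hR := h.hR
  have hx7 := x_ge' h
  have hp0 := h.hp0
  have hp1 := h.hp
  have hapos : 0 < a := lt_of_lt_of_le (by positivity) ha0
  have htm : -(tT x p (-a)) = x * Real.sin a - 2 * a - p * (1 - Real.cos a) := by
    rw [tT, Real.sin_neg, Real.cos_neg]
    ring
  set tm := -(tT x p (-a)) with htmdef
  set s := Real.sin a with hs
  set c := Real.cos a with hc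
  have hs1 : a - a ^ 3 / 6 - 5 / 96 * a ^ 4 ≤ s := m13_sin hapos.le (by linarith)
  have hs2 : s ≤ a := Real.sin_le hapos.le
  have hs0 : 0 ≤ s := Real.sin_nonneg_of_nonneg_of_le_pi hapos.le (by linarith [Real.pi_gt_three])
  have hc1 : a ^ 2 / 2 - 5 / 96 * a ^ 4 ≤ 1 - c := m13_cos hapos.le (by linarith)
  have hc2 : 1 - a ^ 2 / 2 ≤ c := Real.one_sub_sq_div_two_le_cos
  have hc3 : c ≤ 1 := Real.cos_le_one a
  have hc4 : 77 / 160 * a ^ 2 ≤ 1 - c := by
    refine le_trans ?_ hc1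
    have h1 : a ^ 2 ≤ 9 / 25 := by nlinarith
    nlinarith [mul_nonneg (sq_nonneg a) (show 0 ≤ 9 / 25 - a ^ 2 by linarith)]
  have htmL : (x - 2) * a - x * (a ^ 3 / 6 + 5 / 96 * a ^ 4) - p * (a ^ 2 / 2) ≤ tm := by
    rw [htm]
    have e1 : x * (a - a ^ 3 / 6 - 5 / 96 * a ^ 4) ≤ x * s :=
      mul_le_mul_of_nonneg_left hs1 (by linarith)
    have e2 : p * (1 - c) ≤ p * (a ^ 2 / 2) := mul_le_mul_of_nonneg_left (by linarith) hp0
    nlinarith
  have htmU : tm ≤ (x - 2) * a := by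
    rw [htm]
    have e1 : x * s ≤ x * a := mul_le_mul_of_nonneg_left hs2 (by linarith)
    have e2 : 0 ≤ p * (1 - c) := mul_nonneg hp0 (by linarith)
    linarith
  have hT1 : (6713 / 10000 : ℝ) ≤ tm := by
    have := m13_T h (x_ge h) h.hp (by norm_num) ha0 ha
    norm_num at this
    linarith
  have hxa : 77 / 160 * (x * a ^ 2) ≤ x * (1 - c) := by
    have := mul_le_mul_of_nonneg_left hc4 (show 0 ≤ x by linarith)
    linarith
  have hps : p * s ≤ p * a := mul_le_mul_of_nonneg_left hs2 hp0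
  -- reduction
  have hred : ∀ al : ℝ, 0 ≤ al → al ≤ 1 →
      0 ≤ (1 - al) * (x * (1 - c)) - al * (p * s) + (1 - Real.cos tm) - al →
      al ≤ AA x p (-a) := by
    intro al h0 h1 hW
    refine le_trans ?_ (AA_neg_ge h hapos.le (by linarith) (by rw [← htmdef]; linarith))
    rw [← htmdef, ← hs, ← hc]
    refine le_min h1 ?_
    have hden : 0 < 1 + x * (1 - c) + p * s := by
      have e1 : 0 ≤ x * (1 - c) := mul_nonneg (by linarith) (by linarith)
      have e2 : 0 ≤ p * s := mul_nonneg hp0 hs0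
      linarith
    rw [le_div_iff₀ hden]
    linarith
  have hgam : gam x p ≤ p / (x - 2) := by
    rw [gam]
    have hq0 : 0 ≤ p / (x - 2) := div_nonneg hp0 (by linarith)
    have := Real.le_tan (Real.arctan_nonneg.2 hq0) (Real.arctan_lt_pi_div_two _)
    rwa [Real.tan_arctan] at this
  have hgam0 : 0 ≤ gam x p := by
    rw [gam]
    exact Real.arctan_nonneg.2 (div_nonneg hp0 (by linarith))
  have hpi := Real.pi_gt_d2
  rcases le_or_gt tm Real.pi with hcase | hcase
  · -- first case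
    constructor
    · apply hred _ (by norm_num) (by norm_num)
      have e1 : (6713 / 10000 : ℝ) ^ 2 / 2 - 5 / 96 * (6713 / 10000) ^ 4 ≤ 1 - Real.cos tm := by
        refine (m13_cos (by norm_num) (by norm_num)).trans ?_
        have := Real.cos_le_cos_of_nonneg_of_le_pi (by norm_num) hcase hT1
        linarith
      have e2 := m13_quad1 a
      have e3 : 7556 / 1000 * a ^ 2 ≤ x * a ^ 2 := mul_le_mul_of_nonneg_right hx7 (sq_nonneg a)
      have e4 : p * a ≤ 21 / 8 * a := mul_le_mul_of_nonneg_right hp1 hapos.le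
      norm_num at e1
      nlinarith [sq_nonneg a]
    · intro hp2
      have hT2 : (6892 / 10000 : ℝ) ≤ tm := by
        have := m13_T h (x_ges h hp2) hp2 (by norm_num) ha0 ha
        norm_num at this
        linarith
      apply hred _ (by norm_num) (by norm_num)
      have e1 : (6892 / 10000 : ℝ) ^ 2 / 2 - 5 / 96 * (6892 / 10000) ^ 4 ≤ 1 - Real.cos tm := by
        refine (m13_cos (by norm_num) (by norm_num)).trans ?_
        have := Real.cos_le_cos_of_nonneg_of_le_pi (by norm_num) hcase hT2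
        linarith
      have e2 := m13_quad2 a
      have e3 : 7556 / 1000 * a ^ 2 ≤ x * a ^ 2 := mul_le_mul_of_nonneg_right hx7 (sq_nonneg a)
      have e4 : p * a ≤ 9 / 4 * a := mul_le_mul_of_nonneg_right hp2 hapos.le
      norm_num at e1
      nlinarith [sq_nonneg a]
  · -- second case
    have hra : 314 / 100 ≤ (x - 2) * a := by linarith
    have hxa2 : 314 / 100 * a ≤ x * a ^ 2 := by
      have e1 : (x - 2) * a * a ≤ x * a * a := by
        have : 0 ≤ 2 * (a * a) := by positivity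
        nlinarith
      have e2 : 314 / 100 * a ≤ (x - 2) * a * a := mul_le_mul_of_nonneg_right hra hapos.le
      nlinarith
    have hγ : 314 / 100 * gam x p ≤ p * a := by
      have e1 : gam x p * (x - 2) ≤ p := by
        rw [← le_div_iff₀ (by linarith)]
        exact hgam
      have e2 : gam x p * (314 / 100) ≤ gam x p * ((x - 2) * a) :=
        mul_le_mul_of_nonneg_left hra hgam0
      have e3 : gam x p * (x - 2) * a ≤ p * a := mul_le_mul_of_nonneg_right e1 hapos.le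
      nlinarith
    have hγ1 : gam x p ≤ 1 := by
      have := (q_le h).2.1
      linarith
    have hcos : (1 - gam x p) ^ 2 / 2 - 5 / 96 ≤ 1 - Real.cos tm := by
      have e0 := m13_cos (t := 1 - gam x p) (by linarith) (by linarith)
      have e1 : (1 - gam x p) ^ 4 ≤ 1 := pow_le_one₀ (by linarith) (by linarith)
      have e2 : Real.cos tm ≤ Real.cos (1 - gam x p) := by
        have e3 : Real.cos tm = Real.cos (2 * Real.pi - tm) := by
          rw [Real.cos_two_pi_sub]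
        rw [e3]
        exact Real.cos_le_cos_of_nonneg_of_le_pi (by linarith) (by linarith) (by linarith)
      linarith
    have hcos2 : 1 / 2 - gam x p - 5 / 96 ≤ 1 - Real.cos tm := by
      nlinarith [sq_nonneg (gam x p)]
    constructor
    · apply hred _ (by norm_num) (by norm_num)
      have e4 : p * a ≤ 21 / 8 * a := mul_le_mul_of_nonneg_right hp1 hapos.le
      nlinarith
    · intro hp2
      apply hred _ (by norm_num) (by norm_num)
      have e4 : p * a ≤ 9 / 4 * a := mul_le_mul_of_nonneg_right hp2 hapos.le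
      nlinarith

end SCE
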