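import Pool.Agent.Helper22.SCE.M01

/-!
# SCE-M14: right side, middle zone, `tau <= pi`
`1/R <= b <= 4/5`, `tau = tT x p b <= pi`, `q = p/rho`, `s = sS x p b`.
`tau >= x(b - b^3/6) - 2b`, increasing in `b` on `[0, 4/5]` (derivative `>= 0.68 x - 2 > 0`), so
`tau >= tau0 := (rho - 1/(6R))/R` (`>= 0.6919` at `R = 8`, `p <= 21/8`; `>= 0.7070`, `p <= 9/4`).
* `s >= 0`: `AA >= 1` if `cos tau - q sin tau <= 0`, otherwise (`sin tau >= 0`)
  `AA >= (s + 1 - cos tau + q sin tau)/(1+s) >= (s + 1 - cos tau)/(1+s) >= min(1, 1 - cos tau)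
  >= 1 - cos tau0 >= 0.2299` (resp. `0.2397`).
* `s < 0` (and `1 + s > 0`): `AA >= 1` or `AA >= f/(1+s) >= f` once `f >= 0`, where
  `f = s + 1 - cos tau + q sin tau`.  Since `p sin b <= p b = q rho b` and
  `rho b = tau + x(b - sin b) - p(1-cos b) <= tau + x b^3/6`,
  `f >= (1 - cos tau) - q(tau - sin tau) + x(1-cos b) - q x b^3/6
     >= phi(tau) := (1 - cos tau) - q (tau - sin tau)`
  (`x(1-cos b) >= 0.47 x b^2 >= q x b^3/6`).  `phi' = sin tau - q(1 - cos tau)
  = 2 sin(tau/2)(cos(tau/2) - q sin(tau/2))` is first positive, then negative on `(0, pi)`, so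
  `phi >= min(phi(tau0), phi(pi))`, `phi(pi) = 2 - q pi >= 0.51`; `phi(tau0)`:
  `p <= 21/8`: `0.2299 - 0.4725*0.0540 >= 0.204`; `p <= 9/4`: `0.2397 - 0.3968*0.0575 >= 0.2168`.
  (`tau0` and so `phi(tau0)` only increase with `R`.)
-/

namespace SCE

theorem m14_cos {t : ℝ} (h0 : 0 ≤ t) (h4 : t ≤ 4) : t ^ 2 / 2 - t ^ 4 / 24 ≤ 1 - Real.cos t := by
  have h1 : Real.sin (t / 2) ^ 2 = 1 / 2 - Real.cos t / 2 := by
    rw [Real.sin_sq_eq_half_sub]
    congr 3
    ring
  have h2 : t / 2 - (t / 2) ^ 3 / 6 ≤ Real.sin (t / 2) := Real.sin_ge_sub_cube (by linarith)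
  have h3 : 0 ≤ t / 2 - (t / 2) ^ 3 / 6 := by
    have : t / 2 - (t / 2) ^ 3 / 6 = t * (24 - t ^ 2) / 48 := by ring
    rw [this]
    have h5 : 0 ≤ 24 - t ^ 2 := by nlinarith
    positivity
  have h5 : (t / 2 - (t / 2) ^ 3 / 6) ^ 2 ≤ Real.sin (t / 2) ^ 2 :=
    pow_le_pow_left₀ h3 h2 2
  have h6 : (t / 2 - (t / 2) ^ 3 / 6) ^ 2 = t ^ 2 / 4 - t ^ 4 / 48 + t ^ 6 / 2304 := by ring
  have h7 : 0 ≤ t ^ 6 := by positivity
  nlinarith

theorem m14_tau {R x p : ℝ} (h : Par R x p) {b : ℝ} (hb0 : 1 / R ≤ b) (hb : b ≤ 4 / 5) :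
    6919 / 10000 ≤ tT x p b := by
  have hR := h.hR
  have hR0 : 0 < R := by linarith
  have hx := x_ge h
  have hx' := x_ge' h
  have hxR : x ≤ R := by
    have := x_le h
    exact this
  have hbp : 0 < b := lt_of_lt_of_le (by positivity) hb0
  have h1 : b - b ^ 3 / 6 ≤ Real.sin b := Real.sin_ge_sub_cube hbp.le
  have h2 : 0 ≤ p * (1 - Real.cos b) := mul_nonneg h.hp0 (by linarith [Real.cos_le_one b])
  have h3 : x * (b - b ^ 3 / 6) ≤ x * Real.sin b := mul_le_mul_of_nonneg_left h1 h.hx.le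
  set c := 1 / R with hc
  have hc0 : 0 < c := by positivity
  have hc8 : c ≤ 1 / 8 := by
    rw [hc]
    exact one_div_le_one_div_of_le (by norm_num) hR
  -- monotonicity of the lower bound
  have h4 : x * (c - c ^ 3 / 6) - 2 * c ≤ x * (b - b ^ 3 / 6) - 2 * b := by
    have e : x * (b - b ^ 3 / 6) - 2 * b - (x * (c - c ^ 3 / 6) - 2 * c) =
        (b - c) * (x * (1 - (b ^ 2 + b * c + c ^ 2) / 6) - 2) := by ring
    have h5 : b ^ 2 + b * c + c ^ 2 ≤ 1 := by nlinarith
    have h6 : 0 ≤ x * (1 - (b ^ 2 + b * c + c ^ 2) / 6) - 2 := by nlinarith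
    have := mul_nonneg (sub_nonneg.2 hb0) h6
    linarith
  have hRc : R * c = 1 := by
    rw [hc]
    field_simp
  have hx2 : R - 355 / 100 * c ≤ x := by
    have : 355 / 100 / R = 355 / 100 * c := by
      rw [hc]
      ring
    linarith
  have h5 : 6919 / 10000 ≤ x * (c - c ^ 3 / 6) - 2 * c := by
    have h6 : 0 ≤ c - c ^ 3 / 6 := by nlinarith [pow_pos hc0 2]
    have h7 := mul_le_mul_of_nonneg_right hx2 h6
    have h8 : (R - 355 / 100 * c) * (c - c ^ 3 / 6) =
        1 - c ^ 2 / 6 - 355 / 100 * c ^ 2 + 355 / 600 * c ^ 4 := by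
      have : (R - 355 / 100 * c) * (c - c ^ 3 / 6) =
        R * c - R * c * c ^ 2 / 6 - 355 / 100 * c ^ 2 + 355 / 600 * c ^ 4 := by ring
      rw [this, hRc]
      ring
    have h9 : 0 ≤ c ^ 4 := by positivity
    nlinarith
  unfold tT
  linarith

theorem m14_phi {q t : ℝ} (hq0 : 0 ≤ q) (hq : q ≤ 4725 / 10000) (h0 : 6919 / 10000 ≤ t)
    (ht : t ≤ Real.pi) : 1 / 5 ≤ 1 - Real.cos t - q * (t - Real.sin t) := by
  have hpi := Real.pi_lt_d2
  have hpi2 := Real.pi_gt_d2
  rcases le_or_gt t (Real.pi / 2) with h1 | h1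
  · have h2 := m14_cos (t := t) (by linarith) (by linarith)
    have h3 : t - t ^ 3 / 6 ≤ Real.sin t := Real.sin_ge_sub_cube (by linarith)
    have h4 : t ≤ 158 / 100 := by linarith
    have h5 : q * (t - Real.sin t) ≤ 4725 / 10000 * (t ^ 3 / 6) := by
      apply mul_le_mul hq (by linarith) (by
        have := Real.sin_le (by linarith : 0 ≤ t)
        linarith) (by norm_num)
    have h6 : 1 / 5 ≤ t ^ 2 / 2 - t ^ 4 / 24 - 4725 / 60000 * t ^ 3 := by
      have h7 : 0 ≤ (t - 6919 / 10000) * (158 / 100 - t) :=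
        mul_nonneg (by linarith) (by linarith)
      nlinarith [mul_nonneg h7 (by linarith : (0:ℝ) ≤ t), mul_nonneg h7 (sq_nonneg t),
        mul_nonneg h7 (by linarith : (0:ℝ) ≤ t - 6919 / 10000)]
    linarith
  · have h2 : 2 / Real.pi * (t - Real.pi / 2) ≤ Real.sin (t - Real.pi / 2) :=
      Real.mul_le_sin (by linarith) (by linarith)
    have h3 : Real.sin (t - Real.pi / 2) = - Real.cos t := Real.sin_sub_pi_div_two t
    have h4 : 0 ≤ Real.sin t := Real.sin_nonneg_of_nonneg_of_le_pi (by linarith) ht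
    have h5 : 4725 / 10000 ≤ 2 / Real.pi := by
      rw [le_div_iff₀ Real.pi_pos]
      linarith
    have h6 : q * (t - Real.pi / 2) ≤ 2 / Real.pi * (t - Real.pi / 2) :=
      mul_le_mul_of_nonneg_right (hq.trans h5) (by linarith)
    have h7 : 0 ≤ q * Real.sin t := mul_nonneg hq0 h4
    have h8 : q * (Real.pi / 2) ≤ 4725 / 10000 * (Real.pi / 2) :=
      mul_le_mul_of_nonneg_right hq (by linarith)
    nlinarith

theorem mid_pos1 {R x p : ℝ} (h : Par R x p) {b : ℝ} (hb0 : 1 / R ≤ b) (hb : b ≤ 4 / 5)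
    (ht : tT x p b ≤ Real.pi) :
    9 / 50 ≤ AA x p b ∧ (p ≤ 9 / 4 → 1 / 5 ≤ AA x p b) := by
  suffices hs : 1 / 5 ≤ AA x p b from ⟨by linarith, fun _ => hs⟩
  have hR := h.hR
  have hR0 : 0 < R := by linarith
  have hx' := x_ge' h
  have hbp : 0 < b := lt_of_lt_of_le (by positivity) hb0
  have ht0 := m14_tau h hb0 hb
  have hsin0 : 0 ≤ Real.sin (tT x p b) :=
    Real.sin_nonneg_of_nonneg_of_le_pi (by linarith) ht
  obtain ⟨hq0, hq1, _⟩ := q_le h
  have hphi := m14_phi hq0 hq1 ht0 ht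
  have hnegs := neg_sS_le h b
  have hrho : 0 < x - 2 := by linarith
  have hqrho : p / (x - 2) * (x - 2) = p := by
    field_simp
  have hsinb : b - b ^ 3 / 6 ≤ Real.sin b := Real.sin_ge_sub_cube hbp.le
  have hsinb' : Real.sin b ≤ b := Real.sin_le hbp.le
  have hcosb := m14_cos (t := b) hbp.le (by linarith)
  have hcb1 := Real.cos_le_one b
  set q := p / (x - 2) with hq
  set τ := tT x p b with hτ
  set s := sS x p b with hsdef
  have hs1 : -s ≤ 44375 / 100000 := by
    refine hnegs.trans ?_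
    rw [div_le_iff₀ hR0]
    linarith
  unfold AA
  rw [← hq, ← hτ, ← hsdef]
  set w := Real.cos τ - q * Real.sin τ with hw
  rcases le_or_gt w 0 with hw0 | hw0
  · have := mul_nonneg (Real.exp_pos (-s)).le (neg_nonneg.2 hw0)
    linarith
  · rcases le_or_gt 0 s with hs0 | hs0
    · have he : Real.exp (-s) ≤ 1 := by
        rw [Real.exp_le_one_iff]
        linarith
      have h1 : Real.exp (-s) * w ≤ w := mul_le_of_le_one_left hw0.le he
      have h2 : 0 ≤ q * (τ - Real.sin τ) := mul_nonneg hq0 (by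
        have := Real.sin_le (by linarith : 0 ≤ τ)
        linarith)
      have h3 : 0 ≤ q * Real.sin τ := mul_nonneg hq0 hsin0
      linarith
    · have hs2 : 0 < 1 + s := by linarith
      have he : Real.exp (-s) ≤ 1 / (1 + s) := by
        rw [Real.exp_neg, ← one_div]
        apply one_div_le_one_div_of_le hs2
        have := Real.add_one_le_exp s
        linarith
      -- the bound for s
      have hsval : s = x * (1 - Real.cos b) - p * Real.sin b := by
        rw [hsdef]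
        rfl
      have hτval : τ = x * Real.sin b - 2 * b + p * (1 - Real.cos b) := by
        rw [hτ]
        rfl
      have h1 : p * Real.sin b ≤ p * b := mul_le_mul_of_nonneg_left hsinb' h.hp0
      have h2 : (x - 2) * b ≤ τ + x * (b ^ 3 / 6) := by
        rw [hτval]
        have h3 : 0 ≤ p * (1 - Real.cos b) := mul_nonneg h.hp0 (by linarith)
        have h4 := mul_le_mul_of_nonneg_left hsinb h.hx.le
        nlinarith
      have h3 : p * b ≤ q * τ + q * (x * (b ^ 3 / 6)) := by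
        have h4 := mul_le_mul_of_nonneg_left h2 hq0
        have h5 : q * ((x - 2) * b) = p * b := by
          rw [← mul_assoc, hqrho]
        linarith
      have h4 : q * (x * (b ^ 3 / 6)) ≤ x * (1 - Real.cos b) := by
        have h5 : q * (b ^ 3 / 6) ≤ 1 - Real.cos b := by
          have h6 : q * (b ^ 3 / 6) ≤ 4725 / 10000 * (b ^ 3 / 6) :=
            mul_le_mul_of_nonneg_right hq1 (by positivity)
          have h7 : 4725 / 10000 * (b ^ 3 / 6) ≤ b ^ 2 / 2 - b ^ 4 / 24 := by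
            have h8 : 0 ≤ b ^ 2 := sq_nonneg b
            have h9 : 0 ≤ 1 / 2 - b ^ 2 / 24 - 4725 / 60000 * b := by nlinarith
            have := mul_nonneg h8 h9
            nlinarith
          linarith
        have h6 := mul_le_mul_of_nonneg_left h5 h.hx.le
        linarith
      have hf : 1 / 5 ≤ 1 + s - w := by
        rw [hw]
        linarith
      have h5 : w ≤ 4 / 5 * (1 + s) := by linarith
      have h6 : Real.exp (-s) * w ≤ 1 / (1 + s) * (4 / 5 * (1 + s)) :=
        mul_le_mul he h5 hw0.le (by positivity)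
      have h7 : 1 / (1 + s) * (4 / 5 * (1 + s)) = 4 / 5 := by
        field_simp
      linarith

end SCE
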