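import Pool.Agent.Helper22.SCE.M16
import Pool.Agent.Helper22.SCE.M17

/-!
# SCE-M15: right side, middle zone, `tau >= pi`, `Theta <= 2 pi - 1`
`1/R <= b <= 4/5`.
* `s = sS x p b >= 0`: `AA = 1 - e^(-s) sqrt(1+q^2) cos Theta` (M17 `AA_eq`); if
  `cos Theta <= 0`, `AA >= 1`; else `Theta in (3pi/2, 2pi-1]` (as `Theta >= tau >= pi`), so
  `cos Theta <= cos 1 <= 0.5404`, `sqrt(1+q^2) <= sqrt(1+0.4725^2) <= 1.1061`:
  `AA >= 1 - 0.598 >= 0.4`.
* `s < 0`: M16 `tau_lt_of_neg`: `tau < 2p - 2b <= 21/4 - 2b`.  From `pi <= tau <= rho b + (p/2) b^2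
  <= b(rho + 1.05)` we get `b >= pi/(rho+1.05) >= pi/(R - 0.95)`; `y := 2 pi/(R-0.95)`;
  `tau <= 21/4 - y` (`>= 4.35 > pi`), so `cos tau <= cos(21/4 - y)`.  As `1+s > 0`:
  `AA >= 1 + s - cos tau + q sin tau` once this is `>= 0`
  (or `AA >= 1`), and this is `>= 1 - 3.55/R - cos(21/4 - y) - q`, `q <= 2.625/(R-2-3.55/R)`.
  Numbers: `R = 8`: `1 - 0.4438 - (-0.3533) - 0.4725 = 0.437`; `R >= 8` in general at least
  `0.43`... (`R = 20`: `1 - 0.1775 - 0.2044 - 0.1474`; `R -> oo`: `1 - 0.5121`).  To prove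
  `>= 1/5`: for `R >= 14` use `cos(21/4 - y) <= cos(21/4) <= 0.5122`
  [as `pi <= 21/4 - y <= 21/4 <= 2 pi`]:
  `1 - 0.2536 - 0.5122 - 0.2234 = 0.0108` is NOT enough, so for `14 <= R < 30` use
  `y >= 2 pi/29.05 >= 0.216`, `cos(5.034) <= 0.3162`: `1 - 0.2536 - 0.3162 - 0.2234 >= 0.2068`;
  for `R >= 30`: `1 - 0.1184 - 0.5122 - 0.0944 >= 0.275`; for `10 <= R < 14`:
  `y >= 0.4814`, `cos(4.7686) <= 0.0563`: `1 - 0.355 - 0.0563 - 0.3434 = 0.2453`;
  for `8 <= R < 10`: `y >= 0.6942`, `cos(4.5558) <= -0.1558`: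
  `1 - 0.4438 + 0.1558 - 0.4725 >= 0.2395`.
-/

namespace SCE

private lemma exp_neg_bound {s : ℝ} (hs : 0 < 1 + s) : Real.exp (-s) * (1 + s) ≤ 1 := by
  have h1 := Real.add_one_le_exp s
  have h2 : Real.exp (-s) * Real.exp s = 1 := by rw [← Real.exp_add]; simp
  have h3 := Real.exp_pos (-s)
  nlinarith

/-- reduction to a numerical inequality: the case `s < 0` -/
private lemma neg_case {s q c sn : ℝ} (hs : s < 0) (hs1 : 0 < 1 + s)
    (hE : c - q * sn ≤ 4 / 5 + s) : 1 / 5 ≤ 1 - Real.exp (-s) * (c - q * sn) := by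
  have h1 := exp_neg_bound hs1
  have h3 := Real.exp_pos (-s)
  rcases le_or_gt (c - q * sn) 0 with h0 | h0
  · have : Real.exp (-s) * (c - q * sn) ≤ 0 := mul_nonpos_of_nonneg_of_nonpos h3.le h0
    linarith
  · have h4 : Real.exp (-s) * (c - q * sn) ≤ Real.exp (-s) * (4 / 5 + s) :=
      mul_le_mul_of_nonneg_left hE h3.le
    have h5 : Real.exp (-s) * (4 / 5 + s) ≤ Real.exp (-s) * (4 / 5 * (1 + s)) :=
      mul_le_mul_of_nonneg_left (by linarith) h3.le
    nlinarith

private lemma q_num {R x p R0 c : ℝ} (h : Par R x p) (hR0 : 8 ≤ R0) (hR : R0 ≤ R)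
    (hc : (21 / 8 : ℝ) ≤ c * (R0 - 2 - 355 / 100 / R0)) : p / (x - 2) ≤ c := by
  have h1 := q_leR h
  have h2 : R0 - 2 - 355 / 100 / R0 ≤ R - 2 - 355 / 100 / R := by
    have : (355 / 100 : ℝ) / R ≤ 355 / 100 / R0 :=
      div_le_div_of_nonneg_left (by norm_num) (by linarith) hR
    linarith
  have h3 : (0 : ℝ) < R0 - 2 - 355 / 100 / R0 := by
    have : (355 / 100 : ℝ) / R0 ≤ 355 / 100 / 8 :=
      div_le_div_of_nonneg_left (by norm_num) (by norm_num) hR0
    linarith
  refine h1.trans ?_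
  rw [div_le_iff₀ (by linarith)]
  have hc0 : 0 < c := by
    by_contra hneg
    have : c * (R0 - 2 - 355 / 100 / R0) ≤ 0 :=
      mul_nonpos_of_nonpos_of_nonneg (not_lt.1 hneg) h3.le
    linarith
  exact hc.trans (mul_le_mul_of_nonneg_left h2 hc0.le)

theorem mid_pos2 {R x p : ℝ} (h : Par R x p) {b : ℝ} (hb0 : 1 / R ≤ b) (hb : b ≤ 4 / 5)
    (ht : Real.pi ≤ tT x p b) (hT : tT x p b + gam x p ≤ 2 * Real.pi - 1) :
    1 / 5 ≤ AA x p b := by
  have hR := h.hR
  have hRp : 0 < R := by linarith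
  have hb0' : 0 < b := lt_of_lt_of_le (by positivity) hb0
  obtain ⟨hg0, hg1, hg2⟩ := gam_bounds h
  obtain ⟨hq0, hq1, -⟩ := q_le h
  have pl := Real.pi_gt_d4
  have pu := Real.pi_lt_d4
  rcases le_or_gt 0 (sS x p b) with hs | hs
  · rcases le_or_gt (Real.cos (tT x p b + gam x p)) 0 with hc | hc
    · linarith [AA_ge_one h hc]
    · have h1 := AA_ge h (le_refl 0) hs hc.le
      have h2 : Real.cos (tT x p b + gam x p) ≤ Real.cos 1 := by
        rw [← Real.cos_two_pi_sub]
        exact Real.cos_le_cos_of_nonneg_of_le_pi zero_le_one (by linarith) (by linarith)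
      have h3 := Real.cos_one_le
      have h4 : (p / (x - 2)) ^ 2 / 2 ≤ 1117 / 10000 := by nlinarith
      have h5 : (0 + 1 - Real.cos (tT x p b + gam x p) - (p / (x - 2)) ^ 2 / 2) / (1 + 0) =
          1 - Real.cos (tT x p b + gam x p) - (p / (x - 2)) ^ 2 / 2 := by
        rw [add_zero, div_one, zero_add]
      rw [h5] at h1
      linarith
  · have h1 := tau_lt_of_neg h hb0'.le hb hs
    have hp := h.hp
    have hp0 := h.hp0
    have hx := x_le h
    have hxp := h.hx
    have hns := neg_sS_le h b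
    have hR8 : (355 / 100 : ℝ) / R ≤ 355 / 100 / 8 :=
      div_le_div_of_nonneg_left (by norm_num) (by norm_num) hR
    -- the lower bound of `b`
    have h2 : Real.pi ≤ b * (R - 95 / 100) := by
      have e1 : Real.sin b ≤ b := Real.sin_le hb0'.le
      have e2 : 1 - Real.cos b ≤ b ^ 2 / 2 := by
        have := Real.one_sub_sq_div_two_le_cos (x := b)
        linarith
      have e3 : tT x p b ≤ x * b - 2 * b + p * (b ^ 2 / 2) := by
        unfold tT
        have := mul_le_mul_of_nonneg_left e1 hxp.le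
        have := mul_le_mul_of_nonneg_left e2 hp0
        linarith
      have e4 : x * b ≤ R * b := mul_le_mul_of_nonneg_right hx hb0'.le
      have e5 : p * (b ^ 2 / 2) ≤ b * (105 / 100) := by
        have e6 : p * b ≤ 21 / 8 * (4 / 5) := mul_le_mul hp hb hb0'.le (by norm_num)
        nlinarith
      nlinarith
    have hsin : Real.sin (tT x p b) ≤ 0 := by
      have e1 : Real.sin (tT x p b) = -Real.sin (tT x p b - Real.pi) := by
        rw [Real.sin_sub_pi]
        ring
      rw [e1]
      have := Real.sin_nonneg_of_nonneg_of_le_pi (x := tT x p b - Real.pi) (by linarith)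
        (by linarith)
      linarith
    have hsin1 : -1 ≤ Real.sin (tT x p b) := Real.neg_one_le_sin _
    have hqs : -(p / (x - 2) * Real.sin (tT x p b)) ≤ p / (x - 2) := by nlinarith
    have hcos : Real.cos (tT x p b) = Real.sin (tT x p b - 3 * Real.pi / 2) := by
      have e1 : tT x p b = (tT x p b - 3 * Real.pi / 2 + Real.pi / 2) + Real.pi := by ring
      conv_lhs => rw [e1]
      rw [Real.cos_add_pi, Real.cos_add_pi_div_two]
      ring
    -- the main reduction: it suffices to bound the cosine, `q` and `355/100/R`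
    have key : ∀ U V q0 r0 : ℝ, tT x p b - 3 * Real.pi / 2 ≤ U → U ≤ 1 → Real.sin U ≤ V →
        p / (x - 2) ≤ q0 → 355 / 100 / R ≤ r0 → V + q0 + r0 ≤ 4 / 5 → 1 / 5 ≤ AA x p b := by
      intro U V q0 r0 hU hU1 hV hq hr hsum
      unfold AA
      refine neg_case hs (by linarith) ?_
      have e1 : Real.cos (tT x p b) ≤ Real.sin U := by
        rw [hcos]
        exact Real.sin_le_sin_of_le_of_le_pi_div_two (by linarith) (by linarith) hU
      linarith
    rcases le_or_gt 30 R with h30 | h30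
    · refine key (5378 / 10000) (5378 / 10000) (943 / 10000) (355 / 100 / 30) (by linarith)
        (by norm_num) (Real.sin_le (by norm_num)) ?_ ?_ (by norm_num)
      · exact q_num h (R0 := 30) (by norm_num) h30 (by norm_num)
      · exact div_le_div_of_nonneg_left (by norm_num) (by norm_num) h30
    rcases le_or_gt 14 R with h14 | h14
    · have hb1 : Real.pi ≤ b * (2905 / 100) := by nlinarith
      refine key (3215 / 10000) (3215 / 10000) (2236 / 10000) (355 / 100 / 14) (by linarith)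
        (by norm_num) (Real.sin_le (by norm_num)) ?_ ?_ (by norm_num)
      · exact q_num h (R0 := 14) (by norm_num) h14 (by norm_num)
      · exact div_le_div_of_nonneg_left (by norm_num) (by norm_num) h14
    rcases le_or_gt 10 R with h10 | h10
    · have hb1 : Real.pi ≤ b * (1305 / 100) := by nlinarith
      refine key (57 / 1000) (57 / 1000) (3434 / 10000) (355 / 100 / 10) (by linarith)
        (by norm_num) (Real.sin_le (by norm_num)) ?_ ?_ (by norm_num)
      · exact q_num h (R0 := 10) (by norm_num) h10 (by norm_num)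
      · exact div_le_div_of_nonneg_left (by norm_num) (by norm_num) h10
    · have hb1 : Real.pi ≤ b * (905 / 100) := by nlinarith
      have hsU : Real.sin (-(156 / 1000)) ≤ -(155 / 1000) := by
        rw [Real.sin_neg]
        have := Real.sin_gt_sub_cube (x := 156 / 1000) (by norm_num)
        norm_num at this ⊢
        linarith
      exact key (-(156 / 1000)) (-(155 / 1000)) (4725 / 10000) (355 / 100 / 8) (by linarith)
        (by norm_num) hsU hq1 hR8 (by norm_num)

end SCE
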