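import Pool.Agent.Helper22.SCE.M13
import Pool.Agent.Helper22.SCE.M14
import Pool.Agent.Helper22.SCE.M15

/-!
# SCE-M18: pointwise majorant on the right side, `1/R <= b <= 4/5` (`p <= 9/4`)
Let `Theta = tT x p b + gam x p`, `Q = q^2/2`, `et = 0.07/R <= 0.00875`, `N >= 1.65 R`.
* `Theta <= 2 pi - 1`: `AA >= 1/5` by M14 (`tau <= pi`) or M15 (`tau >= pi`): first term.
* `2 pi - 1 <= Theta <= 2 pi + 1`, `t = Theta - 2 pi`: M16 `geo_pos` and M17 `AA_ge` with
  `s0 = max(s1, 0)`, `s1 = (3.245 + 3.6583 min(t,0))/R`: third term.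
* `2 pi + 1 <= Theta <= 3 pi`: M17 with `s0 = 7.4/R`: second term.
* `Theta >= 3 pi`: M17 `AA_ge_min` with `s0 = Theta(Theta-21/4)/(2R)`.
-/

namespace SCE

theorem one_sub_cos_ge' (t : ℝ) (ht : |t| ≤ 2) : t ^ 2 / 2 - t ^ 4 / 24 ≤ 1 - Real.cos t := by
  have h1 : 1 - Real.cos t = 2 * Real.sin (|t| / 2) ^ 2 := by
    have h2 : Real.cos t = Real.cos (2 * (|t| / 2)) := by
      rw [show 2 * (|t| / 2) = |t| by ring, Real.cos_abs]
    rw [h2, Real.cos_two_mul, Real.cos_sq']
    ring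
  rw [h1]
  set u := |t| / 2 with hu
  have hu0 : 0 ≤ u := by positivity
  have hu1 : u ≤ 1 := by linarith
  have h3 := Real.sin_ge_sub_cube hu0
  have h4 : 0 ≤ u - u ^ 3 / 6 := by nlinarith [mul_nonneg hu0 hu0, mul_nonneg hu0 (sub_nonneg.2 hu1)]
  have h5 : (u - u ^ 3 / 6) ^ 2 ≤ Real.sin u ^ 2 := pow_le_pow_left₀ h4 h3 2
  have h6 : t ^ 2 = 4 * u ^ 2 := by rw [hu, div_pow, sq_abs]; ring
  have h7 : t ^ 4 = 16 * u ^ 4 := by
    rw [show t ^ 4 = (t ^ 2) ^ 2 by ring, h6]; ring
  rw [h6, h7]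
  nlinarith [pow_nonneg hu0 6]

theorem one_sub_cos_ge11 (t : ℝ) (ht : |t| ≤ 1) : 11 / 24 * t ^ 2 ≤ 1 - Real.cos t := by
  have h := one_sub_cos_ge' t (by linarith)
  have h2 : t ^ 2 ≤ 1 := by
    rw [← sq_abs]; nlinarith [abs_nonneg t]
  nlinarith [sq_nonneg t]

theorem Q_le_simple {R x p : ℝ} (h : Par R x p) :
    (p / (x - 2)) ^ 2 / 2 * R ^ 2 ≤ 716 / 100 := by
  have hR := h.hR
  have hR0 : 0 < R := by linarith
  have h1 := Q_le h
  have hd : 355 / 100 / R ≤ 355 / 800 := by
    rw [div_div, div_le_div_iff₀ (by positivity) (by norm_num)]; linarith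
  have hy : 694 / 1000 * R ≤ R - 2 - 355 / 100 / R := by linarith
  have hy2 : (694 / 1000 * R) ^ 2 ≤ (R - 2 - 355 / 100 / R) ^ 2 :=
    pow_le_pow_left₀ (by positivity) hy 2
  have hpos : 0 < (694 / 1000 * R) ^ 2 := by positivity
  have h2 : (34454 / 10000 : ℝ) / (R - 2 - 355 / 100 / R) ^ 2 ≤
      34454 / 10000 / (694 / 1000 * R) ^ 2 :=
    div_le_div_of_nonneg_left (by norm_num) hpos hy2
  have h3 : (34454 / 10000 : ℝ) / (694 / 1000 * R) ^ 2 * R ^ 2 ≤ 716 / 100 := by
    have : (34454 / 10000 : ℝ) / (694 / 1000 * R) ^ 2 * R ^ 2 =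
        34454 / 10000 / (694 / 1000) ^ 2 := by
      field_simp
    rw [this]; norm_num
  calc (p / (x - 2)) ^ 2 / 2 * R ^ 2
      ≤ 34454 / 10000 / (694 / 1000 * R) ^ 2 * R ^ 2 := by
        apply mul_le_mul_of_nonneg_right (h1.trans h2) (by positivity)
    _ ≤ 716 / 100 := h3

theorem quad_aux {R y c QR : ℝ} (hR : 8 ≤ R) (hQ : QR ≤ 716 / 100) (hm : -y ≤ c * R) :
    0 ≤ (3245 / 1000 + 36583 / 10000 * c) * R + 11 / 24 * y ^ 2 - QR := by
  have h1 : (3245 / 1000 + 36583 / 10000 * c) * R = 3245 / 1000 * R + 36583 / 10000 * (c * R) := by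
    ring
  rw [h1]
  nlinarith [sq_nonneg (y - 4)]

theorem AA_zoneB {R x p b : ℝ} (h : Par R x p)
    (hb0 : 1 / R ≤ b) (hb : b ≤ 4 / 5) (hA : 2 * Real.pi - 1 ≤ tT x p b + gam x p)
    (hB : tT x p b + gam x p ≤ 2 * Real.pi + 1) :
    ((3245 / 1000 + 36583 / 10000 * min (tT x p b + gam x p - 2 * Real.pi) 0) / R +
      11 / 24 * (tT x p b + gam x p - 2 * Real.pi) ^ 2 - (p / (x - 2)) ^ 2 / 2) /
      (1 + 3245 / 1000 / R) ≤ AA x p b := by
  have hR := h.hR
  have hR0 : 0 < R := by linarith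
  have hQ := Q_le_simple h
  set Q := (p / (x - 2)) ^ 2 / 2 with hQdef
  set Θ := tT x p b + gam x p with hΘ
  have hpi3 := Real.pi_gt_d2
  have hpi4 := Real.pi_lt_d2
  have hgeo := geo_pos h hb0 hb hA
  rw [← hΘ] at hgeo
  set t := Θ - 2 * Real.pi with ht
  have ht1 : |t| ≤ 1 := by rw [abs_le]; constructor <;> linarith
  have hcos : Real.cos Θ = Real.cos t := by
    rw [ht, Real.cos_sub_two_pi]
  have hct : 0 ≤ Real.cos t := by
    apply Real.cos_nonneg_of_mem_Icc
    rw [abs_le] at ht1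
    constructor <;> linarith [ht1.1, ht1.2]
  have h11 := one_sub_cos_ge11 t ht1
  -- s lower bound
  have hpi5 : 3.14159 < Real.pi := Real.pi_gt_d6.trans' (by norm_num)
  have hpi6 : Real.pi < 3.141593 := Real.pi_lt_d6
  have hs1 : (3245 / 1000 + 36583 / 10000 * min t 0) / R ≤ sS x p b := by
    refine le_trans ?_ hgeo
    rw [div_le_div_iff₀ hR0 (by positivity)]
    have hΘt : Θ = 2 * Real.pi + t := by rw [ht]; ring
    rw [hΘt]
    have key : (3245 / 1000 + 36583 / 10000 * min t 0) * 2 ≤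
        (2 * Real.pi + t) * (2 * Real.pi + t - 21 / 4) := by
      rcases le_total t 0 with h0 | h0
      · rw [min_eq_left h0]
        nlinarith [sq_nonneg t, mul_nonneg (sub_nonneg.2 h0) (sub_nonneg.2 hpi6.le)]
      · rw [min_eq_right h0]
        nlinarith [sq_nonneg t, mul_nonneg h0 (sub_nonneg.2 hpi5.le)]
    nlinarith
  have hs0 : 0 ≤ sS x p b := by
    refine le_trans ?_ hgeo
    apply div_nonneg _ (by positivity)
    apply mul_nonneg <;> linarith
  have hmax : max ((3245 / 1000 + 36583 / 10000 * min t 0) / R) 0 ≤ sS x p b :=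
    max_le hs1 hs0
  have hAA := AA_ge h (b := b) (le_max_right _ _) hmax (by rw [← hΘ, hcos]; exact hct)
  rw [← hΘ, hcos, ← hQdef] at hAA
  set s1 := (3245 / 1000 + 36583 / 10000 * min t 0) / R with hs1def
  have hmle : max s1 0 ≤ 3245 / 1000 / R := by
    apply max_le
    · rw [hs1def]
      apply div_le_div_of_nonneg_right _ hR0.le
      have : min t 0 ≤ 0 := min_le_right _ _
      linarith
    · positivity
  have hden : (0:ℝ) < 1 + max s1 0 := by have := le_max_right s1 0; linarith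
  have hDn : (0:ℝ) < 1 + 3245 / 1000 / R := by positivity
  have hnum : 0 ≤ s1 + 11 / 24 * t ^ 2 - Q := by
    have hmul : 0 ≤ (s1 + 11 / 24 * t ^ 2 - Q) * R ^ 2 := by
      have e1 : s1 * R ^ 2 = (3245 / 1000 + 36583 / 10000 * min t 0) * R := by
        rw [hs1def]; field_simp
      have hm : -|t| ≤ min t 0 := by
        apply le_min (neg_abs_le t)
        simp
      have e2 : (s1 + 11 / 24 * t ^ 2 - Q) * R ^ 2 =
          s1 * R ^ 2 + 11 / 24 * t ^ 2 * R ^ 2 - Q * R ^ 2 := by ring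
      rw [e2, e1]
      have ht2 : 11 / 24 * t ^ 2 * R ^ 2 = 11 / 24 * (|t| * R) ^ 2 := by
        rw [mul_pow, sq_abs]; ring
      rw [ht2]
      have hm2 : -(|t| * R) ≤ min t 0 * R := by
        have := mul_le_mul_of_nonneg_right hm hR0.le
        linarith
      exact quad_aux hR hQ hm2
    exact nonneg_of_mul_nonneg_left hmul (by positivity)
  refine le_trans ?_ hAA
  rw [div_le_div_iff₀ hDn hden]
  have hle1 : s1 + 11 / 24 * t ^ 2 - Q ≤ max s1 0 + 1 - Real.cos t - Q := by
    have := le_max_left s1 0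
    linarith
  calc (s1 + 11 / 24 * t ^ 2 - Q) * (1 + max s1 0)
      ≤ (s1 + 11 / 24 * t ^ 2 - Q) * (1 + 3245 / 1000 / R) := by
        apply mul_le_mul_of_nonneg_left _ hnum; linarith
    _ ≤ (max s1 0 + 1 - Real.cos t - Q) * (1 + 3245 / 1000 / R) := by
        apply mul_le_mul_of_nonneg_right hle1 hDn.le

theorem AA_zoneC {R x p b : ℝ} (h : Par R x p)
    (hb0 : 1 / R ≤ b) (hb : b ≤ 4 / 5) (hB : 2 * Real.pi + 1 ≤ tT x p b + gam x p)
    (hT : tT x p b + gam x p ≤ 3 * Real.pi) : 43875 / 100000 ≤ AA x p b := by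
  have hR := h.hR
  have hR0 : 0 < R := by linarith
  have hQ := Q_le_simple h
  have hQ0 : 0 ≤ (p / (x - 2)) ^ 2 / 2 := by positivity
  have hgeo := geo_pos h hb0 hb (by linarith)
  set Q := (p / (x - 2)) ^ 2 / 2 with hQdef
  set Θ := tT x p b + gam x p with hΘ
  have hpi3 := Real.pi_gt_d2
  rcases le_total (Real.cos Θ) 0 with hc | hc
  · have := AA_ge_one h (b := b) (by rw [← hΘ]; exact hc)
    linarith
  · have hpi5 : 3.1415 < Real.pi := Real.pi_gt_d4
    have hs : 74 / 10 / R ≤ sS x p b := by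
      refine le_trans ?_ hgeo
      rw [div_le_div_iff₀ hR0 (by positivity)]
      have : 74 / 10 * 2 ≤ Θ * (Θ - 21 / 4) := by nlinarith
      nlinarith
    have hAA := AA_ge h (b := b) (by positivity) hs (by rw [← hΘ]; exact hc)
    rw [← hΘ, ← hQdef] at hAA
    have hc1 : Real.cos Θ ≤ Real.cos 1 := by
      rw [← Real.cos_sub_two_pi Θ]
      apply Real.cos_le_cos_of_nonneg_of_le_pi (by norm_num)
      · linarith
      · linarith
    have h11 := one_sub_cos_ge11 1 (by norm_num)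
    refine le_trans ?_ hAA
    rw [le_div_iff₀ (by positivity)]
    have hQR : Q ≤ 3 / R := by
      rw [le_div_iff₀ hR0]
      have : Q * R * R ≤ 716 / 100 := by
        have : Q * R * R = Q * R ^ 2 := by ring
        rw [this]; exact hQ
      nlinarith [mul_nonneg hQ0 hR0.le]
    have h74 : (74 / 10 : ℝ) / R = 74 / 10 * (1 / R) := by ring
    have h3R : (3 : ℝ) / R = 3 * (1 / R) := by ring
    rw [h3R] at hQR
    rw [h74]
    have hinv : 0 < 1 / R := by positivity
    nlinarith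

theorem AA_nonneg_pos {R x p : ℝ} (h : Par R x p) {b : ℝ} (hb0 : 1 / R ≤ b)
    (hb : b ≤ 4 / 5) : 7 / 100 / R ≤ AA x p b := by
  have hR := h.hR
  have hR0 : 0 < R := by linarith
  have het : 7 / 100 / R ≤ 7 / 800 := by
    rw [div_div, div_le_div_iff₀ (by positivity) (by norm_num)]; linarith
  have hpi5 : 3.1415 < Real.pi := Real.pi_gt_d4
  rcases le_total (tT x p b + gam x p) (2 * Real.pi - 1) with hA | hA
  · rcases le_total (tT x p b) Real.pi with h1 | h1
    · have := (mid_pos1 h hb0 hb h1).1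
      linarith
    · have := mid_pos2 h hb0 hb h1 hA
      linarith
  rcases le_total (tT x p b + gam x p) (2 * Real.pi + 1) with hB | hB
  · refine le_trans ?_ (AA_zoneB h hb0 hb hA hB)
    have hQ := Q_le_simple h
    set Q := (p / (x - 2)) ^ 2 / 2 with hQdef
    set t := tT x p b + gam x p - 2 * Real.pi with ht
    rw [le_div_iff₀ (by positivity)]
    have hmul : (7 / 100 / R * (1 + 3245 / 1000 / R)) * R ^ 2 ≤
        ((3245 / 1000 + 36583 / 10000 * min t 0) / R + 11 / 24 * t ^ 2 - Q) * R ^ 2 := by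
      have e1 : (7 / 100 / R * (1 + 3245 / 1000 / R)) * R ^ 2 =
          7 / 100 * R + 7 / 100 * (3245 / 1000) := by field_simp
      have e2 : ((3245 / 1000 + 36583 / 10000 * min t 0) / R + 11 / 24 * t ^ 2 - Q) * R ^ 2 =
          3245 / 1000 * R + 36583 / 10000 * (min t 0 * R) + 11 / 24 * (|t| * R) ^ 2 - Q * R ^ 2 := by
        rw [mul_pow, sq_abs]; field_simp
      rw [e1, e2]
      have hm : -|t| ≤ min t 0 := by
        apply le_min (neg_abs_le t)
        simp
      have hm2 : -(|t| * R) ≤ min t 0 * R := by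
        have := mul_le_mul_of_nonneg_right hm hR0.le
        linarith
      nlinarith [sq_nonneg (|t| * R - 4)]
    exact le_of_mul_le_mul_right hmul (by positivity)
  rcases le_total (tT x p b + gam x p) (3 * Real.pi) with hC | hC
  · have := AA_zoneC h hb0 hb hB hC
    linarith
  · have hQ := Q_le_simple h
    have hQ0 : 0 ≤ (p / (x - 2)) ^ 2 / 2 := by positivity
    have hgeo := geo_pos h hb0 hb (by linarith)
    have hmin := AA_ge_min h (b := b) (s0 := (tT x p b + gam x p) *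
      (tT x p b + gam x p - 21 / 4) / (2 * R)) hgeo
    set Q := (p / (x - 2)) ^ 2 / 2 with hQdef
    set Θ := tT x p b + gam x p with hΘ
    have hs0 : 1967 / 100 / R ≤ Θ * (Θ - 21 / 4) / (2 * R) := by
      rw [div_le_div_iff₀ hR0 (by positivity)]
      have : 1967 / 100 * 2 ≤ Θ * (Θ - 21 / 4) := by nlinarith
      nlinarith
    have h1 : Q ≤ 104 / 100 / R := by
      rw [le_div_iff₀ hR0]
      have : Q * R * R ≤ 716 / 100 := by
        have : Q * R * R = Q * R ^ 2 := by ring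
        rw [this]; exact hQ
      nlinarith [mul_nonneg hQ0 hR0.le]
    have e1 : (1967 / 100 : ℝ) / R = 1967 / 100 * (1 / R) := by ring
    have e2 : (104 / 100 : ℝ) / R = 104 / 100 * (1 / R) := by ring
    have e3 : (7 / 100 : ℝ) / R = 7 / 100 * (1 / R) := by ring
    have hinv : 0 < 1 / R := by positivity
    rw [e1] at hs0
    rw [e2] at h1
    rw [e3] at het ⊢
    have hm := hmin (by linarith)
    have hc := Real.cos_le_one Θ
    rcases min_le_iff.1 hm with h2 | h2
    · linarith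
    · linarith

theorem zone_pos1 {R x p N b : ℝ} (h : Par R x p) (hp : p ≤ 9 / 4) (hN : 165 / 100 * R ≤ N)
    (hb0 : 1 / R ≤ b) (hb : b ≤ 4 / 5) (hT : tT x p b + gam x p ≤ 3 * Real.pi) :
    Real.exp (-(N * (AA x p b - 7 / 100 / R))) ≤
      (Real.exp (-(N * (1 / 5 - 7 / 100 / R))) + Real.exp (-(43 / 100 * N))) +
      Real.exp (N * (7 / 100 / R)) * G1 N R ((p / (x - 2)) ^ 2 / 2) (tT x p b + gam x p) := by
  have hR := h.hR
  have hR0 : 0 < R := by linarith
  have hN0 : 0 < N := by linarith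
  have het : 7 / 100 / R ≤ 7 / 800 := by
    rw [div_div, div_le_div_iff₀ (by positivity) (by norm_num)]; linarith
  have hG1 : 0 ≤ Real.exp (N * (7 / 100 / R)) *
      G1 N R ((p / (x - 2)) ^ 2 / 2) (tT x p b + gam x p) := by
    unfold G1; positivity
  have he1 := Real.exp_pos (-(N * (1 / 5 - 7 / 100 / R)))
  have he2 := Real.exp_pos (-(43 / 100 * N))
  -- case A
  rcases le_total (tT x p b + gam x p) (2 * Real.pi - 1) with hA | hA
  · have hAA : 1 / 5 ≤ AA x p b := by
      rcases le_total (tT x p b) Real.pi with h1 | h1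
      · exact (mid_pos1 h hb0 hb h1).2 hp
      · exact mid_pos2 h hb0 hb h1 hA
    have : Real.exp (-(N * (AA x p b - 7 / 100 / R))) ≤ Real.exp (-(N * (1 / 5 - 7 / 100 / R))) := by
      apply Real.exp_le_exp.2
      nlinarith
    linarith
  rcases le_total (tT x p b + gam x p) (2 * Real.pi + 1) with hB | hB
  · have hAA2 := AA_zoneB h hb0 hb hA hB
    have hfin : Real.exp (-(N * (AA x p b - 7 / 100 / R))) ≤
        Real.exp (N * (7 / 100 / R)) *
          G1 N R ((p / (x - 2)) ^ 2 / 2) (tT x p b + gam x p) := by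
      unfold G1
      rw [← Real.exp_add]
      apply Real.exp_le_exp.2
      have := mul_le_mul_of_nonneg_left hAA2 hN0.le
      have e3 : -(N / (1 + 3245 / 1000 / R)) *
          ((3245 / 1000 + 36583 / 10000 * min (tT x p b + gam x p - 2 * Real.pi) 0) / R +
            11 / 24 * (tT x p b + gam x p - 2 * Real.pi) ^ 2 - (p / (x - 2)) ^ 2 / 2) =
          -(N * (((3245 / 1000 + 36583 / 10000 *
            min (tT x p b + gam x p - 2 * Real.pi) 0) / R +
            11 / 24 * (tT x p b + gam x p - 2 * Real.pi) ^ 2 - (p / (x - 2)) ^ 2 / 2) /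
            (1 + 3245 / 1000 / R))) := by
        ring
      rw [e3]
      linarith
    linarith
  · -- case C
    have h43 := AA_zoneC h hb0 hb hB hT
    have : Real.exp (-(N * (AA x p b - 7 / 100 / R))) ≤ Real.exp (-(43 / 100 * N)) := by
      apply Real.exp_le_exp.2
      nlinarith
    linarith

theorem zone_pos2 {R x p N b : ℝ} (h : Par R x p) (hN : 165 / 100 * R ≤ N)
    (hb0 : 1 / R ≤ b) (hb : b ≤ 4 / 5) (hT : 3 * Real.pi ≤ tT x p b + gam x p) :
    Real.exp (-(N * (AA x p b - 7 / 100 / R))) ≤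
      Real.exp (-(43 / 100 * N)) + G2 N (8 / 5) (tT x p b + gam x p) := by
  have hR := h.hR
  have hR0 : 0 < R := by linarith
  have hN0 : 0 < N := by linarith
  have het : 7 / 100 / R ≤ 7 / 800 := by
    rw [div_div, div_le_div_iff₀ (by positivity) (by norm_num)]; linarith
  have he2 := Real.exp_pos (-(43 / 100 * N))
  have hQ := Q_le_simple h
  have hQ0 : 0 ≤ (p / (x - 2)) ^ 2 / 2 := by positivity
  have hpi5 : 3.1415 < Real.pi := Real.pi_gt_d4
  have hgeo := geo_pos h hb0 hb (by linarith [Real.pi_pos])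
  have hmin := AA_ge_min h (b := b) (s0 := (tT x p b + gam x p) *
    (tT x p b + gam x p - 21 / 4) / (2 * R)) hgeo
  set Q := (p / (x - 2)) ^ 2 / 2 with hQdef
  set Θ := tT x p b + gam x p with hΘ
  have hΘ1 : 94245 / 10000 ≤ Θ := by linarith
  have hs0 : 1967 / 100 / R ≤ Θ * (Θ - 21 / 4) / (2 * R) := by
    rw [div_le_div_iff₀ hR0 (by positivity)]
    have : 1967 / 100 * 2 ≤ Θ * (Θ - 21 / 4) := by nlinarith
    nlinarith
  have hQR : Q + 2 * (7 / 100 / R) ≤ 118 / 100 / R := by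
    have h1 : Q * R ≤ 104 / 100 := by
      have : Q * R * R ≤ 716 / 100 := by
        have : Q * R * R = Q * R ^ 2 := by ring
        rw [this]; exact hQ
      nlinarith [mul_nonneg hQ0 hR0.le]
    have h2 : Q ≤ 104 / 100 / R := by rw [le_div_iff₀ hR0]; exact h1
    have h3 : (118 / 100 : ℝ) / R = 104 / 100 / R + 2 * (7 / 100 / R) := by ring
    linarith
  set s0 := Θ * (Θ - 21 / 4) / (2 * R) with hs0def
  have hQs : Q + 2 * (7 / 100 / R) ≤ 6 / 100 * s0 := by
    have : 6 / 100 * (1967 / 100 / R) ≤ 6 / 100 * s0 := by linarith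
    have h4 : 6 / 100 * (1967 / 100 / R) = 11802 / 10000 / R := by ring
    have h5 : (118 / 100 : ℝ) / R ≤ 11802 / 10000 / R := by
      apply div_le_div_of_nonneg_right (by norm_num) hR0.le
    linarith
  have hs0pos : 0 ≤ s0 := le_trans (by positivity) hs0
  have het0 : 0 < 7 / 100 / R := by positivity
  have hm := hmin (by linarith)
  rcases min_le_iff.1 hm with h1 | h1
  · have hG : Real.exp (-(N * (AA x p b - 7 / 100 / R))) ≤ G2 N (8 / 5) Θ := by
      unfold G2
      apply Real.exp_le_exp.2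
      have h2 : 8 / 5 * Θ ≤ N / 2 * (94 / 100 * s0) := by
        rw [hs0def]
        have h3 : N / 2 * (94 / 100 * (Θ * (Θ - 21 / 4) / (2 * R))) =
            235 / 1000 * (N / R) * (Θ * (Θ - 21 / 4)) := by ring
        rw [h3]
        have h4 : 165 / 100 ≤ N / R := by rw [le_div_iff₀ hR0]; exact hN
        have h5 : 0 ≤ Θ * (Θ - 21 / 4) := by apply mul_nonneg <;> linarith
        have h6 : 235 / 1000 * (165 / 100) * (Θ * (Θ - 21 / 4)) ≤
            235 / 1000 * (N / R) * (Θ * (Θ - 21 / 4)) := by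
          apply mul_le_mul_of_nonneg_right _ h5; linarith
        nlinarith
      have h7 := mul_le_mul_of_nonneg_left h1 hN0.le
      have h8 := mul_le_mul_of_nonneg_left hQs hN0.le
      nlinarith
    linarith
  · have : Real.exp (-(N * (AA x p b - 7 / 100 / R))) ≤ Real.exp (-(43 / 100 * N)) := by
      apply Real.exp_le_exp.2
      nlinarith
    have hG : 0 ≤ G2 N (8 / 5) Θ := by unfold G2; positivity
    linarith

end SCE
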