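import Pool.Agent.Helper22.SCE.Defs

/-!
# SCE-M21: the integral of `G1`
Put `M = N/(1 + 3.245/R)`, `t = theta - 2 pi`.  Right half (`t >= 0`):
`int_0^oo exp(-M(3.245/R - Q + (11/24) t^2)) dt = e^(-E2) (1/2) sqrt(24 pi/(11 M))`.
Left half (`t = -r`, `r >= 0`): the exponent is `-M(3.245/R - Q) + M(3.6583 r/R - (11/24) r^2)
= -M(3.245/R - Q) + M (3.6583/R)^2 (24/44) - M (11/24)(r - r0)^2`, and
`(3.6583)^2 (24/44) <= 7.3001`, so it is `<= e^(-E1) sqrt(24 pi/(11 M))` (full Gaussian).
On `u..v` the integral is at most the sum of both (the integrand is positive).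
-/

namespace SCE

open MeasureTheory

theorem G1_cont (N R Q : ℝ) : Continuous (G1 N R Q) := by
  unfold G1
  fun_prop

theorem G1_int {N R Q u v : ℝ} (hN : 0 < N) (hR : 0 < R) (huv : u ≤ v) :
    ∫ θ in u..v, G1 N R Q θ ≤
      Real.sqrt (24 * Real.pi * (1 + 3245 / 1000 / R) / (11 * N)) *
        (Real.exp (-(N / (1 + 3245 / 1000 / R) *
            (3245 / 1000 / R - Q - 73001 / 10000 / R ^ 2))) +
          1 / 2 * Real.exp (-(N / (1 + 3245 / 1000 / R) * (3245 / 1000 / R - Q)))) := by
  have hden : 0 < 1 + 3245 / 1000 / R := by positivity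
  set M : ℝ := N / (1 + 3245 / 1000 / R) with hM
  have hMpos : 0 < M := by positivity
  set b : ℝ := 11 / 24 * M with hb
  have hbpos : 0 < b := by positivity
  set r0 : ℝ := 12 / 11 * (36583 / 10000 / R) with hr0
  set A : ℝ := Real.exp (-(M * (3245 / 1000 / R - Q - 73001 / 10000 / R ^ 2))) with hA
  set B : ℝ := Real.exp (-(M * (3245 / 1000 / R - Q))) with hB
  have hsq : Real.sqrt (24 * Real.pi * (1 + 3245 / 1000 / R) / (11 * N)) = Real.sqrt (Real.pi / b) := by
    congr 1
    rw [hb, hM]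
    field_simp
  rw [hsq]
  -- the two majorants
  let F1 : ℝ → ℝ := fun t => A * Real.exp (-b * t ^ 2)
  let H : ℝ → ℝ := Set.indicator (Set.Ioi (0 : ℝ)) (fun t => B * Real.exp (-b * t ^ 2))
  have hF1int : Integrable F1 := (integrable_exp_neg_mul_sq hbpos).const_mul A
  have hHint : Integrable H :=
    ((integrable_exp_neg_mul_sq hbpos).const_mul B).indicator measurableSet_Ioi
  have hF1v : ∫ t, F1 t = A * Real.sqrt (Real.pi / b) := by
    show ∫ t, A * Real.exp (-b * t ^ 2) = _
    rw [integral_const_mul, integral_gaussian]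
  have hHv : ∫ t, H t = B * (Real.sqrt (Real.pi / b) / 2) := by
    show ∫ t, Set.indicator (Set.Ioi (0 : ℝ)) (fun t => B * Real.exp (-b * t ^ 2)) t = _
    rw [integral_indicator measurableSet_Ioi, integral_const_mul, integral_gaussian_Ioi]
  have hF1int' : Integrable (fun θ : ℝ => F1 (θ - (2 * Real.pi - r0))) := hF1int.comp_sub_right _
  have hHint' : Integrable (fun θ : ℝ => H (θ - 2 * Real.pi)) := hHint.comp_sub_right _
  have hF1v' : ∫ θ, F1 (θ - (2 * Real.pi - r0)) = A * Real.sqrt (Real.pi / b) := by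
    rw [integral_sub_right_eq_self F1, hF1v]
  have hHv' : ∫ θ, H (θ - 2 * Real.pi) = B * (Real.sqrt (Real.pi / b) / 2) := by
    rw [integral_sub_right_eq_self H, hHv]
  have hF1nn : ∀ t, 0 ≤ F1 t := fun t => by
    show 0 ≤ A * Real.exp (-b * t ^ 2)
    positivity
  have hHnn : ∀ t, 0 ≤ H t := fun t => by
    apply Set.indicator_nonneg
    intro t _
    positivity
  have hpt : ∀ θ, G1 N R Q θ ≤ F1 (θ - (2 * Real.pi - r0)) + H (θ - 2 * Real.pi) := by
    intro θ
    rcases le_or_gt (θ - 2 * Real.pi) 0 with ht | ht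
    · have h1 : H (θ - 2 * Real.pi) = 0 := by
        apply Set.indicator_of_notMem
        simp only [Set.mem_Ioi, not_lt]
        exact ht
      rw [h1, add_zero]
      show Real.exp (-M * ((3245 / 1000 + 36583 / 10000 * min (θ - 2 * Real.pi) 0) / R
        + 11 / 24 * (θ - 2 * Real.pi) ^ 2 - Q)) ≤
        Real.exp (-(M * (3245 / 1000 / R - Q - 73001 / 10000 / R ^ 2))) *
          Real.exp (-b * (θ - (2 * Real.pi - r0)) ^ 2)
      rw [← Real.exp_add, min_eq_left ht]
      apply Real.exp_le_exp.mpr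
      rw [hb, hr0]
      have e1 : (-(M * (3245 / 1000 / R - Q - 73001 / 10000 / R ^ 2)) +
          -(11 / 24 * M) * (θ - (2 * Real.pi - 12 / 11 * (36583 / 10000 / R))) ^ 2) -
          (-M * ((3245 / 1000 + 36583 / 10000 * (θ - 2 * Real.pi)) / R
            + 11 / 24 * (θ - 2 * Real.pi) ^ 2 - Q)) =
          M * ((73001 / 10000 - 6 / 11 * (36583 / 10000) ^ 2) / R ^ 2) := by
        field_simp
        ring
      have e2 : 0 ≤ M * ((73001 / 10000 - 6 / 11 * (36583 / 10000) ^ 2) / R ^ 2) := by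
        apply mul_nonneg hMpos.le
        apply div_nonneg _ (by positivity)
        norm_num
      linarith
    · have h1 : H (θ - 2 * Real.pi) = B * Real.exp (-b * (θ - 2 * Real.pi) ^ 2) := by
        apply Set.indicator_of_mem
        exact ht
      rw [h1]
      have h2 : G1 N R Q θ = B * Real.exp (-b * (θ - 2 * Real.pi) ^ 2) := by
        show Real.exp (-M * ((3245 / 1000 + 36583 / 10000 * min (θ - 2 * Real.pi) 0) / R
          + 11 / 24 * (θ - 2 * Real.pi) ^ 2 - Q)) =
          Real.exp (-(M * (3245 / 1000 / R - Q))) * Real.exp (-b * (θ - 2 * Real.pi) ^ 2)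
        rw [← Real.exp_add, min_eq_right ht.le]
        congr 1
        rw [hb]
        ring
      rw [h2]
      have := hF1nn (θ - (2 * Real.pi - r0))
      linarith
  have hsum : Integrable (fun θ : ℝ => F1 (θ - (2 * Real.pi - r0)) + H (θ - 2 * Real.pi)) :=
    hF1int'.add hHint'
  calc ∫ θ in u..v, G1 N R Q θ = ∫ θ in Set.Ioc u v, G1 N R Q θ :=
        intervalIntegral.integral_of_le huv
    _ ≤ ∫ θ in Set.Ioc u v, (F1 (θ - (2 * Real.pi - r0)) + H (θ - 2 * Real.pi)) := by
        apply integral_mono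
        · exact ((G1_cont N R Q).integrableOn_Icc).mono_set Set.Ioc_subset_Icc_self
        · exact hsum.integrableOn
        · exact hpt
    _ ≤ ∫ θ, (F1 (θ - (2 * Real.pi - r0)) + H (θ - 2 * Real.pi)) := by
        apply setIntegral_le_integral hsum
        exact Filter.Eventually.of_forall (fun θ => add_nonneg (hF1nn _) (hHnn _))
    _ = A * Real.sqrt (Real.pi / b) + B * (Real.sqrt (Real.pi / b) / 2) := by
        rw [integral_add hF1int' hHint', hF1v', hHv']
    _ = Real.sqrt (Real.pi / b) * (A + 1 / 2 * B) := by ring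

end SCE
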