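import Pool.Agent.Helper22.SCE.Defs

/-!
# SCE-M23: numerical bound of the side peak
`Dn = 1 + 3.245/R`, `E1 = (N/Dn)(3.245/R - Q - 7.3001/R^2)`, `E2 = (N/Dn)(3.245/R - Q)`,
`Q <= 3.4454/(R-2-3.55/R)^2`, `et = 0.07/R`, `N >= 40.6`, `N >= 1.65 R`.
* `8 <= R < 18`: `E1 - N et >= 4.7`, `E2 - N et >= 5.2`, `Dn <= 1.4057`:
  `sqrt(12 Dn/11) (e^(-4.7) + e^(-5.2)/2) <= 1.2384 * 0.01186 <= 0.0149`.
  (`E1 - N et = N [ (3.245/R - Q - 7.3001/R^2)/Dn - 0.07/R ]`, the bracket is positive, use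
  `N >= 40.6`; its minimum over `[8,18]` is at `R = 18`: `40.6 * 0.1180 = 4.79`; at `R = 8`:
  `40.6*0.1195 = 4.85`; in between larger.  Subdivide `[8,18]` if necessary.)
* `R >= 18`: `E1 - N et >= 3.93`, `E2 - N et >= 4.36`, `Dn <= 1.1803`:
  `1.13474 (e^(-3.93) + e^(-4.36)/2) <= 1.13474 * 0.02604 <= 0.0298`.
  (`R <= 24.606`: `N >= 40.6`, bracket decreasing in `R`, at `R = 24.606`: `E1' = 3.9375`,
  `E2' = 4.3699`; `R >= 24.606`: `N >= 1.65 R`,
  `E1' >= 1.65 [ (3.245 - Q R - 7.3001/R)/Dn - 0.07 ]`, increasing in `R`.)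
-/

namespace SCE

theorem m23_P1 {R : ℝ} (h1 : 8 ≤ R) (h2 : R ≤ 18) :
    34454 / 10000 * R ^ 4 ≤ (R ^ 2 - 2 * R - 355 / 100) ^ 2 *
      (3245 / 1000 * R - 73001 / 10000 - (1158 / 10000 * R + 7 / 100) * (R + 3245 / 1000)) := by
  obtain ⟨d, rfl⟩ : ∃ d : ℝ, R = 8 + d := ⟨R - 8, by ring⟩
  have hd : 0 ≤ d := by linarith
  have he : 0 ≤ 18 - 8 - d := by linarith
  have k0 := pow_nonneg he 6
  have k1 := mul_nonneg (pow_nonneg hd 1) (pow_nonneg he 5)
  have k2 := mul_nonneg (pow_nonneg hd 2) (pow_nonneg he 4)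
  have k3 := mul_nonneg (pow_nonneg hd 3) (pow_nonneg he 3)
  have k4 := mul_nonneg (pow_nonneg hd 4) (pow_nonneg he 2)
  have k5 := mul_nonneg (pow_nonneg hd 5) (pow_nonneg he 1)
  have k6 := pow_nonneg hd 6
  nlinarith

theorem m23_P2 {R : ℝ} (h1 : 8 ≤ R) (h2 : R ≤ 18) :
    34454 / 10000 * R ^ 4 ≤ (R ^ 2 - 2 * R - 355 / 100) ^ 2 *
      (3245 / 1000 * R - 0 - (1281 / 10000 * R + 7 / 100) * (R + 3245 / 1000)) := by
  obtain ⟨d, rfl⟩ : ∃ d : ℝ, R = 8 + d := ⟨R - 8, by ring⟩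
  have hd : 0 ≤ d := by linarith
  have he : 0 ≤ 18 - 8 - d := by linarith
  have k0 := pow_nonneg he 6
  have k1 := mul_nonneg (pow_nonneg hd 1) (pow_nonneg he 5)
  have k2 := mul_nonneg (pow_nonneg hd 2) (pow_nonneg he 4)
  have k3 := mul_nonneg (pow_nonneg hd 3) (pow_nonneg he 3)
  have k4 := mul_nonneg (pow_nonneg hd 4) (pow_nonneg he 2)
  have k5 := mul_nonneg (pow_nonneg hd 5) (pow_nonneg he 1)
  have k6 := pow_nonneg hd 6
  nlinarith

theorem m23_P3 {R : ℝ} (h1 : 18 ≤ R) (h2 : R ≤ (24606 / 1000)) :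
    34454 / 10000 * R ^ 4 ≤ (R ^ 2 - 2 * R - 355 / 100) ^ 2 *
      (3245 / 1000 * R - 73001 / 10000 - (968 / 10000 * R + 7 / 100) * (R + 3245 / 1000)) := by
  obtain ⟨d, rfl⟩ : ∃ d : ℝ, R = 18 + d := ⟨R - 18, by ring⟩
  have hd : 0 ≤ d := by linarith
  have he : 0 ≤ (24606 / 1000) - 18 - d := by linarith
  have k0 := pow_nonneg he 6
  have k1 := mul_nonneg (pow_nonneg hd 1) (pow_nonneg he 5)
  have k2 := mul_nonneg (pow_nonneg hd 2) (pow_nonneg he 4)
  have k3 := mul_nonneg (pow_nonneg hd 3) (pow_nonneg he 3)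
  have k4 := mul_nonneg (pow_nonneg hd 4) (pow_nonneg he 2)
  have k5 := mul_nonneg (pow_nonneg hd 5) (pow_nonneg he 1)
  have k6 := pow_nonneg hd 6
  nlinarith

theorem m23_P4 {R : ℝ} (h1 : 18 ≤ R) (h2 : R ≤ (24606 / 1000)) :
    34454 / 10000 * R ^ 4 ≤ (R ^ 2 - 2 * R - 355 / 100) ^ 2 *
      (3245 / 1000 * R - 0 - (1074 / 10000 * R + 7 / 100) * (R + 3245 / 1000)) := by
  obtain ⟨d, rfl⟩ : ∃ d : ℝ, R = 18 + d := ⟨R - 18, by ring⟩
  have hd : 0 ≤ d := by linarith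
  have he : 0 ≤ (24606 / 1000) - 18 - d := by linarith
  have k0 := pow_nonneg he 6
  have k1 := mul_nonneg (pow_nonneg hd 1) (pow_nonneg he 5)
  have k2 := mul_nonneg (pow_nonneg hd 2) (pow_nonneg he 4)
  have k3 := mul_nonneg (pow_nonneg hd 3) (pow_nonneg he 3)
  have k4 := mul_nonneg (pow_nonneg hd 4) (pow_nonneg he 2)
  have k5 := mul_nonneg (pow_nonneg hd 5) (pow_nonneg he 1)
  have k6 := pow_nonneg hd 6
  nlinarith

theorem m23_P5 {R : ℝ} (h1 : (24606 / 1000) ≤ R) :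
    34454 / 10000 * R ^ 4 ≤ (R ^ 2 - 2 * R - 355 / 100) ^ 2 *
      (3245 / 1000 * R - 73001 / 10000 - (23819 / 10000 + 7 / 100) * (R + 3245 / 1000)) := by
  obtain ⟨d, rfl⟩ : ∃ d : ℝ, R = (24606 / 1000) + d := ⟨R - (24606 / 1000), by ring⟩
  have hd : 0 ≤ d := by linarith
  have k2 := pow_nonneg hd 2
  have k3 := pow_nonneg hd 3
  have k4 := pow_nonneg hd 4
  have k5 := pow_nonneg hd 5
  nlinarith

theorem m23_P6 {R : ℝ} (h1 : (24606 / 1000) ≤ R) :
    34454 / 10000 * R ^ 4 ≤ (R ^ 2 - 2 * R - 355 / 100) ^ 2 *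
      (3245 / 1000 * R - 0 - (26425 / 10000 + 7 / 100) * (R + 3245 / 1000)) := by
  obtain ⟨d, rfl⟩ : ∃ d : ℝ, R = (24606 / 1000) + d := ⟨R - (24606 / 1000), by ring⟩
  have hd : 0 ≤ d := by linarith
  have k2 := pow_nonneg hd 2
  have k3 := pow_nonneg hd 3
  have k4 := pow_nonneg hd 4
  have k5 := pow_nonneg hd 5
  nlinarith

/-- the exponent is at least `e` -/
theorem m23_exponent {N R Q c γ e : ℝ} (hR : 8 ≤ R) (hN : 0 ≤ N)
    (hQ : Q ≤ 34454 / 10000 / (R - 2 - 355 / 100 / R) ^ 2)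
    (hP : 34454 / 10000 * R ^ 4 ≤ (R ^ 2 - 2 * R - 355 / 100) ^ 2 *
      (3245 / 1000 * R - c - (γ + 7 / 100) * (R + 3245 / 1000)))
    (hγ : e * R ≤ N * γ) :
    e ≤ N / (1 + 3245 / 1000 / R) * (3245 / 1000 / R - Q - c / R ^ 2) - N * (7 / 100 / R) := by
  have hR0 : 0 < R := by linarith
  have hW : 0 < R ^ 2 - 2 * R - 355 / 100 := by nlinarith
  set W : ℝ := R ^ 2 - 2 * R - 355 / 100 with hWdef
  have e1 : R - 2 - 355 / 100 / R = W / R := by
    rw [hWdef]; field_simp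
  rw [e1] at hQ
  have e2 : 34454 / 10000 / (W / R) ^ 2 = 34454 / 10000 * R ^ 2 / W ^ 2 := by
    field_simp
  rw [e2, le_div_iff₀ (by positivity)] at hQ
  have h1 : 0 ≤ (3245 / 1000 * R - c - (γ + 7 / 100) * (R + 3245 / 1000)) - Q * R ^ 2 := by
    have h2 : Q * W ^ 2 * R ^ 2 ≤ 34454 / 10000 * R ^ 2 * R ^ 2 :=
      mul_le_mul_of_nonneg_right hQ (by positivity)
    have h3 : 0 ≤ ((3245 / 1000 * R - c - (γ + 7 / 100) * (R + 3245 / 1000)) - Q * R ^ 2) *
        W ^ 2 := by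
      nlinarith
    exact nonneg_of_mul_nonneg_left h3 (by positivity)
  have h4 : N / (1 + 3245 / 1000 / R) * (3245 / 1000 / R - Q - c / R ^ 2) =
      N * (3245 / 1000 * R - Q * R ^ 2 - c) / (R * (R + 3245 / 1000)) := by
    have : R + 3245 / 1000 ≠ 0 := by positivity
    have h5 : 1 + 3245 / 1000 / R = (R + 3245 / 1000) / R := by field_simp
    rw [h5]
    field_simp
  have h5 : N * ((γ + 7 / 100) / R) ≤
      N * (3245 / 1000 * R - Q * R ^ 2 - c) / (R * (R + 3245 / 1000)) := by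
    rw [le_div_iff₀ (by positivity)]
    have h6 : N * ((γ + 7 / 100) / R) * (R * (R + 3245 / 1000)) =
        N * ((γ + 7 / 100) * (R + 3245 / 1000)) := by
      field_simp
    rw [h6]
    exact mul_le_mul_of_nonneg_left (by linarith) hN
  have h7 : N * ((γ + 7 / 100) / R) - N * (7 / 100 / R) = N * γ / R := by ring
  have h8 : e ≤ N * γ / R := by
    rw [le_div_iff₀ hR0]; exact hγ
  rw [h4]
  linarith

theorem m23_combine {s E1 E2 η e1 e2 s0 B : ℝ} (hs : s ≤ s0) (hs0 : 0 ≤ s)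
    (h1 : e1 ≤ E1 - η) (h2 : e2 ≤ E2 - η)
    (hB : s0 * (Real.exp (-e1) + 1 / 2 * Real.exp (-e2)) ≤ B) :
    s * (Real.exp (-E1) + 1 / 2 * Real.exp (-E2)) * Real.exp η ≤ B := by
  have k1 : Real.exp (-E1) * Real.exp η ≤ Real.exp (-e1) := by
    rw [← Real.exp_add]
    exact Real.exp_le_exp.2 (by linarith)
  have k2 : Real.exp (-E2) * Real.exp η ≤ Real.exp (-e2) := by
    rw [← Real.exp_add]
    exact Real.exp_le_exp.2 (by linarith)
  have k3 : (Real.exp (-E1) + 1 / 2 * Real.exp (-E2)) * Real.exp η ≤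
      Real.exp (-e1) + 1 / 2 * Real.exp (-e2) := by
    have : (Real.exp (-E1) + 1 / 2 * Real.exp (-E2)) * Real.exp η =
        Real.exp (-E1) * Real.exp η + 1 / 2 * (Real.exp (-E2) * Real.exp η) := by ring
    rw [this]
    linarith
  calc s * (Real.exp (-E1) + 1 / 2 * Real.exp (-E2)) * Real.exp η
      = s * ((Real.exp (-E1) + 1 / 2 * Real.exp (-E2)) * Real.exp η) := by ring
    _ ≤ s0 * (Real.exp (-e1) + 1 / 2 * Real.exp (-e2)) := by
        refine mul_le_mul hs k3 ?_ (hs0.trans hs)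
        positivity
    _ ≤ B := hB

theorem m23_exp (x c : ℝ) (n : ℕ) (hx : 0 ≤ x) (hc : 0 < c)
    (h : 1 / c ≤ ∑ i ∈ Finset.range n, x ^ i / (i.factorial : ℝ)) : Real.exp (-x) ≤ c := by
  have h1 := Real.sum_le_exp_of_nonneg hx n
  rw [Real.exp_neg, inv_le_comm₀ (Real.exp_pos _) hc, ← one_div]
  exact h.trans h1

theorem m23_e1 : Real.exp (-(47 / 10)) ≤ 91 / 10000 := by
  refine m23_exp _ _ 16 (by norm_num) (by norm_num) ?_
  simp only [Finset.sum_range_succ, Finset.sum_range_zero, Nat.factorial]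
  norm_num

theorem m23_e2 : Real.exp (-(52 / 10)) ≤ 552 / 100000 := by
  refine m23_exp _ _ 17 (by norm_num) (by norm_num) ?_
  simp only [Finset.sum_range_succ, Finset.sum_range_zero, Nat.factorial]
  norm_num

theorem m23_e3 : Real.exp (-(393 / 100)) ≤ 1965 / 100000 := by
  refine m23_exp _ _ 15 (by norm_num) (by norm_num) ?_
  simp only [Finset.sum_range_succ, Finset.sum_range_zero, Nat.factorial]
  norm_num

theorem m23_e4 : Real.exp (-(436 / 100)) ≤ 1279 / 100000 := by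
  refine m23_exp _ _ 15 (by norm_num) (by norm_num) ?_
  simp only [Finset.sum_range_succ, Finset.sum_range_zero, Nat.factorial]
  norm_num

theorem K_num {N R Q : ℝ} (hR : 8 ≤ R) (hN : 406 / 10 ≤ N) (hNR : 165 / 100 * R ≤ N)
    (hQ : Q ≤ 34454 / 10000 / (R - 2 - 355 / 100 / R) ^ 2) :
    (R < 18 → Real.sqrt (12 * (1 + 3245 / 1000 / R) / 11) *
        (Real.exp (-(N / (1 + 3245 / 1000 / R) *
            (3245 / 1000 / R - Q - 73001 / 10000 / R ^ 2))) +
          1 / 2 * Real.exp (-(N / (1 + 3245 / 1000 / R) * (3245 / 1000 / R - Q)))) *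
        Real.exp (N * (7 / 100 / R)) ≤ 149 / 10000) ∧
    (18 ≤ R → Real.sqrt (12 * (1 + 3245 / 1000 / R) / 11) *
        (Real.exp (-(N / (1 + 3245 / 1000 / R) *
            (3245 / 1000 / R - Q - 73001 / 10000 / R ^ 2))) +
          1 / 2 * Real.exp (-(N / (1 + 3245 / 1000 / R) * (3245 / 1000 / R - Q)))) *
        Real.exp (N * (7 / 100 / R)) ≤ 298 / 10000) := by
  have hR0 : 0 < R := by linarith
  have hN0 : 0 ≤ N := by linarith
  have hz : (3245 / 1000 / R - Q : ℝ) = 3245 / 1000 / R - Q - 0 / R ^ 2 := by simp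
  constructor
  · intro h18
    have hs : Real.sqrt (12 * (1 + 3245 / 1000 / R) / 11) ≤ 12384 / 10000 := by
      rw [Real.sqrt_le_left (by norm_num)]
      have h1 : 3245 / 1000 / R ≤ 3245 / 1000 / 8 :=
        div_le_div_of_nonneg_left (by norm_num) (by norm_num) hR
      have h2 : 12 * (1 + 3245 / 1000 / R) / 11 ≤ 12 * (1 + 3245 / 1000 / 8) / 11 := by linarith
      refine h2.trans (by norm_num)
    refine m23_combine (e1 := 47 / 10) (e2 := 52 / 10) hs (Real.sqrt_nonneg _) ?_ ?_ ?_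
    · exact m23_exponent (γ := 1158 / 10000 * R) hR hN0 hQ (m23_P1 hR h18.le) (by nlinarith)
    · rw [hz]
      exact m23_exponent (γ := 1281 / 10000 * R) hR hN0 hQ (m23_P2 hR h18.le) (by nlinarith)
    · have := m23_e1
      have := m23_e2
      linarith
  · intro h18
    have hs : Real.sqrt (12 * (1 + 3245 / 1000 / R) / 11) ≤ 113474 / 100000 := by
      rw [Real.sqrt_le_left (by norm_num)]
      have h1 : 3245 / 1000 / R ≤ 3245 / 1000 / 18 :=
        div_le_div_of_nonneg_left (by norm_num) (by norm_num) h18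
      have h2 : 12 * (1 + 3245 / 1000 / R) / 11 ≤ 12 * (1 + 3245 / 1000 / 18) / 11 := by linarith
      refine h2.trans (by norm_num)
    refine m23_combine (e1 := 393 / 100) (e2 := 436 / 100) hs (Real.sqrt_nonneg _) ?_ ?_ ?_
    · rcases le_total R (24606 / 1000) with h | h
      · exact m23_exponent (γ := 968 / 10000 * R) hR hN0 hQ (m23_P3 h18 h) (by nlinarith)
      · exact m23_exponent (γ := 23819 / 10000) hR hN0 hQ (m23_P5 h) (by nlinarith)
    · rw [hz]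
      rcases le_total R (24606 / 1000) with h | h
      · exact m23_exponent (γ := 1074 / 10000 * R) hR hN0 hQ (m23_P4 h18 h) (by nlinarith)
      · exact m23_exponent (γ := 26425 / 10000) hR hN0 hQ (m23_P6 h) (by nlinarith)
    · have := m23_e3
      have := m23_e4
      linarith

end SCE
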