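import Pool.Agent.Helper22.SCE.M04
import Pool.Agent.Helper22.SCE.M11
import Pool.Agent.Helper22.SCE.M18
import Pool.Agent.Helper22.SCE.M20
import Pool.Agent.Helper22.SCE.M21
import Pool.Agent.Helper22.SCE.M22
import Pool.Agent.Helper22.SCE.M23
import Pool.Agent.Helper22.SCE.M24
import Pool.Agent.Helper22.SCE.M28a

/-!
# SCE-M25: the right outer integral
`N = n/R`.  For `b in [1/R, 4/5]` (M03 `n_re_le`, M04 `eta_in`, M18 `AA_nonneg_pos`):
`exp(n Re hh) <= exp(-N(AA - 0.07/R))`.  Apply `split_int` (M20) with `F b = exp(n Re hh)`,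
`Theta b = tT x p b + gam x p`, `theta0 = 3 pi`, `C0 = e^(-N(1/5-0.07/R)) + e^(-0.43 N)`,
`G = e^(0.07 N/R) G1 N R Q`, `H = G2 N (8/5)`, `m = R/2.5` (or `R/1.75` if `R >= 18`), and
multiply by `sqrt(nR/(2 pi)) = R sqrt(N/(2 pi))`:
* `C0 (4/5 - 1/R)`: M28a `lam_mid`, `lam_43`: `<= 0.8 (0.0266 + 0.0001)`;
* `K1/m`: `R sqrt(N/(2pi)) sqrt(24 pi Dn/(11 N)) = R sqrt(12 Dn/11)`, so M23 gives
  `<= 2.5 * 0.0149 = 0.03725` (`R < 18`), `<= 1.75 * 0.0298 = 0.05215` (`R >= 18`);
* `K2/m`: `2.5 sqrt(N/(2 pi)) 5.6 e^(-(8/5) 3 pi)/sqrt N <= 2.5*0.399*5.6*e^(-15) <= 0.0001`.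
Total `<= 0.0214 + 0.05215 + 0.0001 <= 0.074`.
-/

namespace SCE

open Complex MeasureTheory

theorem pos_int_aux {R x p n c : ℝ} (h : Par R x p) (hp : p ≤ 9 / 4) (hN : 406 / 10 ≤ n / R)
    (hNR : 165 / 100 * R ≤ n / R) (hc0 : 1 ≤ c) (hc1 : c ≤ 25 / 10)
    (hjac : ∀ b ∈ Set.Icc (1 / R) (4 / 5 : ℝ), R / c ≤ x * Real.cos b - 2 + p * Real.sin b)
    (hK : c * (Real.sqrt (12 * (1 + 3245 / 1000 / R) / 11) *
        (Real.exp (-(n / R / (1 + 3245 / 1000 / R) *
            (3245 / 1000 / R - (p / (x - 2)) ^ 2 / 2 - 73001 / 10000 / R ^ 2))) +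
          1 / 2 * Real.exp (-(n / R / (1 + 3245 / 1000 / R) *
            (3245 / 1000 / R - (p / (x - 2)) ^ 2 / 2)))) *
        Real.exp (n / R * (7 / 100 / R))) ≤ 5215 / 100000) :
    Real.sqrt (n * R / (2 * Real.pi)) *
      ∫ b in (1 / R)..(4 / 5 : ℝ), Real.exp (n * (hh (zz x p) b).re) ≤ 74 / 1000 := by
  have hR := h.hR
  have hR0 : 0 < R := by linarith
  have hn0 : 0 < n := by
    have : 0 < n / R := by linarith
    have := mul_pos this hR0
    rwa [div_mul_cancel₀ _ hR0.ne'] at this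
  set N := n / R with hNdef
  have hN0 : 0 < N := by linarith
  have hnN : n = N * R := by rw [hNdef]; field_simp
  have h1R : 1 / R ≤ 1 / 8 := by
    rw [div_le_div_iff₀ hR0 (by norm_num)]; linarith
  have h1R0 : 0 < 1 / R := by positivity
  set Q := (p / (x - 2)) ^ 2 / 2 with hQdef
  set et := 7 / 100 / R with het
  set C0 := Real.exp (-(N * (1 / 5 - et))) + Real.exp (-(43 / 100 * N)) with hC0
  set E := Real.exp (-(N / (1 + 3245 / 1000 / R) *
            (3245 / 1000 / R - Q - 73001 / 10000 / R ^ 2))) +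
          1 / 2 * Real.exp (-(N / (1 + 3245 / 1000 / R) *
            (3245 / 1000 / R - Q))) with hE
  have hE0 : 0 < E := by positivity
  have hsplit := split_int (a := 1 / R) (c := 4 / 5) (m := R / c) (θ0 := 3 * Real.pi)
    (C0 := C0) (K1 := Real.exp (N * et) *
      (Real.sqrt (24 * Real.pi * (1 + 3245 / 1000 / R) / (11 * N)) * E))
    (K2 := 56 / 10 * Real.exp (-(8 / 5 * (3 * Real.pi))) / Real.sqrt N)
    (F := fun b => Real.exp (n * (hh (zz x p) b).re))
    (Θ := fun b => tT x p b + gam x p) (Θ' := fun b => x * Real.cos b - 2 + p * Real.sin b)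
    (G := fun θ => Real.exp (N * et) * G1 N R Q θ) (H := G2 N (8 / 5))
    (by linarith) (by positivity)
    (fun b _ => (tT_deriv x p b).add_const _)
    (by fun_prop)
    hjac
    (by
      apply Continuous.continuousOn
      exact Real.continuous_exp.comp
        (continuous_const.mul (Complex.continuous_re.comp (hh_cont (zz x p)))))
    (by
      have := G1_cont N R Q
      fun_prop)
    (G2_cont N (8 / 5))
    (fun t => by unfold G1; positivity)
    (fun t => by unfold G2; positivity)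
    (by
      intro b hb hT
      have hz := zone_pos1 (N := N) h hp (by linarith) hb.1 hb.2 hT
      have hAA := AA_nonneg_pos h hb.1 hb.2
      have hre := n_re_le h hn0.le b (le_trans (by positivity) hAA)
      have hb1 : |b| ≤ 4 / 5 := by
        rw [abs_of_nonneg (le_trans h1R0.le hb.1)]; exact hb.2
      have heta := eta_in h hb1
      refine le_trans ?_ hz
      apply Real.exp_le_exp.2
      refine hre.trans ?_
      rw [← hNdef]
      have := mul_le_mul_of_nonneg_left heta hN0.le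
      nlinarith)
    (by
      intro b hb hT
      have hz := zone_pos2 (N := N) h (by linarith) hb.1 hb.2 hT
      have hAA := AA_nonneg_pos h hb.1 hb.2
      have hre := n_re_le h hn0.le b (le_trans (by positivity) hAA)
      have hb1 : |b| ≤ 4 / 5 := by
        rw [abs_of_nonneg (le_trans h1R0.le hb.1)]; exact hb.2
      have heta := eta_in h hb1
      have hz2 : Real.exp (n * (hh (zz x p) b).re) ≤
          Real.exp (-(43 / 100 * N)) + G2 N (8 / 5) (tT x p b + gam x p) := by
        refine le_trans ?_ hz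
        apply Real.exp_le_exp.2
        refine hre.trans ?_
        rw [← hNdef]
        have := mul_le_mul_of_nonneg_left heta hN0.le
        nlinarith
      have hp1 : 0 ≤ Real.exp (N * et) * G1 N R Q (tT x p b + gam x p) := by
        unfold G1; positivity
      have hp2 := Real.exp_pos (-(N * (1 / 5 - et)))
      simp only [hC0]
      linarith)
    (by
      intro u v huv
      rw [intervalIntegral.integral_const_mul]
      apply mul_le_mul_of_nonneg_left (G1_int hN0 hR0 huv) (Real.exp_pos _).le)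
    (fun v hv => G2_int hN0 (by norm_num) hv)
  have hΛ0 : 0 ≤ Real.sqrt (n * R / (2 * Real.pi)) := Real.sqrt_nonneg _
  refine (mul_le_mul_of_nonneg_left hsplit hΛ0).trans ?_
  -- pieces
  have hmid := lam_mid hR hN hNR
  have h43 := lam_43 hR hN hNR
  rw [← hNdef, ← het] at hmid
  rw [← hNdef] at h43
  set Λ := Real.sqrt (n * R / (2 * Real.pi)) with hΛ
  have hC : Λ * (C0 * (4 / 5 - 1 / R)) ≤ 4 / 5 * (267 / 10000) := by
    have e1 : Λ * (C0 * (4 / 5 - 1 / R)) = (Λ * C0) * (4 / 5 - 1 / R) := by ring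
    rw [e1]
    have e2 : Λ * C0 ≤ 267 / 10000 := by
      rw [hC0, mul_add]; linarith
    have e3 : 0 ≤ Λ * C0 := by positivity
    have e4 : (4 / 5 - 1 / R) ≤ 4 / 5 := by linarith
    have e5 : 0 ≤ 4 / 5 - 1 / R := by linarith
    calc Λ * C0 * (4 / 5 - 1 / R) ≤ 267 / 10000 * (4 / 5) :=
          mul_le_mul e2 e4 e5 (by norm_num)
      _ = 4 / 5 * (267 / 10000) := by ring
  have hΛs : Λ * Real.sqrt (24 * Real.pi * (1 + 3245 / 1000 / R) / (11 * N)) =
      R * Real.sqrt (12 * (1 + 3245 / 1000 / R) / 11) := by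
    have hD : 0 < 1 + 3245 / 1000 / R := by positivity
    rw [hΛ, ← Real.sqrt_mul (by positivity)]
    have : n * R / (2 * Real.pi) * (24 * Real.pi * (1 + 3245 / 1000 / R) / (11 * N)) =
        R ^ 2 * (12 * (1 + 3245 / 1000 / R) / 11) := by
      rw [hnN]
      have := Real.pi_pos.ne'
      field_simp
      ring
    rw [this, Real.sqrt_mul (by positivity), Real.sqrt_sq hR0.le]
  have hK1 : Λ * (Real.exp (N * et) *
      (Real.sqrt (24 * Real.pi * (1 + 3245 / 1000 / R) / (11 * N)) * E) / (R / c)) ≤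
      5215 / 100000 := by
    have e1 : Λ * (Real.exp (N * et) *
      (Real.sqrt (24 * Real.pi * (1 + 3245 / 1000 / R) / (11 * N)) * E) / (R / c)) =
      (Λ * Real.sqrt (24 * Real.pi * (1 + 3245 / 1000 / R) / (11 * N))) * E *
        Real.exp (N * et) / (R / c) := by ring
    rw [e1, hΛs]
    have hc' : c ≠ 0 := by linarith
    have e2 : R * Real.sqrt (12 * (1 + 3245 / 1000 / R) / 11) * E *
        Real.exp (N * et) / (R / c) =
        c * (Real.sqrt (12 * (1 + 3245 / 1000 / R) / 11) * E * Real.exp (N * et)) := by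
      rw [div_div_eq_mul_div, div_eq_iff hR0.ne']; ring
    rw [e2]
    exact hK
  have hK2 : Λ * (56 / 10 * Real.exp (-(8 / 5 * (3 * Real.pi))) / Real.sqrt N / (R / c)) ≤
      1 / 10000 := by
    have hsN : 0 < Real.sqrt N := Real.sqrt_pos.2 hN0
    have hΛ2 : Λ = R * (Real.sqrt N / Real.sqrt (2 * Real.pi)) := by
      rw [hΛ, hnN]
      have : N * R * R / (2 * Real.pi) = R ^ 2 * (N / (2 * Real.pi)) := by ring
      rw [this, Real.sqrt_mul (by positivity), Real.sqrt_sq hR0.le, Real.sqrt_div hN0.le]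
    have hs2 : 1 ≤ Real.sqrt (2 * Real.pi) := by
      rw [Real.one_le_sqrt]; linarith [Real.pi_gt_three]
    have hc' : 0 < c := by linarith
    have e1 : Λ * (56 / 10 * Real.exp (-(8 / 5 * (3 * Real.pi))) / Real.sqrt N / (R / c)) =
        c / Real.sqrt (2 * Real.pi) * (56 / 10 * Real.exp (-(8 / 5 * (3 * Real.pi)))) := by
      rw [hΛ2]
      field_simp
    rw [e1]
    have hexp : Real.exp (-(8 / 5 * (3 * Real.pi))) ≤ 1 / 10 ^ 6 := by
      have h14 : -(8 / 5 * (3 * Real.pi)) ≤ -14 := by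
        have := Real.pi_gt_three; linarith
      refine (Real.exp_le_exp.2 h14).trans ?_
      rw [Real.exp_neg, inv_eq_one_div]
      apply one_div_le_one_div_of_le (by norm_num)
      have h27 := Real.exp_one_gt_d9
      have : Real.exp 14 = Real.exp 1 ^ 14 := by
        rw [← Real.exp_nat_mul]; norm_num
      rw [this]
      calc (10:ℝ) ^ 6 ≤ (2.7 : ℝ) ^ 14 := by norm_num
        _ ≤ Real.exp 1 ^ 14 := pow_le_pow_left₀ (by norm_num) (by linarith) 14
    have hcs : c / Real.sqrt (2 * Real.pi) ≤ 25 / 10 := by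
      rw [div_le_iff₀ (by positivity)]
      nlinarith
    calc c / Real.sqrt (2 * Real.pi) * (56 / 10 * Real.exp (-(8 / 5 * (3 * Real.pi))))
        ≤ 25 / 10 * (56 / 10 * (1 / 10 ^ 6)) := by
          apply mul_le_mul hcs _ (by positivity) (by norm_num)
          apply mul_le_mul_of_nonneg_left hexp (by norm_num)
      _ ≤ 1 / 10000 := by norm_num
  rw [mul_add, add_div, mul_add]
  linarith

theorem pos_int {R x p n : ℝ} (h : Par R x p) (hp : p ≤ 9 / 4) (hN : 406 / 10 ≤ n / R)
    (hNR : 165 / 100 * R ≤ n / R) :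
    Real.sqrt (n * R / (2 * Real.pi)) *
      ∫ b in (1 / R)..(4 / 5 : ℝ), Real.exp (n * (hh (zz x p) b).re) ≤ 74 / 1000 := by
  have hR := h.hR
  have hR0 : 0 < R := by linarith
  have h1R0 : 0 < 1 / R := by positivity
  obtain ⟨k1, k2⟩ := K_num hR hN hNR (Q_le h)
  rcases lt_or_ge R 18 with h18 | h18
  · refine pos_int_aux (c := 25 / 10) h hp hN hNR (by norm_num) le_rfl ?_ ?_
    · intro b hb
      exact (jac_pos h (le_trans h1R0.le hb.1) hb.2).1
    · have := k1 h18
      linarith
  · refine pos_int_aux (c := 175 / 100) h hp hN hNR (by norm_num) (by norm_num) ?_ ?_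
    · intro b hb
      exact (jac_pos h (le_trans h1R0.le hb.1) hb.2).2 h18
    · have := k2 h18
      linarith

end SCE
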